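import Pool.Agent.helper79.RegCompile

/-!
A register machine whose set of inputs with infinitely many marked steps is not a Sigma-2 set.
-/

set_option autoImplicit false

namespace Pool.Agent.helper79

open List.Vector

theorem rstep_append (c k : List Prog) (r : Regs) (hc : c ≠ []) :
    rstep (c ++ k, r) = ((rstep (c, r)).1 ++ k, (rstep (c, r)).2) := by
  cases c with
  | nil => exact absurd rfl hc
  | cons P c =>
    cases P with
    | loop i P =>
      by_cases hz : r i = 0 <;> simp [rstep, nextCtl, nextRegs, hz]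
    | _ => simp [rstep, nextCtl, nextRegs]

theorem iterate_append (c k : List Prog) (r : Regs)
    (h : ∀ n, (rstep^[n] (c, r)).1 ≠ []) (n : ℕ) :
    rstep^[n] (c ++ k, r) = ((rstep^[n] (c, r)).1 ++ k, (rstep^[n] (c, r)).2) := by
  induction n with
  | zero => rfl
  | succ n ih =>
    rw [Function.iterate_succ_apply', ih, rstep_append _ _ _ (h n), Function.iterate_succ_apply']

theorem iterate_noMark (c : List Prog) (r : Regs) (h : ∀ P ∈ c, NoMark P) (n : ℕ) :
    ∀ P ∈ (rstep^[n] (c, r)).1, NoMark P := by
  induction n with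
  | zero => exact h
  | succ n ih =>
    rw [Function.iterate_succ_apply']
    exact noMark_nextCtl _ _ ih

/-- the control list starts with `mark` -/
def isMark : List Prog → Bool
  | Prog.mark :: _ => true
  | _ => false

theorem isMark_append {c k : List Prog} (hc : c ≠ []) (h : ∀ P ∈ c, NoMark P) :
    isMark (c ++ k) = false := by
  cases c with
  | nil => exact absurd rfl hc
  | cons P c =>
    have := h P (by simp)
    cases P with
    | mark => exact absurd this (by simp [NoMark])
    | _ => rfl

/-- first phase: move register 1 to register 3 -/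
def phase1 : Prog := Prog.loop 1 (Prog.seq (Prog.dec 1) (Prog.inc 3))

/-- the loop body -/
def body (P : Prog) : Prog := Prog.seq P (Prog.seq Prog.mark (Prog.inc 2))

/-- the main loop -/
def mainLoop (P : Prog) : Prog := Prog.loop 0 (body P)

/-- main program -/
def mainProg (P : Prog) : Prog := Prog.seq phase1 (Prog.seq (Prog.inc 0) (mainLoop P))

/-- initial registers -/
def initRegs (e : ℕ) : Regs := fun i => if i = 1 then e else 0

/-- registers during the first phase -/
def phaseRegs (e j : ℕ) : Regs := fun i => if i = 1 then e - j else if i = 3 then j else 0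

theorem phase_step (k : List Prog) (e j : ℕ) (h : j < e) :
    rstep^[4] (phase1 :: k, phaseRegs e j) = (phase1 :: k, phaseRegs e (j + 1)) := by
  have hz : phaseRegs e j 1 ≠ 0 := by simp [phaseRegs]; omega
  have h1 : rstep (phase1 :: k, phaseRegs e j) =
      (Prog.seq (Prog.dec 1) (Prog.inc 3) :: phase1 :: k, phaseRegs e j) := by
    simp [rstep, nextCtl, nextRegs, hz, phase1]
  rw [show (4 : ℕ) = 3 + 1 from rfl, Function.iterate_succ_apply, h1]
  simp only [Function.iterate_succ_apply, Function.iterate_zero, id_eq, rstep, nextCtl, nextRegs,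
    Prod.mk.injEq, true_and]
  funext i
  by_cases h1 : i = 1
  · subst h1
    simp [phaseRegs, Function.update]
    omega
  · by_cases h3 : i = 3
    · subst h3
      simp [phaseRegs, Function.update]
    · simp [phaseRegs, Function.update, h1, h3]

theorem phase_iter (k : List Prog) (e j : ℕ) (h : j ≤ e) :
    rstep^[4 * j] (phase1 :: k, initRegs e) = (phase1 :: k, phaseRegs e j) := by
  induction j with
  | zero =>
    simp only [Nat.mul_zero, Function.iterate_zero, id_eq, Prod.mk.injEq, true_and]
    funext i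
    simp [initRegs, phaseRegs]
  | succ j ih =>
    rw [show 4 * (j + 1) = 4 + 4 * j by ring, Function.iterate_add_apply, ih (by omega),
      phase_step k e j (by omega)]

theorem ctl_inj_aux (P : Prog) (e e' : ℕ) (h : e < e') :
    (rstep^[4 * e + 2] ([mainProg P], initRegs e)).1 ≠
      (rstep^[4 * e + 2] ([mainProg P], initRegs e')).1 := by
  have h0 : ∀ e', rstep^[4 * e + 1] ([mainProg P], initRegs e') =
      rstep^[4 * e] ([phase1, Prog.seq (Prog.inc 0) (mainLoop P)], initRegs e') := fun _ => rfl
  have h1 : rstep^[4 * e + 2] ([mainProg P], initRegs e) =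
      ([Prog.seq (Prog.inc 0) (mainLoop P)], phaseRegs e e) := by
    rw [show 4 * e + 2 = 1 + (4 * e + 1) by ring, Function.iterate_add_apply,
      h0, phase_iter _ e e le_rfl]
    simp [rstep, nextCtl, nextRegs, phaseRegs, phase1]
  have h2 : rstep^[4 * e + 2] ([mainProg P], initRegs e') =
      ([Prog.seq (Prog.dec 1) (Prog.inc 3), phase1, Prog.seq (Prog.inc 0) (mainLoop P)],
        phaseRegs e' e) := by
    rw [show 4 * e + 2 = 1 + (4 * e + 1) by ring, Function.iterate_add_apply,
      h0, phase_iter _ e' e h.le]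
    have : e' - e ≠ 0 := by omega
    simp [rstep, nextCtl, nextRegs, phaseRegs, phase1, this]
  rw [h1, h2]
  simp

theorem ctl_inj (P : Prog) (e e' : ℕ)
    (h : ∀ n, (rstep^[n] ([mainProg P], initRegs e)).1 =
      (rstep^[n] ([mainProg P], initRegs e')).1) : e = e' := by
  rcases lt_trichotomy e e' with hlt | heq | hgt
  · exact absurd (h _) (ctl_inj_aux P e e' hlt)
  · exact heq
  · exact absurd (h _).symm (ctl_inj_aux P e' e hgt)

/-- start of the main loop -/
theorem reach_mainLoop (P : Prog) (e : ℕ) :
    ∃ n r, rstep^[n] ([mainProg P], initRegs e) = ([mainLoop P], r) ∧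
      r 0 = 1 ∧ r 3 = e ∧ r 2 = 0 := by
  have h0 : rstep^[4 * e + 1] ([mainProg P], initRegs e) =
      rstep^[4 * e] ([phase1, Prog.seq (Prog.inc 0) (mainLoop P)], initRegs e) := rfl
  refine ⟨4 * e + 4, Function.update (phaseRegs e e) 0 1, ?_, by simp, ?_, ?_⟩
  · rw [show 4 * e + 4 = 3 + (4 * e + 1) by ring, Function.iterate_add_apply,
      h0, phase_iter _ e e le_rfl]
    simp [rstep, nextCtl, nextRegs, phaseRegs, phase1]
  · simp [phaseRegs]
  · simp [phaseRegs]

/-- one turn of the main loop -/
theorem mainLoop_turn {P : Prog} {r r' : Regs} (h0 : r 0 ≠ 0) (h : Big P r r') :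
    ∃ n, rstep^[n] ([mainLoop P], r) = ([Prog.mark, Prog.inc 2, mainLoop P], r') ∧
      rstep^[n + 2] ([mainLoop P], r) = ([mainLoop P], Function.update r' 2 (r' 2 + 1)) := by
  obtain ⟨m, hm⟩ := halts_of_big h [Prog.seq Prog.mark (Prog.inc 2), mainLoop P]
  have e1 : rstep^[2] ([mainLoop P], r) =
      ([P, Prog.seq Prog.mark (Prog.inc 2), mainLoop P], r) := by
    simp only [Function.iterate_succ_apply, Function.iterate_zero, id_eq]
    have : rstep ([mainLoop P], r) = ([body P, mainLoop P], r) := by
      simp [rstep, nextCtl, nextRegs, mainLoop, h0]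
    rw [this]
    rfl
  have e2 : rstep^[1 + (m + 2)] ([mainLoop P], r) =
      ([Prog.mark, Prog.inc 2, mainLoop P], r') := by
    rw [Function.iterate_add_apply, Function.iterate_add_apply, e1, hm]
    rfl
  refine ⟨1 + (m + 2), e2, ?_⟩
  rw [show 1 + (m + 2) + 2 = 2 + (1 + (m + 2)) by ring, Function.iterate_add_apply, e2]
  rfl

theorem mainLoop_stuck {P : Prog} (hP : NoMark P) {r : Regs} (h0 : r 0 ≠ 0)
    (h : ∀ r', ¬ Big P r r') (n : ℕ) :
    isMark (rstep^[n] ([mainLoop P], r)).1 = false := by
  rcases n with _ | _ | n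
  · rfl
  · simp [rstep, nextCtl, mainLoop, h0, isMark, body]
  · have e1 : rstep^[2] ([mainLoop P], r) =
        ([P] ++ [Prog.seq Prog.mark (Prog.inc 2), mainLoop P], r) := by
      simp only [Function.iterate_succ_apply, Function.iterate_zero, id_eq]
      have : rstep ([mainLoop P], r) = ([body P, mainLoop P], r) := by
        simp [rstep, nextCtl, nextRegs, mainLoop, h0]
      rw [this]
      rfl
    have hne : ∀ m, (rstep^[m] ([P], r)).1 ≠ [] := by
      intro m hm
      obtain ⟨r1, h1, h2⟩ := bigL_of_halts m [P] r (rstep^[m] ([P], r)).2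
        (Prod.ext hm rfl)
      exact h _ h1
    rw [show n + 1 + 1 = n + 2 from rfl, Function.iterate_add_apply, e1,
      iterate_append _ _ _ hne n]
    exact isMark_append (hne n) (iterate_noMark [P] r (by simpa using hP) n)

/-- the partial recursive function used by the universal machine -/
def diagFun (e a : ℕ) : Part ℕ :=
  Nat.Partrec.Code.eval (Denumerable.ofNat Nat.Partrec.Code e) (Nat.pair e a)

theorem diagFun_partrec : Partrec₂ diagFun := by
  unfold diagFun
  refine Nat.Partrec.Code.eval_part.comp ?_ ?_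
  · exact (Computable.ofNat _).comp Computable.fst
  · exact (Primrec₂.natPair.comp Primrec.fst Primrec.snd).to_comp

theorem not_sigma2 : ¬ ∃ R : ℕ × ℕ × ℕ → Prop, ComputablePred R ∧
    ∀ e, (∀ a, (diagFun e a).Dom) ↔ ∃ a, ∀ b, R (e, a, b) := by
  classical
  rintro ⟨R, ⟨hdec, hR⟩, h⟩
  -- the partial function `n ↦ μ b, ¬ R (n.unpair.1, n.unpair.2, b)`
  let p : ℕ → ℕ → Bool := fun n b => !(decide (R (n.unpair.1, n.unpair.2, b)))
  have hp : Computable₂ p := by
    have h1 : Computable (fun q : ℕ × ℕ => ((q.1.unpair.1, q.1.unpair.2, q.2) : ℕ × ℕ × ℕ)) := by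
      have hu : Primrec (fun q : ℕ × ℕ => q.1.unpair) := Primrec.unpair.comp Primrec.fst
      exact (Primrec.pair (Primrec.fst.comp hu)
        (Primrec.pair (Primrec.snd.comp hu) Primrec.snd)).to_comp
    have h2 := hR.comp h1
    exact (Primrec.not.to_comp.comp h2).of_eq (fun q => by simp [p])
  have hg : Nat.Partrec (fun n => Nat.rfind (fun b => Part.some (p n b))) := by
    have : Partrec (fun n : ℕ => Nat.rfind (fun b => Part.some (p n b))) :=
      Partrec.rfind (p := fun n b => Part.some (p n b)) hp.partrec₂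
    exact Partrec.nat_iff.1 this
  obtain ⟨c, hc⟩ := Nat.Partrec.Code.exists_code.1 hg
  set e := Encodable.encode c with he
  have key : ∀ a, (diagFun e a).Dom ↔ ∃ b, ¬ R (e, a, b) := by
    intro a
    have : diagFun e a = Nat.rfind (fun b => Part.some (p (Nat.pair e a) b)) := by
      unfold diagFun
      rw [he, Denumerable.ofNat_encode, hc]
    rw [this]
    refine Nat.rfind_dom.trans ?_
    constructor
    · rintro ⟨b, hb, _⟩
      refine ⟨b, ?_⟩
      simpa [p] using hb
    · rintro ⟨b, hb⟩
      refine ⟨b, ?_, fun _ => trivial⟩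
      simpa [p] using hb
  have h3 : (∀ a, (diagFun e a).Dom) ↔ ¬ ∃ a, ∀ b, R (e, a, b) := by
    push Not
    exact forall_congr' key
  have h4 := h e
  tauto

theorem infinite_marks_iff {P : Prog} (hP : NoMark P)
    (hP2 : ∀ r : Regs, (∀ v ∈ diagFun (r 3) (r 2), ∃ r', Big P r r' ∧
      ∀ j < 4, r' j = r j) ∧ ∀ r', Big P r r' → (diagFun (r 3) (r 2)).Dom) (e : ℕ) :
    (∀ n, ∃ m ≥ n, isMark (rstep^[m] ([mainProg P], initRegs e)).1 = true) ↔
      ∀ a, (diagFun e a).Dom := by
  obtain ⟨n0, r0, h1, h2, h3, h4⟩ := reach_mainLoop P e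
  -- reaching the `a`-th turn
  have reach : ∀ a, (∀ a' < a, (diagFun e a').Dom) →
      ∃ n r, a ≤ n ∧ rstep^[n] ([mainProg P], initRegs e) = ([mainLoop P], r) ∧
        r 0 = 1 ∧ r 3 = e ∧ r 2 = a := by
    intro a
    induction a with
    | zero => exact fun _ => ⟨n0, r0, Nat.zero_le _, h1, h2, h3, h4⟩
    | succ a ih =>
      intro hd
      obtain ⟨n, r, hn, g1, g2, g3, g4⟩ := ih (fun a' h => hd a' (by omega))
      have hda := hd a (by omega)
      obtain ⟨v, hv⟩ := Part.dom_iff_mem.1 hda
      obtain ⟨r', b1, b2⟩ := (hP2 r).1 v (by rw [g3, g4]; exact hv)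
      obtain ⟨m, c1, c2⟩ := mainLoop_turn (by rw [g2]; omega) b1
      refine ⟨m + 2 + n, Function.update r' 2 (r' 2 + 1), by omega, ?_, ?_, ?_, ?_⟩
      · rw [Function.iterate_add_apply, g1, c2]
      · rw [Function.update_of_ne (by omega), b2 0 (by omega), g2]
      · rw [Function.update_of_ne (by omega), b2 3 (by omega), g3]
      · rw [Function.update_self, b2 2 (by omega), g4]
  constructor
  · intro h
    by_contra hcon
    push Not at hcon
    classical
    set a := Nat.find hcon with ha
    have ha1 : ¬ (diagFun e a).Dom := Nat.find_spec hcon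
    have ha2 : ∀ a' < a, (diagFun e a').Dom := fun a' h' => by
      by_contra h''
      exact Nat.find_min hcon h' h''
    obtain ⟨n, r, _, g1, g2, g3, g4⟩ := reach a ha2
    obtain ⟨m, hm1, hm2⟩ := h n
    have := mainLoop_stuck hP (r := r) (by rw [g2]; omega) (fun r' hr' => by
      have := (hP2 r).2 r' hr'
      rw [g3, g4] at this
      exact ha1 this) (m - n)
    rw [← g1, ← Function.iterate_add_apply, show m - n + n = m by omega] at this
    rw [this] at hm2
    exact absurd hm2 (by simp)
  · intro h n
    obtain ⟨n1, r, hn, g1, g2, g3, g4⟩ := reach n (fun a' _ => h a')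
    obtain ⟨v, hv⟩ := Part.dom_iff_mem.1 (h n)
    obtain ⟨r', b1, b2⟩ := (hP2 r).1 v (by rw [g3, g4]; exact hv)
    obtain ⟨m, c1, c2⟩ := mainLoop_turn (by rw [g2]; omega) b1
    refine ⟨m + n1, by omega, ?_⟩
    rw [Function.iterate_add_apply, g1, c1]
    rfl

/-- how a register is updated -/
inductive Upd (K : ℕ) : Type
  | zero : Upd K
  | copy (j : Fin K) : Upd K
  | succ (j : Fin K) : Upd K
  | pred (j : Fin K) : Upd K

/-- value of an update -/
def Upd.app {K : ℕ} (u : Upd K) (r : Fin K → ℕ) : ℕ :=
  match u with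
  | Upd.zero => 0
  | Upd.copy j => r j
  | Upd.succ j => r j + 1
  | Upd.pred j => r j - 1

/-- a deterministic register machine with `K` registers and control states `Q` -/
structure Machine (Q : Type) (K : ℕ) where
  inp : Fin K
  start : Q
  upd : Q → Fin K → Upd K
  nxt : Q → (Fin K → Bool) → Q
  mark : Q → Bool

namespace Machine

variable {Q : Type} {K : ℕ} (M : Machine Q K)

/-- one step -/
def step (c : Q × (Fin K → ℕ)) : Q × (Fin K → ℕ) :=
  (M.nxt c.1 (fun i => decide (c.2 i = 0)), fun i => (M.upd c.1 i).app c.2)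

/-- the run with input `e` -/
def run (e n : ℕ) : Q × (Fin K → ℕ) :=
  M.step^[n] (M.start, fun i => if i = M.inp then e else 0)

end Machine

/-- updates performed by the head of a control list -/
def progUpd (K : ℕ) (c : List Prog) (i : Fin K) : Upd K :=
  match c with
  | Prog.clr j :: _ => if (i : ℕ) = j then Upd.zero else Upd.copy i
  | Prog.inc j :: _ => if (i : ℕ) = j then Upd.succ i else Upd.copy i
  | Prog.dec j :: _ => if (i : ℕ) = j then Upd.pred i else Upd.copy i
  | Prog.cpy j l :: _ => if (i : ℕ) = j then (if h : l < K then Upd.copy ⟨l, h⟩ else Upd.zero)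
      else Upd.copy i
  | _ => Upd.copy i

theorem progUpd_spec (K : ℕ) (c : List Prog) (hc : ∀ P ∈ c, RegLt K P) (r : Regs) (i : Fin K) :
    nextRegs c r i = (progUpd K c i).app (fun i => r i) := by
  cases c with
  | nil => rfl
  | cons P k =>
    have hP := hc P (by simp)
    cases P with
    | clr j =>
      by_cases h : (i : ℕ) = j
      · simp [nextRegs, progUpd, h, Upd.app]
      · simp [nextRegs, progUpd, h, Upd.app, Function.update]
    | inc j =>
      by_cases h : (i : ℕ) = j
      · subst h
        simp [nextRegs, progUpd, Upd.app]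
      · simp [nextRegs, progUpd, h, Upd.app, Function.update]
    | dec j =>
      by_cases h : (i : ℕ) = j
      · subst h
        simp [nextRegs, progUpd, Upd.app]
      · simp [nextRegs, progUpd, h, Upd.app, Function.update]
    | cpy j l =>
      have hl : l < K := hP.2
      by_cases h : (i : ℕ) = j
      · subst h
        simp [nextRegs, progUpd, Upd.app, hl]
      · simp [nextRegs, progUpd, h, Upd.app, Function.update]
    | mark => rfl
    | seq P Q => rfl
    | loop j P => rfl

/-- The universal machine. -/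
theorem exists_machine : ∃ (Q : Type) (_ : Finite Q) (K : ℕ) (M : Machine Q K),
    (∀ e e', (∀ n, (M.run e n).1 = (M.run e' n).1) → e = e') ∧
    ¬ ∃ R : ℕ × ℕ × ℕ → Prop, ComputablePred R ∧
      ∀ e, (∀ n, ∃ m ≥ n, M.mark (M.run e m).1 = true) ↔ ∃ a, ∀ b, R (e, a, b) := by
  classical
  have hpr : Nat.Partrec' (fun v : List.Vector ℕ 2 => diagFun v.head v.tail.head) :=
    Nat.Partrec'.part_iff₂.2 diagFun_partrec
  obtain ⟨P, hP1, hP2⟩ := compile_partrec hpr ![3, 2] 4 5
    (fun i => by fin_cases i <;> simp) (by omega)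
  have hP3 : ∀ r : Regs, (∀ v ∈ diagFun (r 3) (r 2), ∃ r', Big P r r' ∧
      ∀ j < 4, r' j = r j) ∧ ∀ r', Big P r r' → (diagFun (r 3) (r 2)).Dom := by
    intro r
    have h := hP2 r
    have e1 : (ofFn fun i : Fin 2 => r ((![3, 2] : Fin 2 → ℕ) i)).head = r 3 := by
      simp [List.Vector.ofFn]
    have e2 : (ofFn fun i : Fin 2 => r ((![3, 2] : Fin 2 → ℕ) i)).tail.head = r 2 := by
      simp [List.Vector.ofFn]
    simp only [e1, e2] at h
    refine ⟨fun v hv => ?_, h.2⟩
    obtain ⟨r', h1, _, h3⟩ := h.1 v hv
    exact ⟨r', h1, fun j hj => h3 j (by omega) (by omega)⟩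
  obtain ⟨K0, hK0⟩ := exists_regLt (mainProg P)
  set K := K0 + 2 with hK
  have hreg : RegLt K (mainProg P) := hK0 K (by omega)
  set L : List (List Prog) := [] :: ctl (mainProg P) [] with hL
  have hLnext : ∀ c ∈ L, ∀ z, nextCtl c z ∈ L := by
    intro c hc z
    rcases List.mem_cons.1 hc with rfl | hc
    · simp [hL, nextCtl]
    · rcases nextCtl_mem_ctl _ _ _ z hc with h | h
      · exact List.mem_cons_of_mem _ h
      · rw [h]; simp [hL]
  let Q : Type := {c : List Prog // c ∈ L ∧ ∀ P ∈ c, RegLt K P}
  have hfin0 : Finite {c : List Prog // c ∈ L} := (List.finite_toSet L).to_subtype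
  have hfin : Finite Q :=
    Finite.of_injective (β := {c : List Prog // c ∈ L}) (fun q => ⟨q.1, q.2.1⟩)
      (fun q q' h => Subtype.ext (by simpa using h))
  let ext : (Fin K → Bool) → ℕ → Bool := fun z i => if h : i < K then z ⟨i, h⟩ else false
  let M : Machine Q K :=
    { inp := ⟨1, by omega⟩
      start := ⟨[mainProg P], by
        refine List.mem_cons_of_mem _ (mem_ctl_self _ _), by
          intro P' hP'
          rw [List.mem_singleton] at hP'
          subst hP'
          exact hreg⟩
      upd := fun q => progUpd K q.1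
      nxt := fun q z => ⟨nextCtl q.1 (ext z), hLnext _ q.2.1 _, regLt_nextCtl K _ _ q.2.2⟩
      mark := fun q => isMark q.1 }
  have hnext : ∀ (c : List Prog) (r : Regs), (∀ P ∈ c, RegLt K P) →
      nextCtl c (fun i => decide (r i = 0)) =
        nextCtl c (ext fun i : Fin K => decide (r i = 0)) := by
    intro c r hc
    cases c with
    | nil => rfl
    | cons P k =>
      have hP := hc P (by simp)
      cases P with
      | loop i P =>
        have hi : i < K := hP.1
        simp [nextCtl, ext, hi]
      | _ => rfl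
  have hsim : ∀ e n, (M.run e n).1.1 = (rstep^[n] ([mainProg P], initRegs e)).1 ∧
      ∀ i : Fin K, (M.run e n).2 i = (rstep^[n] ([mainProg P], initRegs e)).2 i := by
    intro e n
    induction n with
    | zero =>
      refine ⟨rfl, fun i => ?_⟩
      simp only [Machine.run, Function.iterate_zero, id_eq, initRegs, M, Fin.ext_iff]
    | succ n ih =>
      have hrun : M.run e (n + 1) = M.step (M.run e n) := by
        simp only [Machine.run, Function.iterate_succ_apply']
      rw [hrun, Function.iterate_succ_apply']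
      obtain ⟨ih1, ih2⟩ := ih
      have ih2' : (M.run e n).2 = fun i : Fin K => (rstep^[n] ([mainProg P], initRegs e)).2 i :=
        funext ih2
      have hreg' : ∀ P' ∈ (rstep^[n] ([mainProg P], initRegs e)).1, RegLt K P' := by
        rw [← ih1]; exact (M.run e n).1.2.2
      constructor
      · change nextCtl (M.run e n).1.1 (ext fun i => decide ((M.run e n).2 i = 0)) = _
        rw [ih1, ih2']
        exact (hnext _ _ hreg').symm
      · intro i
        change (progUpd K (M.run e n).1.1 i).app (M.run e n).2 = _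
        rw [ih1, ih2']
        exact (progUpd_spec K _ hreg' _ i).symm
  refine ⟨Q, hfin, K, M, ?_, ?_⟩
  · intro e e' h
    refine ctl_inj P e e' (fun n => ?_)
    rw [← (hsim e n).1, ← (hsim e' n).1, h n]
  · rintro ⟨R, hR1, hR2⟩
    refine not_sigma2 ⟨R, hR1, fun e => ?_⟩
    rw [← hR2 e, ← infinite_marks_iff hP1 hP3 e]
    have : ∀ m, isMark (rstep^[m] ([mainProg P], initRegs e)).1 = M.mark (M.run e m).1 := by
      intro m
      rw [← (hsim e m).1]
    simp only [this]

end Pool.Agent.helper79
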