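import Pool.Agent.helper79.SlopeComplete

/-!
Assembly: a subshift of finite type on `ℤ^6` whose set of slopes is not a Sigma-2 set.
-/

set_option autoImplicit false

namespace Pool.Agent.helper79

variable {Q : Type} {K : ℕ}

theorem vec6 (v : Fin 6 → ℤ) : v = ![v 0, v 1, v 2, v 3, v 4, v 5] := by
  funext i
  fin_cases i <;> rfl

theorem vec6_add (a b t s y z a' b' t' s' y' z' : ℤ) :
    (![a, b, t, s, y, z] : Fin 6 → ℤ) + ![a', b', t', s', y', z'] =
      ![a + a', b + b', t + t', s + s', y + y', z + z'] := by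
  funext i
  fin_cases i <;> rfl

/-- the integer vector attached to an offset in `{0, 1}^6` -/
theorem off6 (i0 i1 i2 i3 i4 i5 : Fin 2) :
    (fun j => (((![i0, i1, i2, i3, i4, i5] : Fin 6 → Fin 2) j : ℕ) : ℤ)) =
      ![((i0 : ℕ) : ℤ), ((i1 : ℕ) : ℤ), ((i2 : ℕ) : ℤ), ((i3 : ℕ) : ℤ), ((i4 : ℕ) : ℤ),
        ((i5 : ℕ) : ℤ)] := by
  funext i
  fin_cases i <;> rfl

/-- the local rule on windows -/
def WRule (M : Machine Q K) (w : (Fin 6 → Fin 2) → Sym Q K) : Prop :=
  Rule M (w ![0, 0, 0, 0, 0, 0]) (w ![1, 0, 0, 0, 0, 0]) (w ![0, 1, 0, 0, 0, 0])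
    (w ![0, 0, 1, 0, 0, 0]) (w ![0, 0, 0, 1, 0, 0]) (w ![0, 0, 0, 0, 1, 0])
    (w ![0, 0, 0, 0, 0, 1]) (w ![0, 0, 1, 1, 0, 0]) (w ![1, 0, 1, 0, 0, 0])

theorem wrule_iff (M : Machine Q K) (x : (Fin 6 → ℤ) → Sym Q K) :
    (∀ z : Fin 6 → ℤ, WRule M (fun i => x (z + (fun j => ((i j : ℕ) : ℤ))))) ↔
      Valid M (fun a b t s y z => x ![a, b, t, s, y, z]) := by
  have key : ∀ a b t s y z : ℤ,
      WRule M (fun i => x (![a, b, t, s, y, z] + (fun j => ((i j : ℕ) : ℤ)))) ↔
      Rule M (x ![a, b, t, s, y, z]) (x ![a + 1, b, t, s, y, z]) (x ![a, b + 1, t, s, y, z])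
        (x ![a, b, t + 1, s, y, z]) (x ![a, b, t, s + 1, y, z]) (x ![a, b, t, s, y + 1, z])
        (x ![a, b, t, s, y, z + 1]) (x ![a, b, t + 1, s + 1, y, z])
        (x ![a + 1, b, t + 1, s, y, z]) := by
    intro a b t s y z
    unfold WRule
    simp only [off6, vec6_add, Fin.val_zero, Fin.val_one, Nat.cast_zero, Nat.cast_one, add_zero]
  constructor
  · intro h a b t s y z
    exact (key a b t s y z).1 (h _)
  · intro h z
    rw [vec6 z]
    exact (key _ _ _ _ _ _).2 (h _ _ _ _ _ _)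

/-- direction vector attached to an input -/
def dir (e : ℕ) : Fin 6 → ℤ := ![(e : ℤ), 1, 0, 0, 0, 0]

theorem dir_computable : Computable dir := by
  refine Primrec.to_comp ?_
  refine Primrec.fin_curry.2 ?_
  have hcast : Primrec (fun n : ℕ => (n : ℤ)) := by
    rw [← Primrec.encode_iff]
    have : ∀ n : ℕ, Encodable.encode (n : ℤ) = 2 * n := by
      intro n
      rfl
    simp only [this]
    exact Primrec.nat_mul.comp (Primrec.const 2) Primrec.id
  have h : Primrec₂ (fun (i : Fin 6) (n : ℕ) => dir n i) := by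
    refine Primrec.fin_curry₁.2 ?_
    intro i
    fin_cases i
    · exact hcast
    · exact Primrec.const 1
    · exact Primrec.const 0
    · exact Primrec.const 0
    · exact Primrec.const 0
    · exact Primrec.const 0
  exact h.swap

/-- the slope statement for the subshift attached to `M`, alphabet `Sym Q K` -/
theorem slope_iff (M : Machine Q K)
    (hM : ∀ e e', (∀ n, (M.run e n).1 = (M.run e' n).1) → e = e') (e : ℕ) :
    (dir e ≠ 0 ∧ ∃ x : (Fin 6 → ℤ) → Sym Q K,
      (∀ z : Fin 6 → ℤ, WRule M (fun i => x (z + (fun j => ((i j : ℕ) : ℤ))))) ∧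
      (∃ w : Fin 6 → ℤ, w ≠ 0 ∧ ∀ z, x (z + w) = x z) ∧
      ∀ u : Fin 6 → ℤ, (∀ z, x (z + u) = x z) → ∃ a b : ℤ, b ≠ 0 ∧ b • u = a • dir e) ↔
    ∀ n, ∃ m ≥ n, M.mark (M.run e m).1 = true := by
  constructor
  · rintro ⟨_, x, hx, ⟨w, hw0, hw⟩, hu⟩
    by_contra hcon
    push Not at hcon
    obtain ⟨n0, hn0⟩ := hcon
    have hX := (wrule_iff M x).1 hx
    obtain ⟨α, β, hβ, hαβ⟩ := hu w hw
    have c0 := congrFun hαβ 0
    have c1 := congrFun hαβ 1
    have c2 := congrFun hαβ 2
    have c3 := congrFun hαβ 3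
    have c4 := congrFun hαβ 4
    have c5 := congrFun hαβ 5
    simp only [dir, Pi.smul_apply, smul_eq_mul, Matrix.cons_val] at c0 c1 c2 c3 c4 c5
    have d2 : w 2 = 0 := by
      rcases mul_eq_zero.1 (by rw [c2]; ring : β * w 2 = 0) with h | h
      · exact absurd h hβ
      · exact h
    have d3 : w 3 = 0 := by
      rcases mul_eq_zero.1 (by rw [c3]; ring : β * w 3 = 0) with h | h
      · exact absurd h hβ
      · exact h
    have d4 : w 4 = 0 := by
      rcases mul_eq_zero.1 (by rw [c4]; ring : β * w 4 = 0) with h | h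
      · exact absurd h hβ
      · exact h
    have d5 : w 5 = 0 := by
      rcases mul_eq_zero.1 (by rw [c5]; ring : β * w 5 = 0) with h | h
      · exact absurd h hβ
      · exact h
    have d0 : w 0 = w 1 * e := by
      apply mul_left_cancel₀ hβ
      rw [c0, ← mul_assoc, c1]
      ring
    have hj : w 1 ≠ 0 := by
      intro h
      apply hw0
      rw [vec6 w, d0, h, d2, d3, d4, d5]
      funext i
      fin_cases i <;> simp
    have hper : ∀ a b t s y z : ℤ, x ![a + w 1 * e, b + w 1, t, s, y, z] = x ![a, b, t, s, y, z] := by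
      intro a b t s y z
      have := hw ![a, b, t, s, y, z]
      rw [vec6 w, vec6_add, d0, d2, d3, d4, d5] at this
      simpa using this
    obtain ⟨p, hp, hp'⟩ := hX.sound hM e (w 1) hj hper ⟨n0, fun n hn => by
      simpa using hn0 n hn⟩
    rcases hp' with h | h
    · obtain ⟨α', β', hβ', h'⟩ := hu ![0, 0, 0, 0, p, 0] (fun z => by
        rw [vec6 z, vec6_add]
        simp only [add_zero]
        exact h _ _ _ _ _ _)
      have := congrFun h' 4
      simp only [dir, Pi.smul_apply, smul_eq_mul, Matrix.cons_val, mul_zero] at this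
      rcases mul_eq_zero.1 this with h | h
      · exact hβ' h
      · exact hp h
    · obtain ⟨α', β', hβ', h'⟩ := hu ![0, 0, 0, 0, 0, p] (fun z => by
        rw [vec6 z, vec6_add]
        simp only [add_zero]
        exact h _ _ _ _ _ _)
      have := congrFun h' 5
      simp only [dir, Pi.smul_apply, smul_eq_mul, Matrix.cons_val, mul_zero] at this
      rcases mul_eq_zero.1 this with h | h
      · exact hβ' h
      · exact hp h
  · intro hinf
    refine ⟨?_, fun v => good M e (v 0) (v 1) (v 2) (v 3) (v 4) (v 5), ?_, ?_, ?_⟩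
    · intro h
      have := congrFun h 1
      simp [dir] at this
    · refine (wrule_iff M (fun v => good M e (v 0) (v 1) (v 2) (v 3) (v 4) (v 5))).2 ?_
      intro a b t s y z
      exact good_valid M e a b t s y z
    · refine ⟨dir e, ?_, ?_⟩
      · intro h
        have := congrFun h 1
        simp [dir] at this
      · intro z
        have := good_periodic M e (z 0) (z 1) (z 2) (z 3) (z 4) (z 5)
        simpa [dir] using this
    · intro u hu
      have h := good_aperiodic M e hinf (u 0) (u 1) (u 2) (u 3) (u 4) (u 5)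
        (fun a b t s y z => by
          have := hu ![a, b, t, s, y, z]
          simpa using this)
      obtain ⟨h0, h2, h3, h4, h5⟩ := h
      refine ⟨u 1, 1, one_ne_zero, ?_⟩
      rw [vec6 u, h0, h2, h3, h4, h5]
      funext i
      fin_cases i <;> simp [dir, mul_comm]

/-- A subshift of finite type on `ℤ^6` whose set of slopes is not Sigma-2. -/
theorem exists_sft : ∃ (k : ℕ) (F : Set ((Fin 6 → Fin 2) → Fin k)),
    ¬ ∃ R : (Fin 6 → ℤ) × ℕ × ℕ → Prop, ComputablePred R ∧
        ∀ v : Fin 6 → ℤ,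
          (v ≠ 0 ∧ ∃ x : (Fin 6 → ℤ) → Fin k,
              (∀ z : Fin 6 → ℤ,
                (fun i : Fin 6 → Fin 2 => x (z + (fun j => ((i j : ℕ) : ℤ)))) ∉ F) ∧
              (∃ w : Fin 6 → ℤ, w ≠ 0 ∧ ∀ z, x (z + w) = x z) ∧
              ∀ u : Fin 6 → ℤ, (∀ z, x (z + u) = x z) →
                ∃ a b : ℤ, b ≠ 0 ∧ b • u = a • v)
          ↔ ∃ a : ℕ, ∀ b : ℕ, R (v, a, b) := by
  obtain ⟨Q, hQ, K, M, hM, hS⟩ := exists_machine
  obtain ⟨k, ⟨φ⟩⟩ := Finite.exists_equiv_fin (Sym Q K)
  refine ⟨k, {p | ¬ WRule M (fun i => φ.symm (p i))}, ?_⟩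
  rintro ⟨R, ⟨hdec, hR⟩, h⟩
  apply hS
  refine ⟨fun p => R (dir p.1, p.2.1, p.2.2), ⟨fun p => hdec _, ?_⟩, fun e => ?_⟩
  · have h1 : Computable (fun p : ℕ × ℕ × ℕ => (dir p.1, p.2.1, p.2.2)) :=
      Computable.pair (dir_computable.comp Computable.fst) Computable.snd
    exact hR.comp h1
  · rw [← slope_iff M hM e]
    rw [← h (dir e)]
    refine and_congr_right fun _ => ?_
    constructor
    · rintro ⟨x, h1, ⟨w, hw0, hw⟩, h3⟩
      refine ⟨fun z => φ (x z), fun z => ?_, ⟨w, hw0, fun z => congrArg φ (hw z)⟩,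
        fun u hu => ?_⟩
      · simp only [Set.mem_ofPred_eq, not_not, Equiv.symm_apply_apply]
        exact h1 z
      · exact h3 u fun z => φ.injective (hu z)
    · rintro ⟨x, h1, ⟨w, hw0, hw⟩, h3⟩
      refine ⟨fun z => φ.symm (x z), fun z => ?_, ⟨w, hw0, fun z => congrArg φ.symm (hw z)⟩,
        fun u hu => ?_⟩
      · have := h1 z
        simpa only [Set.mem_ofPred_eq, not_not] using this
      · exact h3 u fun z => φ.symm.injective (hu z)

end Pool.Agent.helper79
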