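import Pool.Agent.helper79.ClubKey

/-!
The recursion giving distributivity for `J` many dense open classes.
-/

set_option autoImplicit false

namespace Pool.Agent.helper79.Club

section

variable {Q I J : Type} [Preorder Q] [LinearOrder I] [WellFoundedLT I] [LinearOrder J]
  [WellFoundedLT J]

/-- the requirement for the extension chosen at stage `i` -/
def GoodExt (U : Set Q) (E : Nm Q J) (D : J → Q → Nm Q I → Prop) (i : J) (dp e : Nm Q I) : Prop :=
  IsCond (U ∩ E.mem i) e ∧ Bdd e ∧ EE (U ∩ E.mem i) e dp ∧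
    ∀ a ≤ i, ∀ p ∈ U ∩ E.mem i, ∃ r ≤ p, D a r e

/-- the chosen extension -/
noncomputable def chosenExt (U : Set Q) (E : Nm Q J) (D : J → Q → Nm Q I → Prop) (i : J)
    (dp : Nm Q I) : Nm Q I :=
  open Classical in
  if h : ∃ e, GoodExt U E D i dp e then h.choose else dp

/-- the name at stage `i` -/
noncomputable def stageName (E : Nm Q J) (i : J) (ε : I) (u e : Nm Q I) : Nm Q I where
  mem α := open Classical in if α < ε then u.mem α else E.mem i ∩ e.mem α
  reg α := by
    split_ifs
    · exact u.reg α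
    · exact (E.reg i).inter (e.reg α)

/-- the bound at stage `i` -/
noncomputable def stageBound (ε : I) (d : Nm Q I) : I :=
  open Classical in
  if h : ∃ c, ε < c ∧ ∀ α, c ≤ α → d.mem α = ∅ then h.choose else ε

/-- one step of the recursion -/
noncomputable def nextStage (U : Set Q) (E : Nm Q J) (D : J → Q → Nm Q I → Prop) (d0 : Nm Q I)
    (b0 : I) (i : J) (s : J → I × Nm Q I) : I × Nm Q I :=
  let ε := eps b0 (fun j => (s j).1) (Set.Iio i)
  let u := un d0 b0 (fun j => (s j).1) (fun j => (s j).2) (Set.Iio i)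
  let e := chosenExt U E D i (insertPt u ε)
  let d := stageName E i ε u e
  (stageBound ε d, d)

theorem nextStage_congr (U : Set Q) (E : Nm Q J) (D : J → Q → Nm Q I → Prop) (d0 : Nm Q I)
    (b0 : I) (i : J) (s s' : J → I × Nm Q I) (h : ∀ j < i, s j = s' j) :
    nextStage U E D d0 b0 i s = nextStage U E D d0 b0 i s' := by
  have h1 : eps b0 (fun j => (s j).1) (Set.Iio i) = eps b0 (fun j => (s' j).1) (Set.Iio i) :=
    eps_congr _ _ _ _ fun j hj => by rw [h j hj]
  have h2 : un d0 b0 (fun j => (s j).1) (fun j => (s j).2) (Set.Iio i) =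
      un d0 b0 (fun j => (s' j).1) (fun j => (s' j).2) (Set.Iio i) :=
    un_congr _ _ _ _ _ _ _ (fun j hj => by rw [h j hj]) (fun j hj => by rw [h j hj])
  simp only [nextStage, h1, h2]

/-- the sequence of stages -/
noncomputable def stages (U : Set Q) (E : Nm Q J) (D : J → Q → Nm Q I → Prop) (d0 : Nm Q I)
    (b0 : I) : J → I × Nm Q I :=
  WellFounded.fix (wellFounded_lt (α := J)) fun i rec =>
    nextStage U E D d0 b0 i (fun j => open Classical in if h : j < i then rec j h else (b0, d0))

theorem stages_eq (U : Set Q) (E : Nm Q J) (D : J → Q → Nm Q I → Prop) (d0 : Nm Q I)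
    (b0 : I) (i : J) :
    stages U E D d0 b0 i = nextStage U E D d0 b0 i (stages U E D d0 b0) := by
  unfold stages
  rw [WellFounded.fix_eq]
  apply nextStage_congr
  intro j hj
  rw [dif_pos hj]

theorem dist_key {E : Nm Q J} (hE : ClubName E) (hJ : ∀ f : J → I, ∃ b, ∀ j, f j ≤ b)
    (hI : ∀ c : I, ∃ c', c < c') (hD : ∀ i : J, Dist Q I (Set.Iic i)) : Dist Q I J := by
  classical
  intro U hU d0 hd0 hbd D hDO
  obtain ⟨b0, hb0⟩ := hbd
  set b : J → I := fun j => (stages U E D d0 b0 j).1 with hb
  set d : J → Nm Q I := fun j => (stages U E D d0 b0 j).2 with hd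
  set e : J → Nm Q I := fun i => chosenExt U E D i
    (insertPt (un d0 b0 b d (Set.Iio i)) (eps b0 b (Set.Iio i))) with he
  have hd_eq : ∀ i, d i = stageName E i (eps b0 b (Set.Iio i)) (un d0 b0 b d (Set.Iio i)) (e i) := by
    intro i
    simp only [hd]
    rw [stages_eq]
    rfl
  have hb_eq : ∀ i, b i = stageBound (eps b0 b (Set.Iio i)) (d i) := by
    intro i
    rw [hd_eq i]
    simp only [hb]
    rw [stages_eq]
    rfl
  have hlowE : ∀ i, IsLowerSet (U ∩ E.mem i) := fun i p q hq hp =>
    ⟨hU hq hp.1, (E.reg i).lower p hp.2 q hq⟩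
  -- all stages satisfy the invariants
  have hinv : ∀ i, Inv U E d0 b0 b d i ∧ GoodExt U E D i
      (insertPt (un d0 b0 b d (Set.Iio i)) (eps b0 b (Set.Iio i))) (e i) := by
    intro i
    induction i using WellFoundedLT.induction with
    | _ i ih =>
      have hS : IsLowerSet (Set.Iio i) := isLowerSet_Iio i
      have hinvS : ∀ j ∈ Set.Iio i, Inv U E d0 b0 b d j := fun j hj => (ih j hj).1
      set ε := eps b0 b (Set.Iio i) with hε
      set u := un d0 b0 b d (Set.Iio i) with hu
      have hplus : IsCond U (insertPt u ε) := plus_cond hJ hS hinvS hd0 hE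
      have hplusB : Bdd (insertPt u ε) := by
        obtain ⟨c, hc⟩ := hI ε
        refine ⟨c, fun α hα => ?_⟩
        rw [insertPt_of_ne _ (hc.trans_le hα).ne', un_ge_eps hJ (hc.trans_le hα).le]
      have hgood : GoodExt U E D i (insertPt u ε) (e i) := by
        have hex : ∃ e, GoodExt U E D i (insertPt u ε) e := by
          obtain ⟨e', h1, h2, h3, h4⟩ := hD i (U ∩ E.mem i) (hlowE i) (insertPt u ε)
            (hplus.mono Set.inter_subset_left) hplusB (fun a => D a.1) (fun a => hDO a.1)
          exact ⟨e', h1, h2, h3, fun a ha p hp => h4 ⟨a, ha⟩ p hp⟩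
        simp only [he]
        unfold chosenExt
        rw [dif_pos hex]
        exact hex.choose_spec
      refine ⟨?_, hgood⟩
      obtain ⟨g1, ⟨c0, hc0⟩, g3, g4⟩ := hgood
      have hdi : ∀ α, (d i).mem α = if α < ε then u.mem α else E.mem i ∩ (e i).mem α := by
        intro α
        rw [hd_eq i]
        rfl
      have hdi_lt : ∀ α, α < ε → (d i).mem α = u.mem α := fun α h => by rw [hdi, if_pos h]
      have hdi_ge : ∀ α, ε ≤ α → (d i).mem α = E.mem i ∩ (e i).mem α := fun α h => by
        rw [hdi, if_neg (not_lt.2 h)]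
      -- on `U ∩ E i`, elements of `d i` are elements of `e i`
      have hsub : ∀ p ∈ U ∩ E.mem i, ∀ α, p ∈ (d i).mem α → p ∈ (e i).mem α := by
        intro p hp α hα
        rcases lt_or_ge α ε with h | h
        · rw [hdi_lt α h] at hα
          apply g3.sub p hp
          rw [insertPt_of_ne _ h.ne]
          exact hα
        · rw [hdi_ge α h] at hα
          exact hα.2
      have hbex : ∃ c, ε < c ∧ ∀ α, c ≤ α → (d i).mem α = ∅ := by
        obtain ⟨c, hc⟩ := hI (max ε c0)
        refine ⟨c, (le_max_left _ _).trans_lt hc, fun α hα => ?_⟩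
        rw [hdi_ge α (((le_max_left _ _).trans_lt hc).le.trans hα),
          hc0 α (((le_max_right _ _).trans_lt hc).le.trans hα), Set.inter_empty]
      have hbi : ε < b i ∧ ∀ α, b i ≤ α → (d i).mem α = ∅ := by
        rw [hb_eq i]
        unfold stageBound
        rw [dif_pos hbex]
        exact hbex.choose_spec
      refine ⟨hbi.1, ?_, hbi.2, hdi_lt, ?_⟩
      · constructor
        · intro p hp δ hβ h
          rcases lt_trichotomy δ ε with h1 | h1 | h1
          · rw [hdi_lt δ h1]
            refine un_closed hJ hS hinvS hd0 hp h1 hβ fun β hβ q hq => ?_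
            obtain ⟨r, hr, α, h2, h3, h4⟩ := h β hβ q hq
            rw [hdi_lt α (h3.trans h1)] at h4
            exact ⟨r, hr, α, h2, h3, h4⟩
          · subst h1
            have h5 := unb_transfer (E := E) hJ hinvS hd0 hb0 hp hβ
              (fun β hβ q hq => by
                obtain ⟨r, hr, α, h2, h3, h4⟩ := h β hβ q hq
                rw [hdi_lt α h3] at h4
                exact ⟨r, hr, α, h2, h3, h4⟩)
            have h6 : p ∈ E.mem i := hE.cond.closed p trivial i h5.1 h5.2
            rw [hdi_ge _ le_rfl]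
            exact ⟨h6, g3.sub p ⟨hp, h6⟩ _ (insertPt_self _ _ _)⟩
          · have h6 : p ∈ E.mem i := (E.reg i).dense p fun q hq => by
              obtain ⟨r, hr, α, h2, h3, h4⟩ := h ε h1 q hq
              rw [hdi_ge α h2.le] at h4
              exact ⟨r, hr, h4.1⟩
            rw [hdi_ge _ h1.le]
            refine ⟨h6, g1.closed p ⟨hp, h6⟩ δ hβ fun β hβ q hq => ?_⟩
            obtain ⟨r, hr, α, h2, h3, h4⟩ := h β hβ q hq
            refine ⟨r, hr, α, h2, h3, hsub r ?_ α h4⟩
            exact hlowE i hr (hlowE i hq ⟨hp, h6⟩)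
        · intro p hp x hx hall
          by_cases h : ∃ n, ε ≤ x n
          · obtain ⟨n, hn⟩ := h
            have h6 : p ∈ E.mem i := by
              have := hall n
              rw [hdi_ge _ hn] at this
              exact this.1
            exact g1.noInf p ⟨hp, h6⟩ x hx fun m => hsub p ⟨hp, h6⟩ _ (hall m)
          · push Not at h
            refine un_noInf hJ hS hinvS hd0 hE hp hx fun n => ?_
            have := hall n
            rwa [hdi_lt _ (h n)] at this
      · intro α hα p hp
        rw [hdi_ge α hα] at hp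
        exact hp.1
  -- the final condition
  have hSu : IsLowerSet (Set.univ : Set J) := isLowerSet_univ
  have hinvu : ∀ j ∈ (Set.univ : Set J), Inv U E d0 b0 b d j := fun j _ => (hinv j).1
  set ε := eps b0 b Set.univ with hε
  set u := un d0 b0 b d Set.univ with hu
  obtain ⟨e1, e2, e3⟩ := eps_spec hJ b0 b Set.univ
  have hfin : IsCond U (insertPt u ε) := plus_cond hJ hSu hinvu hd0 hE
  have hfinB : Bdd (insertPt u ε) := by
    obtain ⟨c, hc⟩ := hI ε
    refine ⟨c, fun α hα => ?_⟩
    rw [insertPt_of_ne _ (hc.trans_le hα).ne', un_ge_eps hJ (hc.trans_le hα).le]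
  refine ⟨insertPt u ε, hfin, hfinB, ⟨?_, ?_⟩, ?_⟩
  · intro p hp α hα
    have h1 : α < b0 := by
      by_contra hcon
      rw [hb0 α (not_lt.1 hcon)] at hα
      exact hα
    rw [insertPt_of_ne _ (h1.trans_le e1).ne, un_lt _ _ _ _ _ h1]
    exact hα
  · intro p hp α γ hαγ hα hγ
    have h1 : γ < b0 := by
      by_contra hcon
      rw [hb0 γ (not_lt.1 hcon)] at hγ
      exact hγ
    have h2 : α < b0 := hαγ.trans_lt h1
    rwa [insertPt_of_ne _ (h2.trans_le e1).ne, un_lt _ _ _ _ _ h2] at hα
  · intro a p hp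
    obtain ⟨q, hq, i, hai, hqi⟩ := hE.unb p a
    obtain ⟨hi, g1, g2, g3, g4⟩ := hinv i
    have hqU : q ∈ U ∩ E.mem i := ⟨hU hq hp, hqi⟩
    obtain ⟨r, hr, hDr⟩ := g4 a hai.le q hqU
    refine ⟨r, hr.trans hq, (hDO a).opn r r _ _ hDr le_rfl
      (hfin.mono fun p' hp' => hU (le_trans hp' (hr.trans hq)) hp) hfinB ⟨?_, ?_⟩⟩
    · -- elements of `e i` are elements of the final name
      intro p' hp' α hα
      have hp'U : p' ∈ U ∩ E.mem i := hlowE i (le_trans hp' hr) hqU
      have h1 : p' ∈ (d i).mem α := by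
        rw [hd_eq i]
        show p' ∈ if α < eps b0 b (Set.Iio i) then _ else _
        split_ifs with h
        · have := g3.ends p' hp'U α _ h.le hα (insertPt_self _ _ _)
          rwa [insertPt_of_ne _ h.ne] at this
        · exact ⟨hp'U.2, hα⟩
      have h2 : α < b i := by
        by_contra hcon
        rw [hi.bd α (not_lt.1 hcon)] at h1
        exact h1
      rw [insertPt_of_ne _ (h2.trans_le (e2 i trivial)).ne, un_eq hJ hSu hinvu (Set.mem_univ i) h2]
      exact h1
    · intro p' hp' α γ hαγ hα hγ
      have hp'U : p' ∈ U ∩ E.mem i := hlowE i (le_trans hp' hr) hqU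
      have h1 : p' ∈ (d i).mem γ := by
        rw [hd_eq i]
        show p' ∈ if γ < eps b0 b (Set.Iio i) then _ else _
        split_ifs with h
        · have := g3.ends p' hp'U γ _ h.le hγ (insertPt_self _ _ _)
          rwa [insertPt_of_ne _ h.ne] at this
        · exact ⟨hp'U.2, hγ⟩
      have h2 : γ < b i := by
        by_contra hcon
        rw [hi.bd γ (not_lt.1 hcon)] at h1
        exact h1
      have h3 : α < b i := hαγ.trans_lt h2
      rw [insertPt_of_ne _ (h3.trans_le (e2 i trivial)).ne,
        un_eq hJ hSu hinvu (Set.mem_univ i) h3] at hα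
      rw [hd_eq i] at hα
      change p' ∈ (if α < eps b0 b (Set.Iio i) then _ else _) at hα
      split_ifs at hα with h
      · apply g3.sub p' hp'U
        rw [insertPt_of_ne _ h.ne]
        exact hα
      · exact hα.2

end

end Pool.Agent.helper79.Club
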