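import Pool.Agent.helper79.ClubDist

/-!
The forcing `Ext Q I` which adds, over an extension by `Q`, a club in `I` by closed bounded sets without
infinite ground-model subset.
-/

set_option autoImplicit false

namespace Pool.Agent.helper79.Club

/-- conditions of the two-step forcing -/
def Ext (Q I : Type) [Preorder Q] [LinearOrder I] : Type :=
  {x : Q × Nm Q I // IsCond (Set.Iic x.1) x.2 ∧ Bdd x.2}

section

variable {Q I J : Type} [Preorder Q] [LinearOrder I] [LinearOrder J]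

instance : Preorder (Ext Q I) where
  le x y := x.1.1 ≤ y.1.1 ∧ EE (Set.Iic x.1.1) x.1.2 y.1.2
  le_refl x := ⟨le_rfl, EE.refl _ _⟩
  le_trans x y z h1 h2 := ⟨h1.1.trans h2.1,
    h1.2.trans (h2.2.mono (Set.Iic_subset_Iic.2 h1.1))⟩

theorem Ext.le_def (x y : Ext Q I) :
    x ≤ y ↔ x.1.1 ≤ y.1.1 ∧ EE (Set.Iic x.1.1) x.1.2 y.1.2 := Iff.rfl

/-- constructor -/
def Ext.mk (r : Q) (e : Nm Q I) (h : IsCond (Set.Iic r) e ∧ Bdd e) : Ext Q I := ⟨(r, e), h⟩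

theorem Ext.mk_le {r r' : Q} {e e' : Nm Q I} {h : IsCond (Set.Iic r) e ∧ Bdd e}
    {h' : IsCond (Set.Iic r') e' ∧ Bdd e'} (h1 : r' ≤ r) (h2 : EE (Set.Iic r') e' e) :
    Ext.mk r' e' h' ≤ Ext.mk r e h := ⟨h1, h2⟩

/-- restriction of a condition to a stronger first coordinate -/
def Ext.restr (x : Ext Q I) (q : Q) (hq : q ≤ x.1.1) : Ext Q I :=
  ⟨(q, x.1.2), x.2.1.mono (Set.Iic_subset_Iic.2 hq), x.2.2⟩

theorem Ext.restr_le (x : Ext Q I) (q : Q) (hq : q ≤ x.1.1) : x.restr q hq ≤ x :=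
  ⟨hq, EE.refl _ _⟩

/-- names over `Q` are names over `Ext Q I` -/
def liftNm (S : Nm Q J) : Nm (Ext Q I) J where
  mem j := {x | x.1.1 ∈ S.mem j}
  reg j := ⟨fun x hx y hy => (S.reg j).lower _ hx _ hy.1, fun x h => by
    refine (S.reg j).dense _ fun q hq => ?_
    obtain ⟨z, hz, hzS⟩ := h (x.restr q hq) (x.restr_le q hq)
    exact ⟨z.1.1, hz.1, hzS⟩⟩

theorem liftNm_clubName {S : Nm Q J} (hS : ClubName S) :
    ClubName (liftNm S : Nm (Ext Q I) J) := by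
  refine ⟨⟨fun x _ δ hβ h => ?_, fun x _ s hs hall => ?_⟩, fun x j => ?_⟩
  · refine hS.cond.closed x.1.1 trivial δ hβ fun β hβ q hq => ?_
    obtain ⟨z, hz, α, h1, h2, h3⟩ := h β hβ (x.restr q hq) (x.restr_le q hq)
    exact ⟨z.1.1, hz.1, α, h1, h2, h3⟩
  · exact hS.cond.noInf x.1.1 trivial s hs hall
  · obtain ⟨q, hq, i, hi, hqi⟩ := hS.unb x.1.1 j
    exact ⟨x.restr q hq, x.restr_le q hq, i, hi, hqi⟩

/-- the generic club -/
def newClub (Q I : Type) [Preorder Q] [LinearOrder I] : Nm (Ext Q I) I where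
  mem α := {x | ∀ y ≤ x, ∃ z ≤ y, z ∈ {w : Ext Q I | w.1.1 ∈ w.1.2.mem α}}
  reg α := Reg.closure _ (by
    intro x hx y hy
    exact hy.2.sub y.1.1 (Set.mem_Iic.2 le_rfl) α ((x.1.2.reg α).lower _ hx _ hy.1))

theorem exists_point [WellFoundedLT I] (hI : ∀ c : I, ∃ c', c < c') (x : Ext Q I) (β : I) :
    ∃ y ≤ x, ∃ β', β < β' ∧ ∀ p, p ∈ y.1.2.mem β' := by
  obtain ⟨⟨q, d⟩, hd, b, hb⟩ := x
  obtain ⟨β', hβ'⟩ := hI (max β b)
  have hββ' : β < β' := (le_max_left _ _).trans_lt hβ'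
  have hbβ' : b < β' := (le_max_right _ _).trans_lt hβ'
  refine ⟨⟨(q, insertPt d β'), ⟨?_, ?_⟩, ?_⟩, ⟨le_rfl, ?_, ?_⟩, β', hββ', insertPt_self _ _⟩
  · intro p hp δ hβ h
    rcases lt_trichotomy δ β' with h1 | h1 | h1
    · show p ∈ (insertPt d β').mem δ
      rw [insertPt_of_ne _ h1.ne]
      refine hd.closed p hp δ hβ fun β hβ q hq => ?_
      obtain ⟨r, hr, α, h2, h3, h4⟩ := h β hβ q hq
      rw [insertPt_of_ne _ (h3.trans h1).ne] at h4
      exact ⟨r, hr, α, h2, h3, h4⟩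
    · subst h1; exact insertPt_self _ _ _
    · obtain ⟨r, hr, α, h2, h3, h4⟩ := h β' h1 p le_rfl
      rw [insertPt_of_ne _ h2.ne', hb α (hbβ'.trans h2).le] at h4
      exact h4.elim
  · intro p hp s hs hall
    by_cases h : ∃ n, β' ≤ s n
    · obtain ⟨n, hn⟩ := h
      have h1 : β' < s (n + 1) := hn.trans_lt (hs (Nat.lt_succ_self n))
      have h2 := hall (n + 1)
      rw [insertPt_of_ne _ h1.ne', hb _ (hbβ'.trans h1).le] at h2
      exact h2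
    · push Not at h
      refine hd.noInf p hp s hs fun n => ?_
      have := hall n
      rwa [insertPt_of_ne _ (h n).ne] at this
  · obtain ⟨c, hc⟩ := hI β'
    refine ⟨c, fun α hα => ?_⟩
    show (insertPt d β').mem α = ∅
    rw [insertPt_of_ne _ (hc.trans_le hα).ne', hb α (hbβ'.trans (hc.trans_le hα)).le]
  · intro p hp α hα
    have h1 : α < b := by
      by_contra hcon
      rw [hb α (not_lt.1 hcon)] at hα
      exact hα
    show p ∈ (insertPt d β').mem α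
    rw [insertPt_of_ne _ (h1.trans hbβ').ne]
    exact hα
  · intro p hp α γ hαγ hα hγ
    have h1 : γ < b := by
      by_contra hcon
      rw [hb γ (not_lt.1 hcon)] at hγ
      exact hγ
    change p ∈ (insertPt d β').mem α at hα
    rwa [insertPt_of_ne _ ((hαγ.trans_lt h1).trans hbβ').ne] at hα

theorem capture {x y : Ext Q I} (hy : y ≤ x) {β' : I} (hx : ∀ p, p ∈ x.1.2.mem β') {α : I}
    (hα : α ≤ β') {p : Q} (hp : p ≤ y.1.1) (h : p ∈ y.1.2.mem α) : p ∈ x.1.2.mem α :=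
  hy.2.ends p hp α β' hα h (hx p)

theorem newClub_clubName [WellFoundedLT I] (hI : ∀ c : I, ∃ c', c < c')
    (hω : ∀ f : ℕ → I, ∃ b, ∀ n, f n ≤ b) : ClubName (newClub Q I) := by
  refine ⟨⟨fun x _ δ hβ h => ?_, fun x _ s hs hall => ?_⟩, fun x j => ?_⟩
  · intro y hy
    obtain ⟨y1, hy1, β', hδβ', hpt⟩ := exists_point hI y δ
    refine ⟨y1, hy1, ?_⟩
    refine y1.2.1.closed y1.1.1 (Set.mem_Iic.2 le_rfl) δ hβ fun β hβ q hq => ?_
    obtain ⟨z, hz, α, h1, h2, h3⟩ := h β hβ (y1.restr q hq)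
      ((y1.restr_le q hq).trans (hy1.trans hy))
    obtain ⟨w, hw, hwα⟩ := h3 z le_rfl
    have hwy : w ≤ y1 := (hw.trans hz).trans (y1.restr_le q hq)
    exact ⟨w.1.1, (hw.trans hz).1, α, h1, h2,
      capture hwy hpt (h2.trans hδβ').le le_rfl hwα⟩
  · obtain ⟨c, hc⟩ := hω s
    obtain ⟨y1, hy1, β', hcβ', hpt⟩ := exists_point hI x c
    refine y1.2.1.noInf y1.1.1 (Set.mem_Iic.2 le_rfl) s hs fun n => ?_
    refine (y1.1.2.reg _).dense _ fun q hq => ?_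
    obtain ⟨z, hz, hzα⟩ := hall n (y1.restr q hq) ((y1.restr_le q hq).trans hy1)
    exact ⟨z.1.1, hz.1, capture (hz.trans (y1.restr_le q hq)) hpt ((hc n).trans hcβ'.le) le_rfl hzα⟩
  · obtain ⟨y, hy, β', hjβ', hpt⟩ := exists_point hI x j
    refine ⟨y, hy, β', hjβ', fun y' hy' => ⟨y', le_rfl, ?_⟩⟩
    exact hy'.2.sub y'.1.1 (Set.mem_Iic.2 le_rfl) β' (hpt _)

/-- `P` forces that there is no (partial) function from `A` onto `B` -/
def NoSurj (P A B : Type) [Preorder P] : Prop :=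
  ∀ F : A → B → Set P, (∀ a b, IsLowerSet (F a b)) → ∀ p : P,
    (∀ p' ≤ p, ∀ a b b', p' ∈ F a b → p' ∈ F a b' → b = b') →
      ¬ ∀ b, ∀ p' ≤ p, ∃ p'' ≤ p', ∃ a, p'' ∈ F a b

theorem NoSurj.ext {A B : Type} (hD : Dist Q I A) (h : NoSurj Q A B) : NoSurj (Ext Q I) A B := by
  classical
  intro F hF x hsv honto
  let D : A → Q → Nm Q I → Prop := fun a r e =>
    ∃ h : IsCond (Set.Iic r) e ∧ Bdd e, (∃ b, Ext.mk r e h ∈ F a b) ∨
      ∀ b, ∀ y ≤ Ext.mk r e h, y ∉ F a b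
  have hDO : ∀ a, DO (D a) := by
    intro a
    constructor
    · rintro r r' d d' ⟨h, h2⟩ hr hc hb hee
      have hle : Ext.mk r' d' ⟨hc, hb⟩ ≤ Ext.mk r d h := ⟨hr, hee⟩
      refine ⟨⟨hc, hb⟩, ?_⟩
      rcases h2 with ⟨b, h3⟩ | h3
      · exact Or.inl ⟨b, hF a b hle h3⟩
      · exact Or.inr fun b y hy => h3 b y (hy.trans hle)
    · intro r d hc hb
      by_cases hex : ∃ y ≤ Ext.mk r d ⟨hc, hb⟩, ∃ b, y ∈ F a b
      · obtain ⟨⟨⟨r', d'⟩, hy⟩, hle, b, hyb⟩ := hex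
        exact ⟨r', hle.1, d', hy.1, hy.2, hle.2, hy, Or.inl ⟨b, hyb⟩⟩
      · push Not at hex
        exact ⟨r, le_rfl, d, hc, hb, EE.refl _ _, ⟨hc, hb⟩, Or.inr fun b y hy => hex y hy b⟩
  obtain ⟨d', h1, h2, h3, h4⟩ := hD (Set.Iic x.1.1) (isLowerSet_Iic _) x.1.2 x.2.1 x.2.2 D hDO
  have hval : ∀ r ≤ x.1.1, IsCond (Set.Iic r) d' ∧ Bdd d' := fun r hr =>
    ⟨h1.mono (Set.Iic_subset_Iic.2 hr), h2⟩
  have hlex : ∀ r (hr : r ≤ x.1.1), Ext.mk r d' (hval r hr) ≤ x := fun r hr =>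
    ⟨hr, h3.mono (Set.Iic_subset_Iic.2 hr)⟩
  let G : A → B → Set Q := fun a b =>
    {r | ∃ hr : r ≤ x.1.1, Ext.mk r d' (hval r hr) ∈ F a b}
  refine h G ?_ x.1.1 ?_ ?_
  · rintro a b r r' hr' ⟨hr, hmem⟩
    refine ⟨hr'.trans hr, hF a b ?_ hmem⟩
    exact Ext.mk_le hr' (EE.refl _ _)
  · rintro p' hp' a b b' ⟨g1, g2⟩ ⟨g3, g4⟩
    exact hsv _ (hlex p' hp') a b b' g2 g4
  · intro b q' hq'
    obtain ⟨y, hy, a, hya⟩ := honto b _ (hlex q' hq')
    obtain ⟨⟨r, e⟩, hye⟩ := y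
    have hyle : r ≤ q' ∧ EE (Set.Iic r) e d' := hy
    have hrx : r ≤ x.1.1 := hyle.1.trans hq'
    obtain ⟨r', hr', hc, hcase⟩ := h4 a r hrx
    have hr'x : r' ≤ x.1.1 := hr'.trans hrx
    have hew : IsCond (Set.Iic r') e ∧ Bdd e :=
      ⟨IsCond.mono hye.1 (Set.Iic_subset_Iic.2 hr'), hye.2⟩
    have hwy : Ext.mk r' e hew ≤ Ext.mk r e hye := Ext.mk_le hr' (EE.refl _ _)
    have hwd : Ext.mk r' e hew ≤ Ext.mk r' d' hc :=
      Ext.mk_le le_rfl (hyle.2.mono (Set.Iic_subset_Iic.2 hr'))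
    have hwab : Ext.mk r' e hew ∈ F a b := hF a b hwy hya
    refine ⟨r', hr'.trans hyle.1, a, hr'x, ?_⟩
    rcases hcase with ⟨b', hb'⟩ | hno
    · have hbb : b = b' := hsv _ (hwd.trans (hlex r' hr'x)) a b b' hwab (hF a b' hwd hb')
      rw [hbb]
      exact hb'
    · exact absurd hwab (hno b _ hwd)

end

open Cardinal in
theorem noSurj_of_small (P A B : Type) [Preorder P] (hB : ℵ₀ ≤ #B) (hP : #P < #B) (hA : #A < #B) :
    NoSurj P A B := by
  intro F hF p hsv honto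
  have h1 : ∀ b, ∃ g : A × P, g.2 ≤ p ∧ g.2 ∈ F g.1 b := by
    intro b
    obtain ⟨p'', h1, a, h2⟩ := honto b p le_rfl
    exact ⟨(a, p''), h1, h2⟩
  choose g hg using h1
  have hinj : Function.Injective g := by
    intro b b' h
    refine hsv (g b).2 (hg b).1 (g b).1 b b' (hg b).2 ?_
    rw [h]
    exact (hg b').2
  have h2 : #B ≤ #(A × P) := mk_le_of_injective hinj
  rw [mk_prod, lift_id, lift_id] at h2
  exact absurd h2 (not_le.2 (mul_lt_of_lt hB hA hP))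

end Pool.Agent.helper79.Club
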