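import Mathlib

/-!
The forcing relation for sentences on names for subsets of ground-model sets.

The ground model is the universe `Type`.  A sentence of the forcing language is represented by the
set of all conditions which force it, given by the usual recursive clauses.
-/

set_option autoImplicit false

namespace Pool.Agent.helper79.ClubForcing

open Cardinal

/-- A `P`-name for a subset of the ground-model set `A`: a set of pairs `(a, p)`, with `a : A`
and `p` a condition. -/
abbrev Name (P A : Type) : Type := Set (A × P)

section

variable {P : Type} [PartialOrder P]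

/-- `p` forces `a ∈ S` iff the conditions `r` lying below some `s` with `(a, s) ∈ S` are dense
below `p`. -/
def mem {A : Type} (a : A) (S : Name P A) : Set P :=
  {p | ∀ q ≤ p, ∃ r ≤ q, ∃ s, r ≤ s ∧ (a, s) ∈ S}

/-- `p` forces `¬ φ` iff no `q ≤ p` forces `φ`. -/
def neg (φ : Set P) : Set P := {p | ∀ q ≤ p, q ∉ φ}

/-- `p` forces `φ ∧ ψ` iff `p` forces both. -/
def conj (φ ψ : Set P) : Set P := {p | p ∈ φ ∧ p ∈ ψ}

/-- `p` forces `∀ a ∈ A, φ a`, for a ground-model set `A`, iff `p` forces `φ a` for all `a`. -/
def all {A : Type} (φ : A → Set P) : Set P := {p | ∀ a, p ∈ φ a}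

/-- `∃ a ∈ A, φ a` is `¬ ∀ a ∈ A, ¬ φ a`. -/
def ex {A : Type} (φ : A → Set P) : Set P := neg (all fun a => neg (φ a))

/-- `φ → ψ` is `¬ (φ ∧ ¬ ψ)`. -/
def imp (φ ψ : Set P) : Set P := neg (conj φ (neg ψ))

/-- The sentence: `C` is unbounded in `I`. -/
def unbounded {I : Type} [LinearOrder I] (C : Name P I) : Set P :=
  all fun β : I => ex fun α : Set.Ioi β => mem α.1 C

/-- The sentence: for every limit `δ` of `I`, if `C` is unbounded below `δ`, then `δ ∈ C`. -/
def closed {I : Type} [LinearOrder I] (C : Name P I) : Set P :=
  all fun δ : {δ : I // Order.IsSuccLimit δ} =>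
    imp (all fun β : Set.Iio δ.1 => ex fun α : Set.Ioo β.1 δ.1 => mem α.1 C) (mem δ.1 C)

/-- The sentence: no infinite subset of `I` of the ground model is a subset of `C`. -/
def noInfiniteGroundSubset {I : Type} (C : Name P I) : Set P :=
  all fun X : {X : Set I // X.Infinite} => neg (all fun x : X.1 => mem x.1 C)

/-- The sentence: the set `F` of pairs is (the graph of) a function. -/
def isFunction {A B : Type} (F : Name P (A × B)) : Set P :=
  all fun x : {x : A × B × B // x.2.1 ≠ x.2.2} =>
    neg (conj (mem (x.1.1, x.1.2.1) F) (mem (x.1.1, x.1.2.2) F))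

/-- The sentence: every element of `B` is the second coordinate of an element of `F`. -/
def isOnto {A B : Type} (F : Name P (A × B)) : Set P :=
  all fun b : B => ex fun a : A => mem (a, b) F

end

/-- `P` preserves all cardinals: whenever `B` is uncountable and `A` has smaller cardinality, no
condition forces that some name is (the graph of) a function from a subset of `A` onto `B`. -/
def PreservesCardinals (P : Type) [PartialOrder P] : Prop :=
  ∀ A B : Type, ℵ₀ < #B → #A < #B → ∀ F : Name P (A × B), ∀ p : P,
    p ∉ conj (isFunction F) (isOnto F)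

/-- The generalized continuum hypothesis. -/
def GCH : Prop := ∀ c : Cardinal.{0}, ℵ₀ ≤ c → 2 ^ c = Order.succ c

end Pool.Agent.helper79.ClubForcing
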