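import Pool.Agent.helper79.ClubNames

/-!
The key distributivity lemma: if a name `E` for a club in `J` without infinite ground-model subset is
available, then closed initial segments without infinite ground-model subset can be extended into
`J` many dense open classes.
-/

set_option autoImplicit false

namespace Pool.Agent.helper79.Club

/-- `E` names a club without infinite ground-model subset -/
structure ClubName {Q J : Type} [Preorder Q] [LinearOrder J] (E : Nm Q J) : Prop where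
  cond : IsCond Set.univ E
  unb : ∀ (p : Q) (j : J), ∃ q ≤ p, ∃ i, j < i ∧ q ∈ E.mem i

section

variable {Q I J : Type} [Preorder Q] [LinearOrder I] [WellFoundedLT I] [LinearOrder J]
  [WellFoundedLT J]

/-- adding a point to a name -/
noncomputable def insertPt (d : Nm Q I) (ε : I) : Nm Q I where
  mem α := open Classical in if α = ε then Set.univ else d.mem α
  reg α := by
    split_ifs
    · exact Reg.univ
    · exact d.reg α

theorem insertPt_self (d : Nm Q I) (ε : I) (p : Q) : p ∈ (insertPt d ε).mem ε := by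
  simp [insertPt]

theorem insertPt_of_ne (d : Nm Q I) {ε α : I} (h : α ≠ ε) :
    (insertPt d ε).mem α = d.mem α := by
  simp [insertPt, h]

/-- least upper bound of `b0` and the values of `b` on `S` -/
noncomputable def eps (b0 : I) (b : J → I) (S : Set J) : I :=
  open Classical in
  if h : {ε : I | b0 ≤ ε ∧ ∀ j ∈ S, b j ≤ ε}.Nonempty then
    WellFounded.min (wellFounded_lt (α := I)) {ε : I | b0 ≤ ε ∧ ∀ j ∈ S, b j ≤ ε} h
  else b0

theorem eps_spec (hJ : ∀ f : J → I, ∃ b, ∀ j, f j ≤ b) (b0 : I) (b : J → I) (S : Set J) :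
    b0 ≤ eps b0 b S ∧ (∀ j ∈ S, b j ≤ eps b0 b S) ∧
      ∀ ε, b0 ≤ ε → (∀ j ∈ S, b j ≤ ε) → eps b0 b S ≤ ε := by
  have h : {ε : I | b0 ≤ ε ∧ ∀ j ∈ S, b j ≤ ε}.Nonempty := by
    obtain ⟨c, hc⟩ := hJ b
    exact ⟨max b0 c, le_max_left _ _, fun j _ => (hc j).trans (le_max_right _ _)⟩
  have hm := WellFounded.min_mem (wellFounded_lt (α := I)) _ h
  refine ⟨?_, ?_, ?_⟩
  · simp only [eps, dif_pos h]
    exact hm.1
  · simp only [eps, dif_pos h]
    exact hm.2
  · intro ε h1 h2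
    simp only [eps, dif_pos h]
    exact not_lt.1 (WellFounded.not_lt_min (wellFounded_lt (α := I))
      {ε : I | b0 ≤ ε ∧ ∀ j ∈ S, b j ≤ ε} ⟨h1, h2⟩)

theorem eps_congr (b0 : I) (b b' : J → I) (S : Set J) (h : ∀ j ∈ S, b j = b' j) :
    eps b0 b S = eps b0 b' S := by
  have : {ε : I | b0 ≤ ε ∧ ∀ j ∈ S, b j ≤ ε} = {ε : I | b0 ≤ ε ∧ ∀ j ∈ S, b' j ≤ ε} := by
    ext ε
    constructor
    · rintro ⟨h1, h2⟩
      exact ⟨h1, fun j hj => by rw [← h j hj]; exact h2 j hj⟩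
    · rintro ⟨h1, h2⟩
      exact ⟨h1, fun j hj => by rw [h j hj]; exact h2 j hj⟩
  unfold eps
  rw [this]

/-- union of the stages in `S` -/
noncomputable def un (d0 : Nm Q I) (b0 : I) (b : J → I) (d : J → Nm Q I) (S : Set J) : Nm Q I where
  mem α := open Classical in
    if α < b0 then d0.mem α
    else if h : {j : J | j ∈ S ∧ α < b j}.Nonempty then
      (d (WellFounded.min (wellFounded_lt (α := J)) {j : J | j ∈ S ∧ α < b j} h)).mem α
    else ∅
  reg α := by
    split_ifs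
    · exact d0.reg α
    · exact (d _).reg α
    · exact Reg.empty

theorem un_lt (d0 : Nm Q I) (b0 : I) (b : J → I) (d : J → Nm Q I) (S : Set J) {α : I}
    (h : α < b0) : (un d0 b0 b d S).mem α = d0.mem α := by
  simp [un, h]

theorem un_none (d0 : Nm Q I) (b0 : I) (b : J → I) (d : J → Nm Q I) (S : Set J) {α : I}
    (h : ¬ α < b0) (h2 : ∀ j ∈ S, ¬ α < b j) : (un d0 b0 b d S).mem α = ∅ := by
  have : ¬ {j : J | j ∈ S ∧ α < b j}.Nonempty := by
    rintro ⟨j, h3, h4⟩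
    exact h2 j h3 h4
  simp only [un, if_neg h, dif_neg this]

theorem un_some (d0 : Nm Q I) (b0 : I) (b : J → I) (d : J → Nm Q I) (S : Set J) {α : I}
    (h : ¬ α < b0) {j : J} (hj : j ∈ S) (hα : α < b j) :
    ∃ k ∈ S, k ≤ j ∧ α < b k ∧ (∀ l ∈ S, l < k → b l ≤ α) ∧
      (un d0 b0 b d S).mem α = (d k).mem α := by
  have hne : {j : J | j ∈ S ∧ α < b j}.Nonempty := ⟨j, hj, hα⟩
  have hm := WellFounded.min_mem (wellFounded_lt (α := J)) _ hne
  refine ⟨_, hm.1, ?_, hm.2, ?_, ?_⟩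
  · exact not_lt.1 (WellFounded.not_lt_min (wellFounded_lt (α := J))
      {j : J | j ∈ S ∧ α < b j} ⟨hj, hα⟩)
  · intro l hl hlt
    by_contra hcon
    exact WellFounded.not_lt_min (wellFounded_lt (α := J))
      {j : J | j ∈ S ∧ α < b j} ⟨hl, not_le.1 hcon⟩ hlt
  · simp only [un, if_neg h, dif_pos hne]

theorem un_congr (d0 : Nm Q I) (b0 : I) (b b' : J → I) (d d' : J → Nm Q I) (S : Set J)
    (h : ∀ j ∈ S, b j = b' j) (h' : ∀ j ∈ S, d j = d' j) :
    un d0 b0 b d S = un d0 b0 b' d' S := by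
  have key : ∀ α, (un d0 b0 b d S).mem α = (un d0 b0 b' d' S).mem α := by
    intro α
    by_cases h1 : α < b0
    · rw [un_lt _ _ _ _ _ h1, un_lt _ _ _ _ _ h1]
    · by_cases h2 : ∃ j ∈ S, α < b j
      · have hset : {j : J | j ∈ S ∧ α < b j} = {j : J | j ∈ S ∧ α < b' j} := by
          ext j
          constructor
          · rintro ⟨h3, h4⟩; exact ⟨h3, by rw [← h j h3]; exact h4⟩
          · rintro ⟨h3, h4⟩; exact ⟨h3, by rw [h j h3]; exact h4⟩
        obtain ⟨j, hj, hα⟩ := h2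
        have hne : {j : J | j ∈ S ∧ α < b j}.Nonempty := ⟨j, hj, hα⟩
        have hne' : {j : J | j ∈ S ∧ α < b' j}.Nonempty := by rw [← hset]; exact hne
        have hmin : WellFounded.min (wellFounded_lt (α := J)) _ hne =
            WellFounded.min (wellFounded_lt (α := J)) _ hne' := by
          congr 1
        simp only [un, if_neg h1, dif_pos hne, dif_pos hne']
        rw [hmin, h' _ (WellFounded.min_mem (wellFounded_lt (α := J)) _ hne').1]
      · push Not at h2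
        rw [un_none _ _ _ _ _ h1 (fun j hj => not_lt.2 (h2 j hj)),
          un_none _ _ _ _ _ h1 (fun j hj => by rw [← h j hj]; exact not_lt.2 (h2 j hj))]
  have : (un d0 b0 b d S).mem = (un d0 b0 b' d' S).mem := funext key
  cases hu : un d0 b0 b d S
  cases hv : un d0 b0 b' d' S
  rw [hu, hv] at this
  simpa using this

/-- invariants of the construction at stage `j` -/
structure Inv (U : Set Q) (E : Nm Q J) (d0 : Nm Q I) (b0 : I) (b : J → I) (d : J → Nm Q I)
    (j : J) : Prop where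
  lt : eps b0 b (Set.Iio j) < b j
  cond : IsCond U (d j)
  bd : ∀ α, b j ≤ α → (d j).mem α = ∅
  low : ∀ α, α < eps b0 b (Set.Iio j) → (d j).mem α = (un d0 b0 b d (Set.Iio j)).mem α
  high : ∀ α, eps b0 b (Set.Iio j) ≤ α → ∀ p, p ∈ (d j).mem α → p ∈ E.mem j

section Consequences

variable {U : Set Q} {E : Nm Q J} {d0 : Nm Q I} {b0 : I} {b : J → I} {d : J → Nm Q I}
  {S : Set J}

theorem b_strictMono (hJ : ∀ f : J → I, ∃ b, ∀ j, f j ≤ b)
    (hinv : ∀ j ∈ S, Inv U E d0 b0 b d j) {j' j : J} (hj : j ∈ S) (h : j' < j) : b j' < b j :=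
  ((eps_spec hJ b0 b (Set.Iio j)).2.1 j' h).trans_lt (hinv j hj).lt

theorem b0_lt (hJ : ∀ f : J → I, ∃ b, ∀ j, f j ≤ b)
    (hinv : ∀ j ∈ S, Inv U E d0 b0 b d j) {j : J} (hj : j ∈ S) : b0 < b j :=
  (eps_spec hJ b0 b (Set.Iio j)).1.trans_lt (hinv j hj).lt

theorem coherence (hJ : ∀ f : J → I, ∃ b, ∀ j, f j ≤ b) (hS : IsLowerSet S)
    (hinv : ∀ j ∈ S, Inv U E d0 b0 b d j) (j : J) :
    j ∈ S → ∀ j' < j, ∀ α < b j', (d j).mem α = (d j').mem α := by
  induction j using WellFoundedLT.induction with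
  | _ j ih =>
    intro hj j' hj' α hα
    have hj'S : j' ∈ S := hS hj'.le hj
    have e1 := (eps_spec hJ b0 b (Set.Iio j)).2.1 j' hj'
    rw [(hinv j hj).low α (hα.trans_le e1)]
    by_cases h0 : α < b0
    · rw [un_lt _ _ _ _ _ h0, (hinv j' hj'S).low α
        (h0.trans_le (eps_spec hJ b0 b (Set.Iio j')).1), un_lt _ _ _ _ _ h0]
    · obtain ⟨k, hk, hkj, hαk, hmin, heq⟩ := un_some d0 b0 b d (Set.Iio j) h0 hj' hα
      rw [heq]
      rcases hkj.lt_or_eq with h | h
      · exact (ih j' hj' hj'S k h α hαk).symm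
      · rw [h]

theorem un_eq (hJ : ∀ f : J → I, ∃ b, ∀ j, f j ≤ b) (hS : IsLowerSet S)
    (hinv : ∀ j ∈ S, Inv U E d0 b0 b d j) {j : J} (hj : j ∈ S) {α : I} (hα : α < b j) :
    (un d0 b0 b d S).mem α = (d j).mem α := by
  by_cases h0 : α < b0
  · rw [un_lt _ _ _ _ _ h0, (hinv j hj).low α
      (h0.trans_le (eps_spec hJ b0 b (Set.Iio j)).1), un_lt _ _ _ _ _ h0]
  · obtain ⟨k, hk, hkj, hαk, hmin, heq⟩ := un_some d0 b0 b d S h0 hj hα
    rw [heq]
    rcases hkj.lt_or_eq with h | h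
    · exact (coherence hJ hS hinv j hj k h α hαk).symm
    · rw [h]

theorem un_location (hJ : ∀ f : J → I, ∃ b, ∀ j, f j ≤ b)
    (hS : IsLowerSet S) (hinv : ∀ j ∈ S, Inv U E d0 b0 b d j) {α : I} (h0 : b0 ≤ α) {p : Q}
    (hp : p ∈ (un d0 b0 b d S).mem α) :
    ∃ j ∈ S, α < b j ∧ p ∈ E.mem j := by
  by_cases h : ∃ j ∈ S, α < b j
  · obtain ⟨j, hj, hα⟩ := h
    obtain ⟨k, hk, hkj, hαk, hmin, heq⟩ := un_some d0 b0 b d S (not_lt.2 h0) hj hα
    rw [heq] at hp
    refine ⟨k, hk, hαk, (hinv k hk).high α ?_ p hp⟩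
    exact (eps_spec hJ b0 b (Set.Iio k)).2.2 α h0 (fun l hl => hmin l (hS (le_of_lt hl) hk) hl)
  · push Not at h
    rw [un_none _ _ _ _ _ (not_lt.2 h0) (fun j hj => not_lt.2 (h j hj))] at hp
    exact hp.elim

theorem un_ge_eps (hJ : ∀ f : J → I, ∃ b, ∀ j, f j ≤ b) {α : I}
    (hα : eps b0 b S ≤ α) : (un d0 b0 b d S).mem α = ∅ := by
  obtain ⟨e1, e2, _⟩ := eps_spec hJ b0 b S
  exact un_none _ _ _ _ _ (not_lt.2 (e1.trans hα)) (fun j hj => not_lt.2 ((e2 j hj).trans hα))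

/-- `un` is closed below `eps` -/
theorem un_closed (hJ : ∀ f : J → I, ∃ b, ∀ j, f j ≤ b) (hS : IsLowerSet S)
    (hinv : ∀ j ∈ S, Inv U E d0 b0 b d j) (hd0 : IsCond U d0)
    {p : Q} (hp : p ∈ U) {δ : I} (hδ : δ < eps b0 b S) (hβ : ∃ β, β < δ)
    (h : UnbBelow p (un d0 b0 b d S) δ) : p ∈ (un d0 b0 b d S).mem δ := by
  by_cases h0 : δ < b0
  · rw [un_lt _ _ _ _ _ h0]
    refine hd0.closed p hp δ hβ fun β hβ q hq => ?_
    obtain ⟨r, hr, α, h1, h2, h3⟩ := h β hβ q hq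
    rw [un_lt _ _ _ _ _ (h2.trans h0)] at h3
    exact ⟨r, hr, α, h1, h2, h3⟩
  · have : ∃ j ∈ S, δ < b j := by
      by_contra hcon
      push Not at hcon
      exact absurd ((eps_spec hJ b0 b S).2.2 δ (not_lt.1 h0) hcon) (not_le.2 hδ)
    obtain ⟨j, hj, hδj⟩ := this
    rw [un_eq hJ hS hinv hj hδj]
    refine (hinv j hj).cond.closed p hp δ hβ fun β hβ q hq => ?_
    obtain ⟨r, hr, α, h1, h2, h3⟩ := h β hβ q hq
    rw [un_eq hJ hS hinv hj (h2.trans hδj)] at h3
    exact ⟨r, hr, α, h1, h2, h3⟩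

theorem un_noInf (hJ : ∀ f : J → I, ∃ b, ∀ j, f j ≤ b) (hS : IsLowerSet S)
    (hinv : ∀ j ∈ S, Inv U E d0 b0 b d j) (hd0 : IsCond U d0) (hE : ClubName E)
    {p : Q} (hp : p ∈ U) {x : ℕ → I} (hx : StrictMono x)
    (hall : ∀ n, p ∈ (un d0 b0 b d S).mem (x n)) : False := by
  have h1 : ∃ n, b0 ≤ x n := by
    by_contra hcon
    push Not at hcon
    refine hd0.noInf p hp x hx fun n => ?_
    have := hall n
    rwa [un_lt _ _ _ _ _ (hcon n)] at this
  obtain ⟨n0, hn0⟩ := h1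
  have h2 : ∀ j ∈ S, ∃ n, b j ≤ x n := by
    intro j hj
    by_contra hcon
    push Not at hcon
    refine (hinv j hj).cond.noInf p hp x hx fun n => ?_
    have := hall n
    rwa [un_eq hJ hS hinv hj (hcon n)] at this
  let G : Type := {j : J // j ∈ S ∧ p ∈ E.mem j}
  have hG : Nonempty G := by
    obtain ⟨j, hj, _, h3⟩ := un_location hJ hS hinv hn0 (hall n0)
    exact ⟨⟨j, hj, h3⟩⟩
  have hG2 : NoMaxOrder G := by
    refine ⟨fun ⟨j, hj, _⟩ => ?_⟩
    obtain ⟨n, hn⟩ := h2 j hj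
    have h3 : b0 ≤ x (max n n0) := hn0.trans (hx.monotone (le_max_right _ _))
    obtain ⟨j', hj', h4, h5⟩ := un_location hJ hS hinv h3 (hall _)
    refine ⟨⟨j', hj', h5⟩, ?_⟩
    have h6 : b j < b j' := (hn.trans (hx.monotone (le_max_left _ _))).trans_lt h4
    show j < j'
    by_contra hcon
    rcases (not_lt.1 hcon).lt_or_eq with h | h
    · exact absurd (b_strictMono hJ hinv hj h) (not_lt.2 h6.le)
    · rw [h] at h6
      exact lt_irrefl _ h6
  obtain ⟨y, hy⟩ := Nat.exists_strictMono G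
  exact hE.cond.noInf p trivial (fun n => (y n).1) (fun m n hmn => hy hmn) fun n => (y n).2.2

/-- the union together with its supremum is a condition -/
theorem plus_cond (hJ : ∀ f : J → I, ∃ b, ∀ j, f j ≤ b) (hS : IsLowerSet S)
    (hinv : ∀ j ∈ S, Inv U E d0 b0 b d j) (hd0 : IsCond U d0) (hE : ClubName E) :
    IsCond U (insertPt (un d0 b0 b d S) (eps b0 b S)) := by
  constructor
  · intro p hp δ hβ h
    rcases lt_trichotomy δ (eps b0 b S) with h1 | h1 | h1
    · rw [insertPt_of_ne _ h1.ne]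
      refine un_closed hJ hS hinv hd0 hp h1 hβ fun β hβ q hq => ?_
      obtain ⟨r, hr, α, h2, h3, h4⟩ := h β hβ q hq
      rw [insertPt_of_ne _ (h3.trans h1).ne] at h4
      exact ⟨r, hr, α, h2, h3, h4⟩
    · rw [h1]
      exact insertPt_self _ _ _
    · obtain ⟨r, hr, α, h2, h3, h4⟩ := h _ h1 p le_rfl
      rw [insertPt_of_ne _ h2.ne', un_ge_eps hJ h2.le] at h4
      exact h4.elim
  · intro p hp x hx hall
    by_cases h : ∃ n, eps b0 b S ≤ x n
    · obtain ⟨n, hn⟩ := h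
      have h1 : eps b0 b S < x (n + 1) := hn.trans_lt (hx (Nat.lt_succ_self n))
      have h2 := hall (n + 1)
      rw [insertPt_of_ne _ h1.ne', un_ge_eps hJ h1.le] at h2
      exact h2.elim
    · push Not at h
      refine un_noInf hJ hS hinv hd0 hE hp hx fun n => ?_
      have := hall n
      rwa [insertPt_of_ne _ (h n).ne] at this

/-- unboundedness of the union at `eps` forces `E` to be unbounded below `i` -/
theorem unb_transfer (hJ : ∀ f : J → I, ∃ b, ∀ j, f j ≤ b) {i : J}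
    (hinv : ∀ j ∈ Set.Iio i, Inv U E d0 b0 b d j) (hd0 : IsCond U d0)
    (hb0 : ∀ α, b0 ≤ α → d0.mem α = ∅) {p : Q} (hp : p ∈ U)
    (hβ : ∃ β, β < eps b0 b (Set.Iio i))
    (h : UnbBelow p (un d0 b0 b d (Set.Iio i)) (eps b0 b (Set.Iio i))) :
    (∃ j, j < i) ∧ UnbBelow p E i := by
  have hS : IsLowerSet (Set.Iio i) := isLowerSet_Iio i
  obtain ⟨e1, e2, e3⟩ := eps_spec hJ b0 b (Set.Iio i)
  have hne : ∃ j, j < i := by
    by_contra hcon
    push Not at hcon
    have heq : eps b0 b (Set.Iio i) = b0 :=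
      le_antisymm (e3 b0 le_rfl fun j hj => absurd hj (not_lt.2 (hcon j))) e1
    rw [heq] at h hβ
    have := hd0.closed p hp b0 hβ fun β hβ q hq => by
      obtain ⟨r, hr, α, h1, h2, h3⟩ := h β hβ q hq
      rw [un_lt _ _ _ _ _ h2] at h3
      exact ⟨r, hr, α, h1, h2, h3⟩
    rw [hb0 b0 le_rfl] at this
    exact this
  refine ⟨hne, fun j hj q hq => ?_⟩
  have hlt : b j < eps b0 b (Set.Iio i) := by
    refine lt_of_le_of_ne (e2 j hj) fun heq => ?_
    rw [← heq] at h hβ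
    have := (hinv j hj).cond.closed p hp (b j) hβ fun β hβ q hq => by
      obtain ⟨r, hr, α, h1, h2, h3⟩ := h β hβ q hq
      rw [un_eq hJ hS hinv hj h2] at h3
      exact ⟨r, hr, α, h1, h2, h3⟩
    rw [(hinv j hj).bd _ le_rfl] at this
    exact this
  obtain ⟨r, hr, α, h1, h2, h3⟩ := h (b j) hlt q hq
  have h4 : b0 ≤ α := ((b0_lt hJ hinv hj).trans h1).le
  obtain ⟨j', hj', h5, h6⟩ := un_location hJ hS hinv h4 h3
  refine ⟨r, hr, j', ?_, hj', h6⟩
  by_contra hcon
  rcases (not_lt.1 hcon).lt_or_eq with h7 | h7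
  · have := b_strictMono hJ hinv hj h7
    exact absurd (h1.trans (h5.trans this)) (lt_irrefl _)
  · rw [h7] at h5
    exact absurd (h1.trans h5) (lt_irrefl _)

end Consequences

end

end Pool.Agent.helper79.Club
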