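import Mathlib

/-!
Names for subsets of well-ordered sets over a forcing notion, represented by functions into regular
open sets, conditions for adding a club by closed initial segments without infinite ground-model
subsets, and the basic mixing lemma.
-/

set_option autoImplicit false

namespace Pool.Agent.helper79.Club

/-- regular open subset of a preorder -/
structure Reg {Q : Type} [Preorder Q] (U : Set Q) : Prop where
  lower : ∀ p ∈ U, ∀ q ≤ p, q ∈ U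
  dense : ∀ p, (∀ q ≤ p, ∃ r ≤ q, r ∈ U) → p ∈ U

theorem Reg.univ {Q : Type} [Preorder Q] : Reg (Set.univ : Set Q) :=
  ⟨fun _ _ _ _ => trivial, fun _ _ => trivial⟩

theorem Reg.empty {Q : Type} [Preorder Q] : Reg (∅ : Set Q) :=
  ⟨fun _ h _ _ => h.elim, fun p h => by
    obtain ⟨r, _, h⟩ := h p le_rfl
    exact h.elim⟩

theorem Reg.inter {Q : Type} [Preorder Q] {U V : Set Q} (hU : Reg U) (hV : Reg V) :
    Reg (U ∩ V) :=
  ⟨fun p hp q hq => ⟨hU.lower p hp.1 q hq, hV.lower p hp.2 q hq⟩, fun p h =>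
    ⟨hU.dense p fun q hq => by
      obtain ⟨r, hr, h1⟩ := h q hq
      exact ⟨r, hr, h1.1⟩, hV.dense p fun q hq => by
      obtain ⟨r, hr, h1⟩ := h q hq
      exact ⟨r, hr, h1.2⟩⟩⟩

/-- regularisation of a lower set -/
theorem Reg.closure {Q : Type} [Preorder Q] (U : Set Q) (_hU : ∀ p ∈ U, ∀ q ≤ p, q ∈ U) :
    Reg {p : Q | ∀ q ≤ p, ∃ r ≤ q, r ∈ U} :=
  ⟨fun p hp q hq r hr => hp r (hr.trans hq), fun p h q hq => by
    obtain ⟨r, hr, h1⟩ := h q hq
    obtain ⟨s, hs, h2⟩ := h1 r le_rfl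
    exact ⟨s, hs.trans hr, h2⟩⟩

/-- name for a subset of `I` -/
structure Nm (Q I : Type) [Preorder Q] where
  mem : I → Set Q
  reg : ∀ α, Reg (mem α)

section

variable {Q I : Type} [Preorder Q] [LinearOrder I]

/-- `p` forces that `d` is unbounded below `δ` -/
def UnbBelow (p : Q) (d : Nm Q I) (δ : I) : Prop :=
  ∀ β < δ, ∀ q ≤ p, ∃ r ≤ q, ∃ α, β < α ∧ α < δ ∧ r ∈ d.mem α

theorem UnbBelow.mono {p p' : Q} {d : Nm Q I} {δ : I} (h : UnbBelow p d δ) (hp : p' ≤ p) :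
    UnbBelow p' d δ := fun β hβ q hq => h β hβ q (hq.trans hp)

/-- all elements of `U` force that `d` is closed and has no infinite ground-model subset -/
structure IsCond (U : Set Q) (d : Nm Q I) : Prop where
  closed : ∀ p ∈ U, ∀ δ, (∃ β, β < δ) → UnbBelow p d δ → p ∈ d.mem δ
  noInf : ∀ p ∈ U, ∀ x : ℕ → I, StrictMono x → ¬ ∀ n, p ∈ d.mem (x n)

/-- boundedness -/
def Bdd (d : Nm Q I) : Prop := ∃ b, ∀ α, b ≤ α → d.mem α = ∅

/-- all elements of `U` force that `d'` is an end-extension of `d` -/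
structure EE (U : Set Q) (d' d : Nm Q I) : Prop where
  sub : ∀ p ∈ U, ∀ α, p ∈ d.mem α → p ∈ d'.mem α
  ends : ∀ p ∈ U, ∀ α γ, α ≤ γ → p ∈ d'.mem α → p ∈ d.mem γ → p ∈ d.mem α

theorem IsCond.mono {U V : Set Q} {d : Nm Q I} (h : IsCond U d) (hV : V ⊆ U) : IsCond V d :=
  ⟨fun p hp => h.closed p (hV hp), fun p hp => h.noInf p (hV hp)⟩

theorem EE.mono {U V : Set Q} {d' d : Nm Q I} (h : EE U d' d) (hV : V ⊆ U) : EE V d' d :=
  ⟨fun p hp => h.sub p (hV hp), fun p hp => h.ends p (hV hp)⟩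

theorem EE.refl (U : Set Q) (d : Nm Q I) : EE U d d :=
  ⟨fun _ _ _ h => h, fun _ _ _ _ _ h _ => h⟩

theorem EE.trans {U : Set Q} {d'' d' d : Nm Q I} (h1 : EE U d'' d') (h2 : EE U d' d) :
    EE U d'' d :=
  ⟨fun p hp α h => h1.sub p hp α (h2.sub p hp α h), fun p hp α γ hαγ ha hg =>
    h2.ends p hp α γ hαγ (h1.ends p hp α γ hαγ ha (h2.sub p hp γ hg)) hg⟩

theorem IsCond.of_dense {U V : Set Q} {d : Nm Q I} (hU : IsLowerSet U)
    (hd : ∀ p ∈ U, ∃ r ≤ p, r ∈ V) (h : IsCond V d) : IsCond U d := by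
  refine ⟨fun p hp δ hδ hunb => (d.reg δ).dense p fun q hq => ?_, fun p hp x hx hall => ?_⟩
  · obtain ⟨r, hr, hrV⟩ := hd q (hU hq hp)
    exact ⟨r, hr, h.closed r hrV δ hδ (hunb.mono (hr.trans hq))⟩
  · obtain ⟨r, hr, hrV⟩ := hd p hp
    exact h.noInf r hrV x hx fun n => (d.reg _).lower p (hall n) r hr

theorem EE.of_dense {U V : Set Q} {d' d : Nm Q I} (hU : IsLowerSet U)
    (hd : ∀ p ∈ U, ∃ r ≤ p, r ∈ V) (h : EE V d' d) : EE U d' d := by
  refine ⟨fun p hp α hα => (d'.reg α).dense p fun q hq => ?_,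
    fun p hp α γ hαγ ha hg => (d.reg α).dense p fun q hq => ?_⟩
  · obtain ⟨r, hr, hrV⟩ := hd q (hU hq hp)
    exact ⟨r, hr, h.sub r hrV α ((d.reg α).lower p hα r (hr.trans hq))⟩
  · obtain ⟨r, hr, hrV⟩ := hd q (hU hq hp)
    exact ⟨r, hr, h.ends r hrV α γ hαγ ((d'.reg α).lower p ha r (hr.trans hq))
      ((d.reg γ).lower p hg r (hr.trans hq))⟩

/-- two names agree on `V` -/
def Agree (V : Set Q) (d e : Nm Q I) : Prop := ∀ p ∈ V, ∀ α, p ∈ d.mem α ↔ p ∈ e.mem α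

theorem IsCond.congr {V : Set Q} {d e : Nm Q I} (hV : IsLowerSet V) (ha : Agree V d e)
    (h : IsCond V d) : IsCond V e := by
  refine ⟨fun p hp δ hδ hunb => (ha p hp δ).1 (h.closed p hp δ hδ ?_), fun p hp x hx hall =>
    h.noInf p hp x hx fun n => (ha p hp _).2 (hall n)⟩
  intro β hβ q hq
  obtain ⟨r, hr, α, h1, h2, h3⟩ := hunb β hβ q hq
  exact ⟨r, hr, α, h1, h2, (ha r (hV hr (hV hq hp)) α).2 h3⟩

theorem EE.of_agree {V : Set Q} {d e : Nm Q I} (ha : Agree V d e) : EE V d e :=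
  ⟨fun p hp α h => (ha p hp α).2 h, fun p hp α _ _ h _ => (ha p hp α).1 h⟩

theorem EE.congr_left {V : Set Q} {d d' e : Nm Q I} (ha : Agree V d d') (h : EE V d e) :
    EE V d' e :=
  ⟨fun p hp α hα => (ha p hp α).1 (h.sub p hp α hα), fun p hp α γ hαγ hα hγ =>
    h.ends p hp α γ hαγ ((ha p hp α).2 hα) hγ⟩

/-- mixing of names along a family of lower sets -/
def mix {ι : Type} (W : ι → Set Q) (hW : ∀ j, IsLowerSet (W j)) (e : ι → Nm Q I) : Nm Q I where
  mem α := {p | ∀ q ≤ p, ∃ r ≤ q, r ∈ {s | ∃ j, s ∈ W j ∧ s ∈ (e j).mem α}}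
  reg α := Reg.closure _ (by
    rintro p ⟨j, h1, h2⟩ q hq
    exact ⟨j, hW j hq h1, ((e j).reg α).lower p h2 q hq⟩)

theorem mix_agree {ι : Type} (W : ι → Set Q) (hW : ∀ j, IsLowerSet (W j)) (e : ι → Nm Q I)
    (hdis : ∀ j k p, p ∈ W j → p ∈ W k → j = k) (j : ι) : Agree (W j) (e j) (mix W hW e) := by
  intro p hp α
  constructor
  · intro h q hq
    exact ⟨q, le_rfl, j, hW j hq hp, ((e j).reg α).lower p h q hq⟩
  · intro h
    apply ((e j).reg α).dense p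
    intro q hq
    obtain ⟨r, hr, k, h1, h2⟩ := h q hq
    have := hdis j k r (hW j (hr.trans hq) hp) h1
    subst this
    exact ⟨r, hr, h2⟩

/-- dense open classes of conditions -/
structure DO (D : Q → Nm Q I → Prop) : Prop where
  opn : ∀ r r' d d', D r d → r' ≤ r → IsCond (Set.Iic r') d' → Bdd d' →
    EE (Set.Iic r') d' d → D r' d'
  dns : ∀ r d, IsCond (Set.Iic r) d → Bdd d → ∃ r' ≤ r, ∃ d', IsCond (Set.Iic r') d' ∧ Bdd d' ∧
    EE (Set.Iic r') d' d ∧ D r' d'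

/-- distributivity for families of dense open classes indexed by `A` -/
def Dist (Q I : Type) [Preorder Q] [LinearOrder I] (A : Type) : Prop :=
  ∀ U : Set Q, IsLowerSet U → ∀ d : Nm Q I, IsCond U d → Bdd d →
    ∀ D : A → Q → Nm Q I → Prop, (∀ a, DO (D a)) →
      ∃ d', IsCond U d' ∧ Bdd d' ∧ EE U d' d ∧ ∀ a, ∀ p ∈ U, ∃ r ≤ p, D a r d'

theorem dist_unit (hQ : ∀ f : Q → I, ∃ b, ∀ q, f q ≤ b) : Dist Q I Unit := by
  classical
  intro U hU d hd hb D hD
  by_cases hne : U.Nonempty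
  swap
  · exact ⟨d, hd, hb, EE.refl _ _, fun a p hp => (hne ⟨p, hp⟩).elim⟩
  -- good elements
  let S : Set Q := {s | s ∈ U ∧ ∃ e, IsCond (Set.Iic s) e ∧ Bdd e ∧ EE (Set.Iic s) e d ∧ D () s e}
  have hSd : ∀ p ∈ U, ∃ s ≤ p, s ∈ S := by
    intro p hp
    obtain ⟨r, hr, e, h1, h2, h3, h4⟩ := (hD ()).dns p d
      (hd.mono fun q hq => hU hq hp) hb
    exact ⟨r, hr, hU hr hp, e, h1, h2, h3, h4⟩
  haveI : Nonempty (Nm Q I) := ⟨d⟩
  haveI : Nonempty I := ⟨hb.choose⟩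
  choose! e he using fun (s : Q) (hs : s ∈ S) => hs.2
  let lt : Q → Q → Prop := WellOrderingRel
  let W : Q → Set Q := fun s => {p | s ∈ S ∧ p ≤ s ∧ ∀ s', lt s' s → s' ∈ S → ∀ t ≤ p, ¬ t ≤ s'}
  have hW : ∀ s, IsLowerSet (W s) := by
    rintro s p q hq ⟨h1, h2, h3⟩
    exact ⟨h1, hq.trans h2, fun s' hs' hs'S t ht => h3 s' hs' hs'S t (ht.trans hq)⟩
  have hdis : ∀ j k p, p ∈ W j → p ∈ W k → j = k := by
    rintro j k p ⟨h1, h2, h3⟩ ⟨h4, h5, h6⟩
    rcases trichotomous_of lt j k with h | h | h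
    · exact (h6 j h h1 p le_rfl h2).elim
    · exact h
    · exact (h3 k h h4 p le_rfl h5).elim
  have hWd : ∀ p ∈ U, ∃ r ≤ p, ∃ s, r ∈ W s := by
    intro p hp
    let T : Set Q := {s | s ∈ S ∧ ∃ t ≤ p, t ≤ s}
    have hT : T.Nonempty := by
      obtain ⟨s, hs, hsS⟩ := hSd p hp
      exact ⟨s, hsS, s, hs, le_rfl⟩
    have wf : WellFounded lt := IsWellFounded.wf
    obtain ⟨⟨hs1, t, ht1, ht2⟩, hmin⟩ :=
      And.intro (wf.min_mem T hT) (fun s' (h : s' ∈ T) => wf.not_lt_min T h)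
    refine ⟨t, ht1, wf.min T hT, hs1, ht2, ?_⟩
    intro s' hs' hs'S u hu hus'
    exact hmin s' ⟨hs'S, u, hu.trans ht1, hus'⟩ hs'
  -- bound
  choose! b hb' using fun (s : Q) (hs : s ∈ S) => (he s hs).2.1
  obtain ⟨c, hc⟩ := hQ b
  refine ⟨mix W hW e, ?_, ⟨c, ?_⟩, ?_, ?_⟩
  · refine IsCond.of_dense (V := {r | ∃ s, r ∈ W s}) hU
      (fun p hp => hWd p hp) ⟨?_, ?_⟩
    · rintro p ⟨s, hs⟩ δ hδ hunb
      have h1 : IsCond (W s) (e s) := (he s hs.1).1.mono fun q hq => hq.2.1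
      exact (h1.congr (hW s) (mix_agree W hW e hdis s)).closed p hs δ hδ hunb
    · rintro p ⟨s, hs⟩ x hx hall
      have h1 : IsCond (W s) (e s) := (he s hs.1).1.mono fun q hq => hq.2.1
      exact (h1.congr (hW s) (mix_agree W hW e hdis s)).noInf p hs x hx hall
  · intro α hα
    ext p
    simp only [mix, Set.mem_setOf_eq, Set.mem_empty_iff_false, iff_false, not_forall]
    refine ⟨p, le_rfl, ?_⟩
    rintro ⟨r, _, s, h1, h2⟩
    rw [hb' s h1.1 α ((hc s).trans hα)] at h2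
    exact h2
  · refine EE.of_dense (V := {r | ∃ s, r ∈ W s}) hU (fun p hp => hWd p hp) ⟨?_, ?_⟩
    · rintro p ⟨s, hs⟩ α hα
      have h1 : EE (W s) (e s) d := (he s hs.1).2.2.1.mono fun q hq => hq.2.1
      exact (h1.congr_left (mix_agree W hW e hdis s)).sub p hs α hα
    · rintro p ⟨s, hs⟩ α γ hαγ hα hγ
      have h1 : EE (W s) (e s) d := (he s hs.1).2.2.1.mono fun q hq => hq.2.1
      exact (h1.congr_left (mix_agree W hW e hdis s)).ends p hs α γ hαγ hα hγ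
  · rintro ⟨⟩ p hp
    obtain ⟨t, ht, s, hts⟩ := hWd p hp
    refine ⟨t, ht, ?_⟩
    have hsub : Set.Iic t ⊆ W s := fun q hq => hW s hq hts
    have hag : Agree (Set.Iic t) (e s) (mix W hW e) := fun q hq =>
      mix_agree W hW e hdis s q (hsub hq)
    have hlow : IsLowerSet (Set.Iic t) := isLowerSet_Iic t
    have h1 : IsCond (Set.Iic t) (e s) := (he s hts.1).1.mono fun q hq => (hsub hq).2.1
    refine (hD ()).opn s t (e s) _ (he s hts.1).2.2.2 hts.2.1 (h1.congr hlow hag) ⟨c, ?_⟩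
      (EE.of_agree fun q hq α => (hag q hq α).symm)
    intro α hα
    ext p
    simp only [mix, Set.mem_setOf_eq, Set.mem_empty_iff_false, iff_false, not_forall]
    refine ⟨p, le_rfl, ?_⟩
    rintro ⟨r, _, s, h1, h2⟩
    rw [hb' s h1.1 α ((hc s).trans hα)] at h2
    exact h2

theorem Dist.of_surj {A B : Type} (h : Dist Q I A) (f : A → B) (hf : Function.Surjective f) :
    Dist Q I B := by
  intro U hU d hd hb D hD
  obtain ⟨d', h1, h2, h3, h4⟩ := h U hU d hd hb (fun a => D (f a)) (fun a => hD (f a))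
  refine ⟨d', h1, h2, h3, fun b p hp => ?_⟩
  obtain ⟨a, rfl⟩ := hf b
  exact h4 a p hp

theorem dist_empty (A : Type) [IsEmpty A] : Dist Q I A := by
  intro U hU d hd hb D hD
  exact ⟨d, hd, hb, EE.refl _ _, fun a => (IsEmpty.false a).elim⟩

theorem Dist.option {A : Type} (h1 : Dist Q I Unit) (h : Dist Q I A) : Dist Q I (Option A) := by
  intro U hU d hd hb D hD
  obtain ⟨d', a1, a2, a3, a4⟩ := h U hU d hd hb (fun a => D (some a)) (fun a => hD (some a))
  obtain ⟨d'', b1, b2, b3, b4⟩ := h1 U hU d' a1 a2 (fun _ => D none) (fun _ => hD none)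
  refine ⟨d'', b1, b2, b3.trans a3, fun a p hp => ?_⟩
  cases a with
  | none => exact b4 () p hp
  | some a =>
    obtain ⟨r, hr, h⟩ := a4 a p hp
    have hsub : Set.Iic r ⊆ U := fun q hq => hU hq (hU hr hp)
    exact ⟨r, hr, (hD (some a)).opn r r d' d'' h le_rfl (b1.mono hsub) b2 (b3.mono hsub)⟩

theorem dist_finite (h1 : Dist Q I Unit) (A : Type) [Finite A] : Dist Q I A := by
  induction A using Finite.induction_empty_option with
  | of_equiv e h => exact h.of_surj e e.surjective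
  | h_empty => exact dist_empty _
  | h_option h => exact Dist.option h1 h

end

end Pool.Agent.helper79.Club
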