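import Pool.Agent.helper79.ClubExt

/-!
Facts on the well-orders `ω_ n`, for natural numbers `n`.
-/

set_option autoImplicit false

namespace Pool.Agent.helper79.Club

open Cardinal Ordinal

/-- the well-order `ω_ n` -/
abbrev L (n : ℕ) : Type := (ω_ (n : Ordinal.{0})).ToType

theorem mk_L (n : ℕ) : #(L n) = ℵ_ (n : Ordinal.{0}) := by
  rw [mk_toType, Ordinal.card_omega]

theorem aleph0_le_L (n : ℕ) : ℵ₀ ≤ #(L n) := by
  rw [mk_L]; exact aleph0_le_aleph _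

theorem mk_Iio_L (n : ℕ) (a : L n) : #(Set.Iio a) < ℵ_ (n : Ordinal.{0}) := by
  rw [← mk_L]
  apply mk_Iio_lt
  rw [mk_L, Cardinal.ord_aleph, Ordinal.type_toType]

theorem L_noMax (n : ℕ) (c : L n) : ∃ c', c < c' := by
  by_contra hcon
  push Not at hcon
  have h1 : #(L n) ≤ #(Set.Iio c) + 1 := by
    have h2 : (Set.univ : Set (L n)) = insert c (Set.Iio c) := by
      ext x
      simp only [Set.mem_univ, Set.mem_insert_iff, Set.mem_Iio, true_iff]
      exact (hcon x).eq_or_lt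
    rw [← mk_univ, h2]
    exact mk_insert_le
  have h3 := mk_Iio_L n c
  rw [← mk_L] at h3
  have h4 := aleph0_le_L n
  exact absurd h1 (not_le.2 (add_lt_of_lt h4 h3 (one_lt_aleph0.trans_le h4)))

theorem L_unbdd_card (n : ℕ) (s : Set (L (n + 1))) (hs : IsCofinal s) :
    ℵ_ ((n + 1 : ℕ) : Ordinal.{0}) ≤ #s := by
  refine le_trans ?_ (Order.cof_le hs)
  rw [Ordinal.cof_toType]
  rw [show ((n + 1 : ℕ) : Ordinal.{0}) = (n : Ordinal.{0}) + 1 by push_cast; rfl]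
  rw [cof_omega_add_one]

theorem aleph_lt_succ (n : ℕ) : ℵ_ (n : Ordinal.{0}) < ℵ_ ((n + 1 : ℕ) : Ordinal.{0}) := by
  rw [aleph_lt_aleph]
  exact_mod_cast Nat.lt_succ_self n

theorem aleph_succ_nat (n : ℕ) : ℵ_ ((n + 1 : ℕ) : Ordinal.{0}) = Order.succ (ℵ_ (n : Ordinal.{0})) := by
  rw [← aleph_succ]
  congr 1

theorem L_bdd (n : ℕ) {A : Type} (hA : #A ≤ ℵ_ (n : Ordinal.{0})) (f : A → L (n + 1)) :
    ∃ b, ∀ a, f a ≤ b := by
  by_contra hcon
  push Not at hcon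
  have h1 : IsCofinal (Set.range f) := by
    intro b
    obtain ⟨a, ha⟩ := hcon b
    exact ⟨f a, ⟨a, rfl⟩, ha.le⟩
  have h2 := (L_unbdd_card n _ h1).trans (mk_range_le.trans hA)
  exact absurd h2 (not_le.2 (aleph_lt_succ n))

theorem mk_Iic_L (n : ℕ) (a : L n) : #(Set.Iic a) < ℵ_ (n : Ordinal.{0}) := by
  obtain ⟨b, hb⟩ := L_noMax n a
  refine lt_of_le_of_lt (mk_le_mk_of_subset ?_) (mk_Iio_L n b)
  intro x hx
  exact lt_of_le_of_lt hx hb

end Pool.Agent.helper79.Club
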