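import Pool.Agent.helper79.ClubOrd

/-!
The iteration: Cohen forcing followed by the forcings `Ext _ (L n)`.
-/

set_option autoImplicit false

namespace Pool.Agent.helper79.Club

open Cardinal Ordinal

/-! ### Cohen forcing -/

/-- Cohen forcing on the set `A` -/
def Cohen (A : Type) : Type := {x : Finset A × Finset A // Disjoint x.1 x.2}

instance (A : Type) : Preorder (Cohen A) where
  le x y := y.1.1 ⊆ x.1.1 ∧ y.1.2 ⊆ x.1.2
  le_refl x := ⟨subset_rfl, subset_rfl⟩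
  le_trans x y z h1 h2 := ⟨h2.1.trans h1.1, h2.2.trans h1.2⟩

/-- the Cohen subset -/
def cohenNm (A : Type) [DecidableEq A] : Nm (Cohen A) A where
  mem α := {x | α ∈ x.1.1}
  reg α := by
    refine ⟨fun p hp q hq => hq.1 hp, fun p h => ?_⟩
    by_contra hcon
    have hdis : Disjoint p.1.1 (insert α p.1.2) := by
      rw [Finset.disjoint_insert_right]
      exact ⟨hcon, p.2⟩
    obtain ⟨r, hr, hrα⟩ := h ⟨(p.1.1, insert α p.1.2), hdis⟩ ⟨subset_rfl, Finset.subset_insert _ _⟩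
    exact Finset.disjoint_left.1 r.2 hrα (hr.2 (Finset.mem_insert_self _ _))

theorem cohen_clubName (A : Type) [LinearOrder A] (hfin : ∀ δ : A, (Set.Iio δ).Finite)
    (hA : ∀ c : A, ∃ c', c < c') : ClubName (cohenNm A) := by
  refine ⟨⟨?_, ?_⟩, ?_⟩
  · rintro p - δ ⟨β, hβ⟩ h
    obtain ⟨m, hm, hmax⟩ := Set.exists_max_image (Set.Iio δ) id (hfin δ) ⟨β, hβ⟩
    obtain ⟨r, hr, α, h1, h2, h3⟩ := h m hm p le_rfl
    exact absurd h1 (not_lt.2 (hmax α h2))
  · rintro p - x hx hall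
    refine Set.infinite_range_of_injective hx.injective ((Finset.finite_toSet p.1.1).subset ?_)
    rintro _ ⟨n, rfl⟩
    exact hall n
  · intro p j
    obtain ⟨c, hc⟩ : ∃ c, ∀ a ∈ p.1.2, a ≤ c := by
      by_cases hne : p.1.2.Nonempty
      · exact ⟨p.1.2.max' hne, fun a ha => Finset.le_max' _ _ ha⟩
      · refine ⟨j, fun a ha => (hne ⟨a, ha⟩).elim⟩
    obtain ⟨i, hi⟩ := hA (max j c)
    have hdis : Disjoint (insert i p.1.1) p.1.2 := by
      rw [Finset.disjoint_insert_left]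
      refine ⟨fun h => ?_, p.2⟩
      exact absurd (hc i h) (not_le.2 ((le_max_right _ _).trans_lt hi))
    exact ⟨⟨(insert i p.1.1, p.1.2), hdis⟩, ⟨Finset.subset_insert _ _, subset_rfl⟩, i,
      (le_max_left _ _).trans_lt hi, Finset.mem_insert_self _ _⟩

/-! ### The size of `Ext Q I` -/

theorem Nm.ext {Q I : Type} [Preorder Q] {d e : Nm Q I} (h : ∀ α, d.mem α = e.mem α) : d = e := by
  cases d; cases e
  congr 1
  funext α
  exact h α

theorem mk_Ext_le (Q : Type) [Preorder Q] (n : ℕ) (hQ : #Q ≤ ℵ_ (n : Ordinal.{0}))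
    (hgch : (2 : Cardinal.{0}) ^ ℵ_ (n : Ordinal.{0}) = ℵ_ ((n + 1 : ℕ) : Ordinal.{0})) :
    #(Ext Q (L (n + 1))) ≤ ℵ_ ((n + 1 : ℕ) : Ordinal.{0}) := by
  classical
  have hchoose : ∀ x : Ext Q (L (n + 1)), ∃ b, ∀ α, b ≤ α → x.1.2.mem α = ∅ := fun x => x.2.2
  choose b hb using hchoose
  let Φ : Ext Q (L (n + 1)) → Q × Σ β : L (n + 1), (Set.Iio β → Set Q) := fun x =>
    (x.1.1, ⟨b x, fun α => x.1.2.mem α.1⟩)
  have hΦ : Function.Injective Φ := by
    intro x y h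
    have h1 : (Φ x).1 = (Φ y).1 := congrArg Prod.fst h
    change x.1.1 = y.1.1 at h1
    have h2 : (⟨b x, fun α => x.1.2.mem α.1⟩ : Σ β : L (n + 1), (Set.Iio β → Set Q)) =
        ⟨b y, fun α => y.1.2.mem α.1⟩ := (congrArg Prod.snd h : (Φ x).2 = (Φ y).2)
    have h3 : b x = b y := congrArg Sigma.fst h2
    have h4 : ∀ α, x.1.2.mem α = y.1.2.mem α := by
      intro α
      by_cases hα : α < b x
      · have h5 : ∀ (z w : Σ β : L (n + 1), (Set.Iio β → Set Q)) (_ : z = w) (hz : α < z.1)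
            (hw : α < w.1), z.2 ⟨α, hz⟩ = w.2 ⟨α, hw⟩ := by
          rintro z _ rfl hz hw
          rfl
        exact h5 _ _ h2 hα (h3 ▸ hα)
      · rw [hb x α (not_lt.1 hα), hb y α (h3 ▸ (not_lt.1 hα))]
    apply Subtype.ext
    exact Prod.ext h1 (Nm.ext h4)
  refine (mk_le_of_injective hΦ).trans ?_
  have hinf : ℵ₀ ≤ ℵ_ ((n + 1 : ℕ) : Ordinal.{0}) := aleph0_le_aleph _
  have hinfn : ℵ₀ ≤ ℵ_ (n : Ordinal.{0}) := aleph0_le_aleph _
  rw [mk_prod, Cardinal.lift_id, Cardinal.lift_id]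
  refine (mul_le_mul' (hQ.trans (aleph_lt_succ n).le) ?_).trans (mul_eq_self hinf).le
  rw [mk_sigma]
  have hβ : ∀ β : L (n + 1), #(Set.Iio β → Set Q) ≤ ℵ_ ((n + 1 : ℕ) : Ordinal.{0}) := by
    intro β
    have h1 : #(Set.Iio β) ≤ ℵ_ (n : Ordinal.{0}) := by
      have := mk_Iio_L (n + 1) β
      rwa [aleph_succ_nat, Order.lt_succ_iff] at this
    have h2 : #(Set Q) ≤ 2 ^ ℵ_ (n : Ordinal.{0}) := by
      rw [mk_set]
      exact power_le_power_left two_ne_zero hQ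
    rw [mk_arrow, Cardinal.lift_id, Cardinal.lift_id]
    calc #(Set Q) ^ #(Set.Iio β) ≤ (2 ^ ℵ_ (n : Ordinal.{0})) ^ #(Set.Iio β) :=
          power_le_power_right h2
      _ ≤ (2 ^ ℵ_ (n : Ordinal.{0})) ^ ℵ_ (n : Ordinal.{0}) :=
          power_le_power_left (by
            intro h0
            rw [hgch] at h0
            exact absurd hinf (by rw [h0]; exact not_le.2 aleph0_pos)) h1
      _ = 2 ^ ℵ_ (n : Ordinal.{0}) := by rw [← power_mul, mul_eq_self hinfn]
      _ = ℵ_ ((n + 1 : ℕ) : Ordinal.{0}) := hgch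
  refine (sum_le_sum _ (fun _ => ℵ_ ((n + 1 : ℕ) : Ordinal.{0})) hβ).trans ?_
  rw [sum_const', mk_L]
  exact (mul_eq_self hinf).le

/-! ### The induction -/

/-- the properties of the `n`-th forcing -/
structure Stage (n : ℕ) (Q : Type) [Preorder Q] : Prop where
  ne : Nonempty Q
  card : #Q ≤ ℵ_ (n : Ordinal.{0})
  clubs : ∀ m ≤ n, ∃ E : Nm Q (L m), ClubName E
  pres : ∀ A B : Type, ℵ₀ < #B → #A < #B → NoSurj Q A B

theorem Stage.zero : Stage 0 (Cohen (L 0)) := by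
  classical
  have hcount : Countable (L 0) := by
    rw [← mk_le_aleph0_iff, mk_L]
    simp
  have hc : #(Cohen (L 0)) ≤ ℵ₀ := by
    have : Countable (Cohen (L 0)) := by
      unfold Cohen
      infer_instance
    exact mk_le_aleph0_iff.2 this
  refine ⟨⟨⟨(∅, ∅), Finset.disjoint_empty_left _⟩⟩, ?_, ?_, ?_⟩
  · simpa using hc
  · intro m hm
    obtain rfl : m = 0 := Nat.le_zero.1 hm
    have hcl := cohen_clubName (L 0) (fun δ => ?_) (L_noMax 0)
    · exact ⟨_, hcl⟩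
    · have := mk_Iio_L 0 δ
      rw [← Cardinal.lt_aleph0_iff_set_finite]
      simpa using this
  · intro A B hB hA
    exact noSurj_of_small _ A B hB.le (hc.trans_lt hB) hA

theorem Stage.dist {n : ℕ} {Q : Type} [Preorder Q] (h : Stage n Q) :
    ∀ m ≤ n, ∀ A : Type, #A ≤ ℵ_ (m : Ordinal.{0}) → Dist Q (L (n + 1)) A := by
  classical
  have h1 : Dist Q (L (n + 1)) Unit := dist_unit fun f => L_bdd n h.card f
  have key : ∀ m ≤ n, (∀ i : L m, Dist Q (L (n + 1)) (Set.Iic i)) →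
      ∀ A : Type, #A ≤ ℵ_ (m : Ordinal.{0}) → Dist Q (L (n + 1)) A := by
    intro m hm hD A hA
    obtain ⟨E, hE⟩ := h.clubs m hm
    have h2 : Dist Q (L (n + 1)) (L m) := dist_key hE (fun f => L_bdd n (by
      rw [mk_L, aleph_le_aleph]
      exact_mod_cast hm) f) (L_noMax (n + 1)) hD
    rcases isEmpty_or_nonempty A with hA0 | hA0
    · exact dist_empty A
    · rw [← mk_L] at hA
      obtain ⟨g⟩ : Nonempty (A ↪ L m) := hA
      exact h2.of_surj (Function.invFun g) (Function.invFun_surjective g.injective)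
  intro m
  induction m with
  | zero =>
    intro hm
    refine key 0 hm fun i => ?_
    have : Finite (Set.Iic i) := by
      have := mk_Iic_L 0 i
      rw [← Cardinal.lt_aleph0_iff_finite]
      simpa using this
    exact dist_finite h1 _
  | succ m ih =>
    intro hm
    refine key (m + 1) hm fun i => ih (Nat.le_of_succ_le hm) _ ?_
    have := mk_Iic_L (m + 1) i
    rwa [aleph_succ_nat, Order.lt_succ_iff] at this

theorem Stage.succ {n : ℕ} {Q : Type} [Preorder Q] (h : Stage n Q)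
    (hgch : (2 : Cardinal.{0}) ^ ℵ_ (n : Ordinal.{0}) = ℵ_ ((n + 1 : ℕ) : Ordinal.{0})) :
    Stage (n + 1) (Ext Q (L (n + 1))) := by
  have hcard := mk_Ext_le Q n h.card hgch
  refine ⟨?_, hcard, ?_, ?_⟩
  · obtain ⟨q⟩ := h.ne
    obtain ⟨i⟩ : Nonempty (L (n + 1)) := by
      rw [← mk_ne_zero_iff, mk_L]
      exact (aleph_pos _).ne'
    refine ⟨Ext.mk q ⟨fun _ => ∅, fun _ => Reg.empty⟩ ⟨⟨?_, ?_⟩, i, fun _ _ => rfl⟩⟩
    · rintro p - δ ⟨β, hβ⟩ hu
      obtain ⟨r, hr, α, h1, h2, h3⟩ := hu β hβ p le_rfl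
      exact h3.elim
    · rintro p - x hx hall
      exact (hall 0).elim
  · intro m hm
    rcases Nat.le_succ_iff.1 hm with hm | rfl
    · obtain ⟨E, hE⟩ := h.clubs m hm
      exact ⟨_, liftNm_clubName hE⟩
    · refine ⟨_, newClub_clubName (Q := Q) (L_noMax (n + 1)) fun f => L_bdd n ?_ f⟩
      rw [mk_nat]
      exact aleph0_le_aleph _
  · intro A B hB hA
    rcases le_or_gt (#B) (ℵ_ ((n + 1 : ℕ) : Ordinal.{0})) with hc | hc
    · refine NoSurj.ext (h.dist n le_rfl A ?_) (h.pres A B hB hA)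
      have := hA.trans_le hc
      rwa [aleph_succ_nat, Order.lt_succ_iff] at this
    · exact noSurj_of_small _ A B hB.le (hcard.trans_lt hc) hA

theorem exists_stage (n : ℕ) (hgch : ∀ m < n,
    (2 : Cardinal.{0}) ^ ℵ_ (m : Ordinal.{0}) = ℵ_ ((m + 1 : ℕ) : Ordinal.{0})) :
    ∃ (Q : Type) (_ : Preorder Q), Stage n Q := by
  induction n with
  | zero => exact ⟨_, _, Stage.zero⟩
  | succ n ih =>
    obtain ⟨Q, _, hQ⟩ := ih fun m hm => hgch m (Nat.lt_succ_of_lt hm)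
    exact ⟨_, _, hQ.succ (hgch n (Nat.lt_succ_self n))⟩

end Pool.Agent.helper79.Club
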