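import Pool.Agent.helper79.ClubStage
import Pool.Agent.helper79.ClubForcing

/-!
Passing from the names used in the construction to names over the partial order of conditions.
-/

set_option autoImplicit false

namespace Pool.Agent.helper79.ClubForcing

open Cardinal Ordinal

open Pool.Agent.helper79.Club

section

variable {Q : Type} [Preorder Q]

/-- translation of names -/
def tr {I : Type} (E : Nm Q I) : Name (Antisymmetrization Q (· ≤ ·)) I :=
  {x | ∃ q : Q, x.2 = toAntisymmetrization (· ≤ ·) q ∧ q ∈ E.mem x.1}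

theorem mem_tr {I : Type} (E : Nm Q I) (α : I) (p : Q) :
    toAntisymmetrization (· ≤ ·) p ∈ mem α (tr E) ↔ p ∈ E.mem α := by
  constructor
  · intro h
    refine (E.reg α).dense p fun q hq => ?_
    obtain ⟨r, hr, s, hs, q', hq', hmem⟩ := h (toAntisymmetrization (· ≤ ·) q) hq
    obtain ⟨r, rfl⟩ := Quotient.exists_rep r
    refine ⟨r, hr, (E.reg α).lower q' hmem r ?_⟩
    simp only at hq'
    rw [hq'] at hs
    exact hs
  · intro h q hq
    obtain ⟨q, rfl⟩ := Quotient.exists_rep q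
    exact ⟨_, le_rfl, toAntisymmetrization (· ≤ ·) q, le_rfl, q, rfl, (E.reg α).lower p h q hq⟩

theorem mem_ex {P : Type} [PartialOrder P] {A : Type} (φ : A → Set P) (p : P) :
    p ∈ ex φ ↔ ∀ q ≤ p, ∃ r ≤ q, ∃ a, r ∈ φ a := by
  simp only [ex, neg, all, Set.mem_setOf_eq, not_forall, not_not]
  constructor
  · intro h q hq
    obtain ⟨a, r, hr, h1⟩ := h q hq
    exact ⟨r, hr, a, h1⟩
  · intro h q hq
    obtain ⟨r, hr, a, h1⟩ := h q hq
    exact ⟨a, r, hr, h1⟩

theorem unbounded_tr {I : Type} [LinearOrder I] {E : Nm Q I} (hE : ClubName E)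
    (p : Antisymmetrization Q (· ≤ ·)) : p ∈ unbounded (tr E) := by
  intro β
  rw [mem_ex]
  intro q _
  obtain ⟨q, rfl⟩ := Quotient.exists_rep q
  obtain ⟨r, hr, i, hi, hri⟩ := hE.unb q β
  exact ⟨toAntisymmetrization (· ≤ ·) r, hr, ⟨i, hi⟩, (mem_tr E i r).2 hri⟩

theorem closed_tr {I : Type} [LinearOrder I] {E : Nm Q I} (hE : ClubName E)
    (p : Antisymmetrization Q (· ≤ ·)) : p ∈ closed (tr E) := by
  rintro ⟨δ, hδ⟩ q _ ⟨h1, h2⟩
  obtain ⟨q, rfl⟩ := Quotient.exists_rep q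
  refine h2 _ le_rfl ?_
  show toAntisymmetrization (· ≤ ·) q ∈ mem δ (tr E)
  rw [mem_tr]
  obtain ⟨β0, hβ0⟩ := not_isMin_iff.1 hδ.1
  refine hE.cond.closed q trivial δ ⟨β0, hβ0⟩ fun β hβ q' hq' => ?_
  have h3 := (mem_ex _ _).1 (h1 ⟨β, hβ⟩)
  obtain ⟨r, hr, ⟨α, hα⟩, hmem⟩ := h3 (toAntisymmetrization (· ≤ ·) q') hq'
  obtain ⟨r, rfl⟩ := Quotient.exists_rep r
  exact ⟨r, hr, α, hα.1, hα.2, (mem_tr E α r).1 hmem⟩

theorem noInf_tr {I : Type} [LinearOrder I] [WellFoundedLT I] {E : Nm Q I} (hE : ClubName E)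
    (p : Antisymmetrization Q (· ≤ ·)) : p ∈ noInfiniteGroundSubset (tr E) := by
  rintro ⟨X, hX⟩ q _ h
  obtain ⟨q, rfl⟩ := Quotient.exists_rep q
  haveI : Infinite X := hX.to_subtype
  obtain ⟨f⟩ : Nonempty (ℕ ↪ X) := ⟨Infinite.natEmbedding X⟩
  obtain ⟨g, hg⟩ := exists_increasing_or_nonincreasing_subseq (· < ·) fun n => (f n).1
  rcases hg with hg | hg
  · refine hE.cond.noInf q trivial (fun n => (f (g n)).1) (fun m n hmn => hg m n hmn) fun n => ?_
    exact (mem_tr E _ q).1 (h (f (g n)))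
  · have h1 : ∀ m n, m < n → (f (g n)).1 < (f (g m)).1 := by
      intro m n hmn
      refine lt_of_le_of_ne (not_lt.1 (hg m n hmn)) fun heq => ?_
      exact hmn.ne' (g.injective (f.injective (Subtype.ext heq)))
    exact (RelEmbedding.wellFounded_iff_isEmpty.1 (wellFounded_lt (α := I))).false
      (RelEmbedding.natGT (fun n => (f (g n)).1) fun n => h1 n (n + 1) (Nat.lt_succ_self n))

theorem preserves_tr (h : ∀ A B : Type, ℵ₀ < #B → #A < #B → NoSurj Q A B) :
    PreservesCardinals (Antisymmetrization Q (· ≤ ·)) := by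
  intro A B hB hA F p hp
  obtain ⟨p, rfl⟩ := Quotient.exists_rep p
  refine h A B hB hA (fun a b => {q | toAntisymmetrization (· ≤ ·) q ∈ mem (a, b) F}) ?_ p ?_ ?_
  · intro a b q r hr hq s hs
    exact hq s (hs.trans hr)
  · intro q hq a b b' h1 h2
    by_contra hne
    exact hp.1 ⟨(a, b, b'), hne⟩ (toAntisymmetrization (· ≤ ·) q) hq ⟨h1, h2⟩
  · intro b q hq
    have h3 := (mem_ex _ _).1 (hp.2 b)
    obtain ⟨r, hr, a, h4⟩ := h3 (toAntisymmetrization (· ≤ ·) q) hq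
    obtain ⟨r, rfl⟩ := Quotient.exists_rep r
    exact ⟨r, hr, a, h4⟩

end

end Pool.Agent.helper79.ClubForcing
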