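import Pool.Agent.helper79.MstTree

/-!
The instance built from fifteen points on the unit sphere.
-/

set_option autoImplicit false

namespace Pool.Agent.helper79.Mst

/-- cluster of a point -/
def cl : Fin 15 → Fin 12 := ![0, 0, 0, 1, 1, 2, 3, 4, 5, 6, 7, 8, 9, 10, 11]

/-- representative of a cluster -/
def rp : Fin 12 → Fin 15 := ![0, 3, 5, 6, 7, 8, 9, 10, 11, 12, 13, 14]

theorem cl_rp (i : Fin 12) : cl (rp i) = i := by revert i; decide

/-- the vertices: `inl none` is the source, `inl (some i)` the points near the source, `inr j` the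
points on the sphere -/
abbrev Vx : Type := Option (Fin 12) ⊕ Fin 15

/-- the parent function -/
def pr : Vx → Vx
  | Sum.inl _ => Sum.inl none
  | Sum.inr j => (![Sum.inl (some 0), Sum.inr 0, Sum.inr 1, Sum.inl (some 1), Sum.inr 3,
      Sum.inl (some 2), Sum.inl (some 3), Sum.inl (some 4), Sum.inl (some 5), Sum.inl (some 6),
      Sum.inl (some 7), Sum.inl (some 8), Sum.inl (some 9), Sum.inl (some 10),
      Sum.inl (some 11)] : Fin 15 → Vx) j

/-- the depth -/
def dp : Vx → ℕ
  | Sum.inl none => 0
  | Sum.inl (some _) => 1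
  | Sum.inr j => (![2, 3, 4, 2, 3, 2, 2, 2, 2, 2, 2, 2, 2, 2, 2] : Fin 15 → ℕ) j

theorem isPar : IsPar (Sum.inl none : Vx) pr dp := ⟨rfl, by decide⟩

/-- hypotheses on the fifteen points -/
structure Cfg (p : Fin 15 → E3) : Prop where
  unit : ∀ i, ‖p i‖ = 1
  sep : ∀ i j, cl i ≠ cl j → 1 ≤ dist (p i) (p j)
  h12 : dist (p 1) (p 2) ≤ dist (p 0) (p 1)
  h02 : dist (p 0) (p 1) ≤ dist (p 0) (p 2)
  h34 : dist (p 0) (p 1) ≤ dist (p 3) (p 4)

/-- the placement of the points -/
noncomputable def place (p : Fin 15 → E3) (ε : ℝ) : Vx → E3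
  | Sum.inl none => 0
  | Sum.inl (some i) => ε • p (rp i)
  | Sum.inr j => p j

/-- partitions -/
def part1 : Vx → Fin 16
  | Sum.inl _ => 0
  | Sum.inr j => (![1, 2, 3, 4, 5, 6, 7, 8, 9, 10, 11, 12, 13, 14, 15] : Fin 15 → Fin 16) j

def part2 : Vx → Fin 15
  | Sum.inl _ => 0
  | Sum.inr j => (![1, 2, 2, 3, 4, 5, 6, 7, 8, 9, 10, 11, 12, 13, 14] : Fin 15 → Fin 15) j

def part3 : Vx → Fin 14
  | Sum.inl _ => 0
  | Sum.inr j => (![1, 1, 1, 2, 3, 4, 5, 6, 7, 8, 9, 10, 11, 12, 13] : Fin 15 → Fin 14) j

def part4 : Vx → Fin 13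
  | Sum.inl _ => 0
  | Sum.inr j => (![1, 1, 1, 2, 2, 3, 4, 5, 6, 7, 8, 9, 10, 11, 12] : Fin 15 → Fin 13) j

section

variable {p : Fin 15 → E3} (hp : Cfg p) {ε : ℝ} (hε : 0 < ε) (hε1 : ε ≤ dist (p 1) (p 2))
  (hε2 : dist (p 3) (p 4) ≤ 1 - ε)

include hp hε hε1 hε2

theorem center_center (a b : Option (Fin 12)) (h : a ≠ b) :
    ε ≤ dist (place p ε (Sum.inl a)) (place p ε (Sum.inl b)) := by
  rcases a with _ | i <;> rcases b with _ | j
  · exact (h rfl).elim
  · simp only [place, dist_eq_norm, zero_sub, norm_neg, norm_smul, hp.unit, mul_one,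
      Real.norm_eq_abs]
    exact le_abs_self ε
  · simp only [place, dist_eq_norm, sub_zero, norm_smul, hp.unit, mul_one,
      Real.norm_eq_abs]
    exact le_abs_self ε
  · simp only [place, dist_smul₀, Real.norm_eq_abs, abs_of_pos hε]
    have : 1 ≤ dist (p (rp i)) (p (rp j)) := by
      apply hp.sep
      rw [cl_rp, cl_rp]
      intro h1
      exact h (by rw [h1])
    nlinarith

theorem center_outer (a : Option (Fin 12)) (j : Fin 15) :
    1 - ε ≤ dist (place p ε (Sum.inl a)) (place p ε (Sum.inr j)) := by
  rcases a with _ | i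
  · simp only [place, dist_eq_norm, zero_sub, norm_neg, hp.unit]
    linarith
  · simp only [place]
    have h1 : ‖p j‖ ≤ ‖ε • p (rp i)‖ + dist (ε • p (rp i)) (p j) := by
      rw [dist_eq_norm]
      calc ‖p j‖ = ‖ε • p (rp i) - (ε • p (rp i) - p j)‖ := by congr 1; abel
        _ ≤ _ := norm_sub_le _ _
    rw [norm_smul, hp.unit, hp.unit, mul_one, Real.norm_eq_abs, abs_of_pos hε] at h1
    linarith

/-- lower bounds for distances according to the partitions -/
theorem bound4 (u v : Vx) (h : part4 u ≠ part4 v) : 1 - ε ≤ dist (place p ε u) (place p ε v) := by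
  rcases u with a | i <;> rcases v with b | j
  · exact (h rfl).elim
  · exact center_outer hp hε hε1 hε2 a j
  · rw [dist_comm]; exact center_outer hp hε hε1 hε2 b i
  · have h1 : cl i ≠ cl j := by
      revert h; revert i j; decide
    have := hp.sep i j h1
    simp only [place]
    linarith

theorem bound3 (u v : Vx) (h : part3 u ≠ part3 v) :
    dist (p 3) (p 4) ≤ dist (place p ε u) (place p ε v) := by
  by_cases h4 : part4 u ≠ part4 v
  · exact hε2.trans (bound4 hp hε hε1 hε2 u v h4)
  · push Not at h4
    rcases u with a | i <;> rcases v with b | j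
    · exact (h rfl).elim
    · exfalso; clear h; revert h4; simp only [part4]; revert j; decide
    · exfalso; clear h; revert h4; simp only [part4]; revert i; decide
    · have h1 : (i = 3 ∧ j = 4) ∨ (i = 4 ∧ j = 3) := by
        revert h h4; revert i j; decide
      rcases h1 with ⟨rfl, rfl⟩ | ⟨rfl, rfl⟩
      · exact le_rfl
      · exact (dist_comm _ _).le

theorem bound2 (u v : Vx) (h : part2 u ≠ part2 v) :
    dist (p 0) (p 1) ≤ dist (place p ε u) (place p ε v) := by
  by_cases h3 : part3 u ≠ part3 v
  · exact hp.h34.trans (bound3 hp hε hε1 hε2 u v h3)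
  · push Not at h3
    rcases u with a | i <;> rcases v with b | j
    · exact (h rfl).elim
    · exfalso; clear h; revert h3; simp only [part3]; revert j; decide
    · exfalso; clear h; revert h3; simp only [part3]; revert i; decide
    · have h1 : (i = 0 ∧ j = 1) ∨ (i = 1 ∧ j = 0) ∨ (i = 0 ∧ j = 2) ∨ (i = 2 ∧ j = 0) := by
        revert h h3; revert i j; decide
      rcases h1 with ⟨rfl, rfl⟩ | ⟨rfl, rfl⟩ | ⟨rfl, rfl⟩ | ⟨rfl, rfl⟩
      · exact le_rfl
      · exact (dist_comm _ _).le
      · exact hp.h02
      · rw [dist_comm (place p ε _)]; exact hp.h02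

theorem bound1 (u v : Vx) (h : part1 u ≠ part1 v) :
    dist (p 1) (p 2) ≤ dist (place p ε u) (place p ε v) := by
  by_cases h2 : part2 u ≠ part2 v
  · exact hp.h12.trans (bound2 hp hε hε1 hε2 u v h2)
  · push Not at h2
    rcases u with a | i <;> rcases v with b | j
    · exact (h rfl).elim
    · exfalso; clear h; revert h2; simp only [part2]; revert j; decide
    · exfalso; clear h; revert h2; simp only [part2]; revert i; decide
    · have h1 : (i = 1 ∧ j = 2) ∨ (i = 2 ∧ j = 1) := by
        revert h h2; revert i j; decide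
      rcases h1 with ⟨rfl, rfl⟩ | ⟨rfl, rfl⟩
      · exact le_rfl
      · exact (dist_comm _ _).le

theorem bound0 (u v : Vx) (h : u ≠ v) : ε ≤ dist (place p ε u) (place p ε v) := by
  by_cases h1 : part1 u ≠ part1 v
  · exact hε1.trans (bound1 hp hε hε1 hε2 u v h1)
  · push Not at h1
    rcases u with a | i <;> rcases v with b | j
    · exact center_center hp hε hε1 hε2 a b (by
        intro hab
        exact h (by rw [hab]))
    · exfalso; clear h; revert h1; simp only [part1]; revert j; decide
    · exfalso; clear h; revert h1; simp only [part1]; revert i; decide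
    · exfalso; revert h h1; revert i j; decide

theorem place_injective : Function.Injective (place p ε) := by
  intro u v h
  by_contra hne
  have := bound0 hp hε hε1 hε2 u v hne
  rw [h, dist_self] at this
  linarith

/-- lower bound for the length of any spanning tree -/
theorem len_ge (T : SimpleGraph Vx) (hT : T.IsTree) :
    12 * ε + dist (p 1) (p 2) + dist (p 0) (p 1) + dist (p 3) (p 4) + 12 * (1 - ε) ≤
      len (place p ε) T := by
  classical
  set l1 := dist (p 1) (p 2) with hl1
  set l2 := dist (p 0) (p 1) with hl2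
  set l3 := dist (p 3) (p 4) with hl3
  have h12 : l1 ≤ l2 := hp.h12
  have h23 : l2 ≤ l3 := hp.h34
  have hlen : len (place p ε) T = ∑ e ∈ T.edgeFinset, edgeLen (place p ε) e := by
    unfold len
    rw [← SimpleGraph.coe_edgeFinset, finsum_mem_coe_finset]
  rw [hlen]
  have hcard : T.edgeFinset.card = 27 := by
    have := hT.card_edgeFinset
    have h2 : Fintype.card Vx = 28 := by decide
    omega
  have hterm : ∀ e ∈ T.edgeFinset, ε + (if ¬ (Sym2.map part1 e).IsDiag then l1 - ε else 0) +
      (if ¬ (Sym2.map part2 e).IsDiag then l2 - l1 else 0) +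
      (if ¬ (Sym2.map part3 e).IsDiag then l3 - l2 else 0) +
      (if ¬ (Sym2.map part4 e).IsDiag then (1 - ε) - l3 else 0) ≤ edgeLen (place p ε) e := by
    intro e he
    rw [SimpleGraph.mem_edgeFinset] at he
    induction e using Sym2.ind with
    | _ u v =>
      rw [SimpleGraph.mem_edgeSet] at he
      have hne : u ≠ v := he.ne
      show _ ≤ dist (place p ε u) (place p ε v)
      simp only [Sym2.map_mk, Sym2.isDiag_iff_proj_eq]
      by_cases c4 : part4 u = part4 v
      · by_cases c3 : part3 u = part3 v
        · by_cases c2 : part2 u = part2 v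
          · by_cases c1 : part1 u = part1 v
            · have := bound0 hp hε hε1 hε2 u v hne
              simp only [c1, c2, c3, c4, not_true_eq_false, if_false]
              linarith
            · have := bound1 hp hε hε1 hε2 u v c1
              simp only [c1, c2, c3, c4, not_true_eq_false, not_false_eq_true, if_true, if_false]
              linarith
          · have := bound2 hp hε hε1 hε2 u v c2
            have hh : l1 - ε ≥ (if ¬ part1 u = part1 v then l1 - ε else 0) := by
              split_ifs <;> linarith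
            simp only [c2, c3, c4, not_true_eq_false, not_false_eq_true, if_true, if_false]
            linarith
        · have := bound3 hp hε hε1 hε2 u v c3
          have hh : l1 - ε ≥ (if ¬ part1 u = part1 v then l1 - ε else 0) := by
            split_ifs <;> linarith
          have hh2 : l2 - l1 ≥ (if ¬ part2 u = part2 v then l2 - l1 else 0) := by
            split_ifs <;> linarith
          simp only [c3, c4, not_true_eq_false, not_false_eq_true, if_true, if_false]
          linarith
      · have := bound4 hp hε hε1 hε2 u v c4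
        have hh : l1 - ε ≥ (if ¬ part1 u = part1 v then l1 - ε else 0) := by
          split_ifs <;> linarith
        have hh2 : l2 - l1 ≥ (if ¬ part2 u = part2 v then l2 - l1 else 0) := by
          split_ifs <;> linarith
        have hh3 : l3 - l2 ≥ (if ¬ part3 u = part3 v then l3 - l2 else 0) := by
          split_ifs <;> linarith
        simp only [c4, not_false_eq_true, if_true]
        linarith
  refine le_trans ?_ (Finset.sum_le_sum hterm)
  simp only [Finset.sum_add_distrib, Finset.sum_const, hcard, ← Finset.sum_filter, nsmul_eq_mul]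
  have k1 := card_crossing T hT.1 part1 (by decide)
  have k2 := card_crossing T hT.1 part2 (by decide)
  have k3 := card_crossing T hT.1 part3 (by decide)
  have k4 := card_crossing T hT.1 part4 (by decide)
  rw [Fintype.card_fin] at k1 k2 k3 k4
  have k1' : (15 : ℝ) ≤ ((T.edgeFinset.filter fun e => ¬ (Sym2.map part1 e).IsDiag).card : ℝ) := by
    exact_mod_cast (by omega :
      15 ≤ (T.edgeFinset.filter fun e => ¬ (Sym2.map part1 e).IsDiag).card)
  have k2' : (14 : ℝ) ≤ ((T.edgeFinset.filter fun e => ¬ (Sym2.map part2 e).IsDiag).card : ℝ) := by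
    exact_mod_cast (by omega :
      14 ≤ (T.edgeFinset.filter fun e => ¬ (Sym2.map part2 e).IsDiag).card)
  have k3' : (13 : ℝ) ≤ ((T.edgeFinset.filter fun e => ¬ (Sym2.map part3 e).IsDiag).card : ℝ) := by
    exact_mod_cast (by omega :
      13 ≤ (T.edgeFinset.filter fun e => ¬ (Sym2.map part3 e).IsDiag).card)
  have k4' : (12 : ℝ) ≤ ((T.edgeFinset.filter fun e => ¬ (Sym2.map part4 e).IsDiag).card : ℝ) := by
    exact_mod_cast (by omega :
      12 ≤ (T.edgeFinset.filter fun e => ¬ (Sym2.map part4 e).IsDiag).card)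
  have m1 := mul_le_mul_of_nonneg_right k1' (by linarith : 0 ≤ l1 - ε)
  have m2 := mul_le_mul_of_nonneg_right k2' (by linarith : 0 ≤ l2 - l1)
  have m3 := mul_le_mul_of_nonneg_right k3' (by linarith : 0 ≤ l3 - l2)
  have m4 := mul_le_mul_of_nonneg_right k4' (by linarith : 0 ≤ (1 - ε) - l3)
  push_cast
  linarith

end

end Pool.Agent.helper79.Mst
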