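import Mathlib

/-!
The minimum spanning tree heuristic for energy efficient broadcasting in three dimensions.
-/

set_option autoImplicit false

namespace Pool.Agent.helper79.Mst

/-- Euclidean three-space -/
abbrev E3 : Type := EuclideanSpace ℝ (Fin 3)

/-- The Euclidean length of the (unordered) edge `e` between points of the family `x`. -/
noncomputable def edgeLen {V : Type} (x : V → E3) (e : Sym2 V) : ℝ :=
  Sym2.lift ⟨fun u v => dist (x u) (x v), fun _ _ => dist_comm _ _⟩ e

/-- The total length of the edges of `T`. -/
noncomputable def len {V : Type} (x : V → E3) (T : SimpleGraph V) : ℝ :=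
  ∑ᶠ e ∈ T.edgeSet, edgeLen x e

/-- `T` is a Euclidean minimum spanning tree of the points `x`. -/
def IsMST {V : Type} (x : V → E3) (T : SimpleGraph V) : Prop :=
  T.IsTree ∧ ∀ T' : SimpleGraph V, T'.IsTree → len x T ≤ len x T'

/-- `v` is an out-neighbour of `u` in the tree `T` with all its edges oriented away from `s`. -/
def OutNbr {V : Type} (T : SimpleGraph V) (s u v : V) : Prop :=
  T.Adj u v ∧ T.dist s v = T.dist s u + 1

/-- The energy of the broadcast tree obtained from `T` by orienting all edges away from `s`; the
supremum over the empty set is `0`. -/
noncomputable def energy {V : Type} [Fintype V] (α : ℝ) (x : V → E3) (s : V)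
    (T : SimpleGraph V) : ℝ :=
  ∑ u : V, ⨆ v : {v : V // OutNbr T s u v}, dist (x u) (x v.1) ^ α

/-- The minimum energy of a broadcast tree; broadcast trees are the spanning trees with all edges
oriented away from the source `s`. -/
noncomputable def opt {V : Type} [Fintype V] (α : ℝ) (x : V → E3) (s : V) : ℝ :=
  sInf {E : ℝ | ∃ T : SimpleGraph V, T.IsTree ∧ E = energy α x s T}

/-- The approximation ratio of the minimum spanning tree heuristic in three dimensions: the
supremum, over all finite sets of at least two points (given by an injective family `x`), all sources
`s` and all minimum spanning trees `T`, of the energy of `T` divided by the optimal energy. -/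
noncomputable def rho3 (α : ℝ) : EReal :=
  sSup {r : EReal | ∃ (V : Type) (_ : Fintype V) (x : V → E3) (s : V) (T : SimpleGraph V),
    2 ≤ Fintype.card V ∧ Function.Injective x ∧ IsMST x T ∧
      r = ((energy α x s T / opt α x s : ℝ) : EReal)}

end Pool.Agent.helper79.Mst
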