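import Pool.Agent.helper79.MstConfig

/-!
Explicit rational points, and the lower bound for the approximation ratio.
-/

set_option autoImplicit false

namespace Pool.Agent.helper79.Mst

/-! ### The minimum spanning tree of the instance and its energy -/

section

variable {p : Fin 15 → E3} (hp : Cfg p) {ε : ℝ} (hε : 0 < ε) (hε1 : ε ≤ dist (p 1) (p 2))
  (hε2 : dist (p 3) (p 4) ≤ 1 - ε)

include hp hε hε1 hε2

theorem dist_center (i : Fin 12) : dist (place p ε (Sum.inl none)) (place p ε (Sum.inl (some i))) = ε := by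
  simp only [place, dist_eq_norm, zero_sub, norm_neg, norm_smul, hp.unit, mul_one,
    Real.norm_eq_abs, abs_of_pos hε]

theorem dist_rep (i : Fin 12) : dist (ε • p (rp i)) (p (rp i)) = 1 - ε := by
  have h0 : 0 ≤ dist (p 3) (p 4) := dist_nonneg
  have h1 : ε • p (rp i) - p (rp i) = (ε - 1) • p (rp i) := by rw [sub_smul, one_smul]
  rw [dist_eq_norm, h1, norm_smul, hp.unit, mul_one, Real.norm_eq_abs, abs_of_nonpos (by linarith)]
  ring

theorem isMST : IsMST (place p ε) (parGraph (Sum.inl none) pr) := by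
  classical
  refine ⟨isPar.isTree, fun T hT => le_trans (le_of_eq ?_) (len_ge hp hε hε1 hε2 T hT)⟩
  rw [isPar.len_eq, Finset.sum_filter, Fintype.sum_sum_type, Fintype.sum_option]
  have e1 : ∀ i : Fin 12, (if (Sum.inl (some i) : Vx) ≠ Sum.inl none then
      dist (place p ε (pr (Sum.inl (some i)))) (place p ε (Sum.inl (some i))) else 0) = ε := by
    intro i
    rw [if_pos (by simp)]
    exact dist_center hp hε hε1 hε2 i
  have e2 : ∀ j : Fin 15, (if (Sum.inr j : Vx) ≠ Sum.inl none then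
      dist (place p ε (pr (Sum.inr j))) (place p ε (Sum.inr j)) else 0) =
      dist (place p ε (pr (Sum.inr j))) (p j) := by
    intro j
    rw [if_pos (by simp)]
    rfl
  simp only [e1, e2, ne_eq, not_true_eq_false, if_false, Finset.sum_const, Finset.card_univ,
    Fintype.card_fin, nsmul_eq_mul]
  simp only [Fin.sum_univ_succ, Fin.sum_univ_zero]
  have r := fun i => dist_rep hp hε hε1 hε2 i
  have r0 := r 0
  have r1 := r 1
  have r2 := r 2
  have r3 := r 3
  have r4 := r 4
  have r5 := r 5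
  have r6 := r 6
  have r7 := r 7
  have r8 := r 8
  have r9 := r 9
  have r10 := r 10
  have r11 := r 11
  have s1 : dist (p 0) (p 1) = dist (p 0) (p 1) := rfl
  change _ + (dist (ε • p (rp 0)) (p (rp 0)) + (dist (p 0) (p 1) + (dist (p 1) (p 2) +
    (dist (ε • p (rp 1)) (p (rp 1)) + (dist (p 3) (p 4) + (dist (ε • p (rp 2)) (p (rp 2)) +
    (dist (ε • p (rp 3)) (p (rp 3)) + (dist (ε • p (rp 4)) (p (rp 4)) +
    (dist (ε • p (rp 5)) (p (rp 5)) + (dist (ε • p (rp 6)) (p (rp 6)) +
    (dist (ε • p (rp 7)) (p (rp 7)) + (dist (ε • p (rp 8)) (p (rp 8)) +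
    (dist (ε • p (rp 9)) (p (rp 9)) + (dist (ε • p (rp 10)) (p (rp 10)) +
    (dist (ε • p (rp 11)) (p (rp 11)) + 0))))))))))))))) = _
  rw [r0, r1, r2, r3, r4, r5, r6, r7, r8, r9, r10, r11]
  push_cast
  ring

theorem energy_bound (α : ℝ) :
    12 * (1 - ε) ^ α + dist (p 0) (p 1) ^ α + dist (p 1) (p 2) ^ α + dist (p 3) (p 4) ^ α ≤
      energy α (place p ε) (Sum.inl none) (parGraph (Sum.inl none) pr) := by
  classical
  have hout : ∀ u v : Vx, v ≠ Sum.inl none → pr v = u →
      OutNbr (parGraph (Sum.inl none) pr) (Sum.inl none) u v := fun u v h1 h2 =>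
    isPar.outNbr.2 ⟨h1, h2⟩
  have hn := fun u => term_nonneg α (place p ε) (Sum.inl none) (parGraph (Sum.inl none) pr) u
  have ht := fun u v h1 h2 => le_term α (place p ε) (Sum.inl none) (parGraph (Sum.inl none) pr)
    (hout u v h1 h2)
  unfold energy
  rw [Fintype.sum_sum_type, Fintype.sum_option]
  have a1 : 12 * (1 - ε) ^ α ≤ ∑ i : Fin 12,
      ⨆ v : {v // OutNbr (parGraph (Sum.inl none) pr) (Sum.inl none) (Sum.inl (some i)) v},
        dist (place p ε (Sum.inl (some i))) (place p ε v.1) ^ α := by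
    have : ∀ i : Fin 12, (1 - ε) ^ α ≤
        ⨆ v : {v // OutNbr (parGraph (Sum.inl none) pr) (Sum.inl none) (Sum.inl (some i)) v},
        dist (place p ε (Sum.inl (some i))) (place p ε v.1) ^ α := by
      intro i
      have h := ht (Sum.inl (some i)) (Sum.inr (rp i)) (by simp) (by revert i; decide)
      rwa [show dist (place p ε (Sum.inl (some i))) (place p ε (Sum.inr (rp i))) = 1 - ε from
        dist_rep hp hε hε1 hε2 i] at h
    have h2 := Finset.sum_le_sum fun i (_ : i ∈ (Finset.univ : Finset (Fin 12))) => this i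
    simpa using h2
  have a2 : dist (p 0) (p 1) ^ α + dist (p 1) (p 2) ^ α + dist (p 3) (p 4) ^ α ≤ ∑ j : Fin 15,
      ⨆ v : {v // OutNbr (parGraph (Sum.inl none) pr) (Sum.inl none) (Sum.inr j) v},
        dist (place p ε (Sum.inr j)) (place p ε v.1) ^ α := by
    refine le_trans ?_ (Finset.sum_le_sum_of_subset_of_nonneg
      (Finset.subset_univ ({0, 1, 3} : Finset (Fin 15))) fun j _ _ => hn (Sum.inr j))
    rw [Finset.sum_insert (by decide), Finset.sum_insert (by decide), Finset.sum_singleton]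
    have h0 := ht (Sum.inr 0) (Sum.inr 1) (by simp) rfl
    have h1 := ht (Sum.inr 1) (Sum.inr 2) (by simp) rfl
    have h3 := ht (Sum.inr 3) (Sum.inr 4) (by simp) rfl
    simp only [place] at h0 h1 h3 ⊢
    linarith
  have a3 := hn (Sum.inl none)
  linarith

theorem ratio_bound {α : ℝ} (hα : 0 < α) :
    ((12 * (1 - ε) ^ α + dist (p 0) (p 1) ^ α + dist (p 1) (p 2) ^ α + dist (p 3) (p 4) ^ α : ℝ) :
      EReal) ≤ rho3 α := by
  have h0 : 0 ≤ dist (p 3) (p 4) := dist_nonneg
  have hcard : 2 ≤ Fintype.card Vx := by decide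
  have hpos : 0 < opt α (place p ε) (Sum.inl none) :=
    opt_pos hα.le _ _ hε (fun v hv => bound0 hp hε hε1 hε2 _ v hv.symm) hcard
  have hle : opt α (place p ε) (Sum.inl none) ≤ 1 := by
    refine opt_le_one hα.le _ _ ?_
    rintro ((_ | i) | i)
    · rw [dist_self]
      exact zero_le_one
    · rw [dist_center hp hε hε1 hε2]
      linarith
    · show dist (0 : E3) (p i) ≤ 1
      rw [dist_eq_norm, zero_sub, norm_neg, hp.unit]
  have hE := energy_bound hp hε hε1 hε2 α
  have hmem : ((energy α (place p ε) (Sum.inl none) (parGraph (Sum.inl none) pr) /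
      opt α (place p ε) (Sum.inl none) : ℝ) : EReal) ≤ rho3 α :=
    le_sSup ⟨Vx, inferInstance, place p ε, Sum.inl none, parGraph (Sum.inl none) pr, hcard,
      place_injective hp hε hε1 hε2, isMST hp hε hε1 hε2, rfl⟩
  refine le_trans ?_ hmem
  rw [EReal.coe_le_coe_iff]
  refine hE.trans ?_
  rw [le_div_iff₀ hpos]
  exact mul_le_of_le_one_right (energy_nonneg _ _ _ _) hle

end

/-- letting the points near the source tend to the source -/
theorem limit_bound {p : Fin 15 → E3} (hp : Cfg p) (h1 : 0 < dist (p 1) (p 2))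
    (h2 : dist (p 3) (p 4) < 1) {α : ℝ} (hα : 0 < α) :
    ((12 + dist (p 0) (p 1) ^ α + dist (p 1) (p 2) ^ α + dist (p 3) (p 4) ^ α : ℝ) :
      EReal) ≤ rho3 α := by
  set c := dist (p 0) (p 1) ^ α + dist (p 1) (p 2) ^ α + dist (p 3) (p 4) ^ α with hc
  have ht : Filter.Tendsto (fun ε : ℝ => ((12 * (1 - ε) ^ α + c : ℝ) : EReal))
      (nhdsWithin 0 (Set.Ioi 0)) (nhds ((12 + c : ℝ) : EReal)) := by
    refine (continuous_coe_real_ereal.tendsto _).comp ?_
    have hcont : ContinuousAt (fun ε : ℝ => 12 * (1 - ε) ^ α + c) 0 := by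
      refine ((ContinuousAt.rpow (continuousAt_const.sub continuousAt_id) continuousAt_const
        (Or.inr hα)).const_mul 12 |>.add continuousAt_const)
    have := hcont.tendsto
    simp only [sub_zero, Real.one_rpow, mul_one] at this
    exact this.mono_left nhdsWithin_le_nhds
  have hm : 0 < min (dist (p 1) (p 2)) (1 - dist (p 3) (p 4)) := lt_min h1 (by linarith)
  have hev : ∀ᶠ ε : ℝ in nhdsWithin 0 (Set.Ioi 0), ((12 * (1 - ε) ^ α + c : ℝ) : EReal) ≤ rho3 α := by
    filter_upwards [Ioc_mem_nhdsGT hm] with ε hε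
    have e1 : ε ≤ dist (p 1) (p 2) := hε.2.trans (min_le_left _ _)
    have e2 : ε ≤ 1 - dist (p 3) (p 4) := hε.2.trans (min_le_right _ _)
    have := ratio_bound hp hε.1 e1 (by linarith) hα
    rwa [add_assoc, add_assoc, ← add_assoc (dist (p 0) (p 1) ^ α), ← hc] at this
  have := le_of_tendsto ht hev
  rwa [add_assoc, add_assoc, ← add_assoc (dist (p 0) (p 1) ^ α), ← hc]

/-! ### The points -/

/-- numerators and denominators -/
def dat : Fin 15 → ℤ × ℤ × ℤ × ℤ := ![
  (-191350000, 1193523423, -495750000, 1306476577),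
  (-131775000, 287464359, -118025000, 337535641),
  (-393350000, 1207948971, -235650000, 1292051029),
  (-497995979, 62640000, -9180000, 502004021),
  (-2313589079, 843500000, 1073600000, 2686410921),
  (24355519, -7050000, -3840000, 25644481),
  (-419900000, -550852187, -95150000, 699147813),
  (1734300000, -312800000, 2189435967, 2810564033),
  (1055243859, 984950000, 60450000, 1444756141),
  (-650250000, 6850000, -1165425603, 1334574397),
  (-453350000, -551850000, 1147987071, 1352012929),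
  (6450000, -20040000, -20567959, 29432041),
  (646350000, 376150000, -1138148571, 1361851429),
  (21900000, 1962600000, 2114772163, 2885227837),
  (796000000, -2386837151, 705700000, 2613162849)]

/-- scalar product of numerators -/
def dt (i j : Fin 15) : ℤ :=
  (dat i).1 * (dat j).1 + (dat i).2.1 * (dat j).2.1 + (dat i).2.2.1 * (dat j).2.2.1

/-- product of denominators -/
def ww (i j : Fin 15) : ℤ := (dat i).2.2.2 * (dat j).2.2.2

theorem dt_self (i : Fin 15) : dt i i = ww i i := by revert i; decide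

theorem den_pos (i : Fin 15) : 0 < (dat i).2.2.2 := by revert i; decide

theorem dt_sep : ∀ i j : Fin 15, cl i ≠ cl j → 2 * dt i j ≤ ww i j := by decide +kernel

/-- the points -/
noncomputable def pts (i : Fin 15) : E3 :=
  WithLp.toLp 2 ![(dat i).1 / (dat i).2.2.2, (dat i).2.1 / (dat i).2.2.2,
    (dat i).2.2.1 / (dat i).2.2.2]

theorem pts_unit (i : Fin 15) : ‖pts i‖ = 1 := by
  have h := den_pos i
  have h' : (0 : ℝ) < ((dat i).2.2.2 : ℝ) := by exact_mod_cast h
  have h2 := dt_self i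
  have h3 : ((dat i).1 : ℝ) * (dat i).1 + (dat i).2.1 * (dat i).2.1 + (dat i).2.2.1 * (dat i).2.2.1
      = (dat i).2.2.2 * (dat i).2.2.2 := by exact_mod_cast h2
  rw [EuclideanSpace.norm_eq, Real.sqrt_eq_one]
  simp only [pts, Fin.sum_univ_three, Real.norm_eq_abs, sq_abs]
  simp
  field_simp
  nlinarith [h3]

theorem pts_dist (i j : Fin 15) : dist (pts i) (pts j) ^ 2 = 2 - 2 * ((dt i j : ℝ) / (ww i j : ℝ)) := by
  have hi := den_pos i
  have hj := den_pos j
  have hi' : (0 : ℝ) < ((dat i).2.2.2 : ℝ) := by exact_mod_cast hi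
  have hj' : (0 : ℝ) < ((dat j).2.2.2 : ℝ) := by exact_mod_cast hj
  have h2 : ((dat i).1 : ℝ) * (dat i).1 + (dat i).2.1 * (dat i).2.1 + (dat i).2.2.1 * (dat i).2.2.1
      = (dat i).2.2.2 * (dat i).2.2.2 := by exact_mod_cast dt_self i
  have h3 : ((dat j).1 : ℝ) * (dat j).1 + (dat j).2.1 * (dat j).2.1 + (dat j).2.2.1 * (dat j).2.2.1
      = (dat j).2.2.2 * (dat j).2.2.2 := by exact_mod_cast dt_self j
  rw [EuclideanSpace.dist_eq, Real.sq_sqrt (by positivity)]
  simp only [pts, Fin.sum_univ_three, Real.dist_eq, sq_abs, dt, ww]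
  simp
  push_cast
  field_simp
  nlinarith [h2, h3]

theorem ww_pos (i j : Fin 15) : (0 : ℝ) < (ww i j : ℝ) := by
  have : 0 < ww i j := mul_pos (den_pos i) (den_pos j)
  exact_mod_cast this

/-- lower bounds for distances from integer inequalities -/
theorem le_pts_dist (i j : Fin 15) (a b : ℤ) (ha : 0 ≤ a) (hb : 0 < b)
    (h : 2 * b ^ 2 * dt i j ≤ (2 * b ^ 2 - a ^ 2) * ww i j) :
    (a : ℝ) / b ≤ dist (pts i) (pts j) := by
  have hw := ww_pos i j
  have hb' : (0 : ℝ) < (b : ℝ) := by exact_mod_cast hb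
  have ha' : (0 : ℝ) ≤ (a : ℝ) := by exact_mod_cast ha
  have h' : 2 * (b : ℝ) ^ 2 * dt i j ≤ (2 * (b : ℝ) ^ 2 - (a : ℝ) ^ 2) * ww i j := by
    exact_mod_cast h
  refine le_of_sq_le_sq ?_ dist_nonneg
  rw [pts_dist, div_pow, div_le_iff₀ (by positivity)]
  have h2 : (dt i j : ℝ) / ww i j * ww i j = dt i j := div_mul_cancel₀ _ hw.ne'
  have h3 : (a : ℝ) ^ 2 * ww i j ≤ ((2 - 2 * ((dt i j : ℝ) / ww i j)) * (b : ℝ) ^ 2) * ww i j := by
    have : ((2 - 2 * ((dt i j : ℝ) / ww i j)) * (b : ℝ) ^ 2) * ww i j =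
        2 * (b : ℝ) ^ 2 * ww i j - 2 * (b : ℝ) ^ 2 * ((dt i j : ℝ) / ww i j * ww i j) := by ring
    rw [this, h2]
    linarith
  exact le_of_mul_le_mul_right h3 hw

/-- upper bounds for distances from integer inequalities -/
theorem pts_dist_le (i j : Fin 15) (a b : ℤ) (ha : 0 ≤ a) (hb : 0 < b)
    (h : (2 * b ^ 2 - a ^ 2) * ww i j ≤ 2 * b ^ 2 * dt i j) :
    dist (pts i) (pts j) ≤ (a : ℝ) / b := by
  have hw := ww_pos i j
  have hb' : (0 : ℝ) < (b : ℝ) := by exact_mod_cast hb
  have ha' : (0 : ℝ) ≤ (a : ℝ) := by exact_mod_cast ha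
  have h' : (2 * (b : ℝ) ^ 2 - (a : ℝ) ^ 2) * ww i j ≤ 2 * (b : ℝ) ^ 2 * dt i j := by
    exact_mod_cast h
  refine le_of_sq_le_sq ?_ (by positivity)
  rw [pts_dist, div_pow, le_div_iff₀ (by positivity)]
  have h2 : (dt i j : ℝ) / ww i j * ww i j = dt i j := div_mul_cancel₀ _ hw.ne'
  have h3 : ((2 - 2 * ((dt i j : ℝ) / ww i j)) * (b : ℝ) ^ 2) * ww i j ≤ (a : ℝ) ^ 2 * ww i j := by
    have : ((2 - 2 * ((dt i j : ℝ) / ww i j)) * (b : ℝ) ^ 2) * ww i j =
        2 * (b : ℝ) ^ 2 * ww i j - 2 * (b : ℝ) ^ 2 * ((dt i j : ℝ) / ww i j * ww i j) := by ring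
    rw [this, h2]
    linarith
  exact le_of_mul_le_mul_right h3 hw

theorem cfg_pts : Cfg pts := by
  have a1 : dist (pts 1) (pts 2) ≤ (206 : ℝ) / 1000 := by
    simpa using pts_dist_le 1 2 206 1000 (by norm_num) (by norm_num) (by decide +kernel)
  have a2 : (253 : ℝ) / 1000 ≤ dist (pts 0) (pts 1) := by
    simpa using le_pts_dist 0 1 253 1000 (by norm_num) (by norm_num) (by decide +kernel)
  have a3 : dist (pts 0) (pts 1) ≤ (25343 : ℝ) / 100000 := by
    simpa using pts_dist_le 0 1 25343 100000 (by norm_num) (by norm_num) (by decide +kernel)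
  have a4 : (25347 : ℝ) / 100000 ≤ dist (pts 0) (pts 2) := by
    simpa using le_pts_dist 0 2 25347 100000 (by norm_num) (by norm_num) (by decide +kernel)
  have a5 : (477 : ℝ) / 1000 ≤ dist (pts 3) (pts 4) := by
    simpa using le_pts_dist 3 4 477 1000 (by norm_num) (by norm_num) (by decide +kernel)
  refine ⟨pts_unit, fun i j h => ?_, by linarith, by linarith, by linarith⟩
  have := le_pts_dist i j 1 1 (by norm_num) (by norm_num) (by
    have := dt_sep i j h
    linarith)
  simpa using this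

/-- The lower bound for the approximation ratio. -/
theorem main {α : ℝ} (hα : 0 < α) :
    ((12 + (0.477 : ℝ) ^ α + (0.253 : ℝ) ^ α + (0.205 : ℝ) ^ α : ℝ) : EReal) ≤ rho3 α := by
  have h01 : (253 : ℝ) / 1000 ≤ dist (pts 0) (pts 1) := by
    simpa using le_pts_dist 0 1 253 1000 (by norm_num) (by norm_num) (by decide +kernel)
  have h12 : (205 : ℝ) / 1000 ≤ dist (pts 1) (pts 2) := by
    simpa using le_pts_dist 1 2 205 1000 (by norm_num) (by norm_num) (by decide +kernel)
  have h34 : (477 : ℝ) / 1000 ≤ dist (pts 3) (pts 4) := by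
    simpa using le_pts_dist 3 4 477 1000 (by norm_num) (by norm_num) (by decide +kernel)
  have h34' : dist (pts 3) (pts 4) ≤ (1 : ℝ) / 2 := by
    simpa using pts_dist_le 3 4 1 2 (by norm_num) (by norm_num) (by decide +kernel)
  refine le_trans ?_ (limit_bound cfg_pts (by linarith) (by linarith) hα)
  rw [EReal.coe_le_coe_iff]
  have k1 := Real.rpow_le_rpow (by norm_num) h01 hα.le
  have k2 := Real.rpow_le_rpow (by norm_num) h12 hα.le
  have k3 := Real.rpow_le_rpow (by norm_num) h34 hα.le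
  norm_num at k1 k2 k3 ⊢
  linarith

end Pool.Agent.helper79.Mst
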