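import Pool.Agent.helper79.MstDefs

/-!
Trees given by parent functions, counting of edges crossing a partition, bounds on energies.
-/

set_option autoImplicit false

namespace Pool.Agent.helper79.Mst

open SimpleGraph

/-! ### Edges crossing a partition -/

theorem card_crossing {V K : Type} [Fintype V] [Fintype K] [DecidableEq K] (T : SimpleGraph V)
    [Fintype T.edgeSet]
    (hT : T.Connected) (f : V → K) (hf : Function.Surjective f) :
    Fintype.card K ≤ (T.edgeFinset.filter fun e => ¬ (Sym2.map f e).IsDiag).card + 1 := by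
  classical
  let H : SimpleGraph K := SimpleGraph.fromEdgeSet (Sym2.map f '' T.edgeSet)
  have hstep : ∀ u v, T.Adj u v → H.Reachable (f u) (f v) := by
    intro u v h
    by_cases heq : f u = f v
    · rw [heq]
    · apply Adj.reachable
      rw [SimpleGraph.fromEdgeSet_adj]
      exact ⟨⟨s(u, v), h, rfl⟩, heq⟩
  have hreach : ∀ u v, T.Reachable u v → H.Reachable (f u) (f v) := by
    rintro u v ⟨w⟩
    induction w with
    | nil => exact Reachable.refl _
    | cons h _ ih => exact (hstep _ _ h).trans ih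
  haveI : Nonempty K := ⟨f (Classical.choice hT.nonempty)⟩
  have hH : H.Connected := by
    refine ⟨fun a b => ?_⟩
    obtain ⟨u, rfl⟩ := hf a
    obtain ⟨v, rfl⟩ := hf b
    exact hreach u v (hT.preconnected u v)
  have h1 := hH.card_vert_le_card_edgeSet_add_one
  rw [Nat.card_eq_fintype_card, Nat.card_eq_fintype_card] at h1
  refine h1.trans (Nat.add_le_add_right ?_ 1)
  rw [← SimpleGraph.edgeFinset_card]
  refine (Finset.card_le_card (t := (T.edgeFinset.filter fun e => ¬ (Sym2.map f e).IsDiag).image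
    (Sym2.map f)) ?_).trans Finset.card_image_le
  intro e he
  rw [SimpleGraph.mem_edgeFinset, SimpleGraph.edgeSet_fromEdgeSet] at he
  obtain ⟨⟨e', he', rfl⟩, hd⟩ := he
  rw [Finset.mem_image]
  exact ⟨e', by
    rw [Finset.mem_filter, SimpleGraph.mem_edgeFinset]
    exact ⟨he', hd⟩, rfl⟩

/-! ### Trees given by parent functions -/

section parent

variable {V : Type} [Fintype V]

/-- the graph of a parent function -/
def parGraph (r : V) (par : V → V) : SimpleGraph V where
  Adj u v := u ≠ v ∧ ((u ≠ r ∧ par u = v) ∨ (v ≠ r ∧ par v = u))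
  symm := ⟨fun u v h => ⟨h.1.symm, h.2.symm⟩⟩
  loopless := ⟨fun u h => h.1 rfl⟩

variable {r : V} {par : V → V} {dep : V → ℕ}

/-- parent function with depth -/
structure IsPar (r : V) (par : V → V) (dep : V → ℕ) : Prop where
  root : dep r = 0
  step : ∀ v, v ≠ r → dep v = dep (par v) + 1

theorem IsPar.par_ne (h : IsPar r par dep) {v : V} (hv : v ≠ r) : par v ≠ v := by
  intro h1
  have := h.step v hv
  rw [h1] at this
  omega

theorem IsPar.adj (h : IsPar r par dep) {v : V} (hv : v ≠ r) :
    (parGraph r par).Adj (par v) v := ⟨h.par_ne hv, Or.inr ⟨hv, rfl⟩⟩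

theorem IsPar.walk (h : IsPar r par dep) (v : V) :
    ∃ w : (parGraph r par).Walk r v, w.length = dep v := by
  induction hn : dep v generalizing v with
  | zero =>
    by_cases hv : v = r
    · subst hv
      exact ⟨Walk.nil, rfl⟩
    · have := h.step v hv
      omega
  | succ n ih =>
    by_cases hv : v = r
    · subst hv
      have := h.root
      omega
    · have h1 := h.step v hv
      obtain ⟨w, hw⟩ := ih (par v) (by omega)
      refine ⟨w.concat (h.adj hv), ?_⟩
      rw [Walk.length_concat, hw]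

theorem IsPar.connected (h : IsPar r par dep) : (parGraph r par).Connected := by
  haveI : Nonempty V := ⟨r⟩
  refine ⟨fun u v => ?_⟩
  obtain ⟨w1, _⟩ := h.walk u
  obtain ⟨w2, _⟩ := h.walk v
  exact w1.reachable.symm.trans w2.reachable

theorem IsPar.dep_le (h : IsPar r par dep) {u v : V} (w : (parGraph r par).Walk u v) :
    dep v ≤ dep u + w.length := by
  induction w with
  | nil => simp
  | @cons a b c hab w ih =>
    rw [Walk.length_cons]
    have : dep b ≤ dep a + 1 := by
      rcases hab.2 with ⟨h1, h2⟩ | ⟨h1, h2⟩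
      · have := h.step a h1
        rw [h2] at this
        omega
      · have := h.step b h1
        rw [h2] at this
        omega
    omega

theorem IsPar.dist_eq (h : IsPar r par dep) (v : V) : (parGraph r par).dist r v = dep v := by
  obtain ⟨w, hw⟩ := h.walk v
  refine le_antisymm ((SimpleGraph.dist_le w).trans hw.le) ?_
  obtain ⟨w', hw'⟩ := h.connected.exists_walk_length_eq_dist r v
  rw [← hw']
  have := h.dep_le w'
  rw [h.root] at this
  omega

theorem IsPar.edgeSet (h : IsPar r par dep) :
    (parGraph r par).edgeSet = (fun v => s(par v, v)) '' {v | v ≠ r} := by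
  ext e
  induction e using Sym2.ind with
  | _ a b =>
    rw [SimpleGraph.mem_edgeSet]
    constructor
    · rintro ⟨_, ⟨h1, h2⟩ | ⟨h1, h2⟩⟩
      · exact ⟨a, h1, by simp only; rw [h2, Sym2.eq_swap]⟩
      · exact ⟨b, h1, by simp only; rw [h2]⟩
    · rintro ⟨v, hv, he⟩
      have := h.adj hv
      rw [← SimpleGraph.mem_edgeSet, show s(par v, v) = s(a, b) from he] at this
      exact this

theorem IsPar.injOn (h : IsPar r par dep) :
    Set.InjOn (fun v => s(par v, v)) {v | v ≠ r} := by
  intro v hv w hw he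
  rcases Sym2.eq_iff.1 he with ⟨_, h1⟩ | ⟨h1, h2⟩
  · exact h1
  · have h3 := h.step v hv
    have h4 := h.step w hw
    rw [h1] at h3
    rw [← h2] at h4
    omega

theorem IsPar.isTree (h : IsPar r par dep) : (parGraph r par).IsTree := by
  classical
  rw [SimpleGraph.isTree_iff_connected_and_card]
  refine ⟨h.connected, ?_⟩
  rw [h.edgeSet, Nat.card_image_of_injOn h.injOn, Nat.card_eq_fintype_card,
    Nat.card_eq_fintype_card]
  have : Fintype.card {v : V // v ≠ r} = Fintype.card V - 1 := by
    rw [Fintype.card_subtype_compl, Fintype.card_subtype_eq]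
  have h2 : 0 < Fintype.card V := Fintype.card_pos_iff.2 ⟨r⟩
  change Fintype.card {v : V // v ≠ r} + 1 = _
  rw [this]
  omega

theorem IsPar.len_eq (h : IsPar r par dep) (x : V → E3) [DecidableEq V] :
    len x (parGraph r par) = ∑ v ∈ Finset.univ.filter (fun v => v ≠ r), dist (x (par v)) (x v) := by
  rw [Mst.len, h.edgeSet, finsum_mem_image h.injOn]
  rw [show {v : V | v ≠ r} = ((Finset.univ.filter (fun v => v ≠ r) : Finset V) : Set V) by
    ext v; simp]
  rw [finsum_mem_coe_finset]
  rfl

theorem IsPar.outNbr (h : IsPar r par dep) {u v : V} :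
    OutNbr (parGraph r par) r u v ↔ v ≠ r ∧ par v = u := by
  unfold OutNbr
  rw [h.dist_eq, h.dist_eq]
  constructor
  · rintro ⟨⟨_, ⟨h1, h2⟩ | ⟨h1, h2⟩⟩, hd⟩
    · have := h.step u h1
      rw [h2] at this
      omega
    · exact ⟨h1, h2⟩
  · rintro ⟨h1, h2⟩
    subst h2
    exact ⟨h.adj h1, h.step v h1⟩

end parent

/-! ### Energies -/

section energy

variable {V : Type} [Fintype V]

theorem term_nonneg (α : ℝ) (x : V → E3) (s : V) (T : SimpleGraph V) (u : V) :
    0 ≤ ⨆ v : {v : V // OutNbr T s u v}, dist (x u) (x v.1) ^ α :=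
  Real.iSup_nonneg fun _ => Real.rpow_nonneg dist_nonneg _

theorem le_term (α : ℝ) (x : V → E3) (s : V) (T : SimpleGraph V) {u v : V} (h : OutNbr T s u v) :
    dist (x u) (x v) ^ α ≤ ⨆ v : {v : V // OutNbr T s u v}, dist (x u) (x v.1) ^ α :=
  le_ciSup (f := fun v : {v : V // OutNbr T s u v} => dist (x u) (x v.1) ^ α)
    (Set.finite_range _).bddAbove ⟨v, h⟩

theorem energy_nonneg (α : ℝ) (x : V → E3) (s : V) (T : SimpleGraph V) : 0 ≤ energy α x s T :=
  Finset.sum_nonneg fun u _ => term_nonneg α x s T u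

theorem energy_ge (α : ℝ) (x : V → E3) (s : V) (T : SimpleGraph V) (U : Finset V) (c : V → V)
    (h : ∀ u ∈ U, OutNbr T s u (c u)) : ∑ u ∈ U, dist (x u) (x (c u)) ^ α ≤ energy α x s T := by
  refine (Finset.sum_le_sum fun u hu => le_term α x s T (h u hu)).trans ?_
  exact Finset.sum_le_sum_of_subset_of_nonneg (Finset.subset_univ _) fun u _ _ =>
    term_nonneg α x s T u

theorem opt_le (α : ℝ) (x : V → E3) (s : V) (T : SimpleGraph V) (hT : T.IsTree) :
    opt α x s ≤ energy α x s T :=
  csInf_le ⟨0, by rintro _ ⟨T', _, rfl⟩; exact energy_nonneg α x s T'⟩ ⟨T, hT, rfl⟩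

/-- the optimum is at most one when all points are at distance at most one from the source -/
theorem opt_le_one {α : ℝ} (hα : 0 ≤ α) (x : V → E3) (s : V) (hx : ∀ v, dist (x s) (x v) ≤ 1) :
    opt α x s ≤ 1 := by
  classical
  have hpar : IsPar s (fun _ => s) (fun v => if v = s then 0 else 1) :=
    ⟨if_pos rfl, fun v hv => by simp [hv]⟩
  refine (opt_le α x s _ hpar.isTree).trans ?_
  unfold energy
  rw [Finset.sum_eq_single s]
  · apply Real.iSup_le _ zero_le_one
    rintro ⟨v, hv⟩
    exact Real.rpow_le_one dist_nonneg (hx v) hα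
  · intro u _ hu
    have : IsEmpty {v : V // OutNbr (parGraph s fun _ => s) s u v} := by
      refine ⟨fun ⟨v, hv⟩ => ?_⟩
      rw [hpar.outNbr] at hv
      exact hu hv.2.symm
    exact Real.iSup_of_isEmpty _
  · intro h
    exact (h (Finset.mem_univ _)).elim

theorem opt_pos {α : ℝ} (hα : 0 ≤ α) (x : V → E3) (s : V) {ε : ℝ} (hε : 0 < ε)
    (hx : ∀ v, v ≠ s → ε ≤ dist (x s) (x v)) (hV : 2 ≤ Fintype.card V) : 0 < opt α x s := by
  classical
  refine lt_of_lt_of_le (Real.rpow_pos_of_pos hε α) ?_
  have hpar : IsPar s (fun _ => s) (fun v => if v = s then 0 else 1) :=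
    ⟨if_pos rfl, fun v hv => by simp [hv]⟩
  refine le_csInf ⟨_, _, hpar.isTree, rfl⟩ ?_
  rintro _ ⟨T, hT, rfl⟩
  haveI : Nontrivial V := Fintype.one_lt_card_iff_nontrivial.1 hV
  obtain ⟨v, hv⟩ := hT.1.preconnected.exists_adj_of_nontrivial s
  have hout : OutNbr T s s v := ⟨hv, by rw [SimpleGraph.dist_self, SimpleGraph.dist_eq_one_iff_adj.2 hv]⟩
  refine (Real.rpow_le_rpow hε.le (hx v hv.ne') hα).trans ?_
  refine (le_term α x s T hout).trans ?_
  exact Finset.single_le_sum (f := fun u => ⨆ v : {v : V // OutNbr T s u v}, dist (x u) (x v.1) ^ α)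
    (fun u _ => term_nonneg α x s T u) (Finset.mem_univ s)

end energy

end Pool.Agent.helper79.Mst
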