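import Pool.Agent.helper79.RegMachine

/-!
Compilation of primitive recursive and partial recursive functions into register programs.
-/

set_option autoImplicit false

namespace Pool.Agent.helper79

open List.Vector

/-- auxiliary: sequential evaluation of a finite family of total functions into fresh registers -/
theorem compile_family {n m : ℕ} (g : Fin m → List.Vector ℕ n → ℕ)
    (hg : ∀ i, ∀ (ρ : Fin n → ℕ) (o N : ℕ), (∀ i, ρ i < N) → o < N →
      ∃ P, NoMark P ∧ ∀ r : Regs, ∃ r', Big P r r' ∧ r' o = g i (ofFn fun i => r (ρ i)) ∧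
        ∀ j < N, j ≠ o → r' j = r j)
    (ρ : Fin n → ℕ) (N : ℕ) (hρ : ∀ i, ρ i < N) :
    ∀ k ≤ m, ∃ P, NoMark P ∧ ∀ r : Regs, ∃ r', Big P r r' ∧
      (∀ i : Fin m, (i : ℕ) < k → r' (N + i) = g i (ofFn fun i => r (ρ i))) ∧
      ∀ j < N, r' j = r j := by
  intro k
  induction k with
  | zero =>
    intro _
    exact ⟨Prog.clr N, trivial, fun r => ⟨_, Big.clr N r, fun i hi => absurd hi (by omega),
      fun j hj => by simp [Function.update, show j ≠ N by omega]⟩⟩
  | succ k ih =>
    intro hk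
    obtain ⟨P, hP1, hP2⟩ := ih (by omega)
    obtain ⟨Q, hQ1, hQ2⟩ := hg ⟨k, by omega⟩ ρ (N + k) (N + m)
      (fun i => by have := hρ i; omega) (by omega)
    refine ⟨Prog.seq P Q, ⟨hP1, hQ1⟩, fun r => ?_⟩
    obtain ⟨r1, h1, h2, h3⟩ := hP2 r
    obtain ⟨r2, h4, h5, h6⟩ := hQ2 r1
    have hargs : (fun i => r1 (ρ i)) = fun i => r (ρ i) := by
      funext i; exact h3 _ (hρ i)
    refine ⟨r2, Big.seq h1 h4, ?_, ?_⟩
    · intro i hi
      by_cases hik : (i : ℕ) = k
      · subst hik
        rw [h5, hargs]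
      · rw [h6 _ (by omega) (by omega)]
        exact h2 i (by omega)
    · intro j hj
      rw [h6 _ (by omega) (by omega), h3 _ hj]

/-- the loop used for primitive recursion -/
theorem prec_loop {n : ℕ} (N : ℕ) (g : List.Vector ℕ (n + 2) → ℕ) (ρ : Fin n → ℕ)
    (hρ : ∀ i, ρ i < N) (Pg : Prog) (w : Fin n → ℕ) (b : ℕ)
    (hPg : ∀ r : Regs, ∃ r', Big Pg r r' ∧
      r' (N + 3) = g (r (N + 1) ::ᵥ r (N + 2) ::ᵥ (ofFn fun i => r (ρ i))) ∧
        ∀ j < N + 4, j ≠ N + 3 → r' j = r j) :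
    ∀ (c : ℕ) (r : Regs), r N = c → (∀ i, r (ρ i) = w i) →
      r (N + 2) = Nat.rec (motive := fun _ => ℕ) b
        (fun y IH => g (y ::ᵥ IH ::ᵥ ofFn w)) (r (N + 1)) →
      ∃ r', Big (Prog.loop N (Prog.seq Pg (Prog.seq (Prog.cpy (N + 2) (N + 3))
          (Prog.seq (Prog.inc (N + 1)) (Prog.dec N))))) r r' ∧
        r' (N + 2) = Nat.rec (motive := fun _ => ℕ) b
          (fun y IH => g (y ::ᵥ IH ::ᵥ ofFn w)) (r (N + 1) + c) ∧
        ∀ j < N, r' j = r j := by
  intro c
  induction c with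
  | zero =>
    intro r hr hw hrec
    exact ⟨r, Big.loopZ hr, by simpa using hrec, fun _ _ => rfl⟩
  | succ c ih =>
    intro r hr hw hrec
    obtain ⟨r1, h1, h2, h3⟩ := hPg r
    set r2 : Regs := Function.update r1 (N + 2) (r1 (N + 3)) with hr2
    set r3 : Regs := Function.update r2 (N + 1) (r2 (N + 1) + 1) with hr3
    set r4 : Regs := Function.update r3 N (r3 N - 1) with hr4
    have hbody : Big (Prog.seq Pg (Prog.seq (Prog.cpy (N + 2) (N + 3))
          (Prog.seq (Prog.inc (N + 1)) (Prog.dec N)))) r r4 :=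
      Big.seq h1 (Big.seq (Big.cpy _ _ _) (Big.seq (Big.inc _ _) (Big.dec _ _)))
    have e1 : r4 N = c := by
      simp only [hr4, hr3, hr2, Function.update_self]
      rw [Function.update_of_ne (by omega), Function.update_of_ne (by omega),
        h3 N (by omega) (by omega), hr]
      rfl
    have e2 : r4 (N + 1) = r (N + 1) + 1 := by
      simp only [hr4, hr3, hr2]
      rw [Function.update_of_ne (by omega), Function.update_self,
        Function.update_of_ne (by omega), h3 (N + 1) (by omega) (by omega)]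
    have e3 : r4 (N + 2) = r1 (N + 3) := by
      simp only [hr4, hr3, hr2]
      rw [Function.update_of_ne (by omega), Function.update_of_ne (by omega),
        Function.update_self]
    have e4 : ∀ j < N, r4 j = r j := by
      intro j hj
      simp only [hr4, hr3, hr2]
      rw [Function.update_of_ne (by omega), Function.update_of_ne (by omega),
        Function.update_of_ne (by omega), h3 j (by omega) (by omega)]
    have hw' : (fun i => r (ρ i)) = w := funext hw
    obtain ⟨r', h5, h6, h7⟩ := ih r4 e1 (fun i => by rw [e4 _ (hρ i), hw i]) (by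
      rw [e3, h2, e2, hw', hrec])
    refine ⟨r', Big.loopS (by rw [hr]; omega) hbody h5, ?_, ?_⟩
    · rw [h6, e2, show r (N + 1) + 1 + c = r (N + 1) + (c + 1) by omega]
    · intro j hj
      rw [h7 j hj, e4 j hj]

theorem compile_primrec {n : ℕ} {f : List.Vector ℕ n → ℕ} (hf : Nat.Primrec' f) :
    ∀ (ρ : Fin n → ℕ) (o N : ℕ), (∀ i, ρ i < N) → o < N →
      ∃ P, NoMark P ∧ ∀ r : Regs, ∃ r', Big P r r' ∧ r' o = f (ofFn fun i => r (ρ i)) ∧
        ∀ j < N, j ≠ o → r' j = r j := by
  induction hf with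
  | zero =>
    intro ρ o N _ _
    exact ⟨Prog.clr o, trivial, fun r => ⟨_, Big.clr o r, by simp,
      fun j _ hj => by simp [Function.update, hj]⟩⟩
  | succ =>
    intro ρ o N _ _
    refine ⟨Prog.seq (Prog.cpy o (ρ 0)) (Prog.inc o), ⟨trivial, trivial⟩, fun r =>
      ⟨_, Big.seq (Big.cpy o (ρ 0) r) (Big.inc o _), ?_, ?_⟩⟩
    · simp
    · intro j _ hj
      simp [Function.update, hj]
  | get i =>
    intro ρ o N _ _
    refine ⟨Prog.cpy o (ρ i), trivial, fun r => ⟨_, Big.cpy o (ρ i) r, ?_, ?_⟩⟩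
    · simp
    · intro j _ hj
      simp [Function.update, hj]
  | @comp m n f g hf hg ihf ihg =>
    intro ρ o N hρ ho
    obtain ⟨P, hP1, hP2⟩ := compile_family g ihg ρ N hρ n le_rfl
    obtain ⟨Q, hQ1, hQ2⟩ := ihf (fun i => N + i) o (N + n) (fun i => by omega) (by omega)
    refine ⟨Prog.seq P Q, ⟨hP1, hQ1⟩, fun r => ?_⟩
    obtain ⟨r1, h1, h2, h3⟩ := hP2 r
    obtain ⟨r2, h4, h5, h6⟩ := hQ2 r1
    refine ⟨r2, Big.seq h1 h4, ?_, ?_⟩
    · rw [h5]
      congr 2
      funext i
      exact h2 i i.2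
    · intro j hj hjo
      rw [h6 j (by omega) hjo, h3 j hj]
  | @prec n f g hf hg ihf ihg =>
    intro ρ o N hρ ho
    obtain ⟨P0, hP1, hP2⟩ := ihf (fun i => ρ i.succ) (N + 2) (N + 4)
      (fun i => by have := hρ i.succ; omega) (by omega)
    obtain ⟨Pg, hG1, hG2⟩ := ihg
      (Fin.cons (N + 1) (Fin.cons (N + 2) (fun i => ρ i.succ))) (N + 3) (N + 4)
      (fun i => by
        refine Fin.cases ?_ (fun i => ?_) i
        · simp
        · refine Fin.cases ?_ (fun i => ?_) i
          · simp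
          · simp only [Fin.cons_succ]
            have := hρ i.succ; omega) (by omega)
    refine ⟨Prog.seq (Prog.cpy N (ρ 0)) (Prog.seq (Prog.clr (N + 1)) (Prog.seq P0
      (Prog.seq (Prog.loop N (Prog.seq Pg (Prog.seq (Prog.cpy (N + 2) (N + 3))
          (Prog.seq (Prog.inc (N + 1)) (Prog.dec N))))) (Prog.cpy o (N + 2))))),
      ⟨trivial, trivial, hP1, ⟨hG1, trivial, trivial, trivial⟩, trivial⟩, fun r => ?_⟩
    set r1 : Regs := Function.update r N (r (ρ 0)) with hr1
    set r2 : Regs := Function.update r1 (N + 1) 0 with hr2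
    obtain ⟨r3, h1, h2, h3⟩ := hP2 r2
    have e0 : ∀ j < N, r2 j = r j := by
      intro j hj
      simp only [hr2, hr1]
      rw [Function.update_of_ne (by omega), Function.update_of_ne (by omega)]
    have e1 : ∀ j < N, r3 j = r j := by
      intro j hj
      rw [h3 j (by omega) (by omega), e0 j hj]
    have e2 : r3 N = r (ρ 0) := by
      rw [h3 N (by omega) (by omega)]
      simp only [hr2, hr1]
      rw [Function.update_of_ne (by omega), Function.update_self]
    have e3 : r3 (N + 1) = 0 := by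
      rw [h3 (N + 1) (by omega) (by omega)]
      simp only [hr2, hr1]
      rw [Function.update_self]
    have e4 : r3 (N + 2) = f (ofFn fun i => r (ρ i.succ)) := by
      rw [h2]
      congr 2
      funext i
      exact e0 _ (hρ _)
    obtain ⟨r4, h4, h5, h6⟩ := prec_loop N g (fun i => ρ i.succ) (fun i => hρ _) Pg
      (fun i => r (ρ i.succ)) (f (ofFn fun i => r (ρ i.succ)))
      (fun r => by
        obtain ⟨r', a1, a2, a3⟩ := hG2 r
        refine ⟨r', a1, ?_, a3⟩
        rw [a2]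
        rfl) (r (ρ 0)) r3 e2 (fun i => e1 _ (hρ _)) (by rw [e3]; exact e4)
    refine ⟨Function.update r4 o (r4 (N + 2)), Big.seq (Big.cpy _ _ _) (Big.seq (Big.clr _ _)
      (Big.seq h1 (Big.seq h4 (Big.cpy _ _ _)))), ?_, ?_⟩
    · rw [Function.update_self, h5, e3, Nat.zero_add]
      rfl
    · intro j hj hjo
      rw [Function.update_of_ne hjo, h6 j hj, e1 j hj]

/-- auxiliary: sequential evaluation of a finite family of partial functions -/
theorem compile_pfamily {n m : ℕ} (g : Fin m → List.Vector ℕ n →. ℕ)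
    (hg : ∀ i, ∀ (ρ : Fin n → ℕ) (o N : ℕ), (∀ i, ρ i < N) → o < N →
      ∃ P, NoMark P ∧ ∀ r : Regs, (∀ v ∈ g i (ofFn fun i => r (ρ i)),
        ∃ r', Big P r r' ∧ r' o = v ∧ ∀ j < N, j ≠ o → r' j = r j) ∧
        (∀ r', Big P r r' → (g i (ofFn fun i => r (ρ i))).Dom))
    (ρ : Fin n → ℕ) (N : ℕ) (hρ : ∀ i, ρ i < N) :
    ∀ k ≤ m, ∃ P, NoMark P ∧ ∀ r : Regs,
      ((∀ i : Fin m, (i : ℕ) < k → (g i (ofFn fun i => r (ρ i))).Dom) →
        ∃ r', Big P r r' ∧
      (∀ i : Fin m, (i : ℕ) < k → r' (N + i) ∈ g i (ofFn fun i => r (ρ i))) ∧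
      ∀ j < N, r' j = r j) ∧
      (∀ r', Big P r r' →
        ∀ i : Fin m, (i : ℕ) < k → (g i (ofFn fun i => r (ρ i))).Dom) := by
  intro k
  induction k with
  | zero =>
    intro _
    exact ⟨Prog.clr N, trivial, fun r => ⟨fun _ => ⟨_, Big.clr N r, fun i hi => absurd hi (by omega),
      fun j hj => by simp [Function.update, show j ≠ N by omega]⟩,
      fun _ _ i hi => absurd hi (by omega)⟩⟩
  | succ k ih =>
    intro hk
    obtain ⟨P, hP1, hP2⟩ := ih (by omega)
    obtain ⟨Q, hQ1, hQ2⟩ := hg ⟨k, by omega⟩ ρ (N + k) (N + m)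
      (fun i => by have := hρ i; omega) (by omega)
    refine ⟨Prog.seq P Q, ⟨hP1, hQ1⟩, fun r => ⟨fun hd => ?_, ?_⟩⟩
    · obtain ⟨r1, h1, h2, h3⟩ := (hP2 r).1 (fun i hi => hd i (by omega))
      have hargs : (fun i => r1 (ρ i)) = fun i => r (ρ i) := by
        funext i; exact h3 _ (hρ i)
      have hdk := hd ⟨k, by omega⟩ (by simp)
      have hq := (hQ2 r1).1
      rw [hargs] at hq
      obtain ⟨r2, h4, h5, h6⟩ := hq _ (Part.get_mem hdk)
      refine ⟨r2, Big.seq h1 h4, ?_, ?_⟩
      · intro i hi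
        by_cases hik : (i : ℕ) = k
        · subst hik
          rw [h5]
          exact Part.get_mem hdk
        · rw [h6 _ (by omega) (by omega)]
          exact h2 i (by omega)
      · intro j hj
        rw [h6 _ (by omega) (by omega), h3 _ hj]
    · intro r' hr'
      cases hr' with
      | @seq _ _ _ r1 _ h1 h2 =>
        have hd := (hP2 r).2 r1 h1
        obtain ⟨r1', h1', _, h3⟩ := (hP2 r).1 hd
        have := h1.det _ h1'
        subst this
        have hargs : (fun i => r1 (ρ i)) = fun i => r (ρ i) := by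
          funext i; exact h3 _ (hρ i)
        have hq := (hQ2 r1).2 _ h2
        rw [hargs] at hq
        intro i hi
        by_cases hik : (i : ℕ) = k
        · subst hik
          exact hq
        · exact hd i (by omega)

theorem mOfFn_mem {n : ℕ} {g : Fin n → Part ℕ} {v : Fin n → ℕ} (h : ∀ i, v i ∈ g i) :
    ofFn v ∈ List.Vector.mOfFn g := by
  induction n with
  | zero =>
    simp only [List.Vector.mOfFn, List.Vector.ofFn]
    exact Part.mem_some _
  | succ n ih =>
    simp only [List.Vector.mOfFn, List.Vector.ofFn]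
    refine Part.mem_bind_iff.2 ⟨v 0, h 0, Part.mem_bind_iff.2 ⟨_, ih (fun i => h i.succ), ?_⟩⟩
    exact Part.mem_some _

theorem dom_of_mOfFn {n : ℕ} {g : Fin n → Part ℕ} (h : ∀ i, (g i).Dom) :
    ofFn (fun i => (g i).get (h i)) ∈ List.Vector.mOfFn g :=
  mOfFn_mem fun i => Part.get_mem (h i)

theorem mOfFn_dom {n : ℕ} {g : Fin n → Part ℕ} (h : (List.Vector.mOfFn g).Dom) :
    ∀ i, (g i).Dom := by
  induction n with
  | zero => intro i; exact i.elim0
  | succ n ih =>
    obtain ⟨w, hw⟩ := Part.dom_iff_mem.1 h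
    simp only [List.Vector.mOfFn] at hw
    obtain ⟨a, ha, hw⟩ := Part.mem_bind_iff.1 hw
    obtain ⟨b, hb, _⟩ := Part.mem_bind_iff.1 hw
    intro i
    refine Fin.cases ?_ (fun i => ?_) i
    · exact Part.dom_iff_mem.2 ⟨a, ha⟩
    · exact ih (Part.dom_iff_mem.2 ⟨b, hb⟩) i

/-- the loop used for unbounded search, completeness -/
theorem rfind_loop {n : ℕ} (N : ℕ) (f : List.Vector ℕ (n + 1) → ℕ) (ρ : Fin n → ℕ)
    (hρ : ∀ i, ρ i < N) (P : Prog) (w : Fin n → ℕ)
    (hP : ∀ r : Regs, ∃ r', Big P r r' ∧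
      r' (N + 1) = f (r N ::ᵥ (ofFn fun i => r (ρ i))) ∧
        ∀ j < N + 2, j ≠ N + 1 → r' j = r j) :
    ∀ (c : ℕ) (r : Regs), (∀ i, r (ρ i) = w i) → r (N + 1) = f (r N ::ᵥ ofFn w) →
      (∀ m, r N ≤ m → m < r N + c → f (m ::ᵥ ofFn w) ≠ 0) → f ((r N + c) ::ᵥ ofFn w) = 0 →
      ∃ r', Big (Prog.loop (N + 1) (Prog.seq (Prog.inc N) P)) r r' ∧
        r' N = r N + c ∧ ∀ j < N, r' j = r j := by
  intro c
  induction c with
  | zero =>
    intro r hw hf _ h0
    exact ⟨r, Big.loopZ (by rw [hf]; simpa using h0), rfl, fun _ _ => rfl⟩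
  | succ c ih =>
    intro r hw hf hne h0
    set r1 : Regs := Function.update r N (r N + 1) with hr1
    obtain ⟨r2, h1, h2, h3⟩ := hP r1
    have e0 : ∀ j < N, r1 j = r j := by
      intro j hj
      simp only [hr1]
      rw [Function.update_of_ne (by omega)]
    have e1 : r1 N = r N + 1 := by simp [hr1]
    have e2 : r2 N = r N + 1 := by rw [h3 N (by omega) (by omega), e1]
    have hw1 : (fun i => r1 (ρ i)) = w := by
      funext i; rw [e0 _ (hρ i), hw i]
    obtain ⟨r', h4, h5, h6⟩ := ih r2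
      (fun i => by rw [h3 _ (by have := hρ i; omega) (by have := hρ i; omega), e0 _ (hρ i), hw i])
      (by rw [h2, e2, e1, hw1])
      (fun m h1 h2 => hne m (by omega) (by omega))
      (by rw [e2]; rw [show r N + 1 + c = r N + (c + 1) by omega]; exact h0)
    refine ⟨r', Big.loopS ?_ (Big.seq (Big.inc N r) h1) h4, by omega, ?_⟩
    · rw [hf]; exact hne _ le_rfl (by omega)
    · intro j hj
      rw [h6 j hj, h3 j (by omega) (by omega), e0 j hj]

/-- the loop used for unbounded search, soundness -/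
theorem rfind_loop_sound {n : ℕ} (N : ℕ) (f : List.Vector ℕ (n + 1) → ℕ) (ρ : Fin n → ℕ)
    (hρ : ∀ i, ρ i < N) (P : Prog) (w : Fin n → ℕ)
    (hP : ∀ r : Regs, ∃ r', Big P r r' ∧
      r' (N + 1) = f (r N ::ᵥ (ofFn fun i => r (ρ i))) ∧
        ∀ j < N + 2, j ≠ N + 1 → r' j = r j) (L : Prog) (r r' : Regs) (h : Big L r r') :
    L = Prog.loop (N + 1) (Prog.seq (Prog.inc N) P) →
    (∀ i, r (ρ i) = w i) → r (N + 1) = f (r N ::ᵥ ofFn w) →
      ∃ m, f (m ::ᵥ ofFn w) = 0 := by
  induction h with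
  | clr i r => intro h; exact Prog.noConfusion h
  | inc i r => intro h; exact Prog.noConfusion h
  | dec i r => intro h; exact Prog.noConfusion h
  | cpy i j r => intro h; exact Prog.noConfusion h
  | mark r => intro h; exact Prog.noConfusion h
  | seq _ _ _ _ => intro h; exact Prog.noConfusion h
  | @loopZ i P' r hz =>
    intro h hw hf
    cases h
    exact ⟨r N, by rw [← hf]; exact hz⟩
  | @loopS i P' r r1 r2 hz h1 h2 ih1 ih2 =>
    intro h hw hf
    cases h
    refine ih2 rfl ?_ ?_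
    · intro i
      cases h1 with
      | @seq _ _ _ r3 _ a1 a2 =>
        cases a1
        obtain ⟨r4, b1, b2, b3⟩ := hP (Function.update r N (r N + 1))
        have := a2.det _ b1
        subst this
        rw [b3 _ (by have := hρ i; omega) (by have := hρ i; omega),
          Function.update_of_ne (by have := hρ i; omega), hw i]
    · cases h1 with
      | @seq _ _ _ r3 _ a1 a2 =>
        cases a1
        obtain ⟨r4, b1, b2, b3⟩ := hP (Function.update r N (r N + 1))
        have := a2.det _ b1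
        subst this
        rw [b2, b3 N (by omega) (by omega)]
        congr 3
        funext i
        rw [Function.update_of_ne (by have := hρ i; omega), hw i]

theorem compile_partrec {n : ℕ} {f : List.Vector ℕ n →. ℕ} (hf : Nat.Partrec' f) :
    ∀ (ρ : Fin n → ℕ) (o N : ℕ), (∀ i, ρ i < N) → o < N →
      ∃ P, NoMark P ∧ ∀ r : Regs, (∀ v ∈ f (ofFn fun i => r (ρ i)),
        ∃ r', Big P r r' ∧ r' o = v ∧ ∀ j < N, j ≠ o → r' j = r j) ∧
        (∀ r', Big P r r' → (f (ofFn fun i => r (ρ i))).Dom) := by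
  induction hf with
  | @prim n f hf =>
    intro ρ o N hρ ho
    obtain ⟨P, hP1, hP2⟩ := compile_primrec hf ρ o N hρ ho
    refine ⟨P, hP1, fun r => ⟨fun v hv => ?_, fun _ _ => trivial⟩⟩
    obtain ⟨r', h1, h2, h3⟩ := hP2 r
    refine ⟨r', h1, ?_, h3⟩
    rw [h2]
    exact (Part.mem_some_iff.1 hv).symm
  | @comp m n f g hf hg ihf ihg =>
    intro ρ o N hρ ho
    obtain ⟨P, hP1, hP2⟩ := compile_pfamily g ihg ρ N hρ n le_rfl
    obtain ⟨Q, hQ1, hQ2⟩ := ihf (fun i => N + i) o (N + n) (fun i => by omega) (by omega)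
    refine ⟨Prog.seq P Q, ⟨hP1, hQ1⟩, fun r => ⟨fun v hv => ?_, ?_⟩⟩
    · obtain ⟨w, hw1, hw2⟩ := Part.mem_bind_iff.1 hv
      have hd := mOfFn_dom (Part.dom_iff_mem.2 ⟨w, hw1⟩)
      obtain ⟨r1, h1, h2, h3⟩ := (hP2 r).1 (fun i _ => hd i)
      have hw : (ofFn fun i : Fin n => r1 (N + i)) = w :=
        Part.mem_unique (mOfFn_mem fun i => h2 i i.2) hw1
      obtain ⟨r2, h4, h5, h6⟩ := (hQ2 r1).1 v (by rw [hw]; exact hw2)
      refine ⟨r2, Big.seq h1 h4, h5, ?_⟩
      intro j hj hjo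
      rw [h6 j (by omega) hjo, h3 j hj]
    · intro r' hr'
      cases hr' with
      | @seq _ _ _ r1 _ h1 h2 =>
        have hd := (hP2 r).2 r1 h1
        obtain ⟨r1', h1', h2', h3⟩ := (hP2 r).1 hd
        have := h1.det _ h1'
        subst this
        have hq := (hQ2 r1).2 _ h2
        obtain ⟨v, hv⟩ := Part.dom_iff_mem.1 hq
        exact Part.dom_iff_mem.2 ⟨v, Part.mem_bind_iff.2 ⟨_, mOfFn_mem fun i => h2' i i.2, hv⟩⟩
  | @rfind n f hf ihf =>
    intro ρ o N hρ ho
    obtain ⟨P, hP1, hP2⟩ := ihf (Fin.cons N ρ) (N + 1) (N + 2)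
      (fun i => by
        refine Fin.cases ?_ (fun i => ?_) i
        · simp
        · simp only [Fin.cons_succ]
          have := hρ i; omega) (by omega)
    have hP3 : ∀ r : Regs, ∃ r', Big P r r' ∧
      r' (N + 1) = f (r N ::ᵥ (ofFn fun i => r (ρ i))) ∧
        ∀ j < N + 2, j ≠ N + 1 → r' j = r j := by
      intro r
      obtain ⟨r', h1, h2, h3⟩ := (hP2 r).1 _ (Part.mem_some _)
      exact ⟨r', h1, h2, h3⟩
    refine ⟨Prog.seq (Prog.clr N) (Prog.seq P (Prog.seq
      (Prog.loop (N + 1) (Prog.seq (Prog.inc N) P)) (Prog.cpy o N))),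
      ⟨trivial, hP1, ⟨trivial, hP1⟩, trivial⟩, fun r => ?_⟩
    set r1 : Regs := Function.update r N 0 with hr1
    obtain ⟨r2, h1, h2, h3⟩ := hP3 r1
    have e0 : ∀ j < N, r1 j = r j := by
      intro j hj
      simp only [hr1]
      rw [Function.update_of_ne (by omega)]
    have e1 : r2 N = 0 := by rw [h3 N (by omega) (by omega)]; simp [hr1]
    have hw1 : (fun i => r1 (ρ i)) = fun i => r (ρ i) := by
      funext i; rw [e0 _ (hρ i)]
    have e2 : r2 (N + 1) = f (r2 N ::ᵥ ofFn fun i => r (ρ i)) := by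
      rw [h2, e1, hw1]
      simp [hr1]
    have e3 : ∀ i, r2 (ρ i) = r (ρ i) := fun i => by
      rw [h3 _ (by have := hρ i; omega) (by have := hρ i; omega), e0 _ (hρ i)]
    constructor
    · intro v hv
      obtain ⟨hv1, hv2⟩ := Nat.mem_rfind.1 hv
      have hv1' : f (v ::ᵥ ofFn fun i => r (ρ i)) = 0 := by
        simpa using hv1
      have hv2' : ∀ m < v, f (m ::ᵥ ofFn fun i => r (ρ i)) ≠ 0 := by
        intro m hm
        simpa using hv2 hm
      obtain ⟨r3, h4, h5, h6⟩ := rfind_loop N f ρ hρ P (fun i => r (ρ i)) hP3 v r2 e3 e2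
        (fun m _ hm => hv2' m (by omega)) (by rw [e1, Nat.zero_add]; exact hv1')
      refine ⟨Function.update r3 o (r3 N), Big.seq (Big.clr _ _) (Big.seq h1 (Big.seq h4
        (Big.cpy _ _ _))), ?_, ?_⟩
      · rw [Function.update_self]; omega
      · intro j hj hjo
        rw [Function.update_of_ne hjo, h6 j hj, h3 j (by omega) (by omega), e0 j hj]
    · intro r' hr'
      cases hr' with
      | @seq _ _ _ r3 _ a1 a2 =>
        cases a1
        cases a2 with
        | @seq _ _ _ r4 _ b1 b2 =>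
          have := b1.det _ h1
          subst this
          cases b2 with
          | @seq _ _ _ r5 _ c1 c2 =>
            obtain ⟨m, hm⟩ := rfind_loop_sound N f ρ hρ P (fun i => r (ρ i)) hP3 _ _ _ c1 rfl
              e3 e2
            refine Nat.rfind_dom.2 ⟨m, ?_, fun _ => trivial⟩
            rw [Part.mem_some_iff, hm]
            rfl

end Pool.Agent.helper79
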