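import Mathlib

/-!
Structured register programs with copy instructions, their small-step and big-step semantics,
and the compilation of partial recursive functions into them.
-/

set_option autoImplicit false

namespace Pool.Agent.helper79

/-- Structured register programs. -/
inductive Prog : Type
  | clr (i : ℕ) : Prog
  | inc (i : ℕ) : Prog
  | dec (i : ℕ) : Prog
  | cpy (i j : ℕ) : Prog
  | mark : Prog
  | seq (P Q : Prog) : Prog
  | loop (i : ℕ) (P : Prog) : Prog

/-- register files -/
abbrev Regs := ℕ → ℕ

/-- effect on the registers of the instruction at the head of the control list -/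
def nextRegs : List Prog → Regs → Regs
  | Prog.clr i :: _, r => Function.update r i 0
  | Prog.inc i :: _, r => Function.update r i (r i + 1)
  | Prog.dec i :: _, r => Function.update r i (r i - 1)
  | Prog.cpy i j :: _, r => Function.update r i (r j)
  | _, r => r

/-- next control list; `z i` says whether register `i` holds zero -/
def nextCtl : List Prog → (ℕ → Bool) → List Prog
  | [], _ => []
  | Prog.clr _ :: k, _ => k
  | Prog.inc _ :: k, _ => k
  | Prog.dec _ :: k, _ => k
  | Prog.cpy _ _ :: k, _ => k
  | Prog.mark :: k, _ => k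
  | Prog.seq P Q :: k, _ => P :: Q :: k
  | Prog.loop i P :: k, z => if z i then k else P :: Prog.loop i P :: k

/-- one step of the machine -/
def rstep (c : List Prog × Regs) : List Prog × Regs :=
  (nextCtl c.1 (fun i => decide (c.2 i = 0)), nextRegs c.1 c.2)

/-- big-step semantics -/
inductive Big : Prog → Regs → Regs → Prop
  | clr (i : ℕ) (r : Regs) : Big (Prog.clr i) r (Function.update r i 0)
  | inc (i : ℕ) (r : Regs) : Big (Prog.inc i) r (Function.update r i (r i + 1))
  | dec (i : ℕ) (r : Regs) : Big (Prog.dec i) r (Function.update r i (r i - 1))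
  | cpy (i j : ℕ) (r : Regs) : Big (Prog.cpy i j) r (Function.update r i (r j))
  | mark (r : Regs) : Big Prog.mark r r
  | seq {P Q : Prog} {r r1 r2 : Regs} : Big P r r1 → Big Q r1 r2 → Big (Prog.seq P Q) r r2
  | loopZ {i : ℕ} {P : Prog} {r : Regs} : r i = 0 → Big (Prog.loop i P) r r
  | loopS {i : ℕ} {P : Prog} {r r1 r2 : Regs} : r i ≠ 0 → Big P r r1 →
      Big (Prog.loop i P) r1 r2 → Big (Prog.loop i P) r r2

/-- big-step semantics of a control list -/
def BigL : List Prog → Regs → Regs → Prop
  | [], r, r' => r = r'
  | P :: k, r, r' => ∃ r1, Big P r r1 ∧ BigL k r1 r'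

theorem bigL_of_rstep (c : List Prog) (r r' : Regs)
    (h : BigL (rstep (c, r)).1 (rstep (c, r)).2 r') : BigL c r r' := by
  cases c with
  | nil => simpa [rstep, nextCtl, nextRegs] using h
  | cons P k =>
    cases P with
    | clr i => exact ⟨_, Big.clr i r, h⟩
    | inc i => exact ⟨_, Big.inc i r, h⟩
    | dec i => exact ⟨_, Big.dec i r, h⟩
    | cpy i j => exact ⟨_, Big.cpy i j r, h⟩
    | mark => exact ⟨_, Big.mark r, h⟩
    | seq P Q =>
      obtain ⟨r1, h1, r2, h2, h3⟩ := h
      exact ⟨r2, Big.seq h1 h2, h3⟩
    | loop i P =>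
      by_cases hz : r i = 0
      · refine ⟨r, Big.loopZ hz, ?_⟩
        simpa [rstep, nextCtl, nextRegs, hz] using h
      · have h' : BigL (P :: Prog.loop i P :: k) r r' := by
          simpa [rstep, nextCtl, nextRegs, hz] using h
        obtain ⟨r1, h1, r2, h2, h3⟩ := h'
        exact ⟨r2, Big.loopS hz h1 h2, h3⟩

theorem bigL_of_halts (n : ℕ) : ∀ (c : List Prog) (r r' : Regs),
    rstep^[n] (c, r) = ([], r') → BigL c r r' := by
  induction n with
  | zero =>
    intro c r r' h
    simp only [Function.iterate_zero, id_eq, Prod.mk.injEq] at h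
    obtain ⟨rfl, rfl⟩ := h
    rfl
  | succ n ih =>
    intro c r r' h
    rw [Function.iterate_succ_apply] at h
    apply bigL_of_rstep
    exact ih _ _ _ h

theorem halts_of_big {P : Prog} {r r' : Regs} (h : Big P r r') :
    ∀ k : List Prog, ∃ n, rstep^[n] (P :: k, r) = (k, r') := by
  induction h with
  | clr i r => exact fun k => ⟨1, rfl⟩
  | inc i r => exact fun k => ⟨1, rfl⟩
  | dec i r => exact fun k => ⟨1, rfl⟩
  | cpy i j r => exact fun k => ⟨1, rfl⟩
  | mark r => exact fun k => ⟨1, rfl⟩
  | @seq P Q r r1 r2 _ _ ih1 ih2 =>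
    intro k
    obtain ⟨n1, h1⟩ := ih1 (Q :: k)
    obtain ⟨n2, h2⟩ := ih2 k
    refine ⟨n2 + (n1 + 1), ?_⟩
    rw [Function.iterate_add_apply, Function.iterate_succ_apply]
    have : rstep (Prog.seq P Q :: k, r) = (P :: Q :: k, r) := rfl
    rw [this, h1, h2]
  | @loopZ i P r hz =>
    intro k
    refine ⟨1, ?_⟩
    simp [rstep, nextCtl, nextRegs, hz]
  | @loopS i P r r1 r2 hz _ _ ih1 ih2 =>
    intro k
    obtain ⟨n1, h1⟩ := ih1 (Prog.loop i P :: k)
    obtain ⟨n2, h2⟩ := ih2 k
    refine ⟨n2 + (n1 + 1), ?_⟩
    rw [Function.iterate_add_apply, Function.iterate_succ_apply]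
    have : rstep (Prog.loop i P :: k, r) = (P :: Prog.loop i P :: k, r) := by
      simp [rstep, nextCtl, nextRegs, hz]
    rw [this, h1, h2]

theorem Big.det {P : Prog} {r r1 : Regs} (h : Big P r r1) : ∀ r2, Big P r r2 → r1 = r2 := by
  induction h with
  | clr i r => intro r2 h; cases h; rfl
  | inc i r => intro r2 h; cases h; rfl
  | dec i r => intro r2 h; cases h; rfl
  | cpy i j r => intro r2 h; cases h; rfl
  | mark r => intro r2 h; cases h; rfl
  | seq _ _ ih1 ih2 =>
    intro r2 h
    cases h with
    | seq h1 h2 =>
      have := ih1 _ h1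
      subst this
      exact ih2 _ h2
  | loopZ hz =>
    intro r2 h
    cases h with
    | loopZ _ => rfl
    | loopS hz' _ _ => exact absurd hz hz'
  | loopS hz _ _ ih1 ih2 =>
    intro r2 h
    cases h with
    | loopZ hz' => exact absurd hz' hz
    | loopS _ h1 h2 =>
      have := ih1 _ h1
      subst this
      exact ih2 _ h2

/-- programs not containing `mark` -/
def NoMark : Prog → Prop
  | Prog.mark => False
  | Prog.seq P Q => NoMark P ∧ NoMark Q
  | Prog.loop _ P => NoMark P
  | _ => True

/-- all register indices in the program are `< K` -/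
def RegLt (K : ℕ) : Prog → Prop
  | Prog.clr i => i < K
  | Prog.inc i => i < K
  | Prog.dec i => i < K
  | Prog.cpy i j => i < K ∧ j < K
  | Prog.mark => True
  | Prog.seq P Q => RegLt K P ∧ RegLt K Q
  | Prog.loop i P => i < K ∧ RegLt K P

theorem exists_regLt (P : Prog) : ∃ K, ∀ K' ≥ K, RegLt K' P := by
  induction P with
  | clr i => exact ⟨i + 1, fun K' h => by simp only [RegLt]; omega⟩
  | inc i => exact ⟨i + 1, fun K' h => by simp only [RegLt]; omega⟩
  | dec i => exact ⟨i + 1, fun K' h => by simp only [RegLt]; omega⟩
  | cpy i j => exact ⟨i + j + 1, fun K' h => by simp only [RegLt]; omega⟩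
  | mark => exact ⟨0, fun _ _ => trivial⟩
  | seq P Q ihP ihQ =>
    obtain ⟨K1, h1⟩ := ihP
    obtain ⟨K2, h2⟩ := ihQ
    exact ⟨K1 + K2, fun K' h => ⟨h1 K' (by omega), h2 K' (by omega)⟩⟩
  | loop i P ih =>
    obtain ⟨K1, h1⟩ := ih
    exact ⟨K1 + i + 1, fun K' h => ⟨by omega, h1 K' (by omega)⟩⟩

theorem noMark_nextCtl (c : List Prog) (z : ℕ → Bool) (h : ∀ P ∈ c, NoMark P) :
    ∀ P ∈ nextCtl c z, NoMark P := by
  cases c with
  | nil => simpa [nextCtl] using h
  | cons P k =>
    have hk : ∀ Q ∈ k, NoMark Q := fun Q hQ => h Q (List.mem_cons_of_mem _ hQ)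
    have hP : NoMark P := h P (by simp)
    cases P with
    | clr i => exact hk
    | inc i => exact hk
    | dec i => exact hk
    | cpy i j => exact hk
    | mark => exact hk
    | seq P Q =>
      intro R hR
      simp only [nextCtl, List.mem_cons] at hR
      rcases hR with rfl | rfl | hR
      · exact hP.1
      · exact hP.2
      · exact hk _ hR
    | loop i P =>
      intro R hR
      simp only [nextCtl] at hR
      split_ifs at hR
      · exact hk _ hR
      · simp only [List.mem_cons] at hR
        rcases hR with rfl | rfl | hR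
        · exact hP
        · exact hP
        · exact hk _ hR

/-- the list of control lists reachable from `P :: k` before reaching `k` -/
def ctl : Prog → List Prog → List (List Prog)
  | Prog.seq P Q, k => (Prog.seq P Q :: k) :: (ctl P (Q :: k) ++ ctl Q k)
  | Prog.loop i P, k => (Prog.loop i P :: k) :: ctl P (Prog.loop i P :: k)
  | P, k => [P :: k]

theorem mem_ctl_self (P : Prog) (k : List Prog) : P :: k ∈ ctl P k := by
  cases P <;> simp [ctl]

theorem nextCtl_mem_ctl (P : Prog) : ∀ (k c : List Prog) (z : ℕ → Bool), c ∈ ctl P k →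
    nextCtl c z ∈ ctl P k ∨ nextCtl c z = k := by
  induction P with
  | clr i =>
    intro k c z h
    simp only [ctl, List.mem_singleton] at h
    subst h
    right; rfl
  | inc i =>
    intro k c z h
    simp only [ctl, List.mem_singleton] at h
    subst h
    right; rfl
  | dec i =>
    intro k c z h
    simp only [ctl, List.mem_singleton] at h
    subst h
    right; rfl
  | cpy i j =>
    intro k c z h
    simp only [ctl, List.mem_singleton] at h
    subst h
    right; rfl
  | mark =>
    intro k c z h
    simp only [ctl, List.mem_singleton] at h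
    subst h
    right; rfl
  | seq P Q ihP ihQ =>
    intro k c z h
    simp only [ctl, List.mem_cons, List.mem_append] at h ⊢
    rcases h with rfl | h | h
    · left; right; left
      exact mem_ctl_self P (Q :: k)
    · rcases ihP _ _ z h with h' | h'
      · left; right; left; exact h'
      · left; right; right; rw [h']; exact mem_ctl_self Q k
    · rcases ihQ _ _ z h with h' | h'
      · left; right; right; exact h'
      · right; exact h'
  | loop i P ih =>
    intro k c z h
    simp only [ctl, List.mem_cons] at h ⊢
    rcases h with rfl | h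
    · simp only [nextCtl]
      split_ifs
      · right; rfl
      · left; right; exact mem_ctl_self P _
    · rcases ih _ _ z h with h' | h'
      · left; right; exact h'
      · left; left; exact h'

theorem regLt_nextCtl (K : ℕ) (c : List Prog) (z : ℕ → Bool) (h : ∀ P ∈ c, RegLt K P) :
    ∀ P ∈ nextCtl c z, RegLt K P := by
  cases c with
  | nil => simpa [nextCtl] using h
  | cons P k =>
    have hk : ∀ Q ∈ k, RegLt K Q := fun Q hQ => h Q (List.mem_cons_of_mem _ hQ)
    have hP : RegLt K P := h P (by simp)
    cases P with
    | clr i => exact hk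
    | inc i => exact hk
    | dec i => exact hk
    | cpy i j => exact hk
    | mark => exact hk
    | seq P Q =>
      intro R hR
      simp only [nextCtl, List.mem_cons] at hR
      rcases hR with rfl | rfl | hR
      · exact hP.1
      · exact hP.2
      · exact hk _ hR
    | loop i P =>
      intro R hR
      simp only [nextCtl] at hR
      split_ifs at hR
      · exact hk _ hR
      · simp only [List.mem_cons] at hR
        rcases hR with rfl | rfl | hR
        · exact hP.2
        · exact hP
        · exact hk _ hR

end Pool.Agent.helper79
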