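import Pool.Agent.helper79.SlopeSound

/-!
Completeness: if the machine has infinitely many marked steps on input `e`, there is a valid
configuration whose group of periods is generated by `(e, 1, 0, 0, 0, 0)`.
-/

set_option autoImplicit false

namespace Pool.Agent.helper79

variable {Q : Type} {K : ℕ}

/-- the intended configuration -/
def good (M : Machine Q K) (e : ℕ) : Conf Q K := fun a b t s y z =>
  if t < 0 then
    { B := decide ((e : ℤ) * b ≤ a)
      An := decide (a = (e : ℤ) * b)
      C := none
      kap := fun _ => false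
      W1 := false
      W2 := false
      m1 := false
      c1 := false
      m2 := false
      c2 := false }
  else
    { B := decide ((e : ℤ) * b ≤ a)
      An := decide (a = (e : ℤ) * b)
      C := some (M.run e t.toNat).1
      kap := fun i => decide ((e : ℤ) * b ≤ a ∧ a < (e : ℤ) * b + (M.run e t.toNat).2 i)
      W1 := decide (s = -t)
      W2 := decide (s = t)
      m1 := decide (s = -t ∧ a = (e : ℤ) * b ∧ (2 : ℤ) ^ (M.cnt e t.toNat) ∣ y)
      c1 := decide (s = -t ∧ a = (e : ℤ) * b ∧ Even (y / (2 : ℤ) ^ (M.cnt e t.toNat)))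
      m2 := decide (s = t ∧ a = (e : ℤ) * b ∧ (2 : ℤ) ^ (M.cnt e t.toNat) ∣ z)
      c2 := decide (s = t ∧ a = (e : ℤ) * b ∧ Even (z / (2 : ℤ) ^ (M.cnt e t.toNat))) }

theorem even_div_succ (D y : ℤ) (hD : 0 < D) :
    decide (Even ((y + 1) / D)) = xor (decide (Even (y / D))) (decide (D ∣ y + 1)) := by
  rw [int_div_succ D hD y]
  by_cases hd : D ∣ y + 1
  · by_cases ho : Even (y / D)
    · have : ¬ Even (y / D + 1) := by
        rw [Int.not_even_iff_odd]; exact ho.add_one
      simp [hd, ho, this]
    · have : Even (y / D + 1) := by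
        rw [Int.not_even_iff_odd] at ho; exact ho.add_one
      simp [hd, ho, this]
  · simp [hd]

theorem two_mul_dvd_iff (D y : ℤ) (hD : 0 < D) : (2 * D ∣ y) ↔ (D ∣ y ∧ Even (y / D)) := by
  constructor
  · intro h
    have h1 : D ∣ y := dvd_trans (dvd_mul_left D 2) h
    refine ⟨h1, ?_⟩
    obtain ⟨k, hk⟩ := h
    rw [hk, show 2 * D * k = D * (2 * k) by ring, Int.mul_ediv_cancel_left _ hD.ne']
    exact even_two_mul k
  · rintro ⟨⟨k, hk⟩, h2⟩
    rw [hk, Int.mul_ediv_cancel_left _ hD.ne'] at h2
    obtain ⟨l, hl⟩ := h2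
    exact ⟨l, by rw [hk, hl]; ring⟩

section Fields

variable (M : Machine Q K) (e : ℕ) (a b t s y z : ℤ)

theorem good_B : (good M e a b t s y z).B = decide ((e : ℤ) * b ≤ a) := by
  unfold good; split_ifs <;> rfl

theorem good_An : (good M e a b t s y z).An = decide (a = (e : ℤ) * b) := by
  unfold good; split_ifs <;> rfl

theorem good_C : (good M e a b t s y z).C =
    if t < 0 then none else some (M.run e t.toNat).1 := by
  unfold good; split_ifs <;> rfl

theorem good_kap (i : Fin K) : (good M e a b t s y z).kap i =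
    decide (0 ≤ t ∧ (e : ℤ) * b ≤ a ∧ a < (e : ℤ) * b + (M.run e t.toNat).2 i) := by
  unfold good; split_ifs with h
  · simp [not_le.2 h]
  · simp [not_lt.1 h]

theorem good_W1 : (good M e a b t s y z).W1 = decide (0 ≤ t ∧ s = -t) := by
  unfold good; split_ifs with h
  · simp [not_le.2 h]
  · simp [not_lt.1 h]

theorem good_W2 : (good M e a b t s y z).W2 = decide (0 ≤ t ∧ s = t) := by
  unfold good; split_ifs with h
  · simp [not_le.2 h]
  · simp [not_lt.1 h]

theorem good_m1 : (good M e a b t s y z).m1 =
    decide (0 ≤ t ∧ s = -t ∧ a = (e : ℤ) * b ∧ (2 : ℤ) ^ (M.cnt e t.toNat) ∣ y) := by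
  unfold good; split_ifs with h
  · simp [not_le.2 h]
  · simp [not_lt.1 h]

theorem good_c1 : (good M e a b t s y z).c1 =
    decide (0 ≤ t ∧ s = -t ∧ a = (e : ℤ) * b ∧ Even (y / (2 : ℤ) ^ (M.cnt e t.toNat))) := by
  unfold good; split_ifs with h
  · simp [not_le.2 h]
  · simp [not_lt.1 h]

theorem good_m2 : (good M e a b t s y z).m2 =
    decide (0 ≤ t ∧ s = t ∧ a = (e : ℤ) * b ∧ (2 : ℤ) ^ (M.cnt e t.toNat) ∣ z) := by
  unfold good; split_ifs with h
  · simp [not_le.2 h]
  · simp [not_lt.1 h]

theorem good_c2 : (good M e a b t s y z).c2 =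
    decide (0 ≤ t ∧ s = t ∧ a = (e : ℤ) * b ∧ Even (z / (2 : ℤ) ^ (M.cnt e t.toNat))) := by
  unfold good; split_ifs with h
  · simp [not_le.2 h]
  · simp [not_lt.1 h]

end Fields

theorem good_C_some {M : Machine Q K} {e : ℕ} {a b t s y z : ℤ} {q : Q}
    (h : (good M e a b t s y z).C = some q) :
    ∃ n : ℕ, t = n ∧ q = (M.run e n).1 := by
  rw [good_C] at h
  split_ifs at h with h1
  refine ⟨t.toNat, by omega, ?_⟩
  exact (Option.some_injective _ h).symm

theorem good_C_none {M : Machine Q K} {e : ℕ} {a b t s y z : ℤ}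
    (h : (good M e a b t s y z).C = none) : t < 0 := by
  rw [good_C] at h
  split_ifs at h with h1
  exact h1

theorem run_succ_ctl (M : Machine Q K) (e n : ℕ) :
    (M.run e (n + 1)).1 = M.nxt (M.run e n).1 (fun i => decide ((M.run e n).2 i = 0)) := by
  rw [Machine.run_succ]; rfl

theorem run_succ_reg (M : Machine Q K) (e n : ℕ) (i : Fin K) :
    (M.run e (n + 1)).2 i = (M.upd (M.run e n).1 i).app (M.run e n).2 := by
  rw [Machine.run_succ]; rfl

theorem good_valid (M : Machine Q K) (e : ℕ) : Valid M (good M e) := by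
  intro a b t s y z
  have hmul : (e : ℤ) * (b + 1) = e * b + e := by ring
  have hkap : ∀ (t s s' y y' z z' : ℤ), (good M e a b t s y z).kap =
      (good M e a b t s' y' z').kap := by
    intro t s s' y y' z z'
    funext i
    rw [good_kap, good_kap]
  refine
    { B_t := by rw [good_B, good_B]
      B_s := by rw [good_B, good_B]
      B_4 := by rw [good_B, good_B]
      B_5 := by rw [good_B, good_B]
      C_a := by rw [good_C, good_C]
      C_b := by rw [good_C, good_C]
      C_s := by rw [good_C, good_C]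
      C_4 := by rw [good_C, good_C]
      C_5 := by rw [good_C, good_C]
      k_s := hkap _ _ _ _ _ _ _
      k_4 := hkap _ _ _ _ _ _ _
      k_5 := hkap _ _ _ _ _ _ _
      W1_a := by rw [good_W1, good_W1]
      W1_b := by rw [good_W1, good_W1]
      W1_4 := by rw [good_W1, good_W1]
      W1_5 := by rw [good_W1, good_W1]
      W2_a := by rw [good_W2, good_W2]
      W2_b := by rw [good_W2, good_W2]
      W2_4 := by rw [good_W2, good_W2]
      W2_5 := by rw [good_W2, good_W2]
      m1_5 := by rw [good_m1, good_m1]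
      c1_5 := by rw [good_c1, good_c1]
      m2_4 := by rw [good_m2, good_m2]
      c2_4 := by rw [good_c2, good_c2]
      st1 := ?_
      st2 := ?_
      an := ?_
      ct1 := ?_
      ct2 := ?_
      ct3 := ?_
      k_init := ?_
      k_zero := ?_
      k_copy := ?_
      k_succ := ?_
      k_pred := ?_
      w_off := ?_
      w_init := ?_
      w1_move := ?_
      w2_move := ?_
      w_cross := ?_
      w_swap := ?_
      m1_dead := ?_
      m1_init := ?_
      c1_rule := ?_
      m1_move := ?_
      m2_dead := ?_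
      m2_init := ?_
      c2_rule := ?_
      m2_move := ?_ }
  · simp only [good_B, decide_eq_true_eq]; omega
  · simp only [good_B, decide_eq_true_eq]; rw [hmul]; omega
  · simp only [good_B, good_An]
    by_cases h1 : a + 1 = (e : ℤ) * b
    · have h2 : (e : ℤ) * b ≤ a + 1 := by omega
      have h3 : ¬ (e : ℤ) * b ≤ a := by omega
      simp [h1, h3]
    · by_cases h2 : (e : ℤ) * b ≤ a
      · simp [h1, h2]
      · have h3 : ¬ (e : ℤ) * b ≤ a + 1 := by omega
        simp [h1, h3]
  · intro h
    have := good_C_none h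
    rw [good_C, if_pos (by omega)]
  · intro h q hq
    have h1 := good_C_none h
    obtain ⟨n, hn, hq⟩ := good_C_some hq
    have : n = 0 := by omega
    subst this
    rw [hq]
    rfl
  · intro h q hq
    obtain ⟨n, rfl, hqn⟩ := good_C_some hq
    rw [good_C, if_neg (by omega), show ((n : ℤ) + 1).toNat = n + 1 by omega, run_succ_ctl,
      ← hqn]
    congr 2
    funext i
    rw [good_An, decide_eq_true_eq] at h
    rw [good_kap, h]
    by_cases hz : (M.run e n).2 i = 0
    · simp [hz]
    · have : 0 < (M.run e n).2 i := Nat.pos_of_ne_zero hz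
      simp [hz, this]
  · intro h q hq i
    have h1 := good_C_none h
    obtain ⟨n, hn, _⟩ := good_C_some hq
    have : n = 0 := by omega
    subst this
    have ht : t + 1 = 0 := by simpa using hn
    rw [good_kap, good_B, good_B, ht]
    by_cases hi : i = M.inp
    · have : (M.run e (0 : ℤ).toNat).2 i = e := by simp [Machine.run, hi]
      rw [this, hmul]
      by_cases h3 : (e : ℤ) * b ≤ a
      · by_cases h4 : a < (e : ℤ) * b + e
        · have h5 : ¬ ((e : ℤ) * b + e ≤ a) := by omega
          simp [h3, h4, h5, hi]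
        · have h5 : (e : ℤ) * b + e ≤ a := by omega
          simp [h3, h4, h5]
      · simp [h3]
    · have : (M.run e (0 : ℤ).toNat).2 i = 0 := by simp [Machine.run, hi]
      rw [this]
      simp only [hi, decide_false, Bool.false_and, decide_eq_false_iff_not]
      rintro ⟨_, h2, h3⟩
      simp at h3
      omega
  · intro q hq i hu
    obtain ⟨n, rfl, hqn⟩ := good_C_some hq
    rw [good_kap, show ((n : ℤ) + 1).toNat = n + 1 by omega, run_succ_reg, ← hqn,
      hu]
    apply decide_eq_false
    simp only [Upd.app]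
    push_cast
    omega
  · intro q hq i l hu
    obtain ⟨n, rfl, hqn⟩ := good_C_some hq
    rw [good_kap, good_kap, show ((n : ℤ) + 1).toNat = n + 1 by omega, run_succ_reg,
      ← hqn, hu]
    simp only [Upd.app, Int.toNat_natCast]
    apply decide_eq_decide.2
    omega
  · intro q hq i l hu
    obtain ⟨n, rfl, hqn⟩ := good_C_some hq
    rw [good_kap, good_kap, good_An, show ((n : ℤ) + 1).toNat = n + 1 by omega, run_succ_reg,
      ← hqn, hu]
    simp only [Upd.app, Int.toNat_natCast, ← Bool.decide_or]
    apply decide_eq_decide.2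
    push_cast
    omega
  · intro q hq i l hu
    obtain ⟨n, rfl, hqn⟩ := good_C_some hq
    rw [good_kap, good_kap, good_B, show ((n : ℤ) + 1).toNat = n + 1 by omega, run_succ_reg,
      ← hqn, hu]
    simp only [Upd.app, Int.toNat_natCast, ← Bool.decide_and]
    apply decide_eq_decide.2
    omega
  · intro h
    have h1 := good_C_none h
    rw [good_W1, good_W2]
    constructor <;> simp <;> omega
  · intro h q hq
    have h1 := good_C_none h
    obtain ⟨n, hn, _⟩ := good_C_some hq
    rw [good_W1, good_W2]
    apply decide_eq_decide.2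
    omega
  · intro q hq
    obtain ⟨n, rfl, hqn⟩ := good_C_some hq
    rw [good_W1, good_W1]
    apply decide_eq_decide.2
    omega
  · intro q hq
    obtain ⟨n, rfl, hqn⟩ := good_C_some hq
    rw [good_W2, good_W2]
    apply decide_eq_decide.2
    omega
  · intro h1 h2
    rw [good_W1, decide_eq_true_eq] at h1
    rw [good_W2, decide_eq_true_eq] at h2
    rw [good_C, if_pos (by omega)]
  · intro h1 h2
    rw [good_W2, decide_eq_true_eq] at h1
    rw [good_W1, decide_eq_true_eq] at h2
    omega
  · intro h
    rw [good_W1, good_An, ← Bool.decide_and, decide_eq_false_iff_not] at h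
    rw [good_m1, good_c1]
    constructor
    · rw [decide_eq_false_iff_not]; tauto
    · rw [decide_eq_false_iff_not]; tauto
  · intro h q hq h2 h3
    have h1 := good_C_none h
    obtain ⟨n, hn, _⟩ := good_C_some hq
    have : n = 0 := by omega
    subst this
    have ht : t + 1 = 0 := by simpa using hn
    rw [good_W1, decide_eq_true_eq] at h2
    rw [good_An, decide_eq_true_eq] at h3
    rw [good_m1, decide_eq_true_eq, ht]
    refine ⟨le_rfl, by omega, h3, ?_⟩
    simp [Machine.cnt]
  · intro h1 h2
    rw [good_W1, decide_eq_true_eq] at h1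
    rw [good_An, decide_eq_true_eq] at h2
    rw [good_c1, good_c1, good_m1]
    simp only [h1.1, h1.2, h2, true_and]
    exact even_div_succ _ y (by positivity)
  · intro q hq
    obtain ⟨n, rfl, hqn⟩ := good_C_some hq
    rw [good_m1, good_m1, good_c1, show ((n : ℤ) + 1).toNat = n + 1 by omega, Int.toNat_natCast,
      Machine.cnt, ← hqn]
    have e1 : s = -((n : ℤ) + 1) ↔ s + 1 = -(n : ℤ) := by omega
    have e2 : (0 : ℤ) ≤ (n : ℤ) + 1 := by omega
    have e3 : (0 : ℤ) ≤ (n : ℤ) := by omega
    cases hmk : M.mark q with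
    | false => simp only [e1, e2, e3, Bool.not_false, Bool.true_or, Bool.and_true, true_and,
        Bool.false_eq_true, if_false, Nat.add_zero]
    | true =>
      have h2 := two_mul_dvd_iff ((2 : ℤ) ^ M.cnt e n) y (by positivity)
      rw [if_pos rfl, pow_succ, mul_comm _ (2 : ℤ)]
      simp only [h2, e1, e2, e3, Bool.not_true, Bool.false_or, ← Bool.decide_and, true_and]
      apply decide_eq_decide.2
      tauto
  · intro h
    rw [good_W2, good_An, ← Bool.decide_and, decide_eq_false_iff_not] at h
    rw [good_m2, good_c2]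
    constructor
    · rw [decide_eq_false_iff_not]; tauto
    · rw [decide_eq_false_iff_not]; tauto
  · intro h q hq h2 h3
    have h1 := good_C_none h
    obtain ⟨n, hn, _⟩ := good_C_some hq
    have : n = 0 := by omega
    subst this
    have ht : t + 1 = 0 := by simpa using hn
    rw [good_W2, decide_eq_true_eq] at h2
    rw [good_An, decide_eq_true_eq] at h3
    rw [good_m2, decide_eq_true_eq, ht]
    refine ⟨le_rfl, by omega, h3, ?_⟩
    simp [Machine.cnt]
  · intro h1 h2
    rw [good_W2, decide_eq_true_eq] at h1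
    rw [good_An, decide_eq_true_eq] at h2
    rw [good_c2, good_c2, good_m2]
    simp only [h1.1, h1.2, h2, true_and]
    exact even_div_succ _ z (by positivity)
  · intro q hq
    obtain ⟨n, rfl, hqn⟩ := good_C_some hq
    rw [good_m2, good_m2, good_c2, show ((n : ℤ) + 1).toNat = n + 1 by omega, Int.toNat_natCast,
      Machine.cnt, ← hqn]
    have e1 : s + 1 = ((n : ℤ) + 1) ↔ s = (n : ℤ) := by omega
    have e2 : (0 : ℤ) ≤ (n : ℤ) + 1 := by omega
    have e3 : (0 : ℤ) ≤ (n : ℤ) := by omega
    cases hmk : M.mark q with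
    | false => simp only [e1, e2, e3, Bool.not_false, Bool.true_or, Bool.and_true, true_and,
        Bool.false_eq_true, if_false, Nat.add_zero]
    | true =>
      have h2 := two_mul_dvd_iff ((2 : ℤ) ^ M.cnt e n) z (by positivity)
      rw [if_pos rfl, pow_succ, mul_comm _ (2 : ℤ)]
      simp only [h2, e1, e2, e3, Bool.not_true, Bool.false_or, ← Bool.decide_and, true_and]
      apply decide_eq_decide.2
      tauto

/-- the configuration is periodic in direction `(e, 1, 0, 0, 0, 0)` -/
theorem good_periodic (M : Machine Q K) (e : ℕ) (a b t s y z : ℤ) :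
    good M e (a + e) (b + 1) t s y z = good M e a b t s y z := by
  have h1 : ((e : ℤ) * (b + 1) ≤ a + e) = ((e : ℤ) * b ≤ a) := by
    rw [mul_add, mul_one]; exact propext ⟨fun h => by omega, fun h => by omega⟩
  have h2 : (a + (e : ℤ) = (e : ℤ) * (b + 1)) = (a = (e : ℤ) * b) := by
    rw [mul_add, mul_one]; exact propext ⟨fun h => by omega, fun h => by omega⟩
  have h3 : ∀ r : ℕ, (a + (e : ℤ) < (e : ℤ) * (b + 1) + r) = (a < (e : ℤ) * b + r) := by
    intro r
    rw [mul_add, mul_one]; exact propext ⟨fun h => by omega, fun h => by omega⟩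
  unfold good
  simp only [h1, h2, h3]

/-- all periods of the configuration are multiples of `(e, 1, 0, 0, 0, 0)` -/
theorem good_aperiodic (M : Machine Q K) (e : ℕ)
    (hinf : ∀ n, ∃ m ≥ n, M.mark (M.run e m).1 = true) (u0 u1 u2 u3 u4 u5 : ℤ)
    (h : ∀ a b t s y z, good M e (a + u0) (b + u1) (t + u2) (s + u3) (y + u4) (z + u5) =
      good M e a b t s y z) :
    u0 = e * u1 ∧ u2 = 0 ∧ u3 = 0 ∧ u4 = 0 ∧ u5 = 0 := by
  have h2 : u2 = 0 := by
    have e1 := congrArg Sym.C (h 0 0 0 0 0 0)
    have e2 := congrArg Sym.C (h 0 0 (-1) 0 0 0)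
    rw [good_C, good_C, if_neg (lt_irrefl (0 : ℤ))] at e1
    rw [good_C, good_C, if_pos (show (-1 : ℤ) < 0 by omega)] at e2
    split_ifs at e1 e2 with h3 h4
    omega
  subst h2
  have h3 : u3 = 0 := by
    have e1 := congrArg Sym.W1 (h 0 0 0 0 0 0)
    rw [good_W1, good_W1] at e1
    have := decide_eq_decide.1 e1
    simp at this
    omega
  subst h3
  have h0 : u0 = e * u1 := by
    have e1 := congrArg Sym.An (h 0 0 0 0 0 0)
    rw [good_An, good_An] at e1
    have := decide_eq_decide.1 e1
    simpa using this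
  subst h0
  have hcnt : ∀ n : ℕ, ∃ m, n ≤ M.cnt e m := by
    intro n
    induction n with
    | zero => exact ⟨0, Nat.zero_le _⟩
    | succ n ih =>
      obtain ⟨m, hm⟩ := ih
      obtain ⟨m', hm', hmk⟩ := hinf m
      refine ⟨m' + 1, ?_⟩
      have hmono : ∀ k, M.cnt e m ≤ M.cnt e (m + k) := by
        intro k
        induction k with
        | zero => exact le_rfl
        | succ k ih => rw [← Nat.add_assoc, Machine.cnt]; omega
      obtain ⟨k, rfl⟩ := Nat.exists_eq_add_of_le hm'
      rw [Machine.cnt, hmk, if_pos rfl]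
      have := hmono k
      omega
  have hzero : ∀ u : ℤ, (∀ m : ℕ, (2 : ℤ) ^ M.cnt e m ∣ u) → u = 0 := by
    intro u hu
    obtain ⟨m, hm⟩ := hcnt (u.natAbs + 1)
    by_contra hne
    have h1 := Int.natAbs_dvd_natAbs.2 (hu m)
    rw [Int.natAbs_pow] at h1
    have h2 := Nat.le_of_dvd (Int.natAbs_pos.2 hne) h1
    have h3 : u.natAbs < 2 ^ u.natAbs := Nat.lt_two_pow_self
    have h4 : (2 : ℕ) ^ u.natAbs ≤ 2 ^ M.cnt e m := Nat.pow_le_pow_right (by omega) (by omega)
    have h5 : (2 : ℤ).natAbs = 2 := rfl
    rw [h5] at h2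
    omega
  refine ⟨rfl, rfl, rfl, hzero _ fun m => ?_, hzero _ fun m => ?_⟩
  · have e1 := congrArg Sym.m1 (h 0 0 m (-m) 0 0)
    rw [good_m1, good_m1] at e1
    have := decide_eq_decide.1 e1
    simpa using this
  · have e1 := congrArg Sym.m2 (h 0 0 m m 0 0)
    rw [good_m2, good_m2] at e1
    have := decide_eq_decide.1 e1
    simpa using this

end Pool.Agent.helper79
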