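import Pool.Agent.helper79.RegUniversal

/-!
The nearest-neighbour subshift on `ℤ^6` attached to a register machine, in coordinates
`(a, b, t, s, y, z)`.
-/

set_option autoImplicit false

namespace Pool.Agent.helper79

/-- The alphabet. -/
structure Sym (Q : Type) (K : ℕ) : Type where
  /-- inside the staircase region -/
  B : Bool
  /-- anchor cell: leftmost inside cell of its row -/
  An : Bool
  /-- control state of the machine, `none` before the start -/
  C : Option Q
  /-- registers in unary, to the right of the anchor -/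
  kap : Fin K → Bool
  /-- thread 1 -/
  W1 : Bool
  /-- thread 2 -/
  W2 : Bool
  /-- marks and colours carried by thread 1 -/
  m1 : Bool
  c1 : Bool
  /-- marks and colours carried by thread 2 -/
  m2 : Bool
  c2 : Bool

instance {Q : Type} {K : ℕ} [Finite Q] : Finite (Sym Q K) :=
  Finite.of_injective
    (fun s : Sym Q K => (s.B, s.An, s.C, s.kap, s.W1, s.W2, s.m1, s.c1, s.m2, s.c2))
    (by
      intro s s' h
      cases s
      cases s'
      simpa using h)

/-- The local rule: `s0` is a cell, `sa, sb, st, ss, s4, s5` its six forward neighbours, `sts` and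
`sat` two diagonal neighbours. -/
structure Rule {Q : Type} {K : ℕ} (M : Machine Q K)
    (s0 sa sb st ss s4 s5 sts sat : Sym Q K) : Prop where
  B_t : st.B = s0.B
  B_s : ss.B = s0.B
  B_4 : s4.B = s0.B
  B_5 : s5.B = s0.B
  C_a : sa.C = s0.C
  C_b : sb.C = s0.C
  C_s : ss.C = s0.C
  C_4 : s4.C = s0.C
  C_5 : s5.C = s0.C
  k_s : ss.kap = s0.kap
  k_4 : s4.kap = s0.kap
  k_5 : s5.kap = s0.kap
  W1_a : sa.W1 = s0.W1
  W1_b : sb.W1 = s0.W1
  W1_4 : s4.W1 = s0.W1
  W1_5 : s5.W1 = s0.W1
  W2_a : sa.W2 = s0.W2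
  W2_b : sb.W2 = s0.W2
  W2_4 : s4.W2 = s0.W2
  W2_5 : s5.W2 = s0.W2
  m1_5 : s5.m1 = s0.m1
  c1_5 : s5.c1 = s0.c1
  m2_4 : s4.m2 = s0.m2
  c2_4 : s4.c2 = s0.c2
  st1 : s0.B = true → sa.B = true
  st2 : sb.B = true → s0.B = true
  an : sa.An = (sa.B && !s0.B)
  ct1 : st.C = none → s0.C = none
  ct2 : s0.C = none → ∀ q, st.C = some q → q = M.start
  ct3 : s0.An = true → ∀ q, s0.C = some q → st.C = some (M.nxt q (fun i => !s0.kap i))
  k_init : s0.C = none → ∀ q, st.C = some q →
    ∀ i, st.kap i = (decide (i = M.inp) && (s0.B && !sb.B))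
  k_zero : ∀ q, s0.C = some q → ∀ i, M.upd q i = Upd.zero → st.kap i = false
  k_copy : ∀ q, s0.C = some q → ∀ i j, M.upd q i = Upd.copy j → st.kap i = s0.kap j
  k_succ : ∀ q, s0.C = some q → ∀ i j, M.upd q i = Upd.succ j →
    sat.kap i = (sa.An || s0.kap j)
  k_pred : ∀ q, s0.C = some q → ∀ i j, M.upd q i = Upd.pred j →
    st.kap i = (s0.B && sa.kap j)
  w_off : s0.C = none → s0.W1 = false ∧ s0.W2 = false
  w_init : s0.C = none → ∀ q, st.C = some q → st.W1 = st.W2
  w1_move : ∀ q, s0.C = some q → ss.W1 = st.W1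
  w2_move : ∀ q, s0.C = some q → s0.W2 = sts.W2
  w_cross : st.W1 = true → st.W2 = true → s0.C = none
  w_swap : s0.W2 = true → ss.W1 = true → False
  m1_dead : (s0.W1 && s0.An) = false → s0.m1 = false ∧ s0.c1 = false
  m1_init : s0.C = none → ∀ q, st.C = some q → st.W1 = true → st.An = true → st.m1 = true
  c1_rule : s4.W1 = true → s4.An = true → s4.c1 = xor s0.c1 s4.m1
  m1_move : ∀ q, s0.C = some q → st.m1 = (ss.m1 && (!M.mark q || ss.c1))
  m2_dead : (s0.W2 && s0.An) = false → s0.m2 = false ∧ s0.c2 = false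
  m2_init : s0.C = none → ∀ q, st.C = some q → st.W2 = true → st.An = true → st.m2 = true
  c2_rule : s5.W2 = true → s5.An = true → s5.c2 = xor s0.c2 s5.m2
  m2_move : ∀ q, s0.C = some q → sts.m2 = (s0.m2 && (!M.mark q || s0.c2))

/-- configurations as functions of six integer variables -/
abbrev Conf (Q : Type) (K : ℕ) := ℤ → ℤ → ℤ → ℤ → ℤ → ℤ → Sym Q K

/-- validity of a configuration -/
def Valid {Q : Type} {K : ℕ} (M : Machine Q K) (X : Conf Q K) : Prop :=
  ∀ a b t s y z, Rule M (X a b t s y z) (X (a + 1) b t s y z) (X a (b + 1) t s y z)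
    (X a b (t + 1) s y z) (X a b t (s + 1) y z) (X a b t s (y + 1) z) (X a b t s y (z + 1))
    (X a b (t + 1) (s + 1) y z) (X (a + 1) b (t + 1) s y z)

theorem int_const {β : Sort*} (f : ℤ → β) (h : ∀ n, f (n + 1) = f n) (m n : ℤ) : f m = f n := by
  have key : ∀ k : ℤ, f k = f 0 := by
    intro k
    induction k using Int.induction_on with
    | zero => rfl
    | succ i ih => rw [h, ih]
    | pred i ih =>
      have := h (-(i : ℤ) - 1)
      rw [sub_add_cancel] at this
      rw [← this, ih]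
  rw [key m, key n]

section Parity

theorem int_div_succ (D : ℤ) (hD : 0 < D) (y : ℤ) :
    (y + 1) / D = y / D + (if D ∣ y + 1 then 1 else 0) := by
  have h1 : y % D + D * (y / D) = y := Int.emod_add_mul_ediv y D
  have h2 : 0 ≤ y % D := Int.emod_nonneg _ hD.ne'
  have h3 : y % D < D := Int.emod_lt_of_pos _ hD
  by_cases h : y % D + 1 = D
  · have h4 : y + 1 = D * (y / D + 1) := by rw [mul_add]; linarith
    rw [if_pos ⟨_, h4⟩, h4, Int.mul_ediv_cancel_left _ hD.ne']
  · have h5 : (y + 1) / D = y / D ∧ (y + 1) % D = y % D + 1 :=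
      (Int.ediv_emod_unique hD).2 ⟨by linarith, by omega, by omega⟩
    have h6 : ¬ D ∣ y + 1 := by
      rw [Int.dvd_iff_emod_eq_zero, h5.2]
      omega
    rw [if_neg h6, h5.1, add_zero]

/-- colour function attached to the marks `{y | D ∣ y - ρ}` -/
theorem colour_formula (D ρ : ℤ) (hD : 0 < D) (c : ℤ → Bool)
    (hc : ∀ y, c (y + 1) = xor (c y) (decide (D ∣ y + 1 - ρ))) (y : ℤ) :
    c y = xor (c ρ) (decide (Odd ((y - ρ) / D))) := by
  have hconst : ∀ n : ℤ, xor (c (n + 1)) (decide (Odd ((n + 1 - ρ) / D))) =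
      xor (c n) (decide (Odd ((n - ρ) / D))) := by
    intro n
    rw [hc n]
    have h := int_div_succ D hD (n - ρ)
    rw [show n - ρ + 1 = n + 1 - ρ by ring] at h
    rw [h]
    by_cases hd : D ∣ n + 1 - ρ
    · by_cases ho : Odd ((n - ρ) / D)
      · have : ¬ Odd ((n - ρ) / D + 1) := by
          rw [Int.not_odd_iff_even]; exact ho.add_one
        simp [hd, ho, this]
      · have : Odd ((n - ρ) / D + 1) := by
          rw [Int.not_odd_iff_even] at ho; exact ho.add_one
        simp [hd, ho, this]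
    · simp [hd]
  have h := int_const (fun n => xor (c n) (decide (Odd ((n - ρ) / D)))) hconst y ρ
  simp only [sub_self, Int.zero_ediv] at h
  have h0 : decide (Odd (0 : ℤ)) = false := by simp
  rw [h0, Bool.xor_false] at h
  rw [← h]
  cases c y <;> simp

/-- selecting every other mark -/
theorem half_marks (D ρ : ℤ) (hD : 0 < D) (c : ℤ → Bool)
    (hc : ∀ y, c (y + 1) = xor (c y) (decide (D ∣ y + 1 - ρ))) :
    ∃ ρ', ∀ y, (decide (D ∣ y - ρ) && c y) = decide (2 * D ∣ y - ρ') := by
  have hf := colour_formula D ρ hD c hc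
  cases h0 : c ρ with
  | true =>
    refine ⟨ρ, fun y => ?_⟩
    rw [hf y, h0]
    by_cases hd : D ∣ y - ρ
    · obtain ⟨k, hk⟩ := hd
      have h1 : (y - ρ) / D = k := by rw [hk, Int.mul_ediv_cancel_left _ hD.ne']
      have h2 : D ∣ y - ρ := ⟨k, hk⟩
      have h3 : (2 * D ∣ y - ρ) ↔ ¬ Odd k := by
        rw [Int.not_odd_iff_even, hk, even_iff_two_dvd, mul_comm 2 D]
        exact Int.mul_dvd_mul_iff_left hD.ne'
      rw [h1]
      by_cases ho : Odd k <;> simp [h2, h3, ho]
    · have h3 : ¬ (2 * D ∣ y - ρ) := fun h => hd (dvd_trans (dvd_mul_left D 2) h)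
      simp [hd, h3]
  | false =>
    refine ⟨ρ + D, fun y => ?_⟩
    rw [hf y, h0]
    by_cases hd : D ∣ y - ρ
    · obtain ⟨k, hk⟩ := hd
      have h1 : (y - ρ) / D = k := by rw [hk, Int.mul_ediv_cancel_left _ hD.ne']
      have h2 : D ∣ y - ρ := ⟨k, hk⟩
      have h3 : (2 * D ∣ y - (ρ + D)) ↔ Odd k := by
        have : y - (ρ + D) = D * (k - 1) := by rw [mul_sub, ← hk]; ring
        rw [this, mul_comm 2 D, Int.mul_dvd_mul_iff_left hD.ne', ← even_iff_two_dvd,
          Int.even_sub_one, Int.not_even_iff_odd]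
      rw [h1]
      by_cases ho : Odd k <;> simp [h2, h3, ho]
    · have h3 : ¬ (2 * D ∣ y - (ρ + D)) := fun h => hd (by
        have h4 := dvd_trans (dvd_mul_left D 2) h
        have : y - ρ = (y - (ρ + D)) + D := by ring
        rw [this]
        exact dvd_add h4 dvd_rfl)
      simp [hd, h3]

/-- the colours have period `2 D` -/
theorem colour_period (D ρ : ℤ) (hD : 0 < D) (c : ℤ → Bool)
    (hc : ∀ y, c (y + 1) = xor (c y) (decide (D ∣ y + 1 - ρ))) (y : ℤ) (k : ℤ) :
    c (y + 2 * D * k) = c y := by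
  have hf := colour_formula D ρ hD c hc
  rw [hf, hf y]
  congr 2
  have : (y + 2 * D * k - ρ) / D = (y - ρ) / D + 2 * k := by
    rw [show y + 2 * D * k - ρ = (y - ρ) + 2 * k * D by ring,
      Int.add_mul_ediv_right _ _ hD.ne']
  rw [this]
  simp [Int.odd_add]

end Parity

end Pool.Agent.helper79
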