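import Pool.Agent.helper79.SlopeSFT

/-!
Soundness: a valid configuration which is periodic in direction `(e, 1, 0, 0, 0, 0)` and for which the
machine has finitely many marked steps on input `e` has a period in direction `y` or `z`.
-/

set_option autoImplicit false

namespace Pool.Agent.helper79

variable {Q : Type} {K : ℕ} {M : Machine Q K} {X : Conf Q K}

section Constancy

theorem Valid.B_const (hX : Valid M X) (a b t s y z t' s' y' z' : ℤ) :
    (X a b t s y z).B = (X a b t' s' y' z').B := by
  rw [int_const (fun t => (X a b t s y z).B) (fun t => (hX a b t s y z).B_t) t t',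
    int_const (fun s => (X a b t' s y z).B) (fun s => (hX a b t' s y z).B_s) s s',
    int_const (fun y => (X a b t' s' y z).B) (fun y => (hX a b t' s' y z).B_4) y y',
    int_const (fun z => (X a b t' s' y' z).B) (fun z => (hX a b t' s' y' z).B_5) z z']

theorem Valid.C_const (hX : Valid M X) (a b t s y z a' b' s' y' z' : ℤ) :
    (X a b t s y z).C = (X a' b' t s' y' z').C := by
  rw [int_const (fun a => (X a b t s y z).C) (fun a => (hX a b t s y z).C_a) a a',
    int_const (fun b => (X a' b t s y z).C) (fun b => (hX a' b t s y z).C_b) b b',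
    int_const (fun s => (X a' b' t s y z).C) (fun s => (hX a' b' t s y z).C_s) s s',
    int_const (fun y => (X a' b' t s' y z).C) (fun y => (hX a' b' t s' y z).C_4) y y',
    int_const (fun z => (X a' b' t s' y' z).C) (fun z => (hX a' b' t s' y' z).C_5) z z']

theorem Valid.k_const (hX : Valid M X) (a b t s y z s' y' z' : ℤ) :
    (X a b t s y z).kap = (X a b t s' y' z').kap := by
  rw [int_const (fun s => (X a b t s y z).kap) (fun s => (hX a b t s y z).k_s) s s',
    int_const (fun y => (X a b t s' y z).kap) (fun y => (hX a b t s' y z).k_4) y y',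
    int_const (fun z => (X a b t s' y' z).kap) (fun z => (hX a b t s' y' z).k_5) z z']

theorem Valid.W1_const (hX : Valid M X) (a b t s y z a' b' y' z' : ℤ) :
    (X a b t s y z).W1 = (X a' b' t s y' z').W1 := by
  rw [int_const (fun a => (X a b t s y z).W1) (fun a => (hX a b t s y z).W1_a) a a',
    int_const (fun b => (X a' b t s y z).W1) (fun b => (hX a' b t s y z).W1_b) b b',
    int_const (fun y => (X a' b' t s y z).W1) (fun y => (hX a' b' t s y z).W1_4) y y',
    int_const (fun z => (X a' b' t s y' z).W1) (fun z => (hX a' b' t s y' z).W1_5) z z']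

theorem Valid.W2_const (hX : Valid M X) (a b t s y z a' b' y' z' : ℤ) :
    (X a b t s y z).W2 = (X a' b' t s y' z').W2 := by
  rw [int_const (fun a => (X a b t s y z).W2) (fun a => (hX a b t s y z).W2_a) a a',
    int_const (fun b => (X a' b t s y z).W2) (fun b => (hX a' b t s y z).W2_b) b b',
    int_const (fun y => (X a' b' t s y z).W2) (fun y => (hX a' b' t s y z).W2_4) y y',
    int_const (fun z => (X a' b' t s y' z).W2) (fun z => (hX a' b' t s y' z).W2_5) z z']

theorem Valid.An_eq (hX : Valid M X) (a b t s y z : ℤ) :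
    (X a b t s y z).An = ((X a b 0 0 0 0).B && !(X (a - 1) b 0 0 0 0).B) := by
  have h := (hX (a - 1) b t s y z).an
  rw [sub_add_cancel] at h
  rw [h, hX.B_const a b t s y z 0 0 0 0, hX.B_const (a - 1) b t s y z 0 0 0 0]

theorem Valid.An_const (hX : Valid M X) (a b t s y z t' s' y' z' : ℤ) :
    (X a b t s y z).An = (X a b t' s' y' z').An := by
  rw [hX.An_eq, hX.An_eq]

theorem Valid.m1_const (hX : Valid M X) (a b t s y z z' : ℤ) :
    (X a b t s y z).m1 = (X a b t s y z').m1 := by
  rw [int_const (fun z => (X a b t s y z).m1) (fun z => (hX a b t s y z).m1_5) z z']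

theorem Valid.c1_const (hX : Valid M X) (a b t s y z z' : ℤ) :
    (X a b t s y z).c1 = (X a b t s y z').c1 := by
  rw [int_const (fun z => (X a b t s y z).c1) (fun z => (hX a b t s y z).c1_5) z z']

theorem Valid.m2_const (hX : Valid M X) (a b t s y z y' : ℤ) :
    (X a b t s y z).m2 = (X a b t s y' z).m2 := by
  rw [int_const (fun y => (X a b t s y z).m2) (fun y => (hX a b t s y z).m2_4) y y']

theorem Valid.c2_const (hX : Valid M X) (a b t s y z y' : ℤ) :
    (X a b t s y z).c2 = (X a b t s y' z).c2 := by
  rw [int_const (fun y => (X a b t s y z).c2) (fun y => (hX a b t s y z).c2_4) y y']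

end Constancy

/-- invariance under `y ↦ y + p` reduces to the two layers of thread 1 -/
theorem Valid.period_y (hX : Valid M X) (p : ℤ)
    (hm : ∀ a b t s y z, (X a b t s (y + p) z).m1 = (X a b t s y z).m1)
    (hc : ∀ a b t s y z, (X a b t s (y + p) z).c1 = (X a b t s y z).c1) :
    ∀ a b t s y z, X a b t s (y + p) z = X a b t s y z := by
  intro a b t s y z
  have h1 := hX.B_const a b t s (y + p) z t s y z
  have h2 := hX.An_const a b t s (y + p) z t s y z
  have h3 := hX.C_const a b t s (y + p) z a b s y z
  have h4 := hX.k_const a b t s (y + p) z s y z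
  have h5 := hX.W1_const a b t s (y + p) z a b y z
  have h6 := hX.W2_const a b t s (y + p) z a b y z
  have h7 := hm a b t s y z
  have h8 := hc a b t s y z
  have h9 := hX.m2_const a b t s (y + p) z y
  have h10 := hX.c2_const a b t s (y + p) z y
  generalize X a b t s (y + p) z = u at *
  generalize X a b t s y z = v at *
  cases u
  cases v
  simp_all

theorem Valid.period_z (hX : Valid M X) (p : ℤ)
    (hm : ∀ a b t s y z, (X a b t s y (z + p)).m2 = (X a b t s y z).m2)
    (hc : ∀ a b t s y z, (X a b t s y (z + p)).c2 = (X a b t s y z).c2) :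
    ∀ a b t s y z, X a b t s y (z + p) = X a b t s y z := by
  intro a b t s y z
  have h1 := hX.B_const a b t s y (z + p) t s y z
  have h2 := hX.An_const a b t s y (z + p) t s y z
  have h3 := hX.C_const a b t s y (z + p) a b s y z
  have h4 := hX.k_const a b t s y (z + p) s y z
  have h5 := hX.W1_const a b t s y (z + p) a b y z
  have h6 := hX.W2_const a b t s y (z + p) a b y z
  have h7 := hm a b t s y z
  have h8 := hc a b t s y z
  have h9 := hX.m1_const a b t s y (z + p) z
  have h10 := hX.c1_const a b t s y (z + p) z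
  generalize X a b t s y (z + p) = u at *
  generalize X a b t s y z = v at *
  cases u
  cases v
  simp_all

/-- if some thread-1 cell and some thread-2 cell exist then there is a time without control -/
theorem Valid.exists_off (hX : Valid M X) {t1 s1 t2 s2 : ℤ}
    (h1 : (X 0 0 t1 s1 0 0).W1 = true) (h2 : (X 0 0 t2 s2 0 0).W2 = true) :
    ∃ t, (X 0 0 t 0 0 0).C = none := by
  by_contra hcon
  push Not at hcon
  have hC : ∀ a b t s y z, ∃ q, (X a b t s y z).C = some q := by
    intro a b t s y z
    have := hcon t
    rw [hX.C_const 0 0 t 0 0 0 a b s y z] at this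
    exact Option.ne_none_iff_exists'.1 this
  -- thread 1 is a full diagonal
  have w1 : ∀ n : ℤ, (X 0 0 (t1 + n) (s1 - n) 0 0).W1 = true := by
    intro n
    have := int_const (fun n => (X 0 0 (t1 + n) (s1 - n) 0 0).W1) (fun n => by
      obtain ⟨q, hq⟩ := hC 0 0 (t1 + n) (s1 - (n + 1)) 0 0
      have := (hX 0 0 (t1 + n) (s1 - (n + 1)) 0 0).w1_move q hq
      rw [show s1 - (n + 1) + 1 = s1 - n by ring] at this
      rw [this, show t1 + (n + 1) = t1 + n + 1 by ring]) n 0
    simpa [h1] using this
  have w2 : ∀ n : ℤ, (X 0 0 (t2 + n) (s2 + n) 0 0).W2 = true := by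
    intro n
    have := int_const (fun n => (X 0 0 (t2 + n) (s2 + n) 0 0).W2) (fun n => by
      obtain ⟨q, hq⟩ := hC 0 0 (t2 + n) (s2 + n) 0 0
      have := (hX 0 0 (t2 + n) (s2 + n) 0 0).w2_move q hq
      rw [this, show t2 + (n + 1) = t2 + n + 1 by ring, show s2 + (n + 1) = s2 + n + 1 by ring])
      n 0
    simpa [h2] using this
  rcases Int.even_or_odd' (s1 + t1 - s2 + t2) with ⟨k, hk | hk⟩
  · -- they meet at time `k`
    have e1 := w1 (k - t1)
    have e2 := w2 (k - t2)
    rw [show t1 + (k - t1) = k by ring, show s1 - (k - t1) = s2 + (k - t2) by linarith] at e1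
    rw [show t2 + (k - t2) = k by ring] at e2
    obtain ⟨q, hq⟩ := hC 0 0 (k - 1) (s2 + (k - t2)) 0 0
    have := (hX 0 0 (k - 1) (s2 + (k - t2)) 0 0).w_cross
    rw [sub_add_cancel] at this
    rw [this e1 e2] at hq
    exact absurd hq (by simp)
  · have e1 := w1 (k - t1)
    have e2 := w2 (k - t2)
    rw [show t1 + (k - t1) = k by ring, show s1 - (k - t1) = s2 + (k - t2) + 1 by linarith] at e1
    rw [show t2 + (k - t2) = k by ring] at e2
    exact (hX 0 0 k (s2 + (k - t2)) 0 0).w_swap e2 e1

/-- number of marked steps before time `n` -/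
def Machine.cnt (M : Machine Q K) (e : ℕ) : ℕ → ℕ
  | 0 => 0
  | n + 1 => Machine.cnt M e n + (if M.mark (M.run e n).1 then 1 else 0)

theorem Machine.run_succ (M : Machine Q K) (e n : ℕ) : M.run e (n + 1) = M.step (M.run e n) := by
  simp only [Machine.run, Function.iterate_succ_apply']

/-- main soundness statement -/
theorem Valid.sound (hX : Valid M X) (hM : ∀ e e', (∀ n, (M.run e n).1 = (M.run e' n).1) → e = e')
    (e : ℕ) (j : ℤ) (hj : j ≠ 0)
    (hper : ∀ a b t s y z, X (a + j * e) (b + j) t s y z = X a b t s y z)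
    (hfin : ∃ n0, ∀ n ≥ n0, M.mark (M.run e n).1 = false) :
    ∃ p : ℤ, p ≠ 0 ∧ ((∀ a b t s y z, X a b t s (y + p) z = X a b t s y z) ∨
      (∀ a b t s y z, X a b t s y (z + p) = X a b t s y z)) := by
  -- case 1: no live cell of thread 1
  by_cases hcase1 : ∀ a b t s y z, ((X a b t s y z).W1 && (X a b t s y z).An) = false
  · refine ⟨1, one_ne_zero, Or.inl (hX.period_y 1 ?_ ?_)⟩
    · intro a b t s y z
      rw [((hX a b t s (y + 1) z).m1_dead (hcase1 _ _ _ _ _ _)).1,
        ((hX a b t s y z).m1_dead (hcase1 _ _ _ _ _ _)).1]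
    · intro a b t s y z
      rw [((hX a b t s (y + 1) z).m1_dead (hcase1 _ _ _ _ _ _)).2,
        ((hX a b t s y z).m1_dead (hcase1 _ _ _ _ _ _)).2]
  by_cases hcase2 : ∀ a b t s y z, ((X a b t s y z).W2 && (X a b t s y z).An) = false
  · refine ⟨1, one_ne_zero, Or.inr (hX.period_z 1 ?_ ?_)⟩
    · intro a b t s y z
      rw [((hX a b t s y (z + 1)).m2_dead (hcase2 _ _ _ _ _ _)).1,
        ((hX a b t s y z).m2_dead (hcase2 _ _ _ _ _ _)).1]
    · intro a b t s y z
      rw [((hX a b t s y (z + 1)).m2_dead (hcase2 _ _ _ _ _ _)).2,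
        ((hX a b t s y z).m2_dead (hcase2 _ _ _ _ _ _)).2]
  push Not at hcase1 hcase2
  obtain ⟨a0, b0, t1, s1, y1, z1, hl1⟩ := hcase1
  obtain ⟨_, _, t2, s2, y2, z2, hl2⟩ := hcase2
  simp only [ne_eq, Bool.not_eq_false, Bool.and_eq_true] at hl1 hl2
  have hW1 : (X 0 0 t1 s1 0 0).W1 = true := by
    rw [hX.W1_const 0 0 t1 s1 0 0 a0 b0 y1 z1]; exact hl1.1
  have hW2 : (X 0 0 t2 s2 0 0).W2 = true := by
    rw [hX.W2_const 0 0 t2 s2 0 0 _ _ y2 z2]; exact hl2.1
  -- abbreviations
  set B : ℤ → ℤ → Bool := fun a b => (X a b 0 0 0 0).B with hB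
  set C : ℤ → Option Q := fun t => (X 0 0 t 0 0 0).C with hC
  have hBX : ∀ a b t s y z, (X a b t s y z).B = B a b := fun a b t s y z => hX.B_const _ _ _ _ _ _ _ _ _ _
  have hCX : ∀ a b t s y z, (X a b t s y z).C = C t := fun a b t s y z => hX.C_const _ _ _ _ _ _ _ _ _ _ _
  -- origin of time
  have horig : ∃ t0, C t0 = none ∧ C (t0 + 1) ≠ none := by
    obtain ⟨ts, hts⟩ := hX.exists_off hW1 hW2
    have hon : C t1 ≠ none := by
      intro h
      have := ((hX 0 0 t1 s1 0 0).w_off (by rw [hCX]; exact h)).1
      rw [this] at hW1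
      exact absurd hW1 (by simp)
    have hdown : ∀ (n : ℕ) (t : ℤ), C (t + n) = none → C t = none := by
      intro n
      induction n with
      | zero => intro t h; simpa using h
      | succ n ih =>
        intro t h
        apply ih
        have := (hX 0 0 (t + n) 0 0 0).ct1
        simp only [hCX] at this
        apply this
        rw [show t + (n : ℤ) + 1 = t + ((n + 1 : ℕ) : ℤ) by push_cast; ring]
        exact h
    by_contra hcon
    push Not at hcon
    have hup : ∀ n : ℕ, C (ts + n) = none := by
      intro n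
      induction n with
      | zero => simpa using hts
      | succ n ih =>
        have := hcon _ ih
        rw [show ts + (n : ℤ) + 1 = ts + ((n + 1 : ℕ) : ℤ) by push_cast; ring] at this
        exact this
    rcases le_total ts t1 with h | h
    · apply hon
      have := hup (t1 - ts).toNat
      rwa [Int.toNat_of_nonneg (by omega), show ts + (t1 - ts) = t1 by ring] at this
    · apply hon
      apply hdown (ts - t1).toNat t1
      rw [Int.toNat_of_nonneg (by omega), show t1 + (ts - t1) = ts by ring]
      exact hts
  obtain ⟨t0, ht0, ht0'⟩ := horig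
  -- anchors in all rows
  have hBa : ∀ a b, B a b = true → B (a + 1) b = true := fun a b h => by
    have := (hX a b 0 0 0 0).st1
    simp only [hBX] at this
    exact this h
  have hBb : ∀ a b, B a (b + 1) = true → B a b = true := fun a b h => by
    have := (hX a b 0 0 0 0).st2
    simp only [hBX] at this
    exact this h
  have hBan : ∀ (n : ℕ) a b, B a b = true → B (a + n) b = true := by
    intro n
    induction n with
    | zero => intro a b h; simpa using h
    | succ n ih =>
      intro a b h
      have := hBa _ _ (ih a b h)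
      rwa [show a + (n : ℤ) + 1 = a + ((n + 1 : ℕ) : ℤ) by push_cast; ring] at this
  have hBbn : ∀ (n : ℕ) a b, B a (b + n) = true → B a b = true := by
    intro n
    induction n with
    | zero => intro a b h; simpa using h
    | succ n ih =>
      intro a b h
      apply ih
      apply hBb
      rw [show b + (n : ℤ) + 1 = b + ((n + 1 : ℕ) : ℤ) by push_cast; ring]
      exact h
  have hBle : ∀ a a' b, a ≤ a' → B a b = true → B a' b = true := by
    intro a a' b h hab
    have := hBan (a' - a).toNat a b hab
    rwa [Int.toNat_of_nonneg (by omega), show a + (a' - a) = a' by ring] at this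
  have hBle' : ∀ a b b', b ≤ b' → B a b' = true → B a b = true := by
    intro a b b' h hab
    apply hBbn (b' - b).toNat a b
    rwa [Int.toNat_of_nonneg (by omega), show b + (b' - b) = b' by ring]
  have hBper : ∀ a b, B (a + j * e) (b + j) = B a b := by
    intro a b
    have := hper a b 0 0 0 0
    simp only [hB, this]
  have hBper' : ∀ (n : ℤ) a b, B (a + n * (j * e)) (b + n * j) = B a b := by
    intro n a b
    have := int_const (fun n => B (a + n * (j * e)) (b + n * j)) (fun n => by
      rw [← hBper (a + n * (j * e)) (b + n * j)]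
      congr 1 <;> ring) n 0
    simpa using this
  have hAn0 : B a0 b0 = true ∧ B (a0 - 1) b0 = false := by
    have := hl1.2
    rw [hX.An_eq] at this
    simpa using this
  have htrue : ∀ b, ∃ a, B a b = true := by
    intro b
    -- choose n with b ≤ b0 + n * j
    obtain ⟨n, hn⟩ : ∃ n : ℤ, b ≤ b0 + n * j := by
      rcases lt_or_gt_of_ne hj with h | h
      · exact ⟨-(|b - b0|), by nlinarith [abs_nonneg (b - b0), le_abs_self (b - b0)]⟩
      · exact ⟨|b - b0|, by nlinarith [abs_nonneg (b - b0), le_abs_self (b - b0)]⟩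
    refine ⟨a0 + n * (j * e), hBle' _ _ _ hn ?_⟩
    rw [hBper']
    exact hAn0.1
  have hfalse : ∀ b, ∃ a, B a b = false := by
    intro b
    obtain ⟨n, hn⟩ : ∃ n : ℤ, b0 + n * j ≤ b := by
      rcases lt_or_gt_of_ne hj with h | h
      · exact ⟨|b - b0|, by nlinarith [abs_nonneg (b - b0), neg_abs_le (b - b0)]⟩
      · exact ⟨-(|b - b0|), by nlinarith [abs_nonneg (b - b0), neg_abs_le (b - b0)]⟩
    refine ⟨a0 - 1 + n * (j * e), ?_⟩
    by_contra hcon
    rw [Bool.not_eq_false] at hcon
    have := hBle' _ _ _ hn hcon
    rw [hBper', hAn0.2] at this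
    exact absurd this (by simp)
  have hanch : ∀ b, ∃ α : ℤ, ∀ a, B a b = true ↔ α ≤ a := by
    intro b
    obtain ⟨α, hα1, hα2⟩ := Int.exists_least_of_bdd (P := fun a => B a b = true) (by
      obtain ⟨a', ha'⟩ := hfalse b
      refine ⟨a', fun z hz => ?_⟩
      by_contra hlt
      push Not at hlt
      have := hBle z a' b hlt.le hz
      rw [ha'] at this
      exact absurd this (by simp)) (htrue b)
    exact ⟨α, fun a => ⟨fun h => hα2 a h, fun h => hBle _ _ _ h hα1⟩⟩
  choose α hα using hanch
  have hαmono : ∀ b, α b ≤ α (b + 1) := by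
    intro b
    rw [← hα b]
    exact hBb _ _ ((hα (b + 1) _).2 le_rfl)
  -- widths of the steps
  set w : ℤ → ℕ := fun b => (α (b + 1) - α b).toNat with hw
  have hwα : ∀ b, α (b + 1) = α b + w b := by
    intro b
    simp only [hw]
    rw [Int.toNat_of_nonneg (by have := hαmono b; omega)]
    ring
  have hAnα : ∀ b t s y z, (X (α b) b t s y z).An = true := by
    intro b t s y z
    have h1 : (X (α b) b 0 0 0 0).B = true := (hα b _).2 le_rfl
    have h2 : (X (α b - 1) b 0 0 0 0).B = false := by
      by_contra hcon
      rw [Bool.not_eq_false] at hcon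
      have := (hα b _).1 hcon
      omega
    rw [hX.An_eq, h1, h2]
    rfl
  have hAniff : ∀ a b t s y z, (X a b t s y z).An = true ↔ a = α b := by
    intro a b t s y z
    constructor
    · intro h
      rw [hX.An_eq] at h
      simp only [Bool.and_eq_true, Bool.not_eq_true'] at h
      have h1 := (hα b a).1 h.1
      have h2 : ¬ α b ≤ a - 1 := by
        intro h'
        have := (hα b (a - 1)).2 h'
        simp only [hB] at this
        rw [h.2] at this
        exact absurd this (by simp)
      omega
    · rintro rfl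
      exact hAnα _ _ _ _ _
  -- the run in each row
  have hrun : ∀ (b : ℤ) (n : ℕ), C (t0 + 1 + n) = some (M.run (w b) n).1 ∧
      ∀ i a, (X a b (t0 + 1 + n) 0 0 0).kap i = true ↔
        α b ≤ a ∧ a < α b + (M.run (w b) n).2 i := by
    intro b n
    induction n with
    | zero =>
      obtain ⟨q, hq⟩ := Option.ne_none_iff_exists'.1 ht0'
      have hstart : q = M.start := by
        have := (hX 0 b t0 0 0 0).ct2
        simp only [hCX] at this
        exact this ht0 q hq
      subst hstart
      refine ⟨by simpa [Machine.run] using hq, ?_⟩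
      intro i a
      have h := (hX a b t0 0 0 0).k_init (by rw [hCX]; exact ht0) M.start
        (by rw [hCX]; exact hq) i
      simp only [hBX] at h
      rw [show t0 + 1 + ((0 : ℕ) : ℤ) = t0 + 1 by simp, h]
      simp only [Machine.run, Function.iterate_zero, id_eq, Bool.and_eq_true, decide_eq_true_eq,
        Bool.not_eq_true']
      have hB2 : B a (b + 1) = false ↔ a < α (b + 1) := by
        rw [← not_le, ← hα (b + 1) a, Bool.not_eq_true]
      rw [hα b a, hB2, hwα b]
      by_cases hi : i = M.inp
      · simp [hi]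
      · simp only [hi, false_and, if_false, false_iff, not_and, not_lt]
        intro h'
        simpa using h'
    | succ n ih =>
      obtain ⟨ih1, ih2⟩ := ih
      set q := (M.run (w b) n).1 with hq
      set r := (M.run (w b) n).2 with hr
      have hstep1 : (M.run (w b) (n + 1)).1 = M.nxt q (fun i => decide (r i = 0)) := by
        rw [Machine.run_succ]
        rfl
      have hstep2 : ∀ i, (M.run (w b) (n + 1)).2 i = (M.upd q i).app r := by
        intro i
        rw [Machine.run_succ]
        rfl
      set t := t0 + 1 + (n : ℤ) with ht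
      have htsucc : t0 + 1 + ((n + 1 : ℕ) : ℤ) = t + 1 := by push_cast; ring
      rw [htsucc]
      constructor
      · have h := (hX (α b) b t 0 0 0).ct3 (hAnα _ _ _ _ _) q (by rw [hCX]; exact ih1)
        rw [hCX] at h
        rw [h, hstep1]
        congr 2
        funext i
        have := ih2 i (α b)
        by_cases hz : r i = 0
        · have : (X (α b) b t 0 0 0).kap i = false := by
            by_contra hcon
            rw [Bool.not_eq_false] at hcon
            have := (this.1 hcon).2
            rw [hz] at this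
            simp at this
          simp [this, hz]
        · have : (X (α b) b t 0 0 0).kap i = true := by
            apply this.2
            refine ⟨le_rfl, ?_⟩
            have : (0 : ℤ) < r i := by exact_mod_cast Nat.pos_of_ne_zero hz
            omega
          simp [this, hz]
      · intro i a
        have hCt : ∀ a s, (X a b t s 0 0).C = some q := fun a s => by rw [hCX]; exact ih1
        rw [hstep2 i]
        cases hu : M.upd q i with
        | zero =>
          rw [(hX a b t 0 0 0).k_zero q (hCt _ _) i hu]
          simp only [Upd.app, Bool.false_eq_true, false_iff, not_and, not_lt]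
          intro h; simpa using h
        | copy l =>
          rw [(hX a b t 0 0 0).k_copy q (hCt _ _) i l hu, ih2 l a]
          rfl
        | succ l =>
          have h := (hX (a - 1) b t 0 0 0).k_succ q (hCt _ _) i l hu
          rw [sub_add_cancel] at h
          rw [h]
          simp only [Bool.or_eq_true, ih2 l (a - 1), hAniff, Upd.app]
          push_cast
          constructor
          · rintro (h | h)
            · subst h; constructor <;> omega
            · constructor <;> omega
          · intro h
            by_cases ha : a = α b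
            · left; exact ha
            · right; constructor <;> omega
        | pred l =>
          rw [(hX a b t 0 0 0).k_pred q (hCt _ _) i l hu]
          simp only [Bool.and_eq_true, ih2 l (a + 1), hBX, hα b a, Upd.app]
          constructor
          · intro h; constructor <;> omega
          · intro h; refine ⟨by omega, by omega, ?_⟩
            omega
  -- all steps have width `e`
  have hww : ∀ b b', w b = w b' := by
    intro b b'
    apply hM
    intro n
    have h1 := (hrun b n).1
    have h2 := (hrun b' n).1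
    rw [h1] at h2
    exact Option.some_injective _ h2
  have hαlin : ∀ b, α b = α 0 + b * (w 0) := by
    intro b
    have := int_const (fun b => α b - b * (w 0)) (fun b => by
      rw [hwα b, hww b 0]
      ring) b 0
    simp only [zero_mul, sub_zero] at this
    linarith
  have hαper : ∀ b, α (b + j) = α b + j * e := by
    intro b
    have h1 : α b + j * e ≥ α (b + j) := by
      rw [ge_iff_le, ← hα (b + j), hBper]
      exact (hα b _).2 le_rfl
    have h2 : α b ≤ α (b + j) - j * e := by
      rw [← hα b, ← hBper]
      rw [sub_add_cancel]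
      exact (hα _ _).2 le_rfl
    omega
  have hwe : w 0 = e := by
    have h1 := hαper 0
    rw [zero_add, hαlin j] at h1
    have h2 : j * (w 0 : ℤ) = j * (e : ℤ) := by linarith
    have := mul_left_cancel₀ hj h2
    exact_mod_cast this
  have hCrun : ∀ n : ℕ, C (t0 + 1 + n) = some (M.run e n).1 := by
    intro n
    rw [(hrun 0 n).1, hwe]
  -- times without control
  have hCoff : ∀ t ≤ t0, C t = none := by
    intro t ht
    have hdown : ∀ (n : ℕ), C (t0 - n) = none := by
      intro n
      induction n with
      | zero => simpa using ht0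
      | succ n ih =>
        have := (hX 0 0 (t0 - ((n + 1 : ℕ) : ℤ)) 0 0 0).ct1
        simp only [hCX] at this
        apply this
        rw [show t0 - ((n + 1 : ℕ) : ℤ) + 1 = t0 - n by push_cast; ring]
        exact ih
    have := hdown (t0 - t).toNat
    rwa [Int.toNat_of_nonneg (by omega), show t0 - (t0 - t) = t by ring] at this
  -- the marks of thread 1
  have hcol : ∀ a b t s z (D ρ : ℤ), (X a b t s 0 z).W1 = true → (X a b t s 0 z).An = true →
      (∀ y, (X a b t s y z).m1 = decide (D ∣ y - ρ)) →
      ∀ y, (X a b t s (y + 1) z).c1 = xor (X a b t s y z).c1 (decide (D ∣ y + 1 - ρ)) := by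
    intro a b t s z D ρ hw1 hAn hm y
    have := (hX a b t s y z).c1_rule (by rw [hX.W1_const a b t s (y + 1) z a b 0 z]; exact hw1)
      (by rw [hX.An_const a b t s (y + 1) z t s 0 z]; exact hAn)
    rw [this, hm]
  have hmarks : ∀ (n : ℕ) (a b s z : ℤ), (X a b (t0 + 1 + n) s 0 z).W1 = true →
      (X a b (t0 + 1 + n) s 0 z).An = true →
      ∃ ρ : ℤ, ∀ y, (X a b (t0 + 1 + n) s y z).m1 = decide ((2 : ℤ) ^ (M.cnt e n) ∣ y - ρ) := by
    intro n
    induction n with
    | zero =>
      intro a b s z hw1 hAn
      refine ⟨0, fun y => ?_⟩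
      obtain ⟨q, hq⟩ := Option.ne_none_iff_exists'.1 ht0'
      rw [show t0 + 1 + ((0 : ℕ) : ℤ) = t0 + 1 by simp] at hw1 hAn ⊢
      rw [(hX a b t0 s y z).m1_init (by rw [hCX]; exact ht0) q (by rw [hCX]; exact hq)
        (by rw [hX.W1_const a b (t0 + 1) s y z a b 0 z]; exact hw1)
        (by rw [hX.An_const a b (t0 + 1) s y z (t0 + 1) s 0 z]; exact hAn)]
      simp [Machine.cnt]
    | succ n ih =>
      intro a b s z hw1 hAn
      set t := t0 + 1 + (n : ℤ) with ht
      have htsucc : t0 + 1 + ((n + 1 : ℕ) : ℤ) = t + 1 := by push_cast; ring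
      rw [htsucc] at hw1 hAn ⊢
      have hCt : ∀ y, (X a b t s y z).C = some (M.run e n).1 := fun y => by
        rw [hCX]; exact hCrun n
      have hw1' : (X a b t (s + 1) 0 z).W1 = true := by
        rw [(hX a b t s 0 z).w1_move _ (hCt _)]; exact hw1
      have hAn' : (X a b t (s + 1) 0 z).An = true := by
        rw [hX.An_const a b t (s + 1) 0 z (t + 1) s 0 z]; exact hAn
      obtain ⟨ρ, hρ⟩ := ih a b (s + 1) z hw1' hAn'
      have hmove := fun y => (hX a b t s y z).m1_move _ (hCt y)
      cases hmk : M.mark (M.run e n).1 with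
      | false =>
        refine ⟨ρ, fun y => ?_⟩
        rw [hmove y, hmk, hρ y]
        simp [Machine.cnt, hmk]
      | true =>
        have hD : (0 : ℤ) < 2 ^ M.cnt e n := by positivity
        obtain ⟨ρ', hρ'⟩ := half_marks _ ρ hD (fun y => (X a b t (s + 1) y z).c1)
          (hcol a b t (s + 1) z _ ρ hw1' hAn' hρ)
        refine ⟨ρ', fun y => ?_⟩
        rw [hmove y, hmk, hρ y]
        have := hρ' y
        simp only [Bool.not_true, Bool.false_or]
        rw [this, Machine.cnt, hmk, if_pos rfl, pow_succ, mul_comm]
  -- boundedness of the number of marks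
  obtain ⟨n0, hn0⟩ := hfin
  have hcnt : ∀ n, M.cnt e n ≤ n0 := by
    have h1 : ∀ n, M.cnt e n ≤ n := by
      intro n
      induction n with
      | zero => simp [Machine.cnt]
      | succ n ih =>
        simp only [Machine.cnt]
        split_ifs <;> omega
    have h2 : ∀ m, M.cnt e (n0 + m) = M.cnt e n0 := by
      intro m
      induction m with
      | zero => rfl
      | succ m ih =>
        rw [← Nat.add_assoc, Machine.cnt, hn0 _ (by omega), ih]
        simp
    intro n
    rcases le_total n n0 with h | h
    · exact (h1 n).trans h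
    · obtain ⟨m, rfl⟩ := Nat.exists_eq_add_of_le h
      rw [h2]; exact h1 n0
  -- conclusion
  have hlive : ∀ a b t s z, (X a b t s 0 z).W1 = true → (X a b t s 0 z).An = true →
      ∃ (k : ℕ) (ρ : ℤ), k ≤ n0 ∧ ∀ y, (X a b t s y z).m1 = decide ((2 : ℤ) ^ k ∣ y - ρ) := by
    intro a b t s z hw1 hAn
    have ht : t0 < t := by
      by_contra hcon
      push Not at hcon
      have := ((hX a b t s 0 z).w_off (by rw [hCX]; exact hCoff t hcon)).1
      rw [this] at hw1
      exact absurd hw1 (by simp)
    obtain ⟨n, rfl⟩ : ∃ n : ℕ, t = t0 + 1 + n := ⟨(t - t0 - 1).toNat, by omega⟩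
    obtain ⟨ρ, hρ⟩ := hmarks n a b s z hw1 hAn
    exact ⟨_, ρ, hcnt n, hρ⟩
  have hdead : ∀ a b t s z, ¬ ((X a b t s 0 z).W1 = true ∧ (X a b t s 0 z).An = true) →
      ∀ y, (X a b t s y z).m1 = false ∧ (X a b t s y z).c1 = false := by
    intro a b t s z h y
    apply (hX a b t s y z).m1_dead
    rw [hX.W1_const a b t s y z a b 0 z, hX.An_const a b t s y z t s 0 z]
    rw [← Bool.not_eq_true, Bool.and_eq_true]
    exact h
  refine ⟨2 ^ (n0 + 1), by positivity, Or.inl (hX.period_y _ ?_ ?_)⟩
  · intro a b t s y z
    by_cases hl : (X a b t s 0 z).W1 = true ∧ (X a b t s 0 z).An = true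
    · obtain ⟨k, ρ, hk, hm⟩ := hlive a b t s z hl.1 hl.2
      rw [hm, hm]
      have hdvd : (2 : ℤ) ^ k ∣ 2 ^ (n0 + 1) := pow_dvd_pow 2 (by omega)
      have : y + 2 ^ (n0 + 1) - ρ = (y - ρ) + 2 ^ (n0 + 1) := by ring
      rw [this]
      have h2 : ((2 : ℤ) ^ k ∣ (y - ρ) + 2 ^ (n0 + 1)) ↔ ((2 : ℤ) ^ k ∣ y - ρ) :=
        (dvd_add_left hdvd)
      simp only [h2]
    · rw [(hdead a b t s z hl _).1, (hdead a b t s z hl _).1]
  · intro a b t s y z
    by_cases hl : (X a b t s 0 z).W1 = true ∧ (X a b t s 0 z).An = true
    · obtain ⟨k, ρ, hk, hm⟩ := hlive a b t s z hl.1 hl.2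
      have hD : (0 : ℤ) < 2 ^ k := by positivity
      have h := colour_period _ ρ hD (fun y => (X a b t s y z).c1)
        (hcol a b t s z _ ρ hl.1 hl.2 hm) y (2 ^ (n0 - k))
      have : (2 : ℤ) * 2 ^ k * 2 ^ (n0 - k) = 2 ^ (n0 + 1) := by
        rw [mul_assoc, ← pow_add, ← pow_succ']
        congr 1
        omega
      rw [this] at h
      exact h
    · rw [(hdead a b t s z hl _).2, (hdead a b t s z hl _).2]

end Pool.Agent.helper79
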