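import Mathlib

/-!
Interfaces for the twisted sum problem (MP_9075ca_an).
-/

open MeasureTheory Topology Set
open scoped ENNReal

universe u

namespace Pool.Agent.helper79.Tw

/-- The fair coin. -/
noncomputable def coin : Measure Bool :=
  (1 / 2 : ℝ≥0∞) • (Measure.dirac true + Measure.dirac false)

instance : IsProbabilityMeasure coin := by
  constructor
  simp [coin, ENNReal.inv_two_add_inv_two]

/-- The fair coin tossing measure on `I → Bool`. -/
noncomputable def mu (I : Type*) : Measure (I → Bool) := Measure.infinitePi (fun _ : I => coin)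

instance (I : Type*) : IsProbabilityMeasure (mu I) := by
  unfold mu; infer_instance

/-- A set of 0-1 sequences that depends on finitely many coordinates. -/
def FinDep {I : Type*} (A : Set (I → Bool)) : Prop :=
  ∃ F : Finset I, ∀ x y : I → Bool, (∀ i ∈ F, x i = y i) → (x ∈ A ↔ y ∈ A)

/-- Long sequences of commuting retractions with metrizable-like images. -/
structure Skel (W : Type) [LinearOrder W] (L : Type*) [TopologicalSpace L] where
  r : W → L → L
  cont : ∀ α, Continuous (r α)
  comp : ∀ α β, α ≤ β → ∀ x, r α (r β x) = r α x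
  comp' : ∀ α β, α ≤ β → ∀ x, r β (r α x) = r α x
  exh : ∀ x, ∃ α, r α x = x
  fn : ∀ f : C(L, ℝ), ∃ α, ∀ x, f (r α x) = f x
  big : ∀ α, ∃ x, r α x ≠ x

/-- Corson compactness (for compact Hausdorff spaces). -/
def IsCorson (K : Type u) [TopologicalSpace K] : Prop :=
  ∃ (κ : Type u) (e : K → κ → ℝ), IsEmbedding e ∧ ∀ x, {a | e x a ≠ 0}.Countable

end Pool.Agent.helper79.Tw
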