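import Pool.Agent.helper79.TwBase

/-!
Disjoint big open sets in a compact space with a long skeleton.
-/

open Set Topology

namespace Pool.Agent.helper79.Tw

section order

variable {W : Type*} [LinearOrder W]

/-- countable sets are bounded -/
lemma exists_bound (hW : ∀ a : W, (Set.Iio a).Countable) (hW' : ¬ (Set.univ : Set W).Countable)
    {A : Set W} (hA : A.Countable) : ∃ b, ∀ a ∈ A, a ≤ b := by
  by_contra h
  push Not at h
  apply hW'
  have : (Set.univ : Set W) ⊆ ⋃ a ∈ A, Set.Iio a := by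
    intro b _
    obtain ⟨a, ha, hab⟩ := h b
    exact Set.mem_biUnion ha hab
  exact (hA.biUnion (fun a _ => hW a)).mono this

lemma exists_bound_seq (hW : ∀ a : W, (Set.Iio a).Countable)
    (hW' : ¬ (Set.univ : Set W).Countable) (f : ℕ → W) : ∃ b, ∀ n, f n ≤ b := by
  obtain ⟨b, hb⟩ := exists_bound hW hW' (Set.countable_range f)
  exact ⟨b, fun n => hb _ (Set.mem_range_self n)⟩

end order

variable {W : Type} [LinearOrder W] {L : Type*} [TopologicalSpace L]

/-- A set contained in the image of some `r α`. -/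
def Skel.Small (S : Skel W L) (U : Set L) : Prop := ∃ α, ∀ x ∈ U, S.r α x = x

lemma Skel.fix_mono (S : Skel W L) {α β : W} (h : α ≤ β) {x : L} (hx : S.r α x = x) :
    S.r β x = x := by
  have := S.comp' α β h x
  rw [hx] at this
  exact this

lemma Skel.Small.mono {S : Skel W L} {U V : Set L} (hV : S.Small V) (h : U ⊆ V) : S.Small U := by
  obtain ⟨α, hα⟩ := hV
  exact ⟨α, fun x hx => hα x (h hx)⟩

lemma Skel.small_sUnion (S : Skel W L) (hW : ∀ a : W, (Set.Iio a).Countable)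
    (hW' : ¬ (Set.univ : Set W).Countable) {𝒜 : Set (Set L)} (hc : 𝒜.Countable)
    (h : ∀ A ∈ 𝒜, S.Small A) : S.Small (⋃₀ 𝒜) := by
  classical
  have h1 : ∀ A : Set L, ∃ α, A ∈ 𝒜 → ∀ x ∈ A, S.r α x = x := by
    intro A
    by_cases hA : A ∈ 𝒜
    · obtain ⟨α, hα⟩ := h A hA
      exact ⟨α, fun _ => hα⟩
    · by_contra hcon
      push Not at hcon
      have : Nonempty W := by
        by_contra hne
        rw [not_nonempty_iff] at hne
        exact hW' (Set.toFinite _).countable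
      obtain ⟨w⟩ := this
      exact hA (hcon w).1
  choose α hα using h1
  obtain ⟨b, hb⟩ := exists_bound hW hW' (hc.image α)
  refine ⟨b, fun x hx => ?_⟩
  obtain ⟨A, hA, hxA⟩ := hx
  exact S.fix_mono (hb _ (Set.mem_image_of_mem α hA)) (hα A hA x hxA)

lemma Skel.small_union (S : Skel W L) {U V : Set L} (hU : S.Small U) (hV : S.Small V) :
    S.Small (U ∪ V) := by
  obtain ⟨α, hα⟩ := hU
  obtain ⟨β, hβ⟩ := hV
  refine ⟨max α β, ?_⟩
  rintro x (hx | hx)
  · exact S.fix_mono (le_max_left _ _) (hα x hx)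
  · exact S.fix_mono (le_max_right _ _) (hβ x hx)

theorem Skel.split [CompactSpace L] [T2Space L] (S : Skel W L)
    (hW : ∀ a : W, (Set.Iio a).Countable)
    (hW' : ¬ (Set.univ : Set W).Countable) (z : W → ℕ → Bool) (hz : Function.Injective z)
    {U : Set L} (hU : IsOpen U) (hb : ¬ S.Small U) :
    ∃ U1 U2 : Set L, IsOpen U1 ∧ IsOpen U2 ∧ U1 ⊆ U ∧ U2 ⊆ U ∧ Disjoint U1 U2 ∧
      ¬ S.Small U1 ∧ ¬ S.Small U2 := by
  classical
  by_contra H
  have hno : ∀ U1 U2 : Set L, IsOpen U1 → IsOpen U2 → U1 ⊆ U → U2 ⊆ U → Disjoint U1 U2 →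
      S.Small U1 ∨ S.Small U2 := by
    intro U1 U2 h1 h2 h3 h4 h5
    by_contra hcon
    rw [not_or] at hcon
    exact H ⟨U1, U2, h1, h2, h3, h4, h5, hcon.1, hcon.2⟩
  have hWne : Nonempty W := by
    by_contra hne
    rw [not_nonempty_iff] at hne
    exact hW' (Set.toFinite _).countable
  obtain ⟨w0⟩ := hWne
  -- the special point
  have hp : ∃ p, ∀ V : Set L, IsOpen V → p ∈ V → ¬ S.Small (V ∩ U) := by
    by_contra hcon
    push Not at hcon
    choose V hV1 hV2 hV3 using hcon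
    obtain ⟨t, ht⟩ := (isCompact_univ (X := L)).elim_finite_subcover V hV1
      (fun x _ => Set.mem_iUnion.2 ⟨x, hV2 x⟩)
    apply hb
    have h1 : S.Small (⋃₀ ((fun x => V x ∩ U) '' (t : Set L))) := by
      apply S.small_sUnion hW hW' (t.finite_toSet.image _).countable
      rintro A ⟨x, -, rfl⟩
      exact hV3 x
    apply h1.mono
    intro x hx
    obtain ⟨y, hy⟩ := Set.mem_iUnion.1 (ht (Set.mem_univ x))
    obtain ⟨hyt, hxy⟩ := Set.mem_iUnion.1 hy
    exact ⟨V y ∩ U, Set.mem_image_of_mem _ hyt, hxy, hx⟩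
  obtain ⟨p, hp⟩ := hp
  have hother : ∀ x, x ≠ p → ∃ V, IsOpen V ∧ x ∈ V ∧ S.Small (V ∩ U) := by
    intro x hx
    obtain ⟨V, V', hV, hV', hxV, hpV', hd⟩ := t2_separation hx
    refine ⟨V, hV, hxV, ?_⟩
    rcases hno (V ∩ U) (V' ∩ U) (hV.inter hU) (hV'.inter hU) Set.inter_subset_right
      Set.inter_subset_right (hd.mono Set.inter_subset_left Set.inter_subset_left) with h | h
    · exact h
    · exact absurd h (hp V' hV' hpV')
  obtain ⟨αp, hαp⟩ := S.exh p
  -- maximal disjoint family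
  let 𝒮 : Set (Set (Set L)) := {𝒜 | (∀ A ∈ 𝒜, IsOpen A ∧ A ⊆ U ∧ A.Nonempty ∧ S.Small A) ∧
    𝒜.PairwiseDisjoint id}
  obtain ⟨𝓜, h𝓜⟩ : ∃ 𝓜, Maximal (· ∈ 𝒮) 𝓜 := by
    apply zorn_subset
    intro c hc hchain
    refine ⟨⋃₀ c, ⟨?_, ?_⟩, fun s hs => Set.subset_sUnion_of_mem hs⟩
    · rintro A ⟨𝒜, h𝒜, hA⟩
      exact (hc h𝒜).1 A hA
    · exact (Set.pairwiseDisjoint_sUnion hchain.directedOn).2 (fun s hs => (hc hs).2)
  have h𝓜1 := h𝓜.prop.1
  have h𝓜2 := h𝓜.prop.2
  have hGbig : ∀ α, ∃ m ∈ 𝓜, ∃ x ∈ m, S.r α x ≠ x := by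
    intro α
    by_contra hcon
    push Not at hcon
    -- all members are inside K_α
    have hU2 : ∃ x ∈ U, S.r (max α αp) x ≠ x := by
      by_contra h
      push Not at h
      exact hb ⟨_, h⟩
    obtain ⟨x, hxU, hx⟩ := hU2
    have hxp : x ≠ p := by
      rintro rfl
      exact hx (S.fix_mono (le_max_right _ _) hαp)
    obtain ⟨V, hV, hxV, hVs⟩ := hother x hxp
    let O : Set L := (V ∩ U) ∩ {y | S.r (max α αp) y ≠ y}
    have hO : IsOpen O := (hV.inter hU).inter
      (isOpen_ne_fun (S.cont _) continuous_id)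
    have hOn : O.Nonempty := ⟨x, ⟨hxV, hxU⟩, hx⟩
    have hOs : S.Small O := hVs.mono Set.inter_subset_left
    have hOd : ∀ m ∈ 𝓜, Disjoint O m := by
      intro m hm
      rw [Set.disjoint_left]
      intro y hy hym
      exact hy.2 (S.fix_mono (le_max_left _ _) (hcon m hm y hym))
    have hins : insert O 𝓜 ∈ 𝒮 := by
      refine ⟨?_, ?_⟩
      · intro A hA
        rcases hA with rfl | hA
        · exact ⟨hO, fun y hy => hy.1.2, hOn, hOs⟩
        · exact h𝓜1 A hA
      · apply h𝓜2.insert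
        intro m hm _
        exact hOd m hm
    have hmem : O ∈ 𝓜 := by
      have := h𝓜.le_of_ge hins (Set.subset_insert O 𝓜)
      exact this (Set.mem_insert O 𝓜)
    have := hOd O hmem
    rw [disjoint_self] at this
    exact hOn.ne_empty this
  choose M hM1 hM2 using hGbig
  have hidx : ∀ m : Set L, ∃ α, m ∈ Set.range M → M α = m := by
    intro m
    by_cases h : m ∈ Set.range M
    · obtain ⟨α, hα⟩ := h
      exact ⟨α, fun _ => hα⟩
    · exact ⟨w0, fun h' => absurd h' h⟩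
  choose idx hidx using hidx
  let zz : Set L → ℕ → Bool := fun m => z (idx m)
  have hzz : ∀ m ∈ Set.range M, ∀ m' ∈ Set.range M, zz m = zz m' → m = m' := by
    intro m hm m' hm' h
    have := hz h
    rw [← hidx m hm, ← hidx m' hm', this]
  let V : ℕ → Bool → Set L := fun n b => ⋃₀ {m | m ∈ Set.range M ∧ zz m n = b}
  have hVo : ∀ n b, IsOpen (V n b) := by
    intro n b
    apply isOpen_sUnion
    rintro m ⟨⟨α, rfl⟩, -⟩
    exact (h𝓜1 _ (hM1 α)).1
  have hVU : ∀ n b, V n b ⊆ U := by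
    intro n b
    apply Set.sUnion_subset
    rintro m ⟨⟨α, rfl⟩, -⟩
    exact (h𝓜1 _ (hM1 α)).2.1
  have hVd : ∀ n, Disjoint (V n true) (V n false) := by
    intro n
    rw [Set.disjoint_left]
    rintro y ⟨m, ⟨⟨α, rfl⟩, h1⟩, hy⟩ ⟨m', ⟨⟨α', rfl⟩, h2⟩, hy'⟩
    have hne : M α ≠ M α' := by
      intro h
      rw [h, h2] at h1
      simp at h1
    have := h𝓜2 (hM1 α) (hM1 α') hne
    rw [Function.onFun, Set.disjoint_left] at this
    exact this hy hy'
  have hsm : ∀ n, ∃ b, S.Small (V n (!b)) := by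
    intro n
    rcases hno (V n true) (V n false) (hVo n _) (hVo n _) (hVU n _) (hVU n _) (hVd n) with h | h
    · exact ⟨false, h⟩
    · exact ⟨true, h⟩
  choose b hb2 using hsm
  have hall : S.Small (⋃₀ (Set.range (fun n => V n (!b n)))) :=
    S.small_sUnion hW hW' (Set.countable_range _) (by rintro A ⟨n, rfl⟩; exact hb2 n)
  have hex : S.Small (⋃₀ {m | m ∈ Set.range M ∧ zz m = b}) := by
    by_cases h : ∃ m, m ∈ Set.range M ∧ zz m = b
    · obtain ⟨m0, hm0, hm0b⟩ := h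
      obtain ⟨α, hα⟩ := hm0
      have hs := (h𝓜1 _ (hM1 α)).2.2.2
      rw [hα] at hs
      apply hs.mono
      apply Set.sUnion_subset
      rintro m ⟨hm, hmb⟩
      rw [hzz m hm m0 ⟨α, hα⟩ (hmb.trans hm0b.symm)]
    · have : {m | m ∈ Set.range M ∧ zz m = b} = ∅ := by
        ext m; simp only [Set.mem_setOf_eq, Set.mem_empty_iff_false, iff_false]
        intro hm; exact h ⟨m, hm⟩
      rw [this, Set.sUnion_empty]
      exact ⟨w0, by simp⟩
  obtain ⟨γ, hγ⟩ := S.small_union hall hex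
  obtain ⟨x, hx, hxn⟩ := hM2 γ
  apply hxn
  apply hγ
  by_cases h : zz (M γ) = b
  · right
    exact ⟨M γ, ⟨⟨γ, rfl⟩, h⟩, hx⟩
  · left
    have : ∃ n, zz (M γ) n ≠ b n := by
      by_contra hcon
      push Not at hcon
      exact h (funext hcon)
    obtain ⟨n, hn⟩ := this
    exact ⟨V n (!b n), ⟨n, rfl⟩, M γ, ⟨⟨γ, rfl⟩, Bool.eq_not.2 hn⟩, hx⟩

theorem Skel.exists_regions [CompactSpace L] [T2Space L] (S : Skel W L)
    (hW : ∀ a : W, (Set.Iio a).Countable)
    (hW' : ¬ (Set.univ : Set W).Countable) (z : W → ℕ → Bool) (hz : Function.Injective z) :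
    ∃ U : ℕ → Set L, (∀ j, IsOpen (U j)) ∧ (∀ j, ¬ S.Small (U j)) ∧
      Pairwise (Function.onFun Disjoint U) := by
  classical
  let T := {U : Set L // IsOpen U ∧ ¬ S.Small U}
  have hs : ∀ U : T, ∃ U1 U2 : T, U1.1 ⊆ U.1 ∧ U2.1 ⊆ U.1 ∧ Disjoint U1.1 U2.1 := by
    rintro ⟨U, hU1, hU2⟩
    obtain ⟨A, B, h1, h2, h3, h4, h5, h6, h7⟩ := S.split hW hW' z hz hU1 hU2
    exact ⟨⟨A, h1, h6⟩, ⟨B, h2, h7⟩, h3, h4, h5⟩
  choose A B hA hB hAB using hs
  have hbig : ¬ S.Small (Set.univ : Set L) := by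
    rintro ⟨α, hα⟩
    obtain ⟨x, hx⟩ := S.big α
    exact hx (hα x (Set.mem_univ x))
  let rest : ℕ → T := fun n => Nat.rec (⟨Set.univ, isOpen_univ, hbig⟩ : T) (fun _ U => B U) n
  have hrest : ∀ n, (rest (n + 1)) = B (rest n) := fun n => rfl
  have hanti : ∀ n m, n ≤ m → (rest m).1 ⊆ (rest n).1 := by
    intro n m hnm
    induction m, hnm using Nat.le_induction with
    | base => exact Set.Subset.refl _
    | succ m hm ih => rw [hrest]; exact (hB _).trans ih
  refine ⟨fun n => (A (rest n)).1, fun n => (A (rest n)).2.1, fun n => (A (rest n)).2.2, ?_⟩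
  have key : ∀ n m, n < m → Disjoint (A (rest n)).1 (A (rest m)).1 := by
    intro n m hnm
    apply (hAB (rest n)).mono_right
    rw [← hrest]
    exact (hA (rest m)).trans (hanti (n + 1) m hnm)
  intro n m hnm
  rcases lt_or_gt_of_ne hnm with h | h
  · exact key n m h
  · exact (key m n h).symm

end Pool.Agent.helper79.Tw
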