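import Pool.Agent.helper79.TwBase

/-!
Coherent systems of finite sets on a well-ordered set with countable initial segments.
-/

open Set

namespace Pool.Agent.helper79.Tw

/-- Transfinite construction of coherent families. -/
lemma transf {W X : Type*} [LinearOrder W] [WellFoundedLT W] [Nonempty X]
    (R : W → X → Prop) (Q : W → W → X → X → Prop)
    (hstep : ∀ β (E : W → X), (∀ α < β, R α (E α)) →
      (∀ α α', α < α' → α' < β → Q α α' (E α) (E α')) → ∃ e, R β e ∧ ∀ α < β, Q α β (E α) e) :
    ∃ E : W → X, (∀ α, R α (E α)) ∧ ∀ α β, α < β → Q α β (E α) (E β) := by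
  classical
  obtain ⟨x0⟩ := ‹Nonempty X›
  let F : (β : W) → ((α : W) → α < β → X) → X := fun β Eb =>
    if h : ∃ e, R β e ∧ ∀ α (hα : α < β), Q α β (Eb α hα) e then h.choose else x0
  let E : W → X := fun β => (wellFounded_lt (α := W)).fix F β
  have hE : ∀ β, E β = F β (fun α _ => E α) := fun β => (wellFounded_lt (α := W)).fix_eq F β
  have key : ∀ β, R β (E β) ∧ ∀ α < β, Q α β (E α) (E β) := by
    intro β
    induction β using WellFoundedLT.induction with
    | ind β ih =>
      obtain ⟨e, he⟩ := hstep β E (fun α hα => (ih α hα).1)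
        (fun α α' h1 h2 => (ih α' h2).2 α h1)
      have hex : ∃ e, R β e ∧ ∀ α (_ : α < β), Q α β (E α) e := ⟨e, he⟩
      have h1 : E β = hex.choose := by
        rw [hE β]
        simp only [F]
        rw [dif_pos hex]
      rw [h1]
      exact hex.choose_spec
  exact ⟨E, fun α => (key α).1, fun α β h => (key β).2 α h⟩

/-- A strictly increasing sequence eventually satisfying given thresholds. -/
lemma exists_thresholds (m : ℕ → ℕ) : ∃ N : ℕ → ℕ, StrictMono N ∧ ∀ k, m k ≤ N k := by
  refine ⟨fun k => k + ∑ j ∈ Finset.range (k + 1), m j, ?_, ?_⟩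
  · apply strictMono_nat_of_lt_succ
    intro k
    rw [Finset.sum_range_succ (n := k + 1)]
    omega
  · intro k
    have := Finset.single_le_sum (f := m) (s := Finset.range (k + 1)) (fun _ _ => Nat.zero_le _)
      (Finset.mem_range.2 (Nat.lt_succ_self k))
    simp only
    omega

theorem exists_coh {W : Type*} [LinearOrder W] [WellFoundedLT W]
    (hW : ∀ a : W, (Set.Iio a).Countable) :
    ∃ E : W → ℕ → Finset W,
      (∀ α n, ∀ ξ ∈ E α n, ξ < α) ∧
      (∀ α β, α < β → ∃ n0, ∀ n ≥ n0, (E β n).filter (fun ξ => ξ < α) = E α n) ∧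
      (∀ α ξ, ξ < α → ∃ n0, ∀ n ≥ n0, ξ ∈ E α n) ∧
      (∀ α n, (E α n).card ≤ n) := by
  classical
  let R : W → (ℕ → Finset W) → Prop := fun α e => (∀ n, ∀ ξ ∈ e n, ξ < α) ∧
    (∀ ξ, ξ < α → ∃ n0, ∀ n ≥ n0, ξ ∈ e n) ∧ (∀ n, (e n).card ≤ n) ∧
    (∀ k, ∃ n0, ∀ n ≥ n0, (e n).card + k ≤ n)
  let Q : W → W → (ℕ → Finset W) → (ℕ → Finset W) → Prop := fun α β e e' =>
    ∃ n0, ∀ n ≥ n0, (e' n).filter (fun ξ => ξ < α) = e n
  have hstep : ∀ β (E : W → ℕ → Finset W), (∀ α < β, R α (E α)) →
      (∀ α α', α < α' → α' < β → Q α α' (E α) (E α')) → ∃ e, R β e ∧ ∀ α < β, Q α β (E α) e := by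
    intro β E hR hQ
    by_cases hne : (Set.Iio β).Nonempty
    · obtain ⟨u, hu⟩ := (hW β).exists_eq_range hne
      have hu1 : ∀ n, u n < β := fun n => by
        have : u n ∈ Set.Iio β := by rw [hu]; exact mem_range_self n
        exact this
      -- running maximum
      let a : ℕ → W := fun k => (Finset.range (k + 1)).sup' ⟨0, by simp⟩ u
      have ha1 : ∀ k, a k < β := by
        intro k
        obtain ⟨j, -, hj⟩ := Finset.exists_mem_eq_sup' (s := Finset.range (k + 1)) ⟨0, by simp⟩ u
        simp only [a]
        rw [hj]; exact hu1 j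
      have ha2 : ∀ k, u k ≤ a k := fun k =>
        Finset.le_sup' u (Finset.mem_range.2 (Nat.lt_succ_self k))
      have ha3 : Monotone a := by
        intro j k hjk
        apply Finset.sup'_mono
        intro x hx
        rw [Finset.mem_range] at hx ⊢
        omega
      -- thresholds
      have hthr : ∀ k, ∃ m, (∀ j ≤ k, ∀ n ≥ m, (E (a k) n).filter (fun ξ => ξ < a j) = E (a j) n) ∧
          (∀ j ≤ k, a j < a k → ∀ n ≥ m, a j ∈ E (a k) n) ∧
          (∀ n ≥ m, (E (a k) n).card + (k + 1) ≤ n) := by
        intro k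
        have h1 : ∀ j, ∃ m, j ≤ k → ∀ n ≥ m, (E (a k) n).filter (fun ξ => ξ < a j) = E (a j) n := by
          intro j
          by_cases hjk : j ≤ k
          · rcases (ha3 hjk).lt_or_eq with h | h
            · obtain ⟨m, hm⟩ := hQ (a j) (a k) h (ha1 k)
              exact ⟨m, fun _ => hm⟩
            · refine ⟨0, fun _ n _ => ?_⟩
              rw [h]
              apply Finset.filter_true_of_mem
              exact (hR (a k) (ha1 k)).1 n
          · exact ⟨0, fun h => absurd h hjk⟩
        have h2 : ∀ j, ∃ m, a j < a k → ∀ n ≥ m, a j ∈ E (a k) n := by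
          intro j
          by_cases h : a j < a k
          · obtain ⟨m, hm⟩ := (hR (a k) (ha1 k)).2.1 (a j) h
            exact ⟨m, fun _ => hm⟩
          · exact ⟨0, fun h' => absurd h' h⟩
        choose m1 hm1 using h1
        choose m2 hm2 using h2
        obtain ⟨m3, hm3⟩ := (hR (a k) (ha1 k)).2.2.2 (k + 1)
        refine ⟨m3 + (Finset.range (k + 1)).sup m1 + (Finset.range (k + 1)).sup m2, ?_, ?_, ?_⟩
        · intro j hj n hn
          apply hm1 j hj
          have : m1 j ≤ (Finset.range (k + 1)).sup m1 :=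
            Finset.le_sup (Finset.mem_range.2 (by omega))
          omega
        · intro j hj hlt n hn
          apply hm2 j hlt
          have : m2 j ≤ (Finset.range (k + 1)).sup m2 :=
            Finset.le_sup (Finset.mem_range.2 (by omega))
          omega
        · intro n hn
          exact hm3 n (by omega)
      choose m hm1 hm2 hm3 using hthr
      obtain ⟨N, hN, hmN⟩ := exists_thresholds m
      let kk : ℕ → ℕ := fun n => Nat.findGreatest (fun k => N k ≤ n) n
      have hkk1 : ∀ n, N 0 ≤ n → N (kk n) ≤ n := by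
        intro n hn
        exact Nat.findGreatest_spec (P := fun k => N k ≤ n) (m := 0) (Nat.zero_le n) hn
      have hkk2 : ∀ n k, N k ≤ n → k ≤ kk n := by
        intro n k hk
        exact Nat.le_findGreatest (P := fun k => N k ≤ n) ((hN.id_le k).trans hk) hk
      let e : ℕ → Finset W := fun n => if N 0 ≤ n then insert (a (kk n)) (E (a (kk n)) n) else ∅
      have hcoh : ∀ j, ∀ n ≥ N j, e n = insert (a (kk n)) (E (a (kk n)) n) ∧ j ≤ kk n ∧
          (E (a (kk n)) n).filter (fun ξ => ξ < a j) = E (a j) n := by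
        intro j n hn
        have h0 : N 0 ≤ n := (hN.monotone (Nat.zero_le j)).trans hn
        have h1 := hkk2 n j hn
        refine ⟨by simp only [e]; rw [if_pos h0], h1, ?_⟩
        exact hm1 (kk n) j h1 n ((hmN _).trans (hkk1 n h0))
      refine ⟨e, ⟨?_, ?_, ?_, ?_⟩, ?_⟩
      · intro n ξ hξ
        simp only [e] at hξ
        split_ifs at hξ with h0
        · rcases Finset.mem_insert.1 hξ with rfl | hξ
          · exact ha1 _
          · exact ((hR _ (ha1 _)).1 n ξ hξ).trans (ha1 _)
        · simp at hξ
      · intro ξ hξ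
        obtain ⟨j, hj⟩ : ξ ∈ Set.range u := by rw [← hu]; exact hξ
        have hle : ξ ≤ a j := by rw [← hj]; exact ha2 j
        rcases hle.lt_or_eq with h | h
        · obtain ⟨n1, hn1⟩ := (hR (a j) (ha1 j)).2.1 ξ h
          refine ⟨n1 + N j, fun n hn => ?_⟩
          obtain ⟨h1, h2, h3⟩ := hcoh j n (by omega)
          rw [h1]
          apply Finset.mem_insert_of_mem
          have h4 := hn1 n (by omega)
          rw [← h3] at h4
          exact (Finset.mem_filter.1 h4).1
        · refine ⟨N j, fun n hn => ?_⟩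
          obtain ⟨h1, h2, h3⟩ := hcoh j n hn
          rw [h1, h]
          rcases (ha3 h2).lt_or_eq with h4 | h4
          · apply Finset.mem_insert_of_mem
            have h0 : N 0 ≤ n := (hN.monotone (Nat.zero_le j)).trans hn
            exact hm2 (kk n) j h2 h4 n ((hmN _).trans (hkk1 n h0))
          · rw [h4]; exact Finset.mem_insert_self _ _
      · intro n
        simp only [e]
        split_ifs with h0
        · have h1 := hm3 (kk n) n ((hmN _).trans (hkk1 n h0))
          have h2 := Finset.card_insert_le (a (kk n)) (E (a (kk n)) n)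
          omega
        · simp
      · intro k
        refine ⟨N k, fun n hn => ?_⟩
        obtain ⟨h1, h2, h3⟩ := hcoh k n hn
        rw [h1]
        have h0 : N 0 ≤ n := (hN.monotone (Nat.zero_le k)).trans hn
        have h4 := hm3 (kk n) n ((hmN _).trans (hkk1 n h0))
        have h5 := Finset.card_insert_le (a (kk n)) (E (a (kk n)) n)
        omega
      · intro α hα
        obtain ⟨j, hj⟩ : α ∈ Set.range u := by rw [← hu]; exact hα
        have hle : α ≤ a j := by rw [← hj]; exact ha2 j
        have hfin : ∃ n1, ∀ n ≥ n1, (E (a j) n).filter (fun ξ => ξ < α) = E α n := by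
          rcases hle.lt_or_eq with h | h
          · exact hQ α (a j) h (ha1 j)
          · refine ⟨0, fun n _ => ?_⟩
            rw [← h]
            apply Finset.filter_true_of_mem
            exact (hR α hα).1 n
        obtain ⟨n1, hn1⟩ := hfin
        refine ⟨n1 + N j, fun n hn => ?_⟩
        obtain ⟨h1, h2, h3⟩ := hcoh j n (by omega)
        have hnot : ¬ a (kk n) < α := not_lt.2 (hle.trans (ha3 h2))
        rw [h1, Finset.filter_insert, if_neg hnot, ← hn1 n (by omega), ← h3, Finset.filter_filter]
        apply Finset.filter_congr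
        intro ξ _
        constructor
        · intro h; exact ⟨lt_of_lt_of_le h hle, h⟩
        · intro h; exact h.2
    · rw [Set.not_nonempty_iff_eq_empty] at hne
      have hno : ∀ α, ¬ α < β := by
        intro α hα
        have : α ∈ Set.Iio β := hα
        rw [hne] at this
        exact this
      exact ⟨fun _ => ∅, ⟨by simp, fun ξ h => absurd h (hno ξ), by simp,
        fun k => ⟨k, fun n hn => by simpa using hn⟩⟩, fun α h => absurd h (hno α)⟩
  obtain ⟨E, hE1, hE2⟩ := transf R Q hstep
  exact ⟨E, fun α => (hE1 α).1, hE2, fun α => (hE1 α).2.1, fun α => (hE1 α).2.2.1⟩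

end Pool.Agent.helper79.Tw
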