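import Pool.Agent.helper79.TwBase

/-!
The localization scheme: finite combinatorics of conditional measures.
-/

open Set
open scoped BigOperators

namespace Pool.Agent.helper79.Tw

section q

variable {I N : Type*} [DecidableEq I] [DecidableEq N]

/-- `p` is consistent with the partial assignment `s` on `P`. -/
def Con (P : Finset I) (s : I → Option Bool) (p : Finset I) : Prop :=
  ∀ i ∈ P, ∀ b, s i = some b → (i ∈ p ↔ b = true)

open Classical in
/-- Conditional measure of the set of patterns `D` on `P` given the partial assignment `s`. -/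
noncomputable def q (P : Finset I) (D : Finset (Finset I)) (s : I → Option Bool) : ℝ :=
  ((D.filter (fun p => Con P s p)).card : ℝ) / 2 ^ (P.filter (fun i => s i = none)).card

lemma q_nonneg (P : Finset I) (D : Finset (Finset I)) (s : I → Option Bool) : 0 ≤ q P D s := by
  unfold q; positivity

lemma Con_congr {P : Finset I} {s s' : I → Option Bool} (h : ∀ i ∈ P, s i = s' i)
    (p : Finset I) : Con P s p ↔ Con P s' p := by
  unfold Con
  constructor
  · intro H i hi b hb; exact H i hi b (by rw [h i hi]; exact hb)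
  · intro H i hi b hb; exact H i hi b (by rw [← h i hi]; exact hb)

lemma q_congr {P : Finset I} {D : Finset (Finset I)} {s s' : I → Option Bool}
    (h : ∀ i ∈ P, s i = s' i) : q P D s = q P D s' := by
  classical
  unfold q
  congr 2
  · congr 1
    exact Finset.filter_congr (fun p _ => Con_congr h p)
  · congr 1
    exact Finset.filter_congr (fun i hi => by rw [h i hi])

lemma q_image {P : Finset I} {D : Finset (Finset I)} (φ : I → N) (hφ : Set.InjOn φ P)
    (hD : ∀ p ∈ D, p ⊆ P) (σ : N → Option Bool) :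
    q P D (σ ∘ φ) = q (P.image φ) (D.image (fun p => p.image φ)) σ := by
  classical
  have hmem : ∀ p ⊆ P, ∀ i ∈ P, (φ i ∈ p.image φ ↔ i ∈ p) := by
    intro p hp i hi
    rw [Finset.mem_image]
    constructor
    · rintro ⟨j, hj, hji⟩
      have := hφ (hp hj) hi hji
      rwa [← this]
    · intro h; exact ⟨i, h, rfl⟩
  have hcon : ∀ p ⊆ P, (Con (P.image φ) σ (p.image φ) ↔ Con P (σ ∘ φ) p) := by
    intro p hp
    unfold Con
    constructor
    · intro H i hi b hb
      rw [← hmem p hp i hi]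
      exact H (φ i) (Finset.mem_image_of_mem φ hi) b hb
    · intro H d hd b hb
      obtain ⟨i, hi, rfl⟩ := Finset.mem_image.1 hd
      rw [hmem p hp i hi]
      exact H i hi b hb
  unfold q
  have h1 : ((D.image (fun p => p.image φ)).filter (fun p => Con (P.image φ) σ p)).card =
      (D.filter (fun p => Con P (σ ∘ φ) p)).card := by
    have : (D.image (fun p => p.image φ)).filter (fun p => Con (P.image φ) σ p) =
        (D.filter (fun p => Con P (σ ∘ φ) p)).image (fun p => p.image φ) := by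
      ext t
      simp only [Finset.mem_filter, Finset.mem_image]
      constructor
      · rintro ⟨⟨p, hp, rfl⟩, hc⟩
        exact ⟨p, ⟨hp, (hcon p (hD p hp)).1 hc⟩, rfl⟩
      · rintro ⟨p, ⟨hp, hc⟩, rfl⟩
        exact ⟨⟨p, hp, rfl⟩, (hcon p (hD p hp)).2 hc⟩
    rw [this, Finset.card_image_of_injOn]
    intro p hp p' hp' hpp
    have hp1 := hD p (Finset.mem_filter.1 hp).1
    have hp2 := hD p' (Finset.mem_filter.1 hp').1
    simp only at hpp
    ext i
    constructor
    · intro hi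
      rw [← hmem p' hp2 i (hp1 hi), ← hpp]
      exact Finset.mem_image_of_mem φ hi
    · intro hi
      rw [← hmem p hp1 i (hp2 hi), hpp]
      exact Finset.mem_image_of_mem φ hi
  have h2 : ((P.image φ).filter (fun d => σ d = none)).card =
      (P.filter (fun i => (σ ∘ φ) i = none)).card := by
    rw [Finset.filter_image, Finset.card_image_of_injOn]
    · rfl
    · exact hφ.mono (by intro i hi; exact (Finset.mem_filter.1 hi).1)
  rw [h1, h2]

lemma q_split (P : Finset N) (D : Finset (Finset N)) (s : N → Option Bool) (d : N)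
    (hd : s d = none) :
    q P D s = (q P D (Function.update s d (some true)) +
      q P D (Function.update s d (some false))) / 2 := by
  classical
  by_cases hdP : d ∈ P
  · have hnone : ∀ b, (P.filter (fun i => s i = none)).card =
        (P.filter (fun i => Function.update s d (some b) i = none)).card + 1 := by
      intro b
      have : P.filter (fun i => s i = none) =
          insert d (P.filter (fun i => Function.update s d (some b) i = none)) := by
        ext i
        simp only [Finset.mem_filter, Finset.mem_insert]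
        by_cases hid : i = d
        · subst hid; simp [hdP, hd]
        · simp [hid, Function.update_of_ne hid]
      rw [this, Finset.card_insert_of_notMem]
      simp
    have hcon : ∀ b p, Con P (Function.update s d (some b)) p ↔ (Con P s p ∧ (d ∈ p ↔ b = true)) := by
      intro b p
      unfold Con
      constructor
      · intro H
        refine ⟨fun i hi c hc => H i hi c ?_, H d hdP b (by simp)⟩
        rw [Function.update_of_ne]
        · exact hc
        · rintro rfl; rw [hd] at hc; cases hc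
      · rintro ⟨H, H2⟩ i hi c hc
        by_cases hid : i = d
        · subst hid
          simp only [Function.update_self, Option.some.injEq] at hc
          rw [← hc]; exact H2
        · rw [Function.update_of_ne hid] at hc
          exact H i hi c hc
    have hcard : (D.filter (fun p => Con P s p)).card =
        (D.filter (fun p => Con P (Function.update s d (some true)) p)).card +
        (D.filter (fun p => Con P (Function.update s d (some false)) p)).card := by
      rw [← Finset.card_union_of_disjoint]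
      · congr 1
        ext p
        simp only [Finset.mem_filter, Finset.mem_union, hcon]
        by_cases hp : d ∈ p <;> simp [hp]
      · rw [Finset.disjoint_left]
        intro p hp hp'
        simp only [Finset.mem_filter, hcon] at hp hp'
        have h1 := hp.2.2
        have h2 := hp'.2.2
        simp only [iff_true, Bool.false_eq_true, iff_false] at h1 h2
        exact h2 h1
    unfold q
    rw [hcard, hnone true]
    have e : (P.filter (fun i => Function.update s d (some false) i = none)).card =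
      (P.filter (fun i => Function.update s d (some true) i = none)).card := by
      have h1 := hnone true
      have h2 := hnone false
      omega
    rw [e, pow_succ]
    push_cast
    field_simp
  · have h : ∀ b, q P D (Function.update s d (some b)) = q P D s := by
      intro b
      apply q_congr
      intro i hi
      rw [Function.update_of_ne]
      rintro rfl; exact hdP hi
    rw [h, h]; ring

lemma q_le (P : Finset I) (D : Finset (Finset I)) (s : I → Option Bool) (m : ℕ)
    (hm : (P.filter (fun i => s i ≠ none)).card ≤ m) (e : ℝ) (he : (D.card : ℝ) ≤ e * 2 ^ P.card)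
    : q P D s ≤ 2 ^ m * e := by
  classical
  unfold q
  rw [div_le_iff₀ (by positivity)]
  have h1 : ((D.filter (fun p => Con P s p)).card : ℝ) ≤ D.card := by
    exact_mod_cast Finset.card_filter_le _ _
  have he0 : 0 ≤ e := by
    by_contra hneg
    push Not at hneg
    have : e * 2 ^ P.card < 0 := mul_neg_of_neg_of_pos hneg (by positivity)
    have h0 : (0 : ℝ) ≤ D.card := by positivity
    linarith
  have h2 : P.card = (P.filter (fun i => s i ≠ none)).card + (P.filter (fun i => s i = none)).card := by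
    have := Finset.card_filter_add_card_filter_not (s := P) (fun i => s i ≠ none)
    simp only [ne_eq, not_not] at this
    exact this.symm
  calc ((D.filter (fun p => Con P s p)).card : ℝ) ≤ e * 2 ^ P.card := h1.trans he
    _ = e * (2 ^ (P.filter (fun i => s i ≠ none)).card * 2 ^ (P.filter (fun i => s i = none)).card) := by
      rw [h2, pow_add]
    _ ≤ e * (2 ^ m * 2 ^ (P.filter (fun i => s i = none)).card) := by
      apply mul_le_mul_of_nonneg_left _ he0
      apply mul_le_mul_of_nonneg_right _ (by positivity)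
      exact pow_le_pow_right₀ (by norm_num) hm
    _ = _ := by ring

lemma q_decided (P : Finset I) (D : Finset (Finset I)) (s : I → Option Bool)
    (hP : ∀ i ∈ P, s i ≠ none) (hq : q P D s < 1) (x : I → Bool)
    (hx : ∀ i ∈ P, s i = some (x i)) : P.filter (fun i => x i = true) ∉ D := by
  classical
  intro hmem
  have h0 : (P.filter (fun i => s i = none)).card = 0 := by
    rw [Finset.card_eq_zero, Finset.filter_eq_empty_iff]
    intro i hi; exact hP i hi
  unfold q at hq
  rw [h0, pow_zero, div_one] at hq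
  have h1 : (D.filter (fun p => Con P s p)).card = 0 := by
    have : ((D.filter (fun p => Con P s p)).card : ℝ) < 1 := hq
    have h2 : (D.filter (fun p => Con P s p)).card < 1 := by exact_mod_cast this
    omega
  rw [Finset.card_eq_zero, Finset.filter_eq_empty_iff] at h1
  apply h1 hmem
  intro i hi b hb
  rw [hx i hi] at hb
  simp only [Option.some.injEq] at hb
  rw [Finset.mem_filter, ← hb]
  exact ⟨fun h => h.2, fun h => ⟨hi, h⟩⟩

/-- Derandomized choice of values. -/
lemma derand {ι : Type*} (t : Finset ι) (w : ι → ℝ) (P : ι → Finset N)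
    (D : ι → Finset (Finset N)) (M : Finset N) (σ : N → Option Bool) :
    ∃ σ' : N → Option Bool, (∀ d, σ d ≠ none → σ' d = σ d) ∧ (∀ d ∈ M, σ' d ≠ none) ∧
      (∀ d, d ∉ M → σ' d = σ d) ∧
      ∑ a ∈ t, w a * q (P a) (D a) σ' ≤ ∑ a ∈ t, w a * q (P a) (D a) σ := by
  classical
  induction M using Finset.induction_on with
  | empty => exact ⟨σ, fun _ _ => rfl, by simp, fun _ _ => rfl, le_rfl⟩
  | insert d M hdM ih =>
    obtain ⟨σ1, h1, h2, h3, h4⟩ := ih
    by_cases hd : σ1 d = none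
    · have hsplit : ∑ a ∈ t, w a * q (P a) (D a) σ1 =
          (∑ a ∈ t, w a * q (P a) (D a) (Function.update σ1 d (some true)) +
          ∑ a ∈ t, w a * q (P a) (D a) (Function.update σ1 d (some false))) / 2 := by
        rw [← Finset.sum_add_distrib, Finset.sum_div]
        apply Finset.sum_congr rfl
        intro a _
        rw [q_split (P a) (D a) σ1 d hd]
        ring
      have hb : ∃ b, ∑ a ∈ t, w a * q (P a) (D a) (Function.update σ1 d (some b)) ≤
          ∑ a ∈ t, w a * q (P a) (D a) σ1 := by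
        by_contra hcon
        push Not at hcon
        have ht := hcon true
        have hf := hcon false
        linarith
      obtain ⟨b, hb⟩ := hb
      refine ⟨Function.update σ1 d (some b), ?_, ?_, ?_, hb.trans h4⟩
      · intro e he
        by_cases hed : e = d
        · subst hed
          rw [h1 e he] at hd
          exact absurd hd he
        · rw [Function.update_of_ne hed]; exact h1 e he
      · intro e he
        by_cases hed : e = d
        · subst hed; simp
        · rw [Function.update_of_ne hed]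
          exact h2 e ((Finset.mem_insert.1 he).resolve_left hed)
      · intro e he
        rw [Finset.mem_insert, not_or] at he
        rw [Function.update_of_ne he.1]
        exact h3 e he.2
    · refine ⟨σ1, h1, ?_, ?_, h4⟩
      · intro e he
        rcases Finset.mem_insert.1 he with rfl | he
        · exact hd
        · exact h2 e he
      · intro e he
        rw [Finset.mem_insert, not_or] at he
        exact h3 e he.2

end q


/-- Data for the localization scheme. -/
structure CoreData (I N W : Type*) [DecidableEq I] [DecidableEq N] where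
  node : ℕ → I → N
  tr : ℕ → N → N
  htr : ∀ k i, tr k (node (k + 1) i) = node k i
  P : W → ℕ → Finset I
  D : W → ℕ → Finset (Finset I)
  hPmono : ∀ β k, P β k ⊆ P β (k + 1)
  hD : ∀ β k, ∀ p ∈ D β k, p ⊆ P β k
  Val : ℕ → W → Prop
  ε : ℕ → ℝ
  γ : ℕ → ℕ
  h : ℕ → ℕ
  H : ℕ → ℕ
  hε : ∀ k, 0 < ε k
  hh : ∀ k, 1 ≤ h k
  hV1 : ∀ k β, Val k β → Set.InjOn (node k) (P β (k + 2))
  hV2 : ∀ k β, Val k β → (P β k).card ≤ γ k
  hV3 : ∀ k β, Val k β → ((D β (k + 2)).card : ℝ) ≤ ε (k + 2) * 2 ^ (P β (k + 2)).card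
  rel : ℕ → W → W → Prop
  hrel_refl : ∀ k α, rel k α α
  hrel_symm : ∀ k α β, rel k α β → rel k β α
  hrel_trans : ∀ k α β δ, rel k α β → rel k β δ → rel k α δ
  hrel1 : ∀ k α β, rel (k + 1) α β → rel k α β
  hrelV : ∀ k α β, rel k α β → Val k α → Val k β
  hrelP : ∀ k α β, rel k α β → ∀ r ≤ 2,
    (P α (k + r)).image (node k) = (P β (k + r)).image (node k)
  hrelD : ∀ k α β, rel k α β → ∀ r ≤ 2,
    (D α (k + r)).image (fun p => p.image (node k)) = (D β (k + r)).image (fun p => p.image (node k))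
  T : ℕ → Finset W
  hT0 : T 0 = ∅
  hTc : ∀ k, (T k).card ≤ h k
  hTV : ∀ k, ∀ α ∈ T k, Val k α
  hH : ∀ k, h (k + 1) * H k + h (k + 1) * γ (k + 1) ≤ H (k + 1)
  hnum : ∀ k, 27 * (h (k + 1) : ℝ) * h (k + 2) * h (k + 3) *
    (2 ^ (h (k + 1) * H k) * ε (k + 3)) < 1

namespace CoreData

variable {I N W : Type*} [DecidableEq I] [DecidableEq N] (𝒟 : CoreData I N W)

/-- `β` is represented at time `k`. -/
def Rep (k : ℕ) (β : W) : Prop := 𝒟.Val k β ∧ ∃ α ∈ 𝒟.T k, 𝒟.rel k α β

lemma rel_le {k l : ℕ} (hkl : k ≤ l) {α β : W} (h : 𝒟.rel l α β) : 𝒟.rel k α β := by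
  induction l, hkl using Nat.le_induction with
  | base => exact h
  | succ l hl ih => exact ih (𝒟.hrel1 l α β h)

lemma Rep_of_rel {k : ℕ} {α β : W} (h : 𝒟.rel k α β) (hβ : 𝒟.Rep k β) : 𝒟.Rep k α := by
  obtain ⟨hV, γ, hγ, hr⟩ := hβ
  exact ⟨𝒟.hrelV k β α (𝒟.hrel_symm k α β h) hV, γ, hγ,
    𝒟.hrel_trans k γ β α hr (𝒟.hrel_symm k α β h)⟩

lemma not_Rep_zero (β : W) : ¬ 𝒟.Rep 0 β := by
  rintro ⟨_, α, hα, _⟩
  rw [𝒟.hT0] at hα
  simp at hα

lemma P_mono {β : W} {k l : ℕ} (hkl : k ≤ l) : 𝒟.P β k ⊆ 𝒟.P β l := by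
  induction l, hkl using Nat.le_induction with
  | base => exact Finset.Subset.refl _
  | succ l hl ih => exact ih.trans (𝒟.hPmono β l)

/-- conditional measure of `D β j` at time `k` -/
noncomputable def qq (k : ℕ) (σ : N → Option Bool) (β : W) (j : ℕ) : ℝ :=
  q (𝒟.P β j) (𝒟.D β j) (σ ∘ 𝒟.node k)

lemma qq_rel {k : ℕ} {α β : W} (h : 𝒟.rel k α β) (hα : 𝒟.Val k α) (σ : N → Option Bool)
    {r : ℕ} (hr : r ≤ 2) : 𝒟.qq k σ α (k + r) = 𝒟.qq k σ β (k + r) := by
  have hβ : 𝒟.Val k β := 𝒟.hrelV k α β h hα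
  have hsub : ∀ δ, 𝒟.P δ (k + r) ⊆ 𝒟.P δ (k + 2) := fun δ => 𝒟.P_mono (by omega)
  unfold qq
  rw [q_image (𝒟.node k) ((𝒟.hV1 k α hα).mono (by exact_mod_cast hsub α)) (𝒟.hD α (k + r)) σ,
    q_image (𝒟.node k) ((𝒟.hV1 k β hβ).mono (by exact_mod_cast hsub β)) (𝒟.hD β (k + r)) σ,
    𝒟.hrelP k α β h r hr, 𝒟.hrelD k α β h r hr]

/-- bounds -/
noncomputable def b2 : ℕ → ℝ
  | 0 => 1
  | k + 1 => 3 * 𝒟.h (k + 1) * (2 ^ (𝒟.h (k + 1) * 𝒟.H k) * 𝒟.ε (k + 3))

noncomputable def b1 : ℕ → ℝ
  | 0 => 1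
  | k + 1 => 3 * 𝒟.h (k + 1) * 𝒟.b2 k

noncomputable def b0 : ℕ → ℝ
  | 0 => 1
  | k + 1 => 3 * 𝒟.h (k + 1) * 𝒟.b1 k

lemma h_pos (k : ℕ) : (0 : ℝ) < 𝒟.h k := by
  have := 𝒟.hh k
  exact_mod_cast this

lemma b2_pos (k : ℕ) : 0 < 𝒟.b2 k := by
  cases k with
  | zero => norm_num [b2]
  | succ k =>
    have h1 := 𝒟.h_pos (k + 1)
    have h2 := 𝒟.hε (k + 3)
    simp only [b2]; positivity

lemma b1_pos (k : ℕ) : 0 < 𝒟.b1 k := by
  cases k with
  | zero => norm_num [b1]
  | succ k =>
    have h1 := 𝒟.h_pos (k + 1)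
    have h2 := 𝒟.b2_pos k
    simp only [b1]; positivity

lemma b0_lt (k : ℕ) : 𝒟.b0 (k + 3) < 1 := by
  have := 𝒟.hnum k
  simp only [b0, b1, b2]
  calc _ = 27 * (𝒟.h (k + 1) : ℝ) * 𝒟.h (k + 2) * 𝒟.h (k + 3) *
    (2 ^ (𝒟.h (k + 1) * 𝒟.H k) * 𝒟.ε (k + 3)) := by ring
    _ < 1 := this

/-- The invariants of the scheme. -/
structure Inv (k : ℕ) (σ : N → Option Bool) : Prop where
  supp : ∃ S : Finset N, S.card ≤ 𝒟.H k ∧ ∀ d, σ d ≠ none → d ∈ S
  j2 : ∀ β, 𝒟.Rep k β → 𝒟.qq k σ β (k + 2) ≤ 𝒟.b2 k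
  j1 : ∀ β, 𝒟.Rep (k - 1) β → 𝒟.Rep k β → 𝒟.qq k σ β (k + 1) ≤ 𝒟.b1 k
  j0 : ∀ β, 𝒟.Rep (k - 2) β → 𝒟.Rep (k - 1) β → 𝒟.Rep k β → 𝒟.qq k σ β k ≤ 𝒟.b0 k
  dec : ∀ β, 𝒟.Rep k β → ∀ i ∈ 𝒟.P β k, σ (𝒟.node k i) ≠ none

lemma inv_zero : 𝒟.Inv 0 (fun _ => none) where
  supp := ⟨∅, by simp, by simp⟩
  j2 := fun β h => absurd h (𝒟.not_Rep_zero β)
  j1 := fun β _ h => absurd h (𝒟.not_Rep_zero β)
  j0 := fun β _ _ h => absurd h (𝒟.not_Rep_zero β)
  dec := fun β h => absurd h (𝒟.not_Rep_zero β)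

lemma step (k : ℕ) (σ : N → Option Bool) (hσ : 𝒟.Inv k σ) :
    ∃ σ' : N → Option Bool, 𝒟.Inv (k + 1) σ' ∧
      ∀ β, 𝒟.Rep k β → 𝒟.Rep (k + 1) β → ∀ i ∈ 𝒟.P β (k + 2), ∀ b,
        σ (𝒟.node k i) = some b → σ' (𝒟.node (k + 1) i) = some b := by
  classical
  set σ1 : N → Option Bool := fun d =>
    if ∃ α ∈ 𝒟.T (k + 1), 𝒟.Rep k α ∧ ∃ i ∈ 𝒟.P α (k + 2), 𝒟.node (k + 1) i = d
    then σ (𝒟.tr k d) else none with hσ1
  -- representatives of β
  have hrep : ∀ β, 𝒟.Rep (k + 1) β → ∃ α ∈ 𝒟.T (k + 1), 𝒟.rel (k + 1) α β ∧ 𝒟.Rep (k + 1) α := by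
    intro β hβ
    obtain ⟨hV, α, hα, hr⟩ := hβ
    exact ⟨α, hα, hr, 𝒟.Rep_of_rel hr ⟨hV, α, hα, hr⟩⟩
  have factA : ∀ β, 𝒟.Rep k β → 𝒟.Rep (k + 1) β → ∀ i ∈ 𝒟.P β (k + 2),
      σ1 (𝒟.node (k + 1) i) = σ (𝒟.node k i) := by
    intro β hβ hβ1 i hi
    obtain ⟨α, hα, hr, hα1⟩ := hrep β hβ1
    have hαk : 𝒟.Rep k α := 𝒟.Rep_of_rel (𝒟.hrel1 k α β hr) hβ
    have himg : 𝒟.node (k + 1) i ∈ (𝒟.P α (k + 1 + 1)).image (𝒟.node (k + 1)) := by
      rw [𝒟.hrelP (k + 1) α β hr 1 (by norm_num)]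
      exact Finset.mem_image_of_mem _ hi
    obtain ⟨i', hi', he⟩ := Finset.mem_image.1 himg
    have hc : ∃ α ∈ 𝒟.T (k + 1), 𝒟.Rep k α ∧ ∃ i'' ∈ 𝒟.P α (k + 2),
      𝒟.node (k + 1) i'' = 𝒟.node (k + 1) i := ⟨α, hα, hαk, i', hi', he⟩
    simp only [hσ1]
    rw [if_pos hc, 𝒟.htr]
  have hRepT : ∀ α ∈ 𝒟.T (k + 1), 𝒟.Rep (k + 1) α := fun α hα =>
    ⟨𝒟.hTV (k + 1) α hα, α, hα, 𝒟.hrel_refl (k + 1) α⟩
  -- support of σ1
  obtain ⟨S, hS, hSσ⟩ := hσ.supp
  set S1 : Finset N := ((𝒟.T (k + 1)).filter (fun α => 𝒟.Rep k α)).biUnion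
    (fun α => ((𝒟.P α (k + 2)).filter (fun i => 𝒟.node k i ∈ S)).image (𝒟.node (k + 1))) with hS1
  have hS1card : S1.card ≤ 𝒟.h (k + 1) * 𝒟.H k := by
    calc S1.card ≤ ∑ α ∈ (𝒟.T (k + 1)).filter (fun α => 𝒟.Rep k α),
          (((𝒟.P α (k + 2)).filter (fun i => 𝒟.node k i ∈ S)).image (𝒟.node (k + 1))).card :=
            Finset.card_biUnion_le
      _ ≤ ∑ α ∈ (𝒟.T (k + 1)).filter (fun α => 𝒟.Rep k α), 𝒟.H k := by
        apply Finset.sum_le_sum
        intro α hα
        have hαk := (Finset.mem_filter.1 hα).2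
        calc (((𝒟.P α (k + 2)).filter (fun i => 𝒟.node k i ∈ S)).image (𝒟.node (k + 1))).card
            ≤ ((𝒟.P α (k + 2)).filter (fun i => 𝒟.node k i ∈ S)).card := Finset.card_image_le
          _ = (((𝒟.P α (k + 2)).filter (fun i => 𝒟.node k i ∈ S)).image (𝒟.node k)).card := by
            rw [Finset.card_image_of_injOn]
            exact (𝒟.hV1 k α hαk.1).mono (by intro i hi; exact (Finset.mem_filter.1 hi).1)
          _ ≤ S.card := by
            apply Finset.card_le_card
            intro d hd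
            obtain ⟨i, hi, rfl⟩ := Finset.mem_image.1 hd
            exact (Finset.mem_filter.1 hi).2
          _ ≤ 𝒟.H k := hS
      _ = ((𝒟.T (k + 1)).filter (fun α => 𝒟.Rep k α)).card * 𝒟.H k := by
        rw [Finset.sum_const, smul_eq_mul]
      _ ≤ 𝒟.h (k + 1) * 𝒟.H k := by
        apply Nat.mul_le_mul_right
        exact (Finset.card_filter_le _ _).trans (𝒟.hTc (k + 1))
  have hS1σ : ∀ d, σ1 d ≠ none → d ∈ S1 := by
    intro d hd
    simp only [hσ1] at hd
    split_ifs at hd with hc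
    · obtain ⟨α, hα, hαk, i, hi, rfl⟩ := hc
      rw [𝒟.htr] at hd
      rw [hS1, Finset.mem_biUnion]
      exact ⟨α, Finset.mem_filter.2 ⟨hα, hαk⟩, Finset.mem_image_of_mem _
        (Finset.mem_filter.2 ⟨hi, hSσ _ hd⟩)⟩
    · exact absurd rfl hd
  -- new nodes
  set M : Finset N := (𝒟.T (k + 1)).biUnion
    (fun α => (𝒟.P α (k + 1)).image (𝒟.node (k + 1))) with hM
  have hMcard : M.card ≤ 𝒟.h (k + 1) * 𝒟.γ (k + 1) := by
    calc M.card ≤ ∑ α ∈ 𝒟.T (k + 1), ((𝒟.P α (k + 1)).image (𝒟.node (k + 1))).card :=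
          Finset.card_biUnion_le
      _ ≤ ∑ α ∈ 𝒟.T (k + 1), 𝒟.γ (k + 1) := by
        apply Finset.sum_le_sum
        intro α hα
        exact Finset.card_image_le.trans (𝒟.hV2 (k + 1) α (𝒟.hTV (k + 1) α hα))
      _ = (𝒟.T (k + 1)).card * 𝒟.γ (k + 1) := by rw [Finset.sum_const, smul_eq_mul]
      _ ≤ _ := Nat.mul_le_mul_right _ (𝒟.hTc (k + 1))
  -- weights
  let cond : ℕ → W → Prop := fun r α =>
    if r = 0 then (𝒟.Rep (k - 1) α ∧ 𝒟.Rep k α) else if r = 1 then 𝒟.Rep k α else True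
  let c : ℕ → ℝ := fun r => if r = 0 then 𝒟.b1 k else if r = 1 then 𝒟.b2 k else
    2 ^ (𝒟.h (k + 1) * 𝒟.H k) * 𝒟.ε (k + 3)
  have hc : ∀ r, 0 < c r := by
    intro r
    simp only [c]
    split_ifs
    · exact 𝒟.b1_pos k
    · exact 𝒟.b2_pos k
    · have := 𝒟.hε (k + 3); positivity
  let w : W × ℕ → ℝ := fun a => if cond a.2 a.1 then 1 / c a.2 else 0
  have hw : ∀ a, 0 ≤ w a := by
    intro a
    simp only [w]
    split_ifs
    · exact (one_div_pos.2 (hc _)).le
    · exact le_rfl
  obtain ⟨σ', hσ'1, hσ'2, hσ'3, hσ'4⟩ := derand ((𝒟.T (k + 1)) ×ˢ Finset.range 3) w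
    (fun a => (𝒟.P a.1 (k + 1 + a.2)).image (𝒟.node (k + 1)))
    (fun a => (𝒟.D a.1 (k + 1 + a.2)).image (fun p => p.image (𝒟.node (k + 1)))) M σ1
  -- translate node level q to qq
  have hqq : ∀ α ∈ 𝒟.T (k + 1), ∀ r ≤ 2, ∀ τ : N → Option Bool,
      q ((𝒟.P α (k + 1 + r)).image (𝒟.node (k + 1)))
        ((𝒟.D α (k + 1 + r)).image (fun p => p.image (𝒟.node (k + 1)))) τ =
      𝒟.qq (k + 1) τ α (k + 1 + r) := by
    intro α hα r hr τ
    unfold qq
    rw [q_image (𝒟.node (k + 1)) _ (𝒟.hD α (k + 1 + r)) τ]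
    exact (𝒟.hV1 (k + 1) α (𝒟.hTV (k + 1) α hα)).mono
      (by exact_mod_cast 𝒟.P_mono (by omega))
  have hbefore : ∀ α ∈ 𝒟.T (k + 1), ∀ r ≤ 2, cond r α → 𝒟.qq (k + 1) σ1 α (k + 1 + r) ≤ c r := by
    intro α hα r hr hcd
    interval_cases r
    · simp only [cond, if_true] at hcd
      simp only [c, if_true]
      have h1 : 𝒟.qq (k + 1) σ1 α (k + 1 + 0) = 𝒟.qq k σ α (k + 1) := by
        unfold qq
        apply q_congr
        intro i hi
        exact factA α hcd.2 (hRepT α hα) i (𝒟.P_mono (by omega) hi)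
      rw [h1]
      exact hσ.j1 α hcd.1 hcd.2
    · simp only [cond, one_ne_zero, if_false, if_true] at hcd
      simp only [c, one_ne_zero, if_false, if_true]
      have h1 : 𝒟.qq (k + 1) σ1 α (k + 1 + 1) = 𝒟.qq k σ α (k + 2) := by
        unfold qq
        apply q_congr
        intro i hi
        exact factA α hcd (hRepT α hα) i hi
      rw [h1]
      exact hσ.j2 α hcd
    · simp only [c]
      norm_num
      unfold qq
      have hVα := 𝒟.hTV (k + 1) α hα
      refine q_le _ _ _ (𝒟.h (k + 1) * 𝒟.H k) ?_ (𝒟.ε (k + 3)) ?_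
      · refine le_trans ?_ hS1card
        calc ((𝒟.P α (k + 1 + 2)).filter (fun i => (σ1 ∘ 𝒟.node (k + 1)) i ≠ none)).card
            = (((𝒟.P α (k + 1 + 2)).filter (fun i => (σ1 ∘ 𝒟.node (k + 1)) i ≠ none)).image
                (𝒟.node (k + 1))).card := by
              rw [Finset.card_image_of_injOn]
              exact (𝒟.hV1 (k + 1) α hVα).mono
                (by intro i hi; exact (Finset.mem_filter.1 hi).1)
          _ ≤ S1.card := by
            apply Finset.card_le_card
            intro d hd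
            obtain ⟨i, hi, rfl⟩ := Finset.mem_image.1 hd
            exact hS1σ _ (Finset.mem_filter.1 hi).2
      · exact 𝒟.hV3 (k + 1) α hVα
  have hsum : ∑ a ∈ (𝒟.T (k + 1)) ×ˢ Finset.range 3, w a *
      q ((𝒟.P a.1 (k + 1 + a.2)).image (𝒟.node (k + 1)))
        ((𝒟.D a.1 (k + 1 + a.2)).image (fun p => p.image (𝒟.node (k + 1)))) σ1 ≤
      3 * 𝒟.h (k + 1) := by
    calc _ ≤ ∑ a ∈ (𝒟.T (k + 1)) ×ˢ Finset.range 3, (1 : ℝ) := by
          apply Finset.sum_le_sum
          rintro ⟨α, r⟩ ha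
          rw [Finset.mem_product, Finset.mem_range] at ha
          simp only at ha
          have hr : r ≤ 2 := by omega
          simp only
          rw [hqq α ha.1 r hr]
          simp only [w]
          split_ifs with hcd
          · rw [one_div, inv_mul_le_iff₀ (hc r), mul_one]
            exact hbefore α ha.1 r hr hcd
          · rw [zero_mul]; exact zero_le_one
      _ = ((𝒟.T (k + 1)).card * 3 : ℝ) := by
        rw [Finset.sum_const, Finset.card_product, Finset.card_range]
        simp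
      _ ≤ 3 * 𝒟.h (k + 1) := by
        have : ((𝒟.T (k + 1)).card : ℝ) ≤ 𝒟.h (k + 1) := by exact_mod_cast 𝒟.hTc (k + 1)
        linarith
  have hafter : ∀ α ∈ 𝒟.T (k + 1), ∀ r ≤ 2, cond r α →
      𝒟.qq (k + 1) σ' α (k + 1 + r) ≤ 3 * 𝒟.h (k + 1) * c r := by
    intro α hα r hr hcd
    have h1 := hσ'4.trans hsum
    have h2 : w (α, r) * q ((𝒟.P α (k + 1 + r)).image (𝒟.node (k + 1)))
        ((𝒟.D α (k + 1 + r)).image (fun p => p.image (𝒟.node (k + 1)))) σ' ≤ 3 * 𝒟.h (k + 1) := by
      refine le_trans ?_ h1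
      have hmem : (α, r) ∈ (𝒟.T (k + 1)) ×ˢ Finset.range 3 := by
        rw [Finset.mem_product, Finset.mem_range]; exact ⟨hα, by omega⟩
      exact Finset.single_le_sum (f := fun a : W × ℕ => w a *
        q ((𝒟.P a.1 (k + 1 + a.2)).image (𝒟.node (k + 1)))
        ((𝒟.D a.1 (k + 1 + a.2)).image (fun p => p.image (𝒟.node (k + 1)))) σ')
        (fun a _ => mul_nonneg (hw a) (q_nonneg _ _ _)) hmem
    rw [hqq α hα r hr] at h2
    simp only [w] at h2
    rw [if_pos hcd, one_div, inv_mul_le_iff₀ (hc r)] at h2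
    linarith
  -- transfer to all β
  have hall : ∀ β, 𝒟.Rep (k + 1) β → ∀ r ≤ 2, (∀ α ∈ 𝒟.T (k + 1), 𝒟.rel (k + 1) α β → cond r α) →
      𝒟.qq (k + 1) σ' β (k + 1 + r) ≤ 3 * 𝒟.h (k + 1) * c r := by
    intro β hβ r hr hcd
    obtain ⟨α, hα, hrel, hα1⟩ := hrep β hβ
    rw [← 𝒟.qq_rel hrel hα1.1 σ' hr]
    exact hafter α hα r hr (hcd α hα hrel)
  refine ⟨σ', ?_, ?_⟩
  · constructor
    · refine ⟨S1 ∪ M, ?_, ?_⟩
      · exact (Finset.card_union_le _ _).trans ((Nat.add_le_add hS1card hMcard).trans (𝒟.hH k))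
      · intro d hd
        rw [Finset.mem_union]
        by_cases hdM : d ∈ M
        · exact Or.inr hdM
        · left
          rw [hσ'3 d hdM] at hd
          exact hS1σ d hd
    · intro β hβ
      have := hall β hβ 2 le_rfl (fun α _ _ => by simp [cond])
      simpa [c, b2, Nat.add_assoc] using this
    · intro β hβ hβ1
      have := hall β hβ1 1 (by norm_num) (fun α _ hr => by
        simp only [cond, one_ne_zero, if_false, if_true]
        exact 𝒟.Rep_of_rel (𝒟.hrel1 k α β hr) (by simpa using hβ))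
      simpa [c, b1, Nat.add_assoc] using this
    · intro β hβ hβ1 hβ2
      have := hall β hβ2 0 (by norm_num) (fun α _ hr => by
        simp only [cond, if_true]
        refine ⟨𝒟.Rep_of_rel (𝒟.rel_le (by omega) (𝒟.hrel1 k α β hr)) ?_,
          𝒟.Rep_of_rel (𝒟.hrel1 k α β hr) (by simpa using hβ1)⟩
        have e : k + 1 - 2 = k - 1 := by omega
        rw [← e]; exact hβ)
      simpa [c, b0, Nat.add_assoc] using this
    · intro β hβ i hi
      obtain ⟨α, hα, hr, hα1⟩ := hrep β hβ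
      apply hσ'2
      rw [hM, Finset.mem_biUnion]
      refine ⟨α, hα, ?_⟩
      have h3 := 𝒟.hrelP (k + 1) α β hr 0 (by norm_num)
      simp only [Nat.add_zero] at h3
      rw [h3]
      exact Finset.mem_image_of_mem _ hi
  · intro β hβ hβ1 i hi b hb
    have h1 := factA β hβ hβ1 i hi
    rw [hσ'1 _ (by rw [h1, hb]; simp), h1, hb]

/-- The conclusion of the scheme: a point avoiding all the null sets. -/
theorem avoid (hcap : ∀ β, ∃ k0, ∀ k ≥ k0, 𝒟.Rep k β) :
    ∃ x : I → Bool, ∀ β, ∃ k0, ∀ k ≥ k0, (𝒟.P β k).filter (fun i => x i = true) ∉ 𝒟.D β k := by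
  classical
  choose! nxt hnxt using 𝒟.step
  let σ : ℕ → N → Option Bool := fun k => Nat.rec (fun _ => none) (fun k s => nxt k s) k
  have hσ0 : σ 0 = fun _ => none := rfl
  have hσs : ∀ k, σ (k + 1) = nxt k (σ k) := fun k => rfl
  have hinv : ∀ k, 𝒟.Inv k (σ k) := by
    intro k
    induction k with
    | zero => rw [hσ0]; exact 𝒟.inv_zero
    | succ k ih => rw [hσs]; exact (hnxt k (σ k) ih).1
  have hpers : ∀ k β, 𝒟.Rep k β → 𝒟.Rep (k + 1) β → ∀ i ∈ 𝒟.P β (k + 2), ∀ b,
        σ k (𝒟.node k i) = some b → σ (k + 1) (𝒟.node (k + 1) i) = some b := by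
    intro k
    rw [hσs]
    exact (hnxt k (σ k) (hinv k)).2
  let xx : I → Prop := fun i => ∃ k0, ∀ k ≥ k0, σ k (𝒟.node k i) = some true
  haveI : DecidablePred xx := Classical.decPred xx
  refine ⟨fun i => decide (xx i), ?_⟩
  intro β
  obtain ⟨k1, hk1⟩ := hcap β
  refine ⟨k1 + 3, fun k hk => ?_⟩
  -- persistence
  have hper2 : ∀ i ∈ 𝒟.P β k, ∀ b, σ k (𝒟.node k i) = some b → ∀ l ≥ k,
      σ l (𝒟.node l i) = some b := by
    intro i hi b hb l hl
    induction l, hl using Nat.le_induction with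
    | base => exact hb
    | succ l hl ih =>
      exact hpers l β (hk1 l (by omega)) (hk1 (l + 1) (by omega)) i (𝒟.P_mono (by omega) hi) b ih
  obtain ⟨m, rfl⟩ : ∃ m, k = m + 3 := ⟨k - 3, by omega⟩
  apply q_decided (𝒟.P β (m + 3)) (𝒟.D β (m + 3)) (σ (m + 3) ∘ 𝒟.node (m + 3))
  · intro i hi
    exact (hinv (m + 3)).dec β (hk1 _ (by omega)) i hi
  · have h1 := (hinv (m + 3)).j0 β (hk1 _ (by omega)) (hk1 _ (by omega)) (hk1 _ (by omega))
    exact lt_of_le_of_lt h1 (𝒟.b0_lt m)
  · intro i hi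
    have h1 := (hinv (m + 3)).dec β (hk1 _ (by omega)) i hi
    obtain ⟨b, hb⟩ := Option.ne_none_iff_exists'.1 h1
    simp only [Function.comp]
    rw [hb]
    congr 1
    cases b with
    | true =>
      symm
      rw [decide_eq_true_iff]
      exact ⟨m + 3, fun l hl => hper2 i hi true hb l hl⟩
    | false =>
      symm
      rw [decide_eq_false_iff_not]
      rintro ⟨k0, hk0⟩
      have h2 := hk0 (max k0 (m + 3)) (le_max_left _ _)
      have h3 := hper2 i hi false hb (max k0 (m + 3)) (le_max_right _ _)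
      rw [h2] at h3
      simp at h3

end CoreData

end Pool.Agent.helper79.Tw
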