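import Pool.Agent.helper79.TwOp

/-!
If all the operators have liftings then `Loc W` holds.
-/

open Set Topology Filter
open scoped BoundedContinuousFunction

namespace Pool.Agent.helper79.Tw

namespace OpData

variable {W : Type} [LinearOrder W] {L : Type*} [TopologicalSpace L] [CompactSpace L]
  {S : Skel W L} (O : OpData S)

/-- claims -/
def claim (T : C(L, ℝ) →L[ℝ] (ℕ →ᵇ ℝ)) (n c : ℕ) (a : List ℕ) (j : ℕ) : Prop :=
  ∃ ξ, 1 / 2 < T (O.fp j ξ) (dc.symm (n, c, a))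

open Classical in
/-- captured values -/
noncomputable def Ss (T : C(L, ℝ) →L[ℝ] (ℕ →ᵇ ℝ)) (m n c B : ℕ) : Finset ℕ :=
  (Finset.range (B + 1)).filter (fun v => ∀ a : List ℕ, a.Nodup → a.length = m →
    (∀ u ∈ a, u ≤ B) → v ∈ a → O.claim T n c a (a.idxOf v))

lemma mem_Ss (T : C(L, ℝ) →L[ℝ] (ℕ →ᵇ ℝ)) (m n c B v : ℕ) : v ∈ O.Ss T m n c B ↔
    v ≤ B ∧ ∀ a : List ℕ, a.Nodup → a.length = m →
    (∀ u ∈ a, u ≤ B) → v ∈ a → O.claim T n c a (a.idxOf v) := by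
  classical
  unfold Ss
  rw [Finset.mem_filter, Finset.mem_range, Nat.lt_succ_iff]

lemma Ss_anti (T : C(L, ℝ) →L[ℝ] (ℕ →ᵇ ℝ)) (m n c : ℕ) {B B' v : ℕ} (hvB : v ≤ B) (hB : B ≤ B')
    (h : v ∈ O.Ss T m n c B') : v ∈ O.Ss T m n c B := by
  rw [mem_Ss] at h ⊢
  exact ⟨hvB, fun a h1 h2 h3 h4 => h.2 a h1 h2 (fun u hu => (h3 u hu).trans hB) h4⟩

lemma few (T : C(L, ℝ) →L[ℝ] (ℕ →ᵇ ℝ)) (m : ℕ) (hm : 2 * ‖T‖ < m) (n c : ℕ) (a : List ℕ)
    (h : ∀ j < m, O.claim T n c a j) : False := by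
  classical
  have hne : ∀ j, ∃ ξ, j < m → 1 / 2 < T (O.fp j ξ) (dc.symm (n, c, a)) := by
    intro j
    by_cases hj : j < m
    · obtain ⟨ξ, hξ⟩ := h j hj
      exact ⟨ξ, fun _ => hξ⟩
    · have h0 : 0 < m := by
        by_contra h0
        have : m = 0 := by omega
        rw [this] at hm
        have := norm_nonneg T
        simp at hm
        linarith
      obtain ⟨ξ, _⟩ := h 0 h0
      exact ⟨ξ, fun h' => absurd h' hj⟩
  choose ξ hξ using hne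
  have := O.claims_bound (fun f => T f (dc.symm (n, c, a))) (by
      intro t φ
      simp only [map_sum, BoundedContinuousFunction.coe_sum, Finset.sum_apply]) ‖T‖ (norm_nonneg T)
    (by
      intro f
      have h1 := BoundedContinuousFunction.norm_coe_le_norm (T f) (dc.symm (n, c, a))
      exact h1.trans (T.le_opNorm f)) (Finset.range m) ξ (fun j hj => hξ j (Finset.mem_range.1 hj))
  rw [Finset.card_range] at this
  linarith

lemma Ss_card_aux (T : C(L, ℝ) →L[ℝ] (ℕ →ᵇ ℝ)) (m : ℕ) (hm : 2 * ‖T‖ < m) (n c B : ℕ)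
    (t : Finset ℕ) (ht : ∀ v ∈ t, v ∈ O.Ss T m n c B) : t.card < m := by
  classical
  by_contra hcon
  push Not at hcon
  obtain ⟨t', ht', hcard⟩ := Finset.exists_subset_card_eq hcon
  set a := t'.toList with ha
  have hlen : a.length = m := by rw [ha, Finset.length_toList, hcard]
  have hnd : a.Nodup := t'.nodup_toList
  apply O.few T m hm n c a
  intro j hj
  have hj' : j < a.length := by rw [hlen]; exact hj
  have hmem : a[j] ∈ a := List.getElem_mem hj'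
  have hmem2 : a[j] ∈ t' := Finset.mem_toList.1 hmem
  have h1 := ht _ (ht' hmem2)
  rw [mem_Ss] at h1
  have h2 := h1.2 a hnd hlen (fun u hu => by
    rw [ha, Finset.mem_toList] at hu
    have := ht u (ht' hu)
    rw [mem_Ss] at this
    exact this.1) hmem
  rwa [hnd.idxOf_getElem] at h2

lemma Ss_card (T : C(L, ℝ) →L[ℝ] (ℕ →ᵇ ℝ)) (m : ℕ) (hm : 2 * ‖T‖ < m) (n c B : ℕ) :
    (O.Ss T m n c B).card ≤ m :=
  (O.Ss_card_aux T m hm n c B _ (fun v hv => hv)).le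

lemma Ss_mem (hW : ∀ a : W, (Set.Iio a).Countable) (hW' : ¬ (Set.univ : Set W).Countable)
    (y g : W → ℕ → ℕ) (T : C(L, ℝ) →L[ℝ] (ℕ →ᵇ ℝ)) (hT : ∀ f, (f, T f) ∈ O.G y g) (m : ℕ) (ξ : W) :
    ∃ k0, ∀ n ≥ k0, ∀ B, y ξ n ≤ B → B ≤ g ξ n → y ξ n ∈ O.Ss T m n (O.E ξ n).card B := by
  classical
  choose k hk using fun j => O.key_fact y g hW hW' T hT j ξ
  refine ⟨m + (Finset.range m).sup k, fun n hn B h1 h2 => ?_⟩
  rw [mem_Ss]
  refine ⟨h1, fun a hnd hlen hle hmem => ⟨ξ, ?_⟩⟩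
  have hj : a.idxOf (y ξ n) < m := by
    rw [← hlen]; exact List.idxOf_lt_length_of_mem hmem
  have h3 : k (a.idxOf (y ξ n)) ≤ (Finset.range m).sup k := Finset.le_sup (Finset.mem_range.2 hj)
  exact hk _ n (by omega) a (by omega) (fun v hv => (hle v hv).trans h2) hmem rfl

/-- `b > ω₁` -/
lemma dom (hW : ∀ a : W, (Set.Iio a).Countable) (hW' : ¬ (Set.univ : Set W).Countable)
    (hall : ∀ y g : W → ℕ → ℕ, ∃ T : C(L, ℝ) →L[ℝ] (ℕ →ᵇ ℝ), ∀ f, (f, T f) ∈ O.G y g)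
    (u0 : W → ℕ → ℕ) : ∃ G : ℕ → ℕ, ∀ ξ, ∃ n0, ∀ n ≥ n0, u0 ξ n ≤ G n := by
  classical
  -- pairs
  have hinf : Infinite W := by
    by_contra h
    rw [not_infinite_iff_finite] at h
    exact hW' (Set.toFinite _).countable
  obtain ⟨π⟩ : Nonempty (W ≃ W × W) := by
    rw [← Cardinal.eq, Cardinal.mk_prod, Cardinal.lift_id, Cardinal.mul_eq_self]
    exact Cardinal.aleph0_le_mk W
  -- monotone version
  set u : W → ℕ → ℕ := fun ξ n => ∑ k ∈ Finset.range (n + 1), u0 ξ k with hu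
  have umono : ∀ ξ, Monotone (u ξ) := by
    intro ξ a b hab
    apply Finset.sum_le_sum_of_subset
    intro x hx
    rw [Finset.mem_range] at hx ⊢
    omega
  have hu0 : ∀ ξ n, u0 ξ n ≤ u ξ n := fun ξ n =>
    Finset.single_le_sum (f := u0 ξ) (fun _ _ => Nat.zero_le _)
      (Finset.mem_range.2 (Nat.lt_succ_self n))
  set y : W → ℕ → ℕ := fun ξ => u (π ξ).1 with hy
  set g : W → ℕ → ℕ := fun ξ n => max (u (π ξ).2 n) (y ξ n) with hg
  obtain ⟨T, hT⟩ := hall y g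
  obtain ⟨m, hm⟩ := exists_nat_gt (2 * ‖T‖)
  -- the limit sets
  have hSinf : ∀ n c, ∃ h, ∀ v, (∀ B ≥ v, v ∈ O.Ss T m n c B) → v ≤ h := by
    intro n c
    by_contra hcon
    push Not at hcon
    -- the set is infinite
    have hinf : {v | ∀ B ≥ v, v ∈ O.Ss T m n c B}.Infinite := by
      rw [Set.infinite_iff_exists_gt]
      intro a
      obtain ⟨v, hv1, hv2⟩ := hcon a
      exact ⟨v, hv1, hv2⟩
    obtain ⟨t, ht1, ht2⟩ := hinf.exists_subset_card_eq m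
    have := O.Ss_card_aux T m hm n c (t.sup id) t (fun v hv =>
      ht1 hv _ (Finset.le_sup (f := id) hv))
    omega
  choose h hh using hSinf
  have hD : ∀ n c v, ∃ D, v ≤ D ∧ (h n c < v → v ∉ O.Ss T m n c D) := by
    intro n c v
    by_cases hv : ∀ B ≥ v, v ∈ O.Ss T m n c B
    · exact ⟨v, le_rfl, fun h' => absurd (hh n c v hv) (by omega)⟩
    · push Not at hv
      obtain ⟨B, hB1, hB2⟩ := hv
      exact ⟨B, hB1, fun _ => hB2⟩
  choose D hD1 hD2 using hD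
  set hM : ℕ → ℕ := fun n => (Finset.range (n + 1)).sup (h n) with hhM
  set DM : ℕ → ℕ → ℕ := fun n v => (Finset.range (n + 1)).sup (fun c => D n c v) with hDM
  -- it suffices to bound u
  suffices hs : ∃ G : ℕ → ℕ, ∀ ξ, ∃ n0, ∀ n ≥ n0, u ξ n ≤ G n by
    obtain ⟨G, hG⟩ := hs
    refine ⟨G, fun ξ => ?_⟩
    obtain ⟨n0, hn0⟩ := hG ξ
    exact ⟨n0, fun n hn => (hu0 ξ n).trans (hn0 n hn)⟩
  by_contra hunb
  push Not at hunb
  obtain ⟨η1, h1⟩ := hunb hM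
  -- next element of A
  have hnx : ∀ n, ∃ n', n ≤ n' ∧ hM n' < u η1 n' := fun n => by
    obtain ⟨n', hn', h⟩ := h1 n
    exact ⟨n', hn', h⟩
  choose nx hnx1 hnx2 using hnx
  obtain ⟨η2, h2⟩ := hunb (fun n => DM (nx n) (u η1 (nx n)))
  set ξ : W := π.symm (η1, η2) with hξ
  have hπ : π ξ = (η1, η2) := π.apply_symm_apply _
  obtain ⟨k0, hk0⟩ := O.Ss_mem hW hW' y g T hT m ξ
  obtain ⟨n, hn, hlt⟩ := h2 k0
  set n' := nx n with hn'
  set v := u η1 n' with hv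
  have hyv : y ξ n' = v := by rw [hy]; simp only; rw [hπ]
  have hcard : (O.E ξ n').card ≤ n' := O.E_card ξ n'
  have hgt : h n' (O.E ξ n').card < v := by
    have a1 : h n' (O.E ξ n').card ≤ hM n' :=
      Finset.le_sup (f := h n') (Finset.mem_range.2 (by omega))
    have a2 : hM n' < v := hnx2 n
    omega
  have hle : D n' (O.E ξ n').card v ≤ DM n' v :=
    Finset.le_sup (f := fun c => D n' c v) (Finset.mem_range.2 (by omega))
  have hg2 : DM n' v ≤ g ξ n' := by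
    have a1 : u η2 n ≤ u η2 n' := umono η2 (hnx1 n)
    have a2 : u (π ξ).2 n' = u η2 n' := by rw [hπ]
    have a3 : u (π ξ).2 n' ≤ g ξ n' := le_max_left _ _
    have a4 : DM n' v < u η2 n := hlt
    omega
  have hmem := hk0 n' (hn.trans (hnx1 n)) (D n' (O.E ξ n').card v)
    (by rw [hyv]; exact hD1 _ _ _) (hle.trans hg2)
  rw [hyv] at hmem
  exact hD2 _ _ _ hgt hmem

/-- localization -/
theorem loc (hW : ∀ a : W, (Set.Iio a).Countable) (hW' : ¬ (Set.univ : Set W).Countable)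
    (hall : ∀ y g : W → ℕ → ℕ, ∃ T : C(L, ℝ) →L[ℝ] (ℕ →ᵇ ℝ), ∀ f, (f, T f) ∈ O.G y g) :
    Loc W := by
  classical
  intro y
  obtain ⟨G, hG⟩ := O.dom hW hW' hall y
  obtain ⟨T, hT⟩ := hall y (fun _ => G)
  obtain ⟨m, hm⟩ := exists_nat_gt (2 * ‖T‖)
  refine ⟨m, fun n => (Finset.range (n + 1)).biUnion (fun c => O.Ss T m n c (G n)), ?_, ?_⟩
  · intro n
    calc _ ≤ ∑ c ∈ Finset.range (n + 1), (O.Ss T m n c (G n)).card := Finset.card_biUnion_le
      _ ≤ ∑ c ∈ Finset.range (n + 1), m := Finset.sum_le_sum fun c _ => O.Ss_card T m hm n c (G n)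
      _ = m * (n + 1) := by rw [Finset.sum_const, Finset.card_range, smul_eq_mul, mul_comm]
  · intro ξ
    obtain ⟨k1, hk1⟩ := hG ξ
    obtain ⟨k2, hk2⟩ := O.Ss_mem hW hW' y (fun _ => G) T hT m ξ
    refine ⟨k1 + k2, fun n hn => ?_⟩
    rw [Finset.mem_biUnion]
    refine ⟨(O.E ξ n).card, ?_, hk2 n (by omega) (G n) (hk1 n (by omega)) le_rfl⟩
    rw [Finset.mem_range]
    have := O.E_card ξ n
    omega

/-- a single functional with uncountably many large values -/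
theorem exists_functional (hW : ∀ a : W, (Set.Iio a).Countable)
    (hW' : ¬ (Set.univ : Set W).Countable)
    (hall : ∀ y g : W → ℕ → ℕ, ∃ T : C(L, ℝ) →L[ℝ] (ℕ →ᵇ ℝ), ∀ f, (f, T f) ∈ O.G y g) :
    ∃ (μ : C(L, ℝ) →L[ℝ] ℝ) (X : Set W), ¬ X.Countable ∧ ∀ ξ ∈ X, 1 / 2 < μ (O.fp 0 ξ) := by
  classical
  obtain ⟨T, hT⟩ := hall (fun _ _ => 0) (fun _ _ => 0)
  have h1 : ∀ ξ : W, ∃ k : ℕ, 1 / 2 < T (O.fp 0 ξ) k := by
    intro ξ
    obtain ⟨k0, hk0⟩ := O.key_fact (fun _ _ => 0) (fun _ _ => 0) hW hW' T hT 0 ξ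
    exact ⟨_, hk0 (k0 + 1) (by omega) [0] (by simp) (by simp) (by simp) (by simp)⟩
  choose k hk using h1
  have h2 : ∃ l : ℕ, ¬ (k ⁻¹' {l}).Countable := by
    by_contra hcon
    push Not at hcon
    apply hW'
    have : (Set.univ : Set W) = ⋃ l, k ⁻¹' {l} := by
      ext ξ; simp
    rw [this]
    exact Set.countable_iUnion hcon
  obtain ⟨l, hl⟩ := h2
  refine ⟨(BoundedContinuousFunction.evalCLM ℝ l).comp T, k ⁻¹' {l}, hl, ?_⟩
  intro ξ hξ
  have : k ξ = l := hξ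
  have h3 := hk ξ
  rw [this] at h3
  exact h3

end OpData

end Pool.Agent.helper79.Tw
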