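import Pool.Agent.helper79.TwNull
import Pool.Agent.helper86.TwNoise

/-!
`Loc W` implies that `ω₁` is a precaliber of measure algebras.
-/

open MeasureTheory Topology Set Filter
open scoped ENNReal BigOperators

namespace Pool.Agent.helper79.Tw

/-- cylinder of a pattern -/
def cyl {I : Type*} [DecidableEq I] (F p : Finset I) : Set (I → Bool) :=
  Set.pi F (fun i => {decide (i ∈ p)})

lemma mu_cylF {I : Type*} [DecidableEq I] (F p : Finset I) : mu I (cyl F p) = (1 / 2) ^ F.card := by
  unfold mu cyl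
  rw [Measure.infinitePi_pi]
  · simp only [coin_singleton]
    rw [Finset.prod_const]
  · intro i _
    exact MeasurableSet.singleton _

lemma mem_cyl {I : Type*} [DecidableEq I] (F p : Finset I) (x : I → Bool) :
    x ∈ cyl F p ↔ ∀ i ∈ F, x i = decide (i ∈ p) := by
  unfold cyl
  simp [Set.mem_pi]

open Classical in
/-- patterns of a finitely determined set -/
noncomputable def pats {I : Type*} [DecidableEq I] (F : Finset I) (A : Set (I → Bool)) :
    Finset (Finset I) := F.powerset.filter (fun p => (fun i => decide (i ∈ p)) ∈ A)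

lemma mem_iff_pats {I : Type*} [DecidableEq I] (F : Finset I) (A : Set (I → Bool))
    (hA : ∀ x y : I → Bool, (∀ i ∈ F, x i = y i) → (x ∈ A ↔ y ∈ A)) (x : I → Bool) :
    x ∈ A ↔ F.filter (fun i => x i = true) ∈ pats F A := by
  classical
  unfold pats
  rw [Finset.mem_filter, Finset.mem_powerset]
  have h1 : ∀ i ∈ F, x i = decide (i ∈ F.filter (fun i => x i = true)) := by
    intro i hi
    simp only [Finset.mem_filter, hi, true_and]
    cases x i <;> simp
  rw [hA x _ h1]
  exact ⟨fun h => ⟨Finset.filter_subset _ _, h⟩, fun h => h.2⟩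

lemma mu_pats {I : Type*} [DecidableEq I] (F : Finset I) (A : Set (I → Bool))
    (hA : ∀ x y : I → Bool, (∀ i ∈ F, x i = y i) → (x ∈ A ↔ y ∈ A)) :
    mu I A = ((pats F A).card : ℝ≥0∞) * (1 / 2) ^ F.card := by
  classical
  have h1 : A = ⋃ p ∈ pats F A, cyl F p := by
    ext x
    rw [mem_iff_pats F A hA x]
    simp only [Set.mem_iUnion, mem_cyl, exists_prop]
    constructor
    · intro h
      refine ⟨_, h, fun i hi => ?_⟩
      simp only [Finset.mem_filter, hi, true_and]
      cases x i <;> simp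
    · rintro ⟨p, hp, hx⟩
      have hpF : p ⊆ F := Finset.mem_powerset.1 (Finset.mem_filter.1 hp).1
      have : F.filter (fun i => x i = true) = p := by
        ext i
        rw [Finset.mem_filter]
        constructor
        · rintro ⟨hi, h⟩
          rw [hx i hi] at h
          exact of_decide_eq_true h
        · intro hi
          exact ⟨hpF hi, by rw [hx i (hpF hi)]; exact decide_eq_true hi⟩
      rw [this]; exact hp
  conv_lhs => rw [h1]
  rw [measure_biUnion_finset]
  · simp only [mu_cylF]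
    rw [Finset.sum_const, nsmul_eq_mul]
  · intro p hp p' hp' hne
    rw [Function.onFun, Set.disjoint_left]
    intro x hx hx'
    rw [mem_cyl] at hx hx'
    apply hne
    have hpF : p ⊆ F := Finset.mem_powerset.1 (Finset.mem_filter.1 hp).1
    have hpF' : p' ⊆ F := Finset.mem_powerset.1 (Finset.mem_filter.1 hp').1
    ext i
    constructor
    · intro hi
      have h2 := (hx i (hpF hi)).symm.trans (hx' i (hpF hi))
      exact of_decide_eq_true (h2.symm.trans (decide_eq_true hi))
    · intro hi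
      have h2 := (hx i (hpF' hi)).symm.trans (hx' i (hpF' hi))
      exact of_decide_eq_true (h2.trans (decide_eq_true hi))
  · intro p _
    exact MeasurableSet.pi F.countable_toSet (fun i _ => MeasurableSet.singleton _)

/-- `W`-many null sets do not cover. -/
theorem cov {W I : Type} (hL : Loc W) (z : I → ℕ → Bool) (hz : Function.Injective z)
    (N : W → Set (I → Bool)) (hN : ∀ w, MeasurableSet (N w)) (h0 : ∀ w, mu I (N w) = 0) :
    ∃ x, ∀ w, x ∉ N w := by
  classical
  choose A hA1 hA2 hA3 using fun w => nullCover (N w) (hN w) (h0 w)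
  choose F hF using hA1
  have hcard : ∀ w n, mu I (A w n) = ((pats (F w n) (A w n)).card : ℝ≥0∞) * (1 / 2) ^ (F w n).card :=
    fun w n => mu_pats (F w n) (A w n) (hF w n)
  obtain ⟨x, hx⟩ := null_avoid hL z hz F (fun w n => pats (F w n) (A w n)) (by
    intro w
    have h1 := ENNReal.summable_toReal (hA2 w)
    refine h1.congr (fun n => ?_)
    rw [hcard, ENNReal.toReal_mul, ENNReal.toReal_natCast, ENNReal.toReal_pow]
    simp only [one_div, ENNReal.toReal_inv, ENNReal.toReal_ofNat, inv_pow]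
    rw [div_eq_mul_inv])
  refine ⟨x, fun w hxw => ?_⟩
  obtain ⟨n0, hn0⟩ := hx w
  have hfin : {n | x ∈ A w n}.Finite := by
    apply (Set.finite_lt_nat n0).subset
    intro n hn
    by_contra hge
    simp only [Set.mem_setOf_eq, not_lt] at hge
    apply hn0 n hge
    rw [← mem_iff_pats (F w n) (A w n) (hF w n) x]
    exact hn
  exact hA3 w x hxw hfin


/-- Transport of indices. -/
lemma exists_injection {W : Type} [Infinite W] (z : W → ℕ → Bool) (hz : Function.Injective z) :
    ∃ z' : ℕ × (W × ℕ) → ℕ → Bool, Function.Injective z' := by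
  obtain ⟨e⟩ : Nonempty (ℕ × (W × ℕ) ≃ W) := by
    rw [← Cardinal.eq]
    simp only [Cardinal.mk_prod, Cardinal.lift_id, Cardinal.mk_eq_aleph0]
    have h1 : Cardinal.aleph0 ≤ Cardinal.mk W := Cardinal.aleph0_le_mk W
    rw [Cardinal.mul_aleph0_eq h1, Cardinal.aleph0_mul_eq h1]
  exact ⟨fun a => z (e a), hz.comp e.injective⟩

lemma mu_slice {I : Type*} (k : ℕ) {B : Set (I → Bool)} (hB : MeasurableSet B) :
    mu (ℕ × I) {x | (fun i => x (k, i)) ∈ B} = mu I B := by
  have h1 : (mu (ℕ × I)).map (MeasurableEquiv.curry ℕ I Bool) =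
      Measure.infinitePi (fun _ : ℕ => mu I) :=
    Measure.infinitePi_map_curry (fun (_ : ℕ) (_ : I) => coin)
  have h2 : MeasurableSet ((Function.eval k) ⁻¹' B : Set (ℕ → I → Bool)) :=
    (measurable_pi_apply k) hB
  have h3 : (Measure.infinitePi (fun _ : ℕ => mu I)) ((Function.eval k) ⁻¹' B) = mu I B :=
    (measurePreserving_eval_infinitePi (fun _ : ℕ => mu I) k).measure_preimage hB.nullMeasurableSet
  rw [← h3, ← h1, Measure.map_apply (MeasurableEquiv.measurable _) h2]
  rfl

lemma mu_all_slices {I : Type*} {B : Set (I → Bool)} (hB : MeasurableSet B) (h : mu I B < 1) :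
    mu (ℕ × I) {x | ∀ k, (fun i => x (k, i)) ∈ B} = 0 := by
  have h1 : (mu (ℕ × I)).map (MeasurableEquiv.curry ℕ I Bool) =
      Measure.infinitePi (fun _ : ℕ => mu I) :=
    Measure.infinitePi_map_curry (fun (_ : ℕ) (_ : I) => coin)
  have h2 : MeasurableSet {x : ℕ → I → Bool | ∀ k, x k ∈ B} := by
    have : {x : ℕ → I → Bool | ∀ k, x k ∈ B} = ⋂ k, (Function.eval k) ⁻¹' B := by
      ext x; simp
    rw [this]
    exact MeasurableSet.iInter fun k => (measurable_pi_apply k) hB
  have h3 : (Measure.infinitePi (fun _ : ℕ => mu I)) {x : ℕ → I → Bool | ∀ k, x k ∈ B} = 0 := by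
    have hle : ∀ n : ℕ, (Measure.infinitePi (fun _ : ℕ => mu I))
        {x : ℕ → I → Bool | ∀ k, x k ∈ B} ≤ (mu I B) ^ n := by
      intro n
      have h4 : {x : ℕ → I → Bool | ∀ k, x k ∈ B} ⊆
          Set.pi (Finset.range n : Set ℕ) (fun _ => B) := by
        intro x hx k _
        exact hx k
      refine (measure_mono h4).trans ?_
      rw [Measure.infinitePi_pi _ (fun _ _ => hB), Finset.prod_const, Finset.card_range]
    have hlim : Tendsto (fun n : ℕ => (mu I B) ^ n) atTop (𝓝 0) :=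
      ENNReal.tendsto_pow_atTop_nhds_zero_of_lt_one h
    exact le_antisymm (ge_of_tendsto' hlim hle) bot_le
  have h5 : mu (ℕ × I) {x | ∀ k, (fun i => x (k, i)) ∈ B} =
      ((mu (ℕ × I)).map (MeasurableEquiv.curry ℕ I Bool)) {x : ℕ → I → Bool | ∀ k, x k ∈ B} := by
    rw [Measure.map_apply (MeasurableEquiv.measurable _) h2]
    rfl
  rw [h5, h1, h3]

theorem precal {W : Type} [LinearOrder W] [WellFoundedLT W]
    (hW : ∀ a : W, (Set.Iio a).Countable) (hW' : ¬ (Set.univ : Set W).Countable) (hL : Loc W)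
    (z : W → ℕ → Bool) (hz : Function.Injective z)
    {Ω : Type*} [MeasurableSpace Ω] (ν : Measure Ω)
    [IsProbabilityMeasure ν] (E : W → Set Ω) (hE : ∀ ξ, MeasurableSet (E ξ)) (X : Set W)
    (hX : ¬ X.Countable) (hpos : ∀ ξ ∈ X, ν (E ξ) ≠ 0) :
    ∃ X' ⊆ X, ¬ X'.Countable ∧ ∀ F : Finset W, (F : Set W) ⊆ X' → ν (⋂ ξ ∈ F, E ξ) ≠ 0 := by
  classical
  have hinf : Infinite W := by
    by_contra h
    rw [not_infinite_iff_finite] at h
    exact hW' (Set.toFinite _).countable
  obtain ⟨E', hE', hEE⟩ := noise hW ν E hE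
  obtain ⟨z', hz'⟩ := exists_injection z hz
  -- null sets
  let N1 : W → Set (ℕ × (W × ℕ) → Bool) := fun ξ =>
    if ξ ∈ X then {x | ∀ k, (fun i => x (k, i)) ∈ (E' ξ)ᶜ} else ∅
  let N2 : Finset W × ℕ → Set (ℕ × (W × ℕ) → Bool) := fun a =>
    if ν (⋂ ξ ∈ a.1, E ξ) = 0 then {x | (fun i => x (a.2, i)) ∈ ⋂ ξ ∈ a.1, E' ξ} else ∅
  have hmeasE : ∀ F : Finset W, MeasurableSet (⋂ ξ ∈ F, E' ξ) := fun F =>
    Finset.measurableSet_biInter F (fun ξ _ => hE' ξ)
  have hslice : ∀ (k : ℕ) (B : Set (W × ℕ → Bool)), MeasurableSet B →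
      MeasurableSet {x : ℕ × (W × ℕ) → Bool | (fun i => x (k, i)) ∈ B} := by
    intro k B hB
    have : Measurable (fun x : ℕ × (W × ℕ) → Bool => (fun i => x (k, i))) := by
      fun_prop
    exact this hB
  have hN1 : ∀ ξ, MeasurableSet (N1 ξ) ∧ mu _ (N1 ξ) = 0 := by
    intro ξ
    simp only [N1]
    split_ifs with h
    · constructor
      · have : {x : ℕ × (W × ℕ) → Bool | ∀ k, (fun i => x (k, i)) ∈ (E' ξ)ᶜ} =
            ⋂ k, {x | (fun i => x (k, i)) ∈ (E' ξ)ᶜ} := by ext x; simp
        rw [this]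
        exact MeasurableSet.iInter fun k => hslice k _ (hE' ξ).compl
      · apply mu_all_slices (hE' ξ).compl
        have h1 := hEE {ξ}
        simp only [Finset.mem_singleton, Set.iInter_iInter_eq_left] at h1
        rw [prob_compl_eq_one_sub (hE' ξ), h1]
        exact ENNReal.sub_lt_self (by simp) (by simp) (hpos ξ h)
    · exact ⟨MeasurableSet.empty, measure_empty⟩
  have hN2 : ∀ a, MeasurableSet (N2 a) ∧ mu _ (N2 a) = 0 := by
    intro a
    simp only [N2]
    split_ifs with h
    · refine ⟨hslice a.2 _ (hmeasE a.1), ?_⟩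
      rw [mu_slice a.2 (hmeasE a.1), hEE, h]
    · exact ⟨MeasurableSet.empty, measure_empty⟩
  -- reindex
  obtain ⟨e⟩ : Nonempty (W ≃ W ⊕ (Finset W × ℕ)) := by
    rw [← Cardinal.eq]
    have h1 : Cardinal.aleph0 ≤ Cardinal.mk W := Cardinal.aleph0_le_mk W
    simp only [Cardinal.mk_sum, Cardinal.mk_prod, Cardinal.lift_id, Cardinal.mk_eq_aleph0,
      Cardinal.mk_finset_of_infinite]
    rw [Cardinal.mul_aleph0_eq h1, Cardinal.add_eq_self h1]
  obtain ⟨x, hx⟩ := cov hL z' hz' (fun w => Sum.elim N1 N2 (e w)) (by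
      intro w
      rcases e w with ξ | a
      · exact (hN1 ξ).1
      · exact (hN2 a).1) (by
      intro w
      rcases e w with ξ | a
      · exact (hN1 ξ).2
      · exact (hN2 a).2)
  have hx1 : ∀ ξ, x ∉ N1 ξ := by
    intro ξ
    have := hx (e.symm (Sum.inl ξ))
    rwa [Equiv.apply_symm_apply] at this
  have hx2 : ∀ a, x ∉ N2 a := by
    intro a
    have := hx (e.symm (Sum.inr a))
    rwa [Equiv.apply_symm_apply] at this
  have h1 : ∀ ξ, ∃ k, ξ ∈ X → (fun i => x (k, i)) ∈ E' ξ := by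
    intro ξ
    by_cases h : ξ ∈ X
    · have := hx1 ξ
      simp only [N1, if_pos h, Set.mem_setOf_eq, not_forall, Set.mem_compl_iff, not_not] at this
      obtain ⟨k, hk⟩ := this
      exact ⟨k, fun _ => hk⟩
    · exact ⟨0, fun h' => absurd h' h⟩
  choose k hk using h1
  have h2 : ∃ l, ¬ (X ∩ k ⁻¹' {l}).Countable := by
    by_contra hcon
    push Not at hcon
    apply hX
    have : X = ⋃ l, X ∩ k ⁻¹' {l} := by
      ext ξ; simp
    rw [this]
    exact Set.countable_iUnion hcon
  obtain ⟨l, hl⟩ := h2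
  refine ⟨X ∩ k ⁻¹' {l}, Set.inter_subset_left, hl, fun F hF h0 => ?_⟩
  apply hx2 (F, l)
  simp only [N2]
  rw [if_pos h0, Set.mem_setOf_eq, Set.mem_iInter₂]
  intro ξ hξ
  have h3 := hF hξ
  have h4 := hk ξ h3.1
  have h5 : k ξ = l := h3.2
  rwa [h5] at h4

end Pool.Agent.helper79.Tw
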