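import Pool.Agent.helper79.TwDer
import Pool.Agent.helper79.TwPC
import Pool.Agent.helper20.Tw.Skel
import Pool.Agent.helper20.Tw.Final
import Pool.Agent.helper20.Tw.Riesz

/-!
The final assembly for MP_9075ca_an.
-/

open MeasureTheory Topology Set Filter
open scoped ENNReal BoundedContinuousFunction ZeroAtInfty

universe u

namespace Pool.Agent.helper79.Tw

/-- The well-ordered set `ω₁`. -/
abbrev Wone : Type := (Cardinal.aleph 1).ord.ToType

lemma Wone_Iio (a : Wone) : (Set.Iio a).Countable := by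
  have h1 := Cardinal.mk_Iio_toType_ord_lt a
  rw [Cardinal.lt_aleph_one_iff] at h1
  exact Cardinal.le_aleph0_iff_set_countable.1 h1

lemma Wone_unc : ¬ (Set.univ : Set Wone).Countable := by
  intro h
  have h1 : Cardinal.mk (Set.univ : Set Wone) ≤ Cardinal.aleph0 :=
    Cardinal.le_aleph0_iff_set_countable.2 h
  rw [Cardinal.mk_univ, Cardinal.mk_ord_toType] at h1
  exact absurd h1 (not_le.2 Cardinal.aleph0_lt_aleph_one)

lemma Wone_inj : ∃ z : Wone → ℕ → Bool, Function.Injective z := by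
  have h1 : Cardinal.mk Wone ≤ Cardinal.mk (ℕ → Bool) := by
    rw [Cardinal.mk_ord_toType]
    have h2 : Cardinal.mk (ℕ → Bool) = Cardinal.continuum := by simp
    rw [h2]
    exact Cardinal.aleph_one_le_continuum
  obtain ⟨f⟩ := Cardinal.le_def _ _ |>.1 h1
  exact ⟨f, f.injective⟩

theorem NT_of_skel {W : Type} [LinearOrder W] [WellFoundedLT W]
    (hW : ∀ a : W, (Set.Iio a).Countable) (hW' : ¬ (Set.univ : Set W).Countable)
    (z : W → ℕ → Bool) (hz : Function.Injective z)
    {L : Type u} [TopologicalSpace L] [CompactSpace L] [T2Space L] (S : Skel W L) : NT L := by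
  classical
  by_contra hNT
  obtain ⟨O⟩ := exists_OpData S hW hW' z hz
  have hall : ∀ y g : W → ℕ → ℕ, ∃ T : C(L, ℝ) →L[ℝ] (ℕ →ᵇ ℝ), ∀ f, (f, T f) ∈ O.G y g := by
    intro y g
    by_contra hcon
    exact hNT ⟨O.G y g, O.G_closed y g hW hW', O.G_surj y g, O.G_zero y g, hcon⟩
  have hL : Loc W := O.loc hW hW' hall
  obtain ⟨m, X, hX, hm⟩ := O.exists_functional hW hW' hall
  letI : MeasurableSpace L := borel L
  haveI : BorelSpace L := ⟨rfl⟩
  obtain ⟨ν, hν, hdom⟩ := Pool.Agent.helper20.Tw.exists_measure m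
  haveI := hν
  -- the measure is nonzero
  have hint : ∀ ξ ∈ X, 1 / 2 < ∫ x, O.fp 0 ξ x ∂ν := by
    intro ξ hξ
    have h1 := hm ξ hξ
    have h2 := hdom (O.fp 0 ξ) (by
      intro x
      exact O.fp_nonneg 0 ξ x)
    exact h1.trans_le ((le_abs_self _).trans h2)
  have hXne : X.Nonempty := by
    rw [Set.nonempty_iff_ne_empty]
    rintro rfl
    exact hX Set.countable_empty
  have hν0 : ν Set.univ ≠ 0 := by
    intro h0
    obtain ⟨ξ, hξ⟩ := hXne
    have h1 := hint ξ hξ
    have h2 : ν = 0 := Measure.measure_univ_eq_zero.1 h0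
    rw [h2, integral_zero_measure] at h1
    norm_num at h1
  set c : ℝ := ν.real Set.univ with hc
  have hc0 : 0 ≤ c := measureReal_nonneg
  set δ : ℝ := 1 / (4 * (c + 1)) with hδ
  have hδ0 : 0 < δ := by positivity
  have hδc : δ * c ≤ 1 / 4 := by
    rw [hδ, div_mul_eq_mul_div, div_le_div_iff₀ (by positivity) (by norm_num)]
    nlinarith
  let E : W → Set L := fun ξ => {x | δ ≤ O.fp 0 ξ x}
  have hEc : ∀ ξ, IsClosed (E ξ) := fun ξ => isClosed_le continuous_const (O.fp 0 ξ).continuous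
  have hEpos : ∀ ξ ∈ X, ν (E ξ) ≠ 0 := by
    intro ξ hξ h0
    have h1 := hint ξ hξ
    have h2 : ∫ x, O.fp 0 ξ x ∂ν ≤ ∫ x, δ ∂ν := by
      apply integral_mono_ae
      · exact (O.fp 0 ξ).continuous.integrable_of_hasCompactSupport
          (HasCompactSupport.of_compactSpace _)
      · exact integrable_const _
      · have h3 : ∀ᵐ x ∂ν, x ∉ E ξ := by
          rw [ae_iff]
          simpa using h0
        filter_upwards [h3] with x hx
        simp only [E, Set.mem_setOf_eq, not_le] at hx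
        exact hx.le
    rw [integral_const, smul_eq_mul, mul_comm] at h2
    rw [← hc] at h2
    linarith
  -- normalise
  let ν' : Measure L := (ν Set.univ)⁻¹ • ν
  haveI : NeZero ν := ⟨by
    intro h
    rw [h] at hν0
    exact hν0 (by simp)⟩
  haveI : IsProbabilityMeasure ν' := isProbabilityMeasureSMul
  have hν'0 : ∀ A : Set L, ν A ≠ 0 → ν' A ≠ 0 := by
    intro A hA
    simp only [ν', Measure.smul_apply, smul_eq_mul]
    exact mul_ne_zero (ENNReal.inv_ne_zero.2 (measure_ne_top ν _)) hA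
  obtain ⟨X', hX'X, hX', hfin⟩ := precal hW hW' hL z hz ν' E (fun ξ => (hEc ξ).measurableSet) X hX
    (fun ξ hξ => hν'0 _ (hEpos ξ hξ))
  -- compactness
  have hne : (⋂ ξ : X', E ξ.1).Nonempty := by
    apply CompactSpace.iInter_nonempty (fun ξ : X' => hEc ξ.1)
    intro F
    have h1 := hfin (F.map (Function.Embedding.subtype _)) (by
      intro ξ hξ
      simp only [Finset.coe_map, Set.mem_image, Finset.mem_coe] at hξ
      obtain ⟨a, -, rfl⟩ := hξ
      exact a.2)
    have h2 := nonempty_of_measure_ne_zero h1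
    obtain ⟨x, hx⟩ := h2
    refine ⟨x, ?_⟩
    simp only [Set.mem_iInter] at hx ⊢
    intro a ha
    exact hx a.1 (Finset.mem_map.2 ⟨a, ha, rfl⟩)
  obtain ⟨x, hx⟩ := hne
  obtain ⟨η, hη⟩ := S.exh x
  have hex : ∃ ξ ∈ X', η ≤ ξ := by
    by_contra hcon
    push Not at hcon
    exact hX' ((hW η).mono hcon)
  obtain ⟨ξ, hξX, hξη⟩ := hex
  have h1 : S.r ξ x = x := by
    have := S.comp' η ξ hξη x
    rwa [hη] at this
  have h2 := O.fp_zero 0 ξ x h1
  have h3 : x ∈ E ξ := Set.mem_iInter.1 hx ⟨ξ, hξX⟩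
  simp only [E, Set.mem_setOf_eq, h2] at h3
  linarith

/-- **Main theorem.** -/
theorem main {K : Type u} [TopologicalSpace K] [CompactSpace K] [T2Space K] (hK : IsCorson K)
    (hm : ¬ TopologicalSpace.MetrizableSpace K) : NT K := by
  obtain ⟨z, hz⟩ := Wone_inj
  obtain ⟨L, _, _, _, i, ρ, h, ⟨S⟩⟩ :=
    Pool.Agent.helper20.Tw.exists_skel Wone_Iio Wone_unc hK hm
  exact Pool.Agent.helper20.Tw.NT_transfer i ρ h (NT_of_skel Wone_Iio Wone_unc z hz S)

end Pool.Agent.helper79.Tw
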