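import Pool.Agent.helper79.TwCore

/-!
From localization to avoiding `W`-many null sequences in `I → Bool`.
-/

open Set
open scoped BigOperators

namespace Pool.Agent.helper79.Tw

/-- Localization of `W`-indexed families of functions. -/
def Loc (W : Type) : Prop :=
  ∀ y : W → ℕ → ℕ, ∃ (C : ℕ) (S : ℕ → Finset ℕ), (∀ n, (S n).card ≤ C * (n + 1)) ∧
    ∀ ξ, ∃ n0, ∀ n ≥ n0, y ξ n ∈ S n

/-- Domination: monotone and at least the identity. -/
lemma Loc.dom {W : Type} (hL : Loc W) (y : W → ℕ → ℕ) :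
    ∃ g : ℕ → ℕ, Monotone g ∧ (∀ n, n ≤ g n) ∧ ∀ ξ, ∃ n0, ∀ n ≥ n0, y ξ n ≤ g n := by
  obtain ⟨C, S, -, hS⟩ := hL y
  refine ⟨fun n => n + ∑ k ∈ Finset.range (n + 1), (S k).sup id, ?_, ?_, ?_⟩
  · intro a b hab
    apply Nat.add_le_add hab
    apply Finset.sum_le_sum_of_subset
    intro x hx
    rw [Finset.mem_range] at hx ⊢
    omega
  · intro n; exact Nat.le_add_right _ _
  · intro ξ
    obtain ⟨n0, hn0⟩ := hS ξ
    refine ⟨n0, fun n hn => ?_⟩
    have h1 : y ξ n ≤ (S n).sup id := Finset.le_sup (f := id) (hn0 n hn)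
    have h2 : (S n).sup id ≤ ∑ k ∈ Finset.range (n + 1), (S k).sup id :=
      Finset.single_le_sum (f := fun k => (S k).sup id) (fun _ _ => Nat.zero_le _)
        (Finset.mem_range.2 (Nat.lt_succ_self n))
    exact h1.trans (h2.trans (Nat.le_add_left _ _))

/-- Counting lemma. -/
lemma card_filter_inter_le {I : Type*} [DecidableEq I] (P F : Finset I) (hF : F ⊆ P)
    (J : Finset (Finset I)) :
    ((P.powerset.filter (fun p => p ∩ F ∈ J)).card : ℝ) ≤ 2 ^ P.card * ((J.card : ℝ) / 2 ^ F.card) := by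
  have h1 : (P.powerset.filter (fun p => p ∩ F ∈ J)).card ≤ (J ×ˢ (P \ F).powerset).card := by
    apply Finset.card_le_card_of_injOn (fun p => (p ∩ F, p \ F))
    · intro p hp
      rw [Finset.coe_filter, Set.mem_setOf_eq, Finset.mem_powerset] at hp
      simp only [Finset.coe_product, Set.mem_prod, Finset.mem_coe, Finset.mem_powerset]
      exact ⟨hp.2, Finset.sdiff_subset_sdiff hp.1 (Finset.Subset.refl _)⟩
    · intro p hp p' hp' h
      simp only [Prod.mk.injEq] at h
      rw [← Finset.sdiff_union_inter p F, ← Finset.sdiff_union_inter p' F, h.1, h.2]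
  rw [Finset.card_product, Finset.card_powerset, Finset.card_sdiff_of_subset hF] at h1
  have h2 : ((P.powerset.filter (fun p => p ∩ F ∈ J)).card : ℝ) ≤ J.card * 2 ^ (P.card - F.card) := by
    exact_mod_cast h1
  refine h2.trans (le_of_eq ?_)
  have h3 : F.card ≤ P.card := Finset.card_le_card hF
  rw [pow_sub₀ _ (by norm_num) h3]
  field_simp


/-- The node of level `m` of a real. -/
def nd (z : ℕ → Bool) (m : ℕ) : Finset ℕ := (Finset.range m).filter (fun j => z j = true)

lemma nd_trunc (z : ℕ → Bool) {m l : ℕ} (h : m ≤ l) : (nd z l).filter (fun j => j < m) = nd z m := by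
  unfold nd
  ext j
  simp only [Finset.mem_filter, Finset.mem_range]
  constructor
  · rintro ⟨⟨_, h2⟩, h3⟩; exact ⟨h3, h2⟩
  · rintro ⟨h1, h2⟩; exact ⟨⟨lt_of_lt_of_le h1 h, h2⟩, h1⟩

lemma exists_sep {I : Type*} [DecidableEq I] (z : I → ℕ → Bool) (hz : Function.Injective z)
    (P : Finset I) : ∃ m, Set.InjOn (fun i => nd (z i) m) P := by
  classical
  have h : ∀ i j : I, ∃ n, i ≠ j → z i n ≠ z j n := by
    intro i j
    by_cases hij : i = j
    · exact ⟨0, fun h => absurd hij h⟩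
    · by_contra hcon
      push Not at hcon
      exact hij (hz (funext fun n => (hcon n).2))
  choose n hn using h
  refine ⟨(P ×ˢ P).sup (fun a => n a.1 a.2 + 1), ?_⟩
  intro i hi j hj hij
  by_contra hne
  have h1 := hn i j hne
  have h2 : n i j < (P ×ˢ P).sup (fun a => n a.1 a.2 + 1) := by
    have : n i j + 1 ≤ (P ×ˢ P).sup (fun a => n a.1 a.2 + 1) :=
      Finset.le_sup (f := fun a : I × I => n a.1 a.2 + 1) (b := (i, j))
        (Finset.mem_product.2 ⟨hi, hj⟩)
    omega
  apply h1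
  simp only at hij
  have h3 : (n i j ∈ nd (z i) ((P ×ˢ P).sup (fun a => n a.1 a.2 + 1))) ↔
      (n i j ∈ nd (z j) ((P ×ˢ P).sup (fun a => n a.1 a.2 + 1))) := by rw [hij]
  unfold nd at h3
  simp only [Finset.mem_filter, Finset.mem_range, h2, true_and] at h3
  exact Bool.eq_iff_iff.2 h3

/-- parameters -/
def stp (Γ : ℕ → ℕ) : ℕ → ℕ × ℕ
  | 0 => (1, 0)
  | k + 1 =>
    ((stp Γ k).1 + 27 * (k + 2) ^ 2 * (k + 3) ^ 2 * (k + 4) ^ 2 + (k + 2) ^ 2 * (stp Γ k).2 + 1,
      (k + 2) ^ 2 * (stp Γ k).2 + (k + 2) ^ 2 *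
        Γ ((stp Γ k).1 + 27 * (k + 2) ^ 2 * (k + 3) ^ 2 * (k + 4) ^ 2 + (k + 2) ^ 2 * (stp Γ k).2 + 1))

def ee (Γ : ℕ → ℕ) : ℕ → ℕ
  | 0 => 0
  | k + 1 => (stp Γ k).1

lemma ee_succ (Γ : ℕ → ℕ) (k : ℕ) : ee Γ (k + 2) = ee Γ (k + 1) +
    27 * (k + 2) ^ 2 * (k + 3) ^ 2 * (k + 4) ^ 2 + (k + 2) ^ 2 * (stp Γ k).2 + 1 := rfl

lemma stp_succ (Γ : ℕ → ℕ) (k : ℕ) : (stp Γ (k + 1)).2 =
    (k + 2) ^ 2 * (stp Γ k).2 + (k + 2) ^ 2 * Γ (ee Γ (k + 2)) := rfl

lemma ee_lt (Γ : ℕ → ℕ) (k : ℕ) : ee Γ k < ee Γ (k + 1) := by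
  cases k with
  | zero => show 0 < 1; norm_num
  | succ k => rw [ee_succ]; omega

lemma ee_strictMono (Γ : ℕ → ℕ) : StrictMono (ee Γ) := strictMono_nat_of_lt_succ (ee_lt Γ)

lemma num_ok (Γ : ℕ → ℕ) (k : ℕ) :
    27 * (((k + 1 + 1) ^ 2 : ℕ) : ℝ) * ((k + 2 + 1) ^ 2 : ℕ) * ((k + 3 + 1) ^ 2 : ℕ) *
    (2 ^ ((k + 1 + 1) ^ 2 * (stp Γ k).2) * (1 / 2 : ℝ) ^ (ee Γ (k + 3))) < 1 := by
  have h1 : 27 * (k + 2) ^ 2 * (k + 3) ^ 2 * (k + 4) ^ 2 + (k + 2) ^ 2 * (stp Γ k).2 ≤
      ee Γ (k + 3) := by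
    have : ee Γ (k + 2) < ee Γ (k + 3) := ee_lt Γ (k + 2)
    rw [ee_succ] at this
    omega
  set a := 27 * (k + 2) ^ 2 * (k + 3) ^ 2 * (k + 4) ^ 2 with ha
  set b := (k + 2) ^ 2 * (stp Γ k).2 with hb
  have h2 : ((1 / 2 : ℝ)) ^ (ee Γ (k + 3)) ≤ (1 / 2) ^ (a + b) :=
    pow_le_pow_of_le_one (by norm_num) (by norm_num) h1
  have h3 : (a : ℝ) < 2 ^ a := by exact_mod_cast Nat.lt_two_pow_self
  have e1 : 27 * (((k + 1 + 1) ^ 2 : ℕ) : ℝ) * ((k + 2 + 1) ^ 2 : ℕ) * ((k + 3 + 1) ^ 2 : ℕ) = (a : ℝ) := by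
    rw [ha]; push_cast; ring
  rw [e1]
  have e3 : (1 / 2 : ℝ) ^ (a + b) = 1 / (2 ^ a * 2 ^ b) := by
    rw [one_div_pow, pow_add]
  calc (a : ℝ) * (2 ^ b * (1 / 2 : ℝ) ^ (ee Γ (k + 3)))
      ≤ (a : ℝ) * (2 ^ b * (1 / 2) ^ (a + b)) := by gcongr
    _ = (a : ℝ) / 2 ^ a := by rw [e3]; field_simp
    _ < 1 := by rw [div_lt_one (by positivity)]; exact h3


theorem null_avoid {W I : Type} [DecidableEq I] (hL : Loc W) (z : I → ℕ → Bool)
    (hz : Function.Injective z) (F : W → ℕ → Finset I) (J : W → ℕ → Finset (Finset I))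
    (hsum : ∀ β, Summable (fun n => ((J β n).card : ℝ) / 2 ^ (F β n).card)) :
    ∃ x : I → Bool, ∀ β, ∃ n0, ∀ n ≥ n0, (F β n).filter (fun i => x i = true) ∉ J β n := by
  classical
  set f : W → ℕ → ℝ := fun β n => ((J β n).card : ℝ) / 2 ^ (F β n).card with hf
  -- tails
  have tail : ∀ β k, ∃ m, ∀ A : Finset ℕ, (∀ n ∈ A, m ≤ n) → ∑ n ∈ A, f β n ≤ (1 / 2) ^ k := by
    intro β k
    have h1 := (summable_iff_vanishing_norm.1 (hsum β)) ((1 / 2 : ℝ) ^ k) (by positivity)
    obtain ⟨s, hs⟩ := h1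
    refine ⟨s.sup id + 1, fun A hA => ?_⟩
    have hd : Disjoint A s := by
      rw [Finset.disjoint_left]
      intro a ha has
      have h2 := hA a ha
      have h3 : a ≤ s.sup id := Finset.le_sup (f := id) has
      omega
    exact (le_abs_self _).trans (hs A hd).le
  choose m hm using tail
  obtain ⟨K, Kmono, Kge, hK⟩ := hL.dom m
  set U : W → ℕ → Finset I := fun β l => (Finset.range l).biUnion (F β) with hU
  have Umono : ∀ β, Monotone (U β) := by
    intro β a b hab
    apply Finset.biUnion_subset_biUnion_of_subset_left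
    intro x hx
    rw [Finset.mem_range] at hx ⊢
    omega
  obtain ⟨Γ, Γmono, Γge, hΓ⟩ := hL.dom (fun β e => (U β (K e)).card)
  set e := ee Γ with he
  have emono : StrictMono e := ee_strictMono Γ
  set P : W → ℕ → Finset I := fun β k => U β (K (e (k + 1))) with hP
  set D : W → ℕ → Finset (Finset I) := fun β k => (P β k).powerset.filter
    (fun p => ∃ n ∈ Finset.Ico (K (e k)) (K (e (k + 1))), p ∩ F β n ∈ J β n) with hD
  have memD : ∀ β k p, p ∈ D β k ↔ (p ⊆ P β k ∧
      ∃ n ∈ Finset.Ico (K (e k)) (K (e (k + 1))), p ∩ F β n ∈ J β n) := by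
    intro β k p
    simp only [hD]
    simp
  have Pmono : ∀ β, Monotone (P β) := by
    intro β a b hab
    exact Umono β (Kmono (emono.monotone (by omega)))
  -- sizes
  have hsize : ∀ β, ∃ k0, ∀ k ≥ k0, (P β k).card ≤ Γ (e (k + 1)) := by
    intro β
    obtain ⟨k0, hk0⟩ := hΓ β
    refine ⟨k0, fun k hk => hk0 (e (k + 1)) ?_⟩
    have := emono.id_le (k + 1)
    simp only [id] at this
    omega
  have hDsize : ∀ β, ∃ k0, ∀ k ≥ k0, ((D β k).card : ℝ) ≤ (1 / 2) ^ (e k) * 2 ^ (P β k).card := by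
    intro β
    obtain ⟨k0, hk0⟩ := hK β
    refine ⟨k0, fun k hk => ?_⟩
    have h1 : k ≤ e k := emono.id_le k
    have h2 := hk0 (e k) (by omega)
    have h3 := hm β (e k) (Finset.Ico (K (e k)) (K (e (k + 1)))) (fun n hn =>
      h2.trans (Finset.mem_Ico.1 hn).1)
    have h4 : D β k ⊆ (Finset.Ico (K (e k)) (K (e (k + 1)))).biUnion
        (fun n => (P β k).powerset.filter (fun p => p ∩ F β n ∈ J β n)) := by
      intro p hp
      rw [memD] at hp
      obtain ⟨hp1, n, hn, hp2⟩ := hp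
      rw [Finset.mem_biUnion]
      exact ⟨n, hn, Finset.mem_filter.2 ⟨Finset.mem_powerset.2 hp1, hp2⟩⟩
    calc ((D β k).card : ℝ) ≤ (((Finset.Ico (K (e k)) (K (e (k + 1)))).biUnion
        (fun n => (P β k).powerset.filter (fun p => p ∩ F β n ∈ J β n))).card : ℝ) := by
          exact_mod_cast Finset.card_le_card h4
      _ ≤ ∑ n ∈ Finset.Ico (K (e k)) (K (e (k + 1))),
          (((P β k).powerset.filter (fun p => p ∩ F β n ∈ J β n)).card : ℝ) := by
          exact_mod_cast Finset.card_biUnion_le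
      _ ≤ ∑ n ∈ Finset.Ico (K (e k)) (K (e (k + 1))), 2 ^ (P β k).card * f β n := by
          apply Finset.sum_le_sum
          intro n hn
          apply card_filter_inter_le
          rw [hP, hU]
          exact Finset.subset_biUnion_of_mem (F β) (Finset.mem_range.2 (Finset.mem_Ico.1 hn).2)
      _ = 2 ^ (P β k).card * ∑ n ∈ Finset.Ico (K (e k)) (K (e (k + 1))), f β n := by
          rw [Finset.mul_sum]
      _ ≤ 2 ^ (P β k).card * (1 / 2) ^ (e k) := by
          apply mul_le_mul_of_nonneg_left h3 (by positivity)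
      _ = _ := by ring
  -- levels
  have hlev : ∀ β k, ∃ l, Set.InjOn (fun i => nd (z i) l) (P β (k + 2)) :=
    fun β k => exists_sep z hz _
  choose lam hlam using hlev
  obtain ⟨l, lmono, lge, hl⟩ := hL.dom lam
  set node : ℕ → I → Finset ℕ := fun k i => nd (z i) (l k) with hnode
  have hlinj : ∀ β, ∃ k0, ∀ k ≥ k0, Set.InjOn (node k) (P β (k + 2)) := by
    intro β
    obtain ⟨k0, hk0⟩ := hl β
    refine ⟨k0, fun k hk i hi j hj hij => ?_⟩
    apply hlam β k hi hj
    simp only [hnode] at hij ⊢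
    rw [← nd_trunc (z i) (hk0 k hk), ← nd_trunc (z j) (hk0 k hk), hij]
  -- validity
  set Val : ℕ → W → Prop := fun k β => Set.InjOn (node k) (P β (k + 2)) ∧
    (P β k).card ≤ Γ (e (k + 1)) ∧
    ((D β (k + 2)).card : ℝ) ≤ (1 / 2) ^ (e (k + 2)) * 2 ^ (P β (k + 2)).card with hVal
  have hValev : ∀ β, ∃ k0, ∀ k ≥ k0, Val k β := by
    intro β
    obtain ⟨k1, hk1⟩ := hlinj β
    obtain ⟨k2, hk2⟩ := hsize β
    obtain ⟨k3, hk3⟩ := hDsize β
    exact ⟨k1 + k2 + k3, fun k hk => ⟨hk1 k (by omega), hk2 k (by omega), hk3 _ (by omega)⟩⟩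
  -- codes
  let code : W → ℕ → Bool × (Fin 3 → Finset (Finset ℕ) × Finset (Finset (Finset ℕ))) :=
    fun β k => (decide (Val k β), fun r => ((P β (k + r)).image (node k),
      (D β (k + r)).image (fun p => p.image (node k))))
  obtain ⟨enc, henc⟩ := exists_injective_nat
    (List (Bool × (Fin 3 → Finset (Finset ℕ) × Finset (Finset (Finset ℕ)))))
  let y : W → ℕ → ℕ := fun β k => enc ((List.range (k + 1)).map (code β))
  let rel : ℕ → W → W → Prop := fun k α β => ∀ j ≤ k, code α j = code β j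
  have hyrel : ∀ k α β, y α k = y β k → rel k α β := by
    intro k α β h j hj
    have h1 := henc h
    rw [List.map_inj_left] at h1
    exact h1 j (List.mem_range.2 (by omega))
  obtain ⟨C, S, hSc, hS⟩ := hL y
  have hpick : ∀ k v, ∃ α : Option W, (∃ β, Val k β ∧ y β k = v) →
      ∃ β, α = some β ∧ Val k β ∧ y β k = v := by
    intro k v
    by_cases h : ∃ β, Val k β ∧ y β k = v
    · obtain ⟨β, hβ⟩ := h
      exact ⟨some β, fun _ => ⟨β, rfl, hβ⟩⟩
    · exact ⟨none, fun h' => absurd h' h⟩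
  choose pick hpick using hpick
  let T : ℕ → Finset W := fun k => if k ≤ C then ∅ else
    (((S k).filter (fun v => ∃ β, Val k β ∧ y β k = v)).biUnion
      (fun v => (pick k v).toFinset))
  let 𝒟 : CoreData I (Finset ℕ) W :=
    { node := node
      tr := fun k d => d.filter (fun j => j < l k)
      htr := fun k i => nd_trunc (z i) (lmono (Nat.le_succ k))
      P := P
      D := D
      hPmono := fun β k => Pmono β (Nat.le_succ k)
      hD := fun β k p hp => ((memD β k p).1 hp).1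
      Val := Val
      ε := fun k => (1 / 2) ^ (e k)
      γ := fun k => Γ (e (k + 1))
      h := fun k => (k + 1) ^ 2
      H := fun k => (stp Γ k).2
      hε := fun k => by positivity
      hh := fun k => Nat.one_le_pow _ _ (Nat.succ_pos k)
      hV1 := fun k β h => h.1
      hV2 := fun k β h => h.2.1
      hV3 := fun k β h => h.2.2
      rel := rel
      hrel_refl := fun k α j _ => rfl
      hrel_symm := fun k α β h j hj => (h j hj).symm
      hrel_trans := fun k α β δ h h' j hj => (h j hj).trans (h' j hj)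
      hrel1 := fun k α β h j hj => h j (hj.trans (Nat.le_succ k))
      hrelV := fun k α β h hV => by
        have h1 := congrArg Prod.fst (h k le_rfl)
        simp only [code] at h1
        have h2 : decide (Val k α) = true := decide_eq_true hV
        rw [h2] at h1
        exact of_decide_eq_true h1.symm
      hrelP := fun k α β h r hr => by
        have h1 := congrArg Prod.snd (h k le_rfl)
        have h2 := congrFun h1 ⟨r, by omega⟩
        exact congrArg Prod.fst h2
      hrelD := fun k α β h r hr => by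
        have h1 := congrArg Prod.snd (h k le_rfl)
        have h2 := congrFun h1 ⟨r, by omega⟩
        exact congrArg Prod.snd h2
      T := T
      hT0 := by simp [T]
      hTc := by
        intro k
        simp only [T]
        split_ifs with hk
        · simp
        · calc _ ≤ ∑ v ∈ (S k).filter (fun v => ∃ β, Val k β ∧ y β k = v),
                (pick k v).toFinset.card := Finset.card_biUnion_le
            _ ≤ ∑ v ∈ (S k).filter (fun v => ∃ β, Val k β ∧ y β k = v), 1 := by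
                apply Finset.sum_le_sum
                intro v _
                cases pick k v <;> simp
            _ ≤ (S k).card := by
                rw [Finset.sum_const, smul_eq_mul, mul_one]
                exact Finset.card_filter_le _ _
            _ ≤ C * (k + 1) := hSc k
            _ ≤ (k + 1) ^ 2 := by
                rw [pow_two]
                exact Nat.mul_le_mul_right _ (by omega)
      hTV := by
        intro k α hα
        simp only [T] at hα
        split_ifs at hα with hk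
        · simp at hα
        · rw [Finset.mem_biUnion] at hα
          obtain ⟨v, hv, hα⟩ := hα
          obtain ⟨β, hβ, hβV, -⟩ := hpick k v (Finset.mem_filter.1 hv).2
          rw [hβ] at hα
          simp only [Option.toFinset_some, Finset.mem_singleton] at hα
          rw [hα]; exact hβV
      hH := fun k => by
        show (k + 1 + 1) ^ 2 * (stp Γ k).2 + (k + 1 + 1) ^ 2 * Γ (e (k + 1 + 1)) ≤ (stp Γ (k + 1)).2
        rw [stp_succ]
      hnum := fun k => num_ok Γ k }
  have hcap : ∀ β, ∃ k0, ∀ k ≥ k0, 𝒟.Rep k β := by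
    intro β
    obtain ⟨k1, hk1⟩ := hValev β
    obtain ⟨k2, hk2⟩ := hS β
    refine ⟨k1 + k2 + C + 1, fun k hk => ⟨hk1 k (by omega), ?_⟩⟩
    have h1 : ∃ β', Val k β' ∧ y β' k = y β k := ⟨β, hk1 k (by omega), rfl⟩
    obtain ⟨α, hα1, hα2, hα3⟩ := hpick k (y β k) h1
    refine ⟨α, ?_, hyrel k α β hα3⟩
    show α ∈ T k
    simp only [T]
    rw [if_neg (by omega), Finset.mem_biUnion]
    exact ⟨y β k, Finset.mem_filter.2 ⟨hk2 k (by omega), h1⟩, by rw [hα1]; simp⟩
  obtain ⟨x, hx⟩ := 𝒟.avoid hcap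
  refine ⟨x, fun β => ?_⟩
  obtain ⟨k0, hk0⟩ := hx β
  refine ⟨K (e k0), fun n hn hmem => ?_⟩
  -- find the group of n
  have hex : ∃ k, n < K (e (k + 1)) := by
    refine ⟨n, ?_⟩
    have h1 : n + 1 ≤ e (n + 1) := emono.id_le (n + 1)
    have h2 := Kge (e (n + 1))
    omega
  have hspec := Nat.find_spec hex
  have hmin : K (e (Nat.find hex)) ≤ n := by
    by_cases h0 : Nat.find hex = 0
    · rw [h0]
      refine le_trans (Kmono (emono.monotone (Nat.zero_le k0))) hn
    · obtain ⟨j, hj⟩ := Nat.exists_eq_succ_of_ne_zero h0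
      have := Nat.find_min hex (m := j) (by omega)
      rw [hj]
      push Not at this
      exact this
  have hk : k0 ≤ Nat.find hex := by
    by_contra hlt
    push Not at hlt
    have h1 : K (e (Nat.find hex + 1)) ≤ K (e k0) := Kmono (emono.monotone (by omega))
    omega
  apply hk0 (Nat.find hex) hk
  show (P β (Nat.find hex)).filter (fun i => x i = true) ∈ D β (Nat.find hex)
  rw [memD]
  refine ⟨Finset.filter_subset _ _, n, Finset.mem_Ico.2 ⟨hmin, hspec⟩, ?_⟩
  have hsub : F β n ⊆ P β (Nat.find hex) :=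
    Finset.subset_biUnion_of_mem (F β) (Finset.mem_range.2 hspec)
  have : (P β (Nat.find hex)).filter (fun i => x i = true) ∩ F β n =
      (F β n).filter (fun i => x i = true) := by
    ext i
    simp only [Finset.mem_inter, Finset.mem_filter]
    constructor
    · rintro ⟨⟨_, h2⟩, h3⟩; exact ⟨h3, h2⟩
    · rintro ⟨h1, h2⟩; exact ⟨⟨hsub h1, h2⟩, h1⟩
  rw [this]
  exact hmem

end Pool.Agent.helper79.Tw
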