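import Pool.Agent.helper79.TwBase

/-!
Interfaces, part 2: operators into `ℓ∞ / c₀` without a lifting, as closed subspaces of
`C(K) × ℓ∞`.
-/

open MeasureTheory Topology Set Filter
open scoped ENNReal BoundedContinuousFunction

namespace Pool.Agent.helper79.Tw

/-- There is a bounded operator from `C(K)` into `ℓ∞ / c₀` without a bounded lifting to `ℓ∞`
(written as a closed subspace of `C(K) × ℓ∞`). -/
def NT (K : Type*) [TopologicalSpace K] [CompactSpace K] : Prop :=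
  ∃ G : Submodule ℝ (C(K, ℝ) × (ℕ →ᵇ ℝ)), IsClosed (G : Set (C(K, ℝ) × (ℕ →ᵇ ℝ))) ∧
    (∀ f, ∃ g, (f, g) ∈ G) ∧
    (∀ g : ℕ →ᵇ ℝ, (0, g) ∈ G ↔ Tendsto g atTop (𝓝 0)) ∧
    ¬ ∃ T : C(K, ℝ) →L[ℝ] (ℕ →ᵇ ℝ), ∀ f, (f, T f) ∈ G

end Pool.Agent.helper79.Tw
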