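import Pool.Agent.helper79.TwBig
import Pool.Agent.helper79.TwCoh
import Pool.Agent.helper79.TwStmt
import Pool.Agent.helper79.TwNull

/-!
The operators into `ℓ∞ / c₀`.
-/

open Set Topology Filter
open scoped BoundedContinuousFunction

namespace Pool.Agent.helper79.Tw

/-- Fixed data for the operators. -/
structure OpData {W : Type} [LinearOrder W] {L : Type*} [TopologicalSpace L] [CompactSpace L]
    (S : Skel W L) where
  E : W → ℕ → Finset W
  E_lt : ∀ α n, ∀ ξ ∈ E α n, ξ < α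
  E_coh : ∀ α β, α < β → ∃ n0, ∀ n ≥ n0, (E β n).filter (fun ξ => ξ < α) = E α n
  E_mem : ∀ α ξ, ξ < α → ∃ n0, ∀ n ≥ n0, ξ ∈ E α n
  E_card : ∀ α n, (E α n).card ≤ n
  xp : ℕ → W → L
  fp : ℕ → W → C(L, ℝ)
  fp_nonneg : ∀ j ξ x, 0 ≤ fp j ξ x
  fp_le : ∀ j ξ x, fp j ξ x ≤ 1
  fp_xp : ∀ j ξ, fp j ξ (xp j ξ) = 1
  fp_zero : ∀ j ξ x, S.r ξ x = x → fp j ξ x = 0
  fp_disj : ∀ j j', j ≠ j' → ∀ ξ ξ' x, fp j ξ x = 0 ∨ fp j' ξ' x = 0

theorem exists_OpData {W : Type} [LinearOrder W] [WellFoundedLT W] {L : Type*}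
    [TopologicalSpace L] [CompactSpace L] [T2Space L] (S : Skel W L)
    (hW : ∀ a : W, (Set.Iio a).Countable) (hW' : ¬ (Set.univ : Set W).Countable)
    (z : W → ℕ → Bool) (hz : Function.Injective z) : Nonempty (OpData S) := by
  classical
  obtain ⟨E, h1, h2, h3, h4⟩ := exists_coh hW
  obtain ⟨U, hU1, hU2, hU3⟩ := S.exists_regions hW hW' z hz
  have hx : ∀ j ξ, ∃ x ∈ U j, S.r ξ x ≠ x := by
    intro j ξ
    by_contra hcon
    push Not at hcon
    exact hU2 j ⟨ξ, hcon⟩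
  choose xp hxU hxr using hx
  have hf : ∀ j ξ, ∃ f : C(L, ℝ), EqOn f 0 ((U j)ᶜ ∪ {x | S.r ξ x = x}) ∧ EqOn f 1 {xp j ξ} ∧
      ∀ x, f x ∈ Set.Icc (0 : ℝ) 1 := by
    intro j ξ
    apply exists_continuous_zero_one_of_isClosed
    · exact ((hU1 j).isClosed_compl).union (isClosed_eq (S.cont ξ) continuous_id)
    · exact isClosed_singleton
    · rw [Set.disjoint_singleton_right]
      rintro (h | h)
      · exact h (hxU j ξ)
      · exact hxr j ξ h
  choose fp hf0 hf1 hf2 using hf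
  exact ⟨{ E := E, E_lt := h1, E_coh := h2, E_mem := h3, E_card := h4, xp := xp, fp := fp
           fp_nonneg := fun j ξ x => (hf2 j ξ x).1
           fp_le := fun j ξ x => (hf2 j ξ x).2
           fp_xp := fun j ξ => hf1 j ξ rfl
           fp_zero := fun j ξ x hx => hf0 j ξ (Or.inr hx)
           fp_disj := by
             intro j j' hjj ξ ξ' x
             by_cases hx : x ∈ U j
             · right
               apply hf0 j' ξ'
               left
               intro hx'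
               exact Set.disjoint_left.1 (hU3 hjj) hx hx'
             · left
               exact hf0 j ξ (Or.inl hx) }⟩

/-- index type -/
abbrev Idx := ℕ × ℕ × List ℕ

/-- decoding of natural numbers -/
noncomputable def dc : ℕ ≃ Idx := (Denumerable.eqv Idx).symm

lemma dc_eventually {F : Set Idx} (hF : F.Finite) : ∀ᶠ k in atTop, dc k ∉ F := by
  have h1 : (dc ⁻¹' F).Finite := hF.preimage dc.injective.injOn
  rw [← Nat.cofinite_eq_atTop]
  exact h1.eventually_cofinite_notMem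

namespace OpData

variable {W : Type} [LinearOrder W] {L : Type*} [TopologicalSpace L] [CompactSpace L]
  {S : Skel W L} (O : OpData S) (y g : W → ℕ → ℕ)

/-- `δ_x - δ_{r x}` -/
def th (j : ℕ) (ξ : W) (f : C(L, ℝ)) : ℝ := f (O.xp j ξ) - f (S.r ξ (O.xp j ξ))

/-- the condition -/
def Cond (α : W) (i : Idx) (ξ : W) : Prop :=
  ξ ∈ O.E α i.1 ∧ ((O.E α i.1).filter (fun η => η < ξ)).card = i.2.1 ∧ y ξ i.1 ∈ i.2.2 ∧
    (∀ v ∈ i.2.2, v ≤ g ξ i.1) ∧ i.2.2.length ≤ i.1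

lemma Cond_unique {α : W} {i : Idx} {ξ ξ' : W} (h : O.Cond y g α i ξ) (h' : O.Cond y g α i ξ') :
    ξ = ξ' := by
  by_contra hne
  have key : ∀ a b : W, a ∈ O.E α i.1 → a < b →
      ((O.E α i.1).filter (fun η => η < a)).card < ((O.E α i.1).filter (fun η => η < b)).card := by
    intro a b ha hab
    apply Finset.card_lt_card
    rw [Finset.ssubset_iff_of_subset]
    · exact ⟨a, Finset.mem_filter.2 ⟨ha, hab⟩, by simp⟩
    · intro x hx
      rw [Finset.mem_filter] at hx ⊢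
      exact ⟨hx.1, hx.2.trans hab⟩
  rcases lt_or_gt_of_ne hne with hlt | hlt
  · have := key ξ ξ' h.1 hlt
    rw [h.2.1, h'.2.1] at this
    exact lt_irrefl _ this
  · have := key ξ' ξ h'.1 hlt
    rw [h.2.1, h'.2.1] at this
    exact lt_irrefl _ this

open Classical in
/-- the local operators -/
noncomputable def Tl (α : W) (f : C(L, ℝ)) (i : Idx) : ℝ :=
  if h : ∃ ξ, O.Cond y g α i ξ then O.th (i.2.2.idxOf (y h.choose i.1)) h.choose f else 0

lemma Tl_eq {α : W} {i : Idx} {ξ : W} (h : O.Cond y g α i ξ) (f : C(L, ℝ)) :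
    O.Tl y g α f i = O.th (i.2.2.idxOf (y ξ i.1)) ξ f := by
  have hex : ∃ ξ, O.Cond y g α i ξ := ⟨ξ, h⟩
  have h1 : hex.choose = ξ := O.Cond_unique y g hex.choose_spec h
  unfold Tl
  rw [dif_pos hex, h1]

lemma Tl_zero' {α : W} {i : Idx} (h : ¬ ∃ ξ, O.Cond y g α i ξ) (f : C(L, ℝ)) :
    O.Tl y g α f i = 0 := by
  unfold Tl
  rw [dif_neg h]

lemma Tl_add (α : W) (f f' : C(L, ℝ)) (i : Idx) :
    O.Tl y g α (f + f') i = O.Tl y g α f i + O.Tl y g α f' i := by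
  unfold Tl
  split_ifs
  · simp only [th, ContinuousMap.add_apply]; ring
  · simp

lemma Tl_smul (α : W) (c : ℝ) (f : C(L, ℝ)) (i : Idx) :
    O.Tl y g α (c • f) i = c * O.Tl y g α f i := by
  unfold Tl
  split_ifs
  · simp only [th, ContinuousMap.smul_apply, smul_eq_mul]; ring
  · simp

lemma Tl_sub (α : W) (f f' : C(L, ℝ)) (i : Idx) :
    O.Tl y g α (f - f') i = O.Tl y g α f i - O.Tl y g α f' i := by
  unfold Tl
  split_ifs
  · simp only [th, ContinuousMap.sub_apply]; ring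
  · simp

lemma Tl_bound (α : W) (f : C(L, ℝ)) (i : Idx) : |O.Tl y g α f i| ≤ 2 * ‖f‖ := by
  unfold Tl
  split_ifs
  · unfold th
    have h1 := ContinuousMap.norm_coe_le_norm f
    have h2 := fun x => abs_le.1 (h1 x)
    rw [abs_le]
    constructor
    · have a1 := (h2 (O.xp (i.2.2.idxOf (y (Exists.choose ‹_›) i.1)) (Exists.choose ‹_›))).1
      have a2 := (h2 (S.r (Exists.choose ‹_›)
        (O.xp (i.2.2.idxOf (y (Exists.choose ‹_›) i.1)) (Exists.choose ‹_›)))).2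
      linarith
    · have a1 := (h2 (O.xp (i.2.2.idxOf (y (Exists.choose ‹_›) i.1)) (Exists.choose ‹_›))).2
      have a2 := (h2 (S.r (Exists.choose ‹_›)
        (O.xp (i.2.2.idxOf (y (Exists.choose ‹_›) i.1)) (Exists.choose ‹_›)))).1
      linarith
  · simp [norm_nonneg]


lemma finite_lists (N B : ℕ) : {a : List ℕ | a.length ≤ N ∧ ∀ v ∈ a, v ≤ B}.Finite := by
  apply ((List.finite_length_le (Fin (B + 1)) N).image (List.map (fun v : Fin (B + 1) => (v : ℕ)))).subset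
  rintro a ⟨ha, hv⟩
  refine ⟨a.pmap (fun v (hv : v ≤ B) => (⟨v, by omega⟩ : Fin (B + 1))) hv, ?_, ?_⟩
  · simpa using ha
  · rw [List.map_pmap]
    simp

lemma fin_cond (α : W) (n0 : ℕ) : {i : Idx | i.1 < n0 ∧ ∃ ξ, O.Cond y g α i ξ}.Finite := by
  classical
  set B : ℕ := (Finset.range n0).sup (fun n => (O.E α n).sup (fun ξ => g ξ n)) with hB
  apply ((Set.finite_lt_nat n0).prod ((Set.finite_lt_nat n0).prod (finite_lists n0 B))).subset
  rintro ⟨n, c, a⟩ ⟨hn, ξ, h1, h2, h3, h4, h5⟩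
  simp only at hn h1 h2 h3 h4 h5
  refine ⟨hn, ?_, ?_, ?_⟩
  · show c < n0
    have := Finset.card_filter_le (O.E α n) (fun η => η < ξ)
    have := O.E_card α n
    omega
  · show a.length ≤ n0
    omega
  · intro v hv
    refine (h4 v hv).trans ?_
    have e1 : g ξ n ≤ (O.E α n).sup (fun ξ => g ξ n) := Finset.le_sup (f := fun ξ => g ξ n) h1
    have e2 : (O.E α n).sup (fun ξ => g ξ n) ≤ B :=
      Finset.le_sup (f := fun n => (O.E α n).sup (fun ξ => g ξ n)) (Finset.mem_range.2 hn)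
    exact e1.trans e2

lemma th_zero {α ξ : W} (h : α ≤ ξ) (j : ℕ) (f : C(L, ℝ)) (hf : ∀ x, f (S.r α x) = f x) :
    O.th j ξ f = 0 := by
  unfold th
  rw [← hf (S.r ξ _), S.comp α ξ h, hf, sub_self]

lemma Tl_indep {α β : W} (h : α < β) (f : C(L, ℝ)) (hf : ∀ x, f (S.r α x) = f x) :
    {i : Idx | O.Tl y g α f i ≠ O.Tl y g β f i}.Finite := by
  classical
  obtain ⟨n0, hn0⟩ := O.E_coh α β h
  apply ((O.fin_cond y g α n0).union (O.fin_cond y g β n0)).subset
  intro i hi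
  by_contra hnot
  rw [Set.mem_union, not_or] at hnot
  apply hi
  have rank : ∀ ξ < α, n0 ≤ i.1 → ((O.E β i.1).filter (fun η => η < ξ)) =
      ((O.E α i.1).filter (fun η => η < ξ)) := by
    intro ξ hξ hn
    rw [← hn0 i.1 hn, Finset.filter_filter]
    apply Finset.filter_congr
    intro η _
    exact ⟨fun h => ⟨h.trans hξ, h⟩, fun h => h.2⟩
  have htrans : ∀ ξ, n0 ≤ i.1 → O.Cond y g α i ξ → O.Cond y g β i ξ := by
    intro ξ hn hc
    have hlt := O.E_lt α i.1 ξ hc.1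
    refine ⟨?_, ?_, hc.2.2⟩
    · have := hc.1
      rw [← hn0 i.1 hn] at this
      exact (Finset.mem_filter.1 this).1
    · rw [rank ξ hlt hn]; exact hc.2.1
  by_cases hn : i.1 < n0
  · have h1 : ¬ ∃ ξ, O.Cond y g α i ξ := fun h => hnot.1 ⟨hn, h⟩
    have h2 : ¬ ∃ ξ, O.Cond y g β i ξ := fun h => hnot.2 ⟨hn, h⟩
    rw [O.Tl_zero' y g h1, O.Tl_zero' y g h2]
  · push Not at hn
    by_cases hex : ∃ ξ, O.Cond y g β i ξ
    · obtain ⟨ξ, hξ⟩ := hex
      rcases lt_or_ge ξ α with hlt | hge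
      · have hc : O.Cond y g α i ξ := by
          refine ⟨?_, ?_, hξ.2.2⟩
          · rw [← hn0 i.1 hn]
            exact Finset.mem_filter.2 ⟨hξ.1, hlt⟩
          · rw [← rank ξ hlt hn]; exact hξ.2.1
        rw [O.Tl_eq y g hc, O.Tl_eq y g hξ]
      · rw [O.Tl_eq y g hξ, O.th_zero hge _ f hf]
        apply O.Tl_zero' y g
        rintro ⟨ξ', hξ'⟩
        have := O.Cond_unique y g (htrans ξ' hn hξ') hξ
        have h3 := O.E_lt α i.1 ξ' hξ'.1
        rw [this] at h3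
        exact absurd h3 (not_lt.2 hge)
    · have h1 : ¬ ∃ ξ, O.Cond y g α i ξ := fun ⟨ξ, hξ⟩ => hex ⟨ξ, htrans ξ hn hξ⟩
      rw [O.Tl_zero' y g h1, O.Tl_zero' y g hex]

lemma Tl_indep' {α β : W} (h : α ≤ β) (f : C(L, ℝ)) (hf : ∀ x, f (S.r α x) = f x) :
    ∀ᶠ k in atTop, O.Tl y g α f (dc k) = O.Tl y g β f (dc k) := by
  rcases h.lt_or_eq with h | h
  · have := dc_eventually (O.Tl_indep y g h f hf)
    filter_upwards [this] with k hk
    by_contra hne
    exact hk hne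
  · subst h
    exact Eventually.of_forall fun _ => rfl

lemma fn_mono {α β : W} (h : α ≤ β) (f : C(L, ℝ)) (hf : ∀ x, f (S.r α x) = f x) :
    ∀ x, f (S.r β x) = f x := by
  intro x
  rw [← hf (S.r β x), S.comp α β h, hf]

/-- the relation defining the operator -/
def Rel (f : C(L, ℝ)) (v : ℕ →ᵇ ℝ) : Prop :=
  ∃ α, (∀ x, f (S.r α x) = f x) ∧ Tendsto (fun k => v k - O.Tl y g α f (dc k)) atTop (𝓝 0)

lemma Rel.up {f : C(L, ℝ)} {v : ℕ →ᵇ ℝ} {α β : W} (h : α ≤ β)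
    (hf : ∀ x, f (S.r α x) = f x)
    (ht : Tendsto (fun k => v k - O.Tl y g α f (dc k)) atTop (𝓝 0)) :
    Tendsto (fun k => v k - O.Tl y g β f (dc k)) atTop (𝓝 0) := by
  apply ht.congr'
  filter_upwards [O.Tl_indep' y g h f hf] with k hk
  rw [hk]

lemma Rel.down {f : C(L, ℝ)} {v : ℕ →ᵇ ℝ} {α β : W} (h : α ≤ β)
    (hf : ∀ x, f (S.r α x) = f x)
    (ht : Tendsto (fun k => v k - O.Tl y g β f (dc k)) atTop (𝓝 0)) :
    Tendsto (fun k => v k - O.Tl y g α f (dc k)) atTop (𝓝 0) := by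
  apply ht.congr'
  filter_upwards [O.Tl_indep' y g h f hf] with k hk
  rw [hk]

/-- the subspace `{(f, v) : v ∈ T f}` -/
def G : Submodule ℝ (C(L, ℝ) × (ℕ →ᵇ ℝ)) where
  carrier := {p | O.Rel y g p.1 p.2}
  add_mem' := by
    rintro ⟨f, v⟩ ⟨f', v'⟩ ⟨α, hα, ht⟩ ⟨α', hα', ht'⟩
    simp only at hα ht hα' ht'
    have h1 := Rel.up O y g (le_max_left α α') hα ht
    have h2 := Rel.up O y g (le_max_right α α') hα' ht'
    refine ⟨max α α', ?_, ?_⟩
    · intro x
      simp only [Prod.mk_add_mk, ContinuousMap.add_apply]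
      rw [fn_mono (le_max_left α α') f hα, fn_mono (le_max_right α α') f' hα']
    · have h3 := h1.add h2
      rw [add_zero] at h3
      refine h3.congr (fun k => ?_)
      simp only [Prod.mk_add_mk, BoundedContinuousFunction.coe_add, Pi.add_apply]
      rw [O.Tl_add]
      ring
  zero_mem' := by
    obtain ⟨α, hα⟩ := S.fn 0
    refine ⟨α, hα, ?_⟩
    have : (fun k => ((0 : C(L, ℝ) × (ℕ →ᵇ ℝ)).2 k) - O.Tl y g α (0 : C(L, ℝ) × (ℕ →ᵇ ℝ)).1 (dc k)) =
        fun _ => 0 := by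
      funext k
      have h1 : O.Tl y g α (0 : C(L, ℝ)) (dc k) = 0 := by
        have := O.Tl_smul y g α 0 0 (dc k)
        rwa [zero_smul, zero_mul] at this
      simp only [Prod.snd_zero, Prod.fst_zero, BoundedContinuousFunction.coe_zero, Pi.zero_apply,
        h1, sub_zero]
    rw [this]
    exact tendsto_const_nhds
  smul_mem' := by
    rintro c ⟨f, v⟩ ⟨α, hα, ht⟩
    simp only at hα ht
    refine ⟨α, ?_, ?_⟩
    · intro x
      simp only [Prod.smul_mk, ContinuousMap.smul_apply, smul_eq_mul]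
      rw [hα]
    · have h3 := ht.const_mul c
      rw [mul_zero] at h3
      refine h3.congr (fun k => ?_)
      simp only [Prod.smul_mk, BoundedContinuousFunction.coe_smul, smul_eq_mul]
      rw [O.Tl_smul]
      ring

lemma mem_G (f : C(L, ℝ)) (v : ℕ →ᵇ ℝ) : (f, v) ∈ O.G y g ↔ O.Rel y g f v := Iff.rfl

lemma G_zero (v : ℕ →ᵇ ℝ) : ((0 : C(L, ℝ)), v) ∈ O.G y g ↔ Tendsto v atTop (𝓝 0) := by
  rw [mem_G]
  have h1 : ∀ α i, O.Tl y g α (0 : C(L, ℝ)) i = 0 := by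
    intro α i
    have := O.Tl_smul y g α 0 0 i
    rwa [zero_smul, zero_mul] at this
  constructor
  · rintro ⟨α, -, ht⟩
    refine ht.congr (fun k => ?_)
    rw [h1, sub_zero]
  · intro h
    obtain ⟨α, hα⟩ := S.fn 0
    refine ⟨α, hα, h.congr (fun k => ?_)⟩
    rw [h1, sub_zero]

lemma G_surj (f : C(L, ℝ)) : ∃ v, (f, v) ∈ O.G y g := by
  obtain ⟨α, hα⟩ := S.fn f
  let v : ℕ →ᵇ ℝ := BoundedContinuousFunction.ofNormedAddCommGroupDiscrete
    (fun k => O.Tl y g α f (dc k)) (2 * ‖f‖) (fun k => O.Tl_bound y g α f (dc k))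
  refine ⟨v, α, hα, ?_⟩
  have : (fun k => v k - O.Tl y g α f (dc k)) = fun _ => 0 := by
    funext k
    show O.Tl y g α f (dc k) - O.Tl y g α f (dc k) = 0
    rw [sub_self]
  rw [this]
  exact tendsto_const_nhds

lemma G_closed (hW : ∀ a : W, (Set.Iio a).Countable) (hW' : ¬ (Set.univ : Set W).Countable) :
    IsClosed (O.G y g : Set (C(L, ℝ) × (ℕ →ᵇ ℝ))) := by
  apply isClosed_of_closure_subset
  intro p hp
  obtain ⟨s, hs, hlim⟩ := mem_closure_iff_seq_limit.1 hp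
  have hs' : ∀ m, O.Rel y g (s m).1 (s m).2 := hs
  choose a ha ht using hs'
  obtain ⟨α0, hα0⟩ := S.fn p.1
  obtain ⟨b, hb⟩ := exists_bound_seq hW hW' a
  set β := max α0 b with hβ
  have ht' : ∀ m, Tendsto (fun k => (s m).2 k - O.Tl y g β (s m).1 (dc k)) atTop (𝓝 0) := fun m =>
    Rel.up O y g ((hb m).trans (le_max_right _ _)) (ha m) (ht m)
  refine ⟨β, fn_mono (le_max_left _ _) p.1 hα0, ?_⟩
  rw [Metric.tendsto_atTop]
  intro ε hε
  have hl1 : Tendsto (fun m => ‖(s m).1 - p.1‖) atTop (𝓝 0) := by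
    have := (Prod.tendsto_iff s p).1 hlim |>.1
    exact tendsto_iff_norm_sub_tendsto_zero.1 this
  have hl2 : Tendsto (fun m => ‖(s m).2 - p.2‖) atTop (𝓝 0) := by
    have := (Prod.tendsto_iff s p).1 hlim |>.2
    exact tendsto_iff_norm_sub_tendsto_zero.1 this
  obtain ⟨m, hm1, hm2⟩ := ((hl1.eventually (gt_mem_nhds (show (0 : ℝ) < ε / 6 by positivity))).and
    (hl2.eventually (gt_mem_nhds (show (0 : ℝ) < ε / 3 by positivity)))).exists
  obtain ⟨N, hN⟩ := Metric.tendsto_atTop.1 (ht' m) (ε / 3) (by positivity)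
  refine ⟨N, fun k hk => ?_⟩
  have h1 := hN k hk
  rw [Real.dist_eq, sub_zero] at h1 ⊢
  have h2 : |(s m).2 k - p.2 k| ≤ ‖(s m).2 - p.2‖ := by
    have := BoundedContinuousFunction.norm_coe_le_norm ((s m).2 - p.2) k
    simpa [Real.norm_eq_abs] using this
  have h3 : |O.Tl y g β (s m).1 (dc k) - O.Tl y g β p.1 (dc k)| ≤ 2 * ‖(s m).1 - p.1‖ := by
    rw [← O.Tl_sub]; exact O.Tl_bound y g β _ _
  have h4 := abs_lt.1 h1
  have h5 := abs_le.1 h2
  have h6 := abs_le.1 h3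
  rw [abs_lt]
  constructor <;> linarith [h4.1, h4.2, h5.1, h5.2, h6.1, h6.2]


/-- Key fact on a lifting. -/
lemma key_fact (hW : ∀ a : W, (Set.Iio a).Countable) (hW' : ¬ (Set.univ : Set W).Countable)
    (T : C(L, ℝ) →L[ℝ] (ℕ →ᵇ ℝ)) (hT : ∀ f, (f, T f) ∈ O.G y g) (j : ℕ) (ξ : W) :
    ∃ k0, ∀ n ≥ k0, ∀ a : List ℕ, a.length ≤ n → (∀ v ∈ a, v ≤ g ξ n) → y ξ n ∈ a →
      a.idxOf (y ξ n) = j → 1 / 2 < T (O.fp j ξ) (dc.symm (n, (O.E ξ n).card, a)) := by
  classical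
  obtain ⟨α, hα, ht⟩ := hT (O.fp j ξ)
  simp only at hα ht
  -- an index above ξ and α
  have hup : ∃ β, ξ < β ∧ α ≤ β := by
    obtain ⟨b, hb⟩ : ∃ b, ξ < b := by
      by_contra hcon
      push Not at hcon
      apply hW'
      have : (Set.univ : Set W) ⊆ Set.Iio ξ ∪ {ξ} := by
        intro b _
        rcases (hcon b).lt_or_eq with h | h
        · exact Or.inl h
        · exact Or.inr h
      exact ((hW ξ).union (Set.countable_singleton ξ)).mono this
    exact ⟨max α b, lt_of_lt_of_le hb (le_max_right _ _), le_max_left _ _⟩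
  obtain ⟨β, hξβ, hαβ⟩ := hup
  have ht2 := Rel.up O y g hαβ hα ht
  have hev : ∀ᶠ k in atTop, |T (O.fp j ξ) k - O.Tl y g β (O.fp j ξ) (dc k)| < 1 / 2 := by
    have := (Metric.tendsto_atTop.1 ht2) (1 / 2) (by norm_num)
    obtain ⟨N, hN⟩ := this
    filter_upwards [eventually_ge_atTop N] with k hk
    have := hN k hk
    rwa [Real.dist_eq, sub_zero] at this
  rw [← Nat.cofinite_eq_atTop, eventually_cofinite] at hev
  -- bound on the first coordinate of exceptional indices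
  obtain ⟨B, hB⟩ : ∃ B, ∀ k, ¬ |T (O.fp j ξ) k - O.Tl y g β (O.fp j ξ) (dc k)| < 1 / 2 →
      (dc k).1 < B := by
    have h1 := hev.image (fun k => (dc k).1)
    obtain ⟨B, hB⟩ := h1.bddAbove
    refine ⟨B + 1, fun k hk => ?_⟩
    have := hB (Set.mem_image_of_mem (fun k => (dc k).1) hk)
    omega
  obtain ⟨n1, hn1⟩ := O.E_coh ξ β hξβ
  obtain ⟨n2, hn2⟩ := O.E_mem β ξ hξβ
  refine ⟨B + n1 + n2, fun n hn a ha1 ha2 ha3 ha4 => ?_⟩
  set i : Idx := (n, (O.E ξ n).card, a) with hi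
  have hc : O.Cond y g β i ξ := by
    refine ⟨hn2 n (by omega), ?_, ha3, ha2, ha1⟩
    show ((O.E β n).filter (fun η => η < ξ)).card = (O.E ξ n).card
    rw [hn1 n (by omega)]
  have h1 : |T (O.fp j ξ) (dc.symm i) - O.Tl y g β (O.fp j ξ) (dc (dc.symm i))| < 1 / 2 := by
    by_contra hcon
    have := hB _ hcon
    rw [Equiv.apply_symm_apply] at this
    simp only [hi] at this
    omega
  rw [Equiv.apply_symm_apply, O.Tl_eq y g hc] at h1
  have h2 : O.th (i.2.2.idxOf (y ξ i.1)) ξ (O.fp j ξ) = 1 := by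
    have : i.2.2.idxOf (y ξ i.1) = j := ha4
    rw [this]
    unfold th
    have hz : O.fp j ξ (S.r ξ (O.xp j ξ)) = 0 := by
      apply O.fp_zero
      exact S.comp ξ ξ le_rfl _
    rw [O.fp_xp, hz, sub_zero]
  rw [h2] at h1
  have := (abs_lt.1 h1).1
  linarith

/-- At most `2 R` disjoint test functions have a big value. -/
lemma claims_bound (m : C(L, ℝ) → ℝ) (hadd : ∀ (t : Finset ℕ) (φ : ℕ → C(L, ℝ)),
    m (∑ j ∈ t, φ j) = ∑ j ∈ t, m (φ j)) (R : ℝ) (hR0 : 0 ≤ R) (hR : ∀ f, |m f| ≤ R * ‖f‖)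
    (t : Finset ℕ) (ξ : ℕ → W) (h : ∀ j ∈ t, 1 / 2 < m (O.fp j (ξ j))) :
    (t.card : ℝ) ≤ 2 * R := by
  classical
  have h1 : ‖∑ j ∈ t, O.fp j (ξ j)‖ ≤ 1 := by
    rw [ContinuousMap.norm_le _ zero_le_one]
    intro x
    rw [ContinuousMap.sum_apply, Real.norm_eq_abs, abs_of_nonneg
      (Finset.sum_nonneg fun j _ => O.fp_nonneg j (ξ j) x)]
    by_cases hex : ∃ j ∈ t, O.fp j (ξ j) x ≠ 0
    · obtain ⟨j, hj, hjx⟩ := hex
      rw [Finset.sum_eq_single_of_mem j hj]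
      · exact O.fp_le j (ξ j) x
      · intro j' _ hne
        rcases O.fp_disj j' j hne (ξ j') (ξ j) x with h | h
        · exact h
        · exact absurd h hjx
    · push Not at hex
      rw [Finset.sum_eq_zero hex]
      exact zero_le_one
  have h2 : m (∑ j ∈ t, O.fp j (ξ j)) ≤ R := by
    have := (le_abs_self _).trans (hR (∑ j ∈ t, O.fp j (ξ j)))
    have h3 : R * ‖∑ j ∈ t, O.fp j (ξ j)‖ ≤ R * 1 := mul_le_mul_of_nonneg_left h1 hR0
    linarith
  rw [hadd] at h2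
  have h3 : ∑ j ∈ t, (1 / 2 : ℝ) ≤ ∑ j ∈ t, m (O.fp j (ξ j)) :=
    Finset.sum_le_sum fun j hj => (h j hj).le
  rw [Finset.sum_const, nsmul_eq_mul] at h3
  linarith

end OpData

end Pool.Agent.helper79.Tw
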